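import Mathlib
import Pool.Agent.H461R3.Jacobi

/-! # The adjugates of the matrices which differ in few positions -/

set_option autoImplicit false

namespace Pool.Agent.W940.R

open Finset Polynomial

section Span

variable {K : Type*} [Field K] {n : Type*} [Fintype n] [DecidableEq n]

/-- `adj M` for an arbitrary `M` and an invertible `M₀` with inverse `G`. -/
theorem adjugate_eq (M M₀ G : Matrix n n K) (h1 : M₀ * G = 1) (h2 : G * M₀ = 1) :
    M.adjugate = M.det • G + G * ((M - M₀) * M.adjugate * (M - M₀) - M.det • (M - M₀)) * G := by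
  have e1 : M.adjugate * M = M.det • (1 : Matrix n n K) := Matrix.adjugate_mul M
  have e2 : M * M.adjugate = M.det • (1 : Matrix n n K) := Matrix.mul_adjugate M
  have e3 : (M - M₀) * M.adjugate * (M - M₀) - M.det • (M - M₀)
      = M₀ * M.adjugate * M₀ - M.det • M₀ := by
    have : (M - M₀) * M.adjugate * (M - M₀) =
        M * M.adjugate * M - M * M.adjugate * M₀ - M₀ * (M.adjugate * M)
          + M₀ * M.adjugate * M₀ := by noncomm_ring
    rw [this, e1, e2]
    simp only [smul_mul_assoc, mul_smul_comm, one_mul, mul_one, smul_sub]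
    abel
  rw [e3, mul_sub, sub_mul]
  have e4 : G * (M₀ * M.adjugate * M₀) * G = M.adjugate := by
    calc G * (M₀ * M.adjugate * M₀) * G = (G * M₀) * M.adjugate * (M₀ * G) := by noncomm_ring
      _ = M.adjugate := by rw [h1, h2, one_mul, mul_one]
  have e5 : G * M.det • M₀ * G = M.det • G := by
    rw [mul_smul_comm, h2, smul_mul_assoc, one_mul]
  rw [e4, e5]
  abel

/-- a sandwich between two rank-one matrices -/
theorem vecMulVec_sandwich (B : Matrix n n K) (u v u' v' : n → K) :
    Matrix.vecMulVec u v * B * Matrix.vecMulVec u' v' =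
      (∑ k, ∑ l, v k * B k l * u' l) • Matrix.vecMulVec u v' := by
  ext i j
  simp only [Matrix.mul_apply, Matrix.vecMulVec_apply, Matrix.smul_apply, smul_eq_mul,
    Finset.sum_mul]
  rw [Finset.sum_comm]
  refine Finset.sum_congr rfl fun l _ => Finset.sum_congr rfl fun k _ => ?_
  ring

theorem exists_adjugate_span_aux {β : Type*} (L : Finset β) (u v : β → n → K)
    (M₀ : Matrix n n K) (hM₀ : IsUnit M₀.det)
    {Ξ : Type*} (M : Ξ → Matrix n n K) (z : Ξ → β → K)
    (hM : ∀ ξ, M ξ - M₀ = ∑ j ∈ L, z ξ j • Matrix.vecMulVec (u j) (v j)) :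
    ∃ A : Submodule K (Matrix n n K), Module.finrank K A ≤ L.card ^ 2 + 1 ∧
      ∀ ξ, (M ξ).adjugate ∈ A := by
  classical
  set G := M₀⁻¹ with hG
  have h1 : M₀ * G = 1 := Matrix.mul_nonsing_inv _ hM₀
  have h2 : G * M₀ = 1 := Matrix.nonsing_inv_mul _ hM₀
  let S : Finset (Matrix n n K) :=
    insert G ((L ×ˢ L).image (fun q => G * Matrix.vecMulVec (u q.1) (v q.2) * G))
  have hS : S.card ≤ L.card ^ 2 + 1 := by
    refine (Finset.card_insert_le _ _).trans ?_
    have := Finset.card_image_le (s := L ×ˢ L)
      (f := fun q => G * Matrix.vecMulVec (u q.1) (v q.2) * G)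
    rw [Finset.card_product] at this
    rw [pow_two]
    omega
  refine ⟨Submodule.span K (S : Set (Matrix n n K)), (finrank_span_finset_le_card S).trans hS, ?_⟩
  intro ξ
  have hGm : G ∈ Submodule.span K (S : Set (Matrix n n K)) :=
    Submodule.subset_span (by simp [S])
  have hmem : ∀ i ∈ L, ∀ j ∈ L, G * Matrix.vecMulVec (u i) (v j) * G ∈
      Submodule.span K (S : Set (Matrix n n K)) := by
    intro i hi j hj
    refine Submodule.subset_span ?_
    simp only [S, Finset.coe_insert, Set.mem_insert_iff, Finset.coe_image, Set.mem_image]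
    right
    exact ⟨(i, j), by simp [hi, hj], rfl⟩
  rw [adjugate_eq (M ξ) M₀ G h1 h2, hM ξ, mul_sub, sub_mul]
  refine Submodule.add_mem _ (Submodule.smul_mem _ _ hGm) (Submodule.sub_mem _ ?_ ?_)
  · rw [Finset.sum_mul, Finset.sum_mul, Finset.mul_sum, Finset.sum_mul]
    refine Submodule.sum_mem _ fun i hi => ?_
    rw [Finset.mul_sum, Finset.mul_sum, Finset.sum_mul]
    refine Submodule.sum_mem _ fun j hj => ?_
    rw [smul_mul_assoc, smul_mul_assoc, mul_smul_comm (z ξ j), vecMulVec_sandwich]
    simp only [mul_smul_comm, smul_mul_assoc]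
    exact Submodule.smul_mem _ _ (Submodule.smul_mem _ _ (Submodule.smul_mem _ _ (hmem i hi j hj)))
  · rw [mul_smul_comm, smul_mul_assoc]
    refine Submodule.smul_mem _ _ ?_
    rw [Finset.mul_sum, Finset.sum_mul]
    refine Submodule.sum_mem _ fun i hi => ?_
    rw [mul_smul_comm, smul_mul_assoc]
    exact Submodule.smul_mem _ _ (hmem i hi i hi)

/-- Vectors of polynomials whose values at `0` are linearly independent are linearly independent
over the field of rational functions. -/
theorem linearIndependent_of_eval {ι m : Type*} [Finite ι] (v : ι → m → K[X])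
    (h : LinearIndependent K (fun i => fun w => (v i w).eval 0)) :
    LinearIndependent (RatFunc K) (fun i => fun w => algebraMap K[X] (RatFunc K) (v i w)) := by
  classical
  have := Fintype.ofFinite ι
  -- over the polynomials
  have h1 : ∀ N : ℕ, ∀ p : ι → K[X], (∀ i, (p i).natDegree < N) → (∀ w, ∑ i, p i * v i w = 0) →
      ∀ i, p i = 0 := by
    intro N
    induction N with
    | zero => intro p hp; intro _ i; exact absurd (hp i) (by omega)
    | succ N ih =>
      intro p hp hs
      have h0 : ∀ i, (p i).eval 0 = 0 := by
        have h2 : ∑ i, (p i).eval 0 • (fun w => (v i w).eval 0) = 0 := by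
          funext w
          have := congrArg (Polynomial.eval 0) (hs w)
          rw [Polynomial.eval_finset_sum] at this
          simpa [Finset.sum_apply] using this
        exact Fintype.linearIndependent_iff.mp h _ h2
      have hX : ∀ i, X * (p i).divX = p i := by
        intro i
        have := Polynomial.divX_mul_X_add (p i)
        have hc : (p i).coeff 0 = 0 := by rw [Polynomial.coeff_zero_eq_eval_zero]; exact h0 i
        rw [hc, map_zero, add_zero] at this
        rw [mul_comm]; exact this
      have h3 : ∀ i, (p i).divX = 0 := by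
        by_cases hN : N = 0
        · intro i
          have h4 : (p i).natDegree = 0 := by have := hp i; omega
          have h5 := h0 i
          rw [Polynomial.eq_C_of_natDegree_eq_zero h4, Polynomial.eval_C] at h5
          rw [Polynomial.eq_C_of_natDegree_eq_zero h4, h5]
          simp
        · apply ih (fun i => (p i).divX)
          · intro i
            have := hp i
            rw [Polynomial.natDegree_divX_eq_natDegree_tsub_one]
            omega
          · intro w
            have h6 : X * ∑ i, (p i).divX * v i w = 0 := by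
              rw [Finset.mul_sum, ← hs w]
              refine Finset.sum_congr rfl fun i _ => ?_
              rw [← mul_assoc, hX i]
            rcases mul_eq_zero.mp h6 with h7 | h7
            · exact absurd h7 Polynomial.X_ne_zero
            · exact h7
      intro i
      rw [← hX i, h3 i, mul_zero]
  have h2 : LinearIndependent K[X] (fun i => fun w => algebraMap K[X] (RatFunc K) (v i w)) := by
    rw [Fintype.linearIndependent_iff]
    intro p hp i
    apply h1 ((Finset.univ.sup fun i => (p i).natDegree) + 1) p
    · intro j
      have := Finset.le_sup (f := fun i => (p i).natDegree) (Finset.mem_univ j)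
      exact Nat.lt_succ_of_le this
    · intro w
      have := congrFun hp w
      rw [Finset.sum_apply] at this
      apply RatFunc.algebraMap_injective K
      rw [map_sum, map_zero]
      simpa [Algebra.smul_def] using this
  exact (LinearIndependent.iff_fractionRing K[X] (RatFunc K)).mp h2

/-- The adjugates of matrices which differ by combinations of few rank-one matrices. -/
theorem exists_adjugate_span {β : Type*} (L : Finset β) (u v : β → n → K) {Ξ : Type*}
    (M : Ξ → Matrix n n K) (z : Ξ → Ξ → β → K)
    (hM : ∀ ξ ξ', M ξ - M ξ' = ∑ j ∈ L, z ξ ξ' j • Matrix.vecMulVec (u j) (v j)) :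
    ∃ A : Submodule K (Matrix n n K), Module.finrank K A ≤ L.card ^ 2 + 1 ∧
      ∀ ξ, (M ξ).adjugate ∈ A := by
  classical
  set A := Submodule.span K (Set.range fun ξ => (M ξ).adjugate) with hA
  refine ⟨A, ?_, fun ξ => Submodule.subset_span ⟨ξ, rfl⟩⟩
  rcases isEmpty_or_nonempty Ξ with hΞ | ⟨⟨ξ₀⟩⟩
  · have : A = ⊥ := by rw [hA, Set.range_eq_empty, Submodule.span_empty]
    rw [this]; simp
  obtain ⟨b, hbt, hbs, hbl⟩ := exists_linearIndependent K (Set.range fun ξ => (M ξ).adjugate)
  have hfin : Finite b := hbl.finite
  have := Fintype.ofFinite b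
  have hcard : Module.finrank K A = Fintype.card b := by
    rw [hA, ← hbs]
    have := finrank_span_eq_card hbl
    rw [Subtype.range_coe_subtype] at this
    simpa using this
  rw [hcard]
  have hch : ∀ w : b, ∃ ξ : Ξ, (M ξ).adjugate = (w : Matrix n n K) := fun w => hbt w.2
  choose η hη using hch
  -- the deformation
  let N : Ξ → Matrix n n K[X] := fun ξ => (M ξ).map C + (X : K[X]) • (1 : Matrix n n K[X])
  have hN0 : ∀ ξ, (N ξ).adjugate.map (Polynomial.eval 0) = (M ξ).adjugate := by
    intro ξ
    have h1 := RingHom.map_adjugate (Polynomial.evalRingHom (0 : K)) (N ξ)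
    have h2 : (Polynomial.evalRingHom (0 : K)).mapMatrix (N ξ) = M ξ := by
      ext i j
      simp [N]
    rw [h2] at h1
    rw [← h1]
    rfl
  have hdet : ∀ ξ, IsUnit ((N ξ).map (algebraMap K[X] (RatFunc K))).det := by
    intro ξ
    have h1 : (N ξ).det ≠ 0 := by
      have h2 : (N ξ).det = (-(M ξ)).charpoly := by
        rw [Matrix.charpoly, Matrix.charmatrix]
        congr 1
        ext i j
        simp [N, Matrix.scalar_apply, Matrix.one_apply, Matrix.diagonal_apply]
        ring
      rw [h2]
      exact (Matrix.charpoly_monic _).ne_zero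
    have h2 := RingHom.map_det (algebraMap K[X] (RatFunc K)) (N ξ)
    rw [isUnit_iff_ne_zero]
    intro h3
    apply h1
    apply RatFunc.algebraMap_injective K
    rw [map_zero, h2]
    exact h3
  obtain ⟨A', hA'1, hA'2⟩ := exists_adjugate_span_aux (K := RatFunc K) L
    (fun j a => RatFunc.C (u j a)) (fun j a => RatFunc.C (v j a))
    ((N ξ₀).map (algebraMap K[X] (RatFunc K))) (hdet ξ₀)
    (fun ξ => (N ξ).map (algebraMap K[X] (RatFunc K))) (fun ξ j => RatFunc.C (z ξ ξ₀ j)) (by
      intro ξ
      ext a b
      have h1 := congrArg (fun Q : Matrix n n K => RatFunc.C (Q a b)) (hM ξ ξ₀)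
      simp only [Matrix.sub_apply, map_sub, Matrix.sum_apply, map_sum, Matrix.smul_apply,
        smul_eq_mul, map_mul, Matrix.vecMulVec_apply] at h1
      simp only [N, Matrix.map_apply, Matrix.add_apply, map_add, Matrix.sub_apply,
        Matrix.sum_apply, Matrix.smul_apply, smul_eq_mul, Matrix.vecMulVec_apply]
      rw [← h1]
      simp only [RatFunc.algebraMap_C]
      ring)
  have hli : LinearIndependent (RatFunc K) (fun w : b => ((N (η w)).map
      (algebraMap K[X] (RatFunc K))).adjugate) := by
    have h1 : LinearIndependent K (fun w : b => fun q : n × n =>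
        ((N (η w)).adjugate q.1 q.2).eval 0) := by
      have h2 : (fun w : b => fun q : n × n => ((N (η w)).adjugate q.1 q.2).eval 0)
          = (fun w : b => (LinearEquiv.curry K K n n).symm (w : Matrix n n K)) := by
        funext w q
        have := congrFun (congrFun (hN0 (η w)) q.1) q.2
        rw [Matrix.map_apply] at this
        rw [this, hη w]
        rfl
      rw [h2]
      exact hbl.map' (LinearEquiv.curry K K n n).symm.toLinearMap (LinearEquiv.ker _)
    have h2 := linearIndependent_of_eval (fun w : b => fun q : n × n =>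
      (N (η w)).adjugate q.1 q.2) h1
    have h3 : (fun w : b => fun q : n × n => algebraMap K[X] (RatFunc K)
        ((N (η w)).adjugate q.1 q.2)) = (fun w : b =>
          (LinearEquiv.curry (RatFunc K) (RatFunc K) n n).symm ((N (η w)).map
            (algebraMap K[X] (RatFunc K))).adjugate) := by
      funext w q
      have := RingHom.map_adjugate (algebraMap K[X] (RatFunc K)) (N (η w))
      have h4 := congrFun (congrFun this q.1) q.2
      exact h4
    rw [h3] at h2
    exact h2.of_comp (LinearEquiv.curry (RatFunc K) (RatFunc K) n n).symm.toLinearMap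
  have h5 : Fintype.card b ≤ Module.finrank (RatFunc K) A' := by
    have h6 : LinearIndependent (RatFunc K) (fun w : b => (⟨((N (η w)).map
      (algebraMap K[X] (RatFunc K))).adjugate, hA'2 (η w)⟩ : A')) := by
      apply LinearIndependent.of_comp A'.subtype
      exact hli
    exact h6.fintype_card_le_finrank
  omega

end Span

end Pool.Agent.W940.R
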