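import Mathlib
import Pool.Agent.W940.R1

/-! # Families of jets -/

set_option autoImplicit false
set_option linter.unusedSectionVars false

namespace Pool.Agent.W940.R

open Finset

variable {K : Type*} [Field K] {ω : Type*} [Finite ω] {Ξ : Type*}

/-- the infinitesimal parts lie in `A + D` with `dim D ≤ d` -/
def Lin (A : Submodule K (ω → K)) (d : ℕ) (F : Ξ → TrivSqZeroExt K (ω → K)) : Prop :=
  ∃ D : Submodule K (ω → K), Module.finrank K D ≤ d ∧ ∀ ξ, (F ξ).snd ∈ A ⊔ D

/-- an affine image of a family with infinitesimal parts in `A + D`, `dim D ≤ d` -/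
def Aff (A : Submodule K (ω → K)) (d : ℕ) (F : Ξ → TrivSqZeroExt K (ω → K)) : Prop :=
  ∃ (c0 c1 : TrivSqZeroExt K (ω → K)) (a : Ξ → TrivSqZeroExt K (ω → K)), Lin A d a ∧
    ∀ ξ, F ξ = c0 + c1 * a ξ

/-- constant families -/
def Cst (F : Ξ → TrivSqZeroExt K (ω → K)) : Prop := ∀ ξ ξ', F ξ = F ξ'

variable {A : Submodule K (ω → K)}

lemma Lin.mono {d e : ℕ} (h : d ≤ e) {F : Ξ → TrivSqZeroExt K (ω → K)} (hF : Lin A d F) :
    Lin A e F := by
  obtain ⟨D, h1, h2⟩ := hF
  exact ⟨D, h1.trans h, h2⟩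

lemma Aff.mono {d e : ℕ} (h : d ≤ e) {F : Ξ → TrivSqZeroExt K (ω → K)} (hF : Aff A d F) :
    Aff A e F := by
  obtain ⟨c0, c1, a, h1, h2⟩ := hF
  exact ⟨c0, c1, a, h1.mono h, h2⟩

lemma Lin.aff {d : ℕ} {F : Ξ → TrivSqZeroExt K (ω → K)} (hF : Lin A d F) : Aff A d F :=
  ⟨0, 1, F, hF, fun ξ => by simp⟩

lemma snd_mul_mem {D : Submodule K (ω → K)} {x y : TrivSqZeroExt K (ω → K)} (hx : x.snd ∈ D)
    (hy : y.snd ∈ D) : (x * y).snd ∈ D := by
  rw [TrivSqZeroExt.snd_mul, op_smul_eq_smul]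
  exact D.add_mem (D.smul_mem _ hy) (D.smul_mem _ hx)

lemma Aff.lin {d : ℕ} {F : Ξ → TrivSqZeroExt K (ω → K)} (hF : Aff A d F) : Lin A (d + 2) F := by
  classical
  obtain ⟨c0, c1, a, ⟨D, hD, ha⟩, hF⟩ := hF
  let S : Finset (ω → K) := {c0.snd, c1.snd}
  have hS : S.card ≤ 2 := Finset.card_le_two
  have h0 : c0.snd ∈ A ⊔ (D ⊔ Submodule.span K (S : Set (ω → K))) :=
    Submodule.mem_sup_right (Submodule.mem_sup_right (Submodule.subset_span (by simp [S])))
  have h1 : c1.snd ∈ A ⊔ (D ⊔ Submodule.span K (S : Set (ω → K))) :=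
    Submodule.mem_sup_right (Submodule.mem_sup_right (Submodule.subset_span (by simp [S])))
  refine ⟨D ⊔ Submodule.span K (S : Set (ω → K)), ?_, ?_⟩
  · have h1 : Module.finrank K (Submodule.span K (S : Set (ω → K))) ≤ 2 :=
      le_trans (finrank_span_finset_le_card S) hS
    have h2 := Submodule.finrank_add_le_finrank_add_finrank D
      (Submodule.span K (S : Set (ω → K)))
    omega
  · intro ξ
    rw [hF ξ, TrivSqZeroExt.snd_add]
    refine Submodule.add_mem _ h0 (snd_mul_mem h1 ?_)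
    rw [← sup_assoc]
    exact Submodule.mem_sup_left (ha ξ)

lemma Aff.affine {d : ℕ} {F : Ξ → TrivSqZeroExt K (ω → K)} (hF : Aff A d F)
    (b0 b1 : TrivSqZeroExt K (ω → K)) : Aff A d (fun ξ => b0 + b1 * F ξ) := by
  obtain ⟨c0, c1, a, ha, hF⟩ := hF
  exact ⟨b0 + b1 * c0, b1 * c1, a, ha, fun ξ => by simp only [hF ξ]; ring⟩

lemma Cst.lin {F : Ξ → TrivSqZeroExt K (ω → K)} (hF : Cst F) : Lin A 1 F := by
  classical
  rcases isEmpty_or_nonempty Ξ with hΞ | ⟨⟨ξ₀⟩⟩
  · exact ⟨⊥, by simp, fun ξ => hΞ.elim ξ⟩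
  · refine ⟨Submodule.span K {(F ξ₀).snd}, ?_, ?_⟩
    · have := finrank_span_finset_le_card (R := K) ({(F ξ₀).snd} : Finset (ω → K))
      rw [Finset.coe_singleton, Finset.card_singleton] at this
      exact this
    · intro ξ
      rw [hF ξ ξ₀]
      exact Submodule.mem_sup_right (Submodule.mem_span_singleton_self _)

/-- finitely many families at once -/
lemma exists_of_family {β : Type*} (s : Finset β) (F : β → Ξ → TrivSqZeroExt K (ω → K))
    (d : β → ℕ) (h : ∀ b ∈ s, Lin A (d b) (F b)) :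
    ∃ D : Submodule K (ω → K), Module.finrank K D ≤ ∑ b ∈ s, d b ∧
      ∀ b ∈ s, ∀ ξ, (F b ξ).snd ∈ A ⊔ D := by
  classical
  induction s using Finset.induction_on with
  | empty => exact ⟨⊥, by simp, by simp⟩
  | insert b s hb ih =>
    obtain ⟨D, hD, hs⟩ := ih (fun b' hb' => h b' (Finset.mem_insert_of_mem hb'))
    obtain ⟨D', hD', hs'⟩ := h b (Finset.mem_insert_self _ _)
    refine ⟨D' ⊔ D, ?_, ?_⟩
    · have := Submodule.finrank_add_le_finrank_add_finrank D' D
      rw [Finset.sum_insert hb]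
      omega
    · intro b' hb' ξ
      rw [Finset.mem_insert] at hb'
      rcases hb' with rfl | hb'
      · have := hs' ξ
        exact (sup_le_sup_left le_sup_left A) this
      · exact (sup_le_sup_left le_sup_right A) (hs b' hb' ξ)

/-- the derivation `x ↦ ε (infinitesimal part of x)` -/
noncomputable def dsnd : Derivation K (TrivSqZeroExt K (ω → K)) (TrivSqZeroExt K (ω → K)) :=
  Derivation.mk'
    { toFun := fun x => TrivSqZeroExt.inr x.snd
      map_add' := by intro x y; simp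
      map_smul' := by intro c x; simp }
    (by
      intro x y
      apply TrivSqZeroExt.ext
      · simp
      · simp only [LinearMap.coe_mk, AddHom.coe_mk, TrivSqZeroExt.snd_inr, TrivSqZeroExt.snd_mul,
          smul_eq_mul, TrivSqZeroExt.snd_add, TrivSqZeroExt.fst_inr, op_smul_eq_smul, zero_smul,
          smul_zero, add_zero])

lemma dsnd_apply (x : TrivSqZeroExt K (ω → K)) : dsnd x = TrivSqZeroExt.inr x.snd := rfl

lemma snd_det {n : Type*} [Fintype n] [DecidableEq n]
    (M : Matrix n n (TrivSqZeroExt K (ω → K))) :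
    M.det.snd = ∑ i, ∑ j, (M.map TrivSqZeroExt.fst).adjugate i j • (M j i).snd := by
  have h := Pool.Agent.H461R3.deriv_det (dsnd (K := K) (ω := ω)) M
  rw [dsnd_apply] at h
  have h2 := congrArg TrivSqZeroExt.snd h
  rw [TrivSqZeroExt.snd_inr] at h2
  rw [h2, Matrix.trace, TrivSqZeroExt.snd_sum]
  refine Finset.sum_congr rfl fun i _ => ?_
  rw [Matrix.diag_apply, Matrix.mul_apply, TrivSqZeroExt.snd_sum]
  refine Finset.sum_congr rfl fun j _ => ?_
  rw [Matrix.map_apply, dsnd_apply, TrivSqZeroExt.snd_mul, TrivSqZeroExt.snd_inr,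
    TrivSqZeroExt.fst_inr]
  have h3 := RingHom.map_adjugate (TrivSqZeroExt.fstHom K K (ω → K)).toRingHom M
  have h4 : (M.adjugate i j).fst = (M.map TrivSqZeroExt.fst).adjugate i j :=
    congrFun (congrFun h3 i) j
  rw [h4]
  simp

/-- the matrix `A₀ + ∑ j, f j • u j (v j)ᵀ` -/
noncomputable def dmat {R : Type*} [CommRing R] [Algebra K R] {r t : ℕ}
    (A₀ : Matrix (Fin r) (Fin r) K) (u v : Fin t → Fin r → K) (f : Fin t → R) :
    Matrix (Fin r) (Fin r) R :=
  Matrix.of fun a b => algebraMap K R (A₀ a b) + ∑ j, f j * algebraMap K R (u j a * v j b)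

lemma dmat_fst {r t : ℕ} (A₀ : Matrix (Fin r) (Fin r) K) (u v : Fin t → Fin r → K)
    (f : Fin t → TrivSqZeroExt K (ω → K)) (a b : Fin r) :
    (dmat A₀ u v f a b).fst = A₀ a b + ∑ j, (f j).fst * (u j a * v j b) := by
  simp only [dmat, Matrix.of_apply, TrivSqZeroExt.fst_add, TrivSqZeroExt.fst_sum,
    TrivSqZeroExt.fst_mul, TrivSqZeroExt.algebraMap_eq_inl, TrivSqZeroExt.fst_inl]

lemma dmat_snd {r t : ℕ} (A₀ : Matrix (Fin r) (Fin r) K) (u v : Fin t → Fin r → K)
    (f : Fin t → TrivSqZeroExt K (ω → K)) (a b : Fin r) :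
    (dmat A₀ u v f a b).snd = ∑ j, (u j a * v j b) • (f j).snd := by
  simp only [dmat, Matrix.of_apply, TrivSqZeroExt.snd_add, TrivSqZeroExt.snd_sum,
    TrivSqZeroExt.snd_mul, TrivSqZeroExt.algebraMap_eq_inl, TrivSqZeroExt.fst_inl,
    TrivSqZeroExt.snd_inl, smul_zero, zero_add, op_smul_eq_smul]

/-- determinants with the live terms in `L` -/
lemma Lin.det {r t : ℕ} (A₀ : Matrix (Fin r) (Fin r) K) (u v : Fin t → Fin r → K)
    (L : Finset (Fin t)) (F : Ξ → Fin t → TrivSqZeroExt K (ω → K)) (d : Fin t → ℕ)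
    (h1 : ∀ p, p ∉ L → Cst (fun ξ => F ξ p))
    (h2 : ∀ p ∈ L, Lin A (d p) (fun ξ => F ξ p)) :
    Lin A (∑ p ∈ L, d p + min (L.card ^ 2 + 1) (r ^ 2)) (fun ξ => (dmat A₀ u v (F ξ)).det) := by
  classical
  rcases isEmpty_or_nonempty Ξ with hΞ | ⟨⟨ξ₀⟩⟩
  · exact ⟨⊥, by simp, fun ξ => hΞ.elim ξ⟩
  obtain ⟨D, hD, hDm⟩ := exists_of_family L (fun p ξ => F ξ p) d h2
  obtain ⟨B, hB, hBm⟩ := exists_adjugate_span L u v
    (fun ξ => (dmat A₀ u v (F ξ)).map TrivSqZeroExt.fst)
    (fun ξ ξ' j => (F ξ j).fst - (F ξ' j).fst) (by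
    intro ξ ξ'
    ext a b
    rw [Matrix.sub_apply, Matrix.map_apply, Matrix.map_apply, dmat_fst, dmat_fst,
      Matrix.sum_apply, add_sub_add_left_eq_sub, ← Finset.sum_sub_distrib]
    symm
    apply Finset.sum_subset_zero_on_sdiff (Finset.subset_univ L)
    · intro p hp
      rw [Finset.mem_sdiff] at hp
      rw [show F ξ p = F ξ' p from h1 p hp.2 ξ ξ', sub_self]
    · intro p _
      rw [Matrix.smul_apply, Matrix.vecMulVec_apply, smul_eq_mul, sub_mul])
  have hB' : Module.finrank K B ≤ r ^ 2 := by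
    have := Submodule.finrank_le B
    rw [Module.finrank_matrix] at this
    simpa [pow_two] using this
  let ψ : Fin t → Matrix (Fin r) (Fin r) K →ₗ[K] K := fun l =>
    ∑ i, ∑ j, (u l j * v l i) • Matrix.entryLinearMap K K i j
  have hψ : ∀ l (Q : Matrix (Fin r) (Fin r) K), ψ l Q = ∑ i, ∑ j, (u l j * v l i) * Q i j := by
    intro l Q
    simp only [ψ, LinearMap.sum_apply, LinearMap.smul_apply, Matrix.entryLinearMap_apply,
      smul_eq_mul]
  let φ : Matrix (Fin r) (Fin r) K →ₗ[K] (ω → K) :=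
    ∑ l, if l ∈ L then 0 else (LinearMap.toSpanSingleton K (ω → K) (F ξ₀ l).snd).comp (ψ l)
  refine ⟨D ⊔ B.map φ, ?_, ?_⟩
  · have h3 := Submodule.finrank_add_le_finrank_add_finrank D (B.map φ)
    have h4 := Submodule.finrank_map_le φ B
    have h5 : Module.finrank K B ≤ min (L.card ^ 2 + 1) (r ^ 2) := le_min hB hB'
    omega
  · intro ξ
    have hφ : (dmat A₀ u v (F ξ)).det.snd =
        φ ((dmat A₀ u v (F ξ)).map TrivSqZeroExt.fst).adjugate +
        ∑ l, if l ∈ L then
          ψ l ((dmat A₀ u v (F ξ)).map TrivSqZeroExt.fst).adjugate • (F ξ l).snd else 0 := by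
      rw [snd_det, LinearMap.sum_apply, ← Finset.sum_add_distrib]
      have h6 : ∀ l : Fin t, ((if l ∈ L then 0 else
          (LinearMap.toSpanSingleton K (ω → K) (F ξ₀ l).snd).comp (ψ l) :
            Matrix (Fin r) (Fin r) K →ₗ[K] (ω → K))
          ((dmat A₀ u v (F ξ)).map TrivSqZeroExt.fst).adjugate +
          if l ∈ L then
            ψ l ((dmat A₀ u v (F ξ)).map TrivSqZeroExt.fst).adjugate • (F ξ l).snd else 0)
          = ψ l ((dmat A₀ u v (F ξ)).map TrivSqZeroExt.fst).adjugate • (F ξ l).snd := by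
        intro l
        by_cases hp : l ∈ L
        · rw [if_pos hp, if_pos hp, LinearMap.zero_apply, zero_add]
        · rw [if_neg hp, if_neg hp, add_zero, LinearMap.comp_apply,
            LinearMap.toSpanSingleton_apply]
          rw [show F ξ l = F ξ₀ l from h1 l hp ξ ξ₀]
      rw [Finset.sum_congr rfl (fun l _ => h6 l)]
      simp only [hψ, dmat_snd, Finset.smul_sum, Finset.sum_smul, smul_smul]
      rw [Finset.sum_congr rfl (fun i _ => Finset.sum_comm), Finset.sum_comm]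
      refine Finset.sum_congr rfl fun l _ => Finset.sum_congr rfl fun i _ =>
        Finset.sum_congr rfl fun j _ => ?_
      rw [mul_comm]
    rw [hφ]
    refine Submodule.add_mem _ ?_ ?_
    · exact Submodule.mem_sup_right (Submodule.mem_sup_right
        (Submodule.mem_map_of_mem (hBm ξ)))
    · refine Submodule.sum_mem _ fun l _ => ?_
      by_cases hp : l ∈ L
      · rw [if_pos hp]
        refine Submodule.smul_mem _ _ ?_
        exact (sup_le_sup_left le_sup_left A) (hDm l hp ξ)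
      · rw [if_neg hp]
        exact Submodule.zero_mem _

/-- a determinant is an affine function of the coefficient of a rank-one matrix -/
lemma det_rank_one_affine {R : Type*} [CommRing R] {r : ℕ} (C : Matrix (Fin r) (Fin r) R)
    (u v : Fin r → R) : ∃ c0 c1 : R, ∀ z : R,
      (C + z • Matrix.vecMulVec u v).det = c0 + c1 * z := by
  classical
  let N : Matrix (Unit ⊕ Fin r) (Unit ⊕ Fin r) R :=
    Matrix.fromBlocks 1 0 (Matrix.of fun i _ => u i) C
  refine ⟨(N.updateRow (Sum.inl ()) (Sum.elim (fun _ => 1) (fun _ => 0))).det,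
    (N.updateRow (Sum.inl ()) (Sum.elim (fun _ => 0) (fun j => - v j))).det, fun z => ?_⟩
  have h1 : (C + z • Matrix.vecMulVec u v).det =
      (Matrix.fromBlocks 1 (Matrix.of fun (_ : Unit) j => - (z * v j))
        (Matrix.of fun i (_ : Unit) => u i) C).det := by
    rw [Matrix.det_fromBlocks_one₁₁]
    congr 1
    ext i j
    simp only [Matrix.add_apply, Matrix.smul_apply, Matrix.vecMulVec_apply, smul_eq_mul,
      Matrix.sub_apply, Matrix.mul_apply, Matrix.of_apply, Finset.univ_unique,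
      Finset.sum_singleton]
    ring
  have h2 : Matrix.fromBlocks 1 (Matrix.of fun (_ : Unit) j => - (z * v j))
        (Matrix.of fun i (_ : Unit) => u i) C = N.updateRow (Sum.inl ())
          (Sum.elim (fun _ => 1) (fun _ => 0) + z • Sum.elim (fun _ => 0) (fun j => - v j)) := by
    refine Matrix.ext fun a b => ?_
    rcases a with ⟨⟩ | a
    · rw [Matrix.updateRow_self]
      rcases b with ⟨⟩ | b
      · simp
      · simp
    · rw [Matrix.updateRow_ne (by simp)]
      rcases b with ⟨⟩ | b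
      · simp [N]
      · simp [N]
  rw [h1, h2, Matrix.det_updateRow_add, Matrix.det_updateRow_smul, mul_comm z]

lemma Aff.det_single {r t d : ℕ} (A₀ : Matrix (Fin r) (Fin r) K) (u v : Fin t → Fin r → K)
    (p : Fin t) (F : Ξ → Fin t → TrivSqZeroExt K (ω → K))
    (h1 : ∀ q, q ≠ p → Cst (fun ξ => F ξ q))
    (h2 : Aff A d (fun ξ => F ξ p)) : Aff A d (fun ξ => (dmat A₀ u v (F ξ)).det) := by
  classical
  rcases isEmpty_or_nonempty Ξ with hΞ | ⟨⟨ξ₀⟩⟩
  · exact ⟨0, 0, 0, ⟨⊥, by simp, fun ξ => hΞ.elim ξ⟩, fun ξ => hΞ.elim ξ⟩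
  obtain ⟨c0, c1, hc⟩ := det_rank_one_affine
    (Matrix.of fun a b => algebraMap K (TrivSqZeroExt K (ω → K)) (A₀ a b) +
      ∑ j ∈ Finset.univ.erase p, F ξ₀ j * algebraMap K (TrivSqZeroExt K (ω → K)) (u j a * v j b))
    (fun a => algebraMap K (TrivSqZeroExt K (ω → K)) (u p a))
    (fun b => algebraMap K (TrivSqZeroExt K (ω → K)) (v p b))
  convert h2.affine c0 c1 using 1
  funext ξ
  rw [← hc (F ξ p)]
  congr 1
  refine Matrix.ext fun a b => ?_
  simp only [dmat, Matrix.of_apply, Matrix.add_apply, Matrix.smul_apply, Matrix.vecMulVec_apply,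
    smul_eq_mul]
  rw [← Finset.add_sum_erase _ _ (Finset.mem_univ p), map_mul]
  have h3 : ∀ j ∈ Finset.univ.erase p,
      F ξ j * algebraMap K (TrivSqZeroExt K (ω → K)) (u j a * v j b) =
      F ξ₀ j * algebraMap K (TrivSqZeroExt K (ω → K)) (u j a * v j b) := by
    intro j hj
    rw [show F ξ j = F ξ₀ j from h1 j (Finset.ne_of_mem_erase hj) ξ ξ₀]
  rw [Finset.sum_congr rfl h3]
  ring

/-- arbitrary polynomials of families -/
lemma snd_aeval_mem {r : ℕ} (q : MvPolynomial (Fin r) K) (x : Fin r → TrivSqZeroExt K (ω → K))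
    (D : Submodule K (ω → K)) (h : ∀ i, (x i).snd ∈ D) : (MvPolynomial.aeval x q).snd ∈ D := by
  induction q using MvPolynomial.induction_on with
  | C a =>
    rw [MvPolynomial.aeval_C, TrivSqZeroExt.algebraMap_eq_inl, TrivSqZeroExt.snd_inl]
    exact D.zero_mem
  | add p q hp hq => rw [map_add, TrivSqZeroExt.snd_add]; exact D.add_mem hp hq
  | mul_X p i hp => rw [map_mul, MvPolynomial.aeval_X]; exact snd_mul_mem hp (h i)

lemma Lin.arb {r : ℕ} (L : Finset (Fin r)) (q : MvPolynomial (Fin r) K)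
    (x : Ξ → Fin r → TrivSqZeroExt K (ω → K)) (d : Fin r → ℕ)
    (h1 : ∀ p, p ∉ L → Cst (fun ξ => x ξ p)) (h2 : ∀ p ∈ L, Lin A (d p) (fun ξ => x ξ p)) :
    Lin A (∑ p ∈ L, d p + (r - L.card)) (fun ξ => MvPolynomial.aeval (x ξ) q) := by
  classical
  have h3 : ∀ p ∈ (Finset.univ : Finset (Fin r)),
      Lin A (if p ∈ L then d p else 1) (fun ξ => x ξ p) := by
    intro p _
    by_cases hp : p ∈ L
    · rw [if_pos hp]; exact h2 p hp
    · rw [if_neg hp]; exact (h1 p hp).lin
  obtain ⟨D, hD, hDm⟩ := exists_of_family Finset.univ (fun p ξ => x ξ p) _ h3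
  refine ⟨D, ?_, ?_⟩
  · refine hD.trans (le_of_eq ?_)
    rw [← Finset.sum_filter_add_sum_filter_not Finset.univ (fun p => p ∈ L)]
    congr 1
    · rw [Finset.sum_congr rfl (g := d) (fun p hp => by
        rw [if_pos (Finset.mem_filter.mp hp).2])]
      congr 1
      ext p; simp
    · rw [Finset.sum_congr rfl (g := fun _ => 1) (fun p hp => by
        rw [if_neg (Finset.mem_filter.mp hp).2])]
      rw [Finset.sum_const, smul_eq_mul, mul_one]
      have : (Finset.univ.filter (fun p => p ∉ L)) = Lᶜ := by ext p; simp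
      rw [this, Finset.card_compl, Fintype.card_fin]
  · intro ξ
    exact snd_aeval_mem q (x ξ) _ (fun i => hDm i (Finset.mem_univ i) ξ)

end Pool.Agent.W940.R
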