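import Mathlib
import Pool.Agent.W940.R2

/-! # Expressions with determinants and arbitrary gates, and their jets -/

set_option autoImplicit false
set_option linter.unusedSectionVars false

namespace Pool.Agent.W940.R

open Finset

universe u v w

/-- Expressions: leaves are univariate polynomials in a variable, constants, and references to
earlier lines of a program; gates are sums, products, determinants of matrices
`A₀ + ∑ j, f j • u j (v j)ᵀ` with expressions `f j` and constant `A₀`, `u`, `v`, and arbitrary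
polynomials of expressions. -/
inductive Expr (K : Type u) [CommSemiring K] (σ : Type v) : Type (max u v)
  | leaf (i : σ) (q : Polynomial K) : Expr K σ
  | line (j : ℕ) : Expr K σ
  | const (c : K) : Expr K σ
  | add (f g : Expr K σ) : Expr K σ
  | mul (f g : Expr K σ) : Expr K σ
  | det (r t : ℕ) (A₀ : Matrix (Fin r) (Fin r) K) (u v : Fin t → Fin r → K)
      (f : Fin t → Expr K σ) : Expr K σ
  | gate (r : ℕ) (q : MvPolynomial (Fin r) K) (c : Fin r → Expr K σ) : Expr K σ

namespace Expr

variable {K : Type u} [Field K] {σ : Type v} {R : Type w} [CommRing R] [Algebra K R]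

/-- the value of an expression at the point `x`, where `y j` is the value of line `j` -/
noncomputable def ev (x : σ → R) (y : ℕ → R) : Expr K σ → R
  | leaf i q => Polynomial.aeval (x i) q
  | line j => y j
  | const c => algebraMap K R c
  | add f g => f.ev x y + g.ev x y
  | mul f g => f.ev x y * g.ev x y
  | det _ _ A₀ u v f => (dmat A₀ u v (fun j => (f j).ev x y)).det
  | gate _ q c => MvPolynomial.aeval (fun a => (c a).ev x y) q

lemma map_ev {R' : Type*} [CommRing R'] [Algebra K R'] (φ : R →ₐ[K] R') (x : σ → R) (y : ℕ → R)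
    (f : Expr K σ) : φ (f.ev x y) = f.ev (fun i => φ (x i)) (fun j => φ (y j)) := by
  induction f with
  | leaf i q => simp only [ev]; rw [Polynomial.aeval_algHom_apply]
  | line j => rfl
  | const c => simp [ev]
  | add f g ihf ihg => simp only [ev, map_add, ihf, ihg]
  | mul f g ihf ihg => simp only [ev, map_mul, ihf, ihg]
  | det r t A₀ u v f ih =>
    simp only [ev]
    rw [AlgHom.map_det]
    congr 1
    refine Matrix.ext fun a b => ?_
    rw [AlgHom.mapMatrix_apply, Matrix.map_apply]
    simp only [dmat, Matrix.of_apply, map_add, map_sum, map_mul, AlgHom.commutes, ih]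
  | gate r q c ih =>
    simp only [ev]
    have h := MvPolynomial.comp_aeval_apply (fun a => (c a).ev x y) φ q
    rw [h]
    have h2 : (fun a => φ ((c a).ev x y)) =
        fun a => (c a).ev (fun i => φ (x i)) (fun j => φ (y j)) := funext ih
    rw [h2]

/-- the variables on which an expression depends, where `S j` are the variables of line `j` -/
def vars [DecidableEq σ] (S : ℕ → Finset σ) : Expr K σ → Finset σ
  | leaf i _ => {i}
  | line j => S j
  | const _ => ∅
  | add f g => f.vars S ∪ g.vars S
  | mul f g => f.vars S ∪ g.vars S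
  | det _ _ _ _ _ f => Finset.univ.biUnion fun j => (f j).vars S
  | gate _ _ c => Finset.univ.biUnion fun a => (c a).vars S

open Classical in
/-- the local cost of an expression -/
noncomputable def cost [DecidableEq σ] (T : Finset σ) (live : ℕ → Prop) : Expr K σ → ℕ
  | leaf i _ => if i ∈ T then 1 else 0
  | line j => if live j then 1 else 0
  | const _ => 0
  | add f g => f.cost T live + g.cost T live
  | mul f g => f.cost T live + g.cost T live
  | det _ _ _ _ _ f => ∑ j, (f j).cost T live
  | gate r _ c => (∑ a, (c a).cost T live) + if (∑ a, (c a).cost T live) = 0 then 0 else r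

/-- the orders of the determinants satisfy `ok` -/
def DetOk (ok : ℕ → Prop) : Expr K σ → Prop
  | leaf _ _ => True
  | line _ => True
  | const _ => True
  | add f g => f.DetOk ok ∧ g.DetOk ok
  | mul f g => f.DetOk ok ∧ g.DetOk ok
  | det r _ _ _ _ f => ok r ∧ ∀ j, (f j).DetOk ok
  | gate _ _ c => ∀ a, (c a).DetOk ok

lemma cost_eq_zero_iff [DecidableEq σ] (T : Finset σ) (S : ℕ → Finset σ) (f : Expr K σ) :
    f.cost T (fun j => ¬ Disjoint (S j) T) = 0 ↔ Disjoint (f.vars S) T := by
  induction f with
  | leaf i q => simp [cost, vars]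
  | line j => simp [cost, vars]
  | const c => simp [cost, vars]
  | add f g ihf ihg => simp only [cost, vars, Nat.add_eq_zero_iff, ihf, ihg, Finset.disjoint_union_left]
  | mul f g ihf ihg => simp only [cost, vars, Nat.add_eq_zero_iff, ihf, ihg, Finset.disjoint_union_left]
  | det r t A₀ u v f ih =>
    simp only [cost, vars, Finset.sum_eq_zero_iff, Finset.mem_univ, true_implies, ih,
      Finset.disjoint_biUnion_left]
  | gate r q c ih =>
    simp only [cost, vars]
    constructor
    · intro h
      rw [Nat.add_eq_zero_iff] at h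
      have := h.1
      simp only [Finset.sum_eq_zero_iff, Finset.mem_univ, true_implies, ih] at this
      simpa [Finset.disjoint_biUnion_left] using this
    · intro h
      have h1 : ∑ a, (c a).cost T (fun j => ¬ Disjoint (S j) T) = 0 := by
        simp only [Finset.sum_eq_zero_iff, Finset.mem_univ, true_implies, ih]
        simpa [Finset.disjoint_biUnion_left] using h
      rw [if_pos h1, h1]

end Expr

/-- bounds for the dimension of the span of the jets in terms of the cost -/
structure Bnd (B : ℕ → ℕ) (ok : ℕ → Prop) : Prop where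
  mono : Monotone B
  two : ∀ e e', 1 ≤ e → 1 ≤ e' → B e + B e' + 4 ≤ B (e + e')
  det : ∀ r, ok r → ∀ (t : ℕ) (L : Finset (Fin t)) (e : Fin t → ℕ), 2 ≤ L.card →
    (∀ p ∈ L, 1 ≤ e p) → ∑ p ∈ L, (B (e p) + 2) + min (L.card ^ 2 + 1) (r ^ 2) ≤ B (∑ p ∈ L, e p)
  gate : ∀ (r : ℕ) (L : Finset (Fin r)) (e : Fin r → ℕ), 1 ≤ L.card →
    (∀ p ∈ L, 1 ≤ e p) → ∑ p ∈ L, (B (e p) + 2) + (r - L.card) ≤ B (∑ p ∈ L, e p + r)

variable {K : Type u} [Field K] {σ : Type v} [DecidableEq σ] {ω : Type*} [Finite ω] {Ξ : Type*}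
variable {A : Submodule K (ω → K)}

lemma snd_paeval_mem (q : Polynomial K) (x : TrivSqZeroExt K (ω → K))
    (D : Submodule K (ω → K)) (h : x.snd ∈ D) : (Polynomial.aeval x q).snd ∈ D := by
  induction q using Polynomial.induction_on' with
  | add p q hp hq => rw [map_add, TrivSqZeroExt.snd_add]; exact D.add_mem hp hq
  | monomial n a =>
    rw [Polynomial.aeval_monomial]
    refine snd_mul_mem ?_ ?_
    · rw [TrivSqZeroExt.algebraMap_eq_inl, TrivSqZeroExt.snd_inl]
      exact D.zero_mem
    · induction n with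
      | zero => simp
      | succ n ih => rw [pow_succ]; exact snd_mul_mem ih h

theorem Bnd.good {B : ℕ → ℕ} {ok : ℕ → Prop} (hB : Bnd B ok) {T : Finset σ} {live : ℕ → Prop}
    {P : Ξ → σ → TrivSqZeroExt K (ω → K)} {Y : Ξ → ℕ → TrivSqZeroExt K (ω → K)}
    (hT : ∀ ξ, ∀ v ∈ T, (P ξ v).snd = 0) (hc : ∀ ξ ξ' v, v ∉ T → P ξ v = P ξ' v)
    (hY : ∀ j, live j → ∀ ξ, (Y ξ j).snd ∈ A) (hY' : ∀ j, ¬ live j → Cst (fun ξ => Y ξ j))
    (f : Expr K σ) (hf : f.DetOk ok) :
    (f.cost T live = 0 → Cst (fun ξ => f.ev (P ξ) (Y ξ))) ∧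
    (1 ≤ f.cost T live → Aff A (B (f.cost T live)) (fun ξ => f.ev (P ξ) (Y ξ))) := by
  classical
  rcases isEmpty_or_nonempty Ξ with hΞ | ⟨⟨ξ₀⟩⟩
  · exact ⟨fun _ ξ => hΞ.elim ξ, fun _ => ⟨0, 0, 0, ⟨⊥, by simp, fun ξ => hΞ.elim ξ⟩,
      fun ξ => hΞ.elim ξ⟩⟩
  -- two live subexpressions
  have comb : ∀ (f g : Expr K σ) (F : Ξ → TrivSqZeroExt K (ω → K)),
      Aff A (B (f.cost T live)) (fun ξ => f.ev (P ξ) (Y ξ)) →
      Aff A (B (g.cost T live)) (fun ξ => g.ev (P ξ) (Y ξ)) →
      1 ≤ f.cost T live → 1 ≤ g.cost T live →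
      (∀ D : Submodule K (ω → K), ∀ ξ, (f.ev (P ξ) (Y ξ)).snd ∈ D → (g.ev (P ξ) (Y ξ)).snd ∈ D →
        (F ξ).snd ∈ D) → Aff A (B (f.cost T live + g.cost T live)) F := by
    intro f g F hf hg h1 h2 hF
    obtain ⟨D, hD, hDm⟩ := hf.lin
    obtain ⟨D', hD', hDm'⟩ := hg.lin
    refine Lin.aff ⟨D ⊔ D', ?_, ?_⟩
    · have h3 := Submodule.finrank_add_le_finrank_add_finrank D D'
      have h4 := hB.two _ _ h1 h2
      omega
    · intro ξ
      exact hF _ ξ ((sup_le_sup_left le_sup_left A) (hDm ξ))
        ((sup_le_sup_left le_sup_right A) (hDm' ξ))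
  induction f with
  | leaf i q =>
    simp only [Expr.cost, Expr.ev]
    by_cases hi : i ∈ T
    · rw [if_pos hi]
      refine ⟨fun h => absurd h one_ne_zero, fun _ => ?_⟩
      refine Lin.aff (Lin.mono (Nat.zero_le _) ⟨⊥, by simp, fun ξ => ?_⟩)
      exact Submodule.mem_sup_right (snd_paeval_mem q _ _ (by rw [hT ξ i hi]; exact Submodule.zero_mem _))
    · rw [if_neg hi]
      refine ⟨fun _ ξ ξ' => ?_, fun h => absurd h (by norm_num)⟩
      simp only [hc ξ ξ' i hi]
  | line j =>
    simp only [Expr.cost, Expr.ev]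
    by_cases hj : live j
    · rw [if_pos hj]
      refine ⟨fun h => absurd h one_ne_zero, fun _ => ?_⟩
      refine Lin.aff (Lin.mono (Nat.zero_le _) ⟨⊥, by simp, fun ξ => ?_⟩)
      exact Submodule.mem_sup_left (hY j hj ξ)
    · rw [if_neg hj]
      exact ⟨fun _ => hY' j hj, fun h => absurd h (by norm_num)⟩
  | const c =>
    simp only [Expr.cost, Expr.ev]
    exact ⟨fun _ ξ ξ' => rfl, fun h => absurd h (by norm_num)⟩
  | add f g ihf ihg =>
    obtain ⟨f0, f1⟩ := ihf hf.1
    obtain ⟨g0, g1⟩ := ihg hf.2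
    simp only [Expr.cost, Expr.ev]
    rcases Nat.eq_zero_or_pos (f.cost T live) with hf0 | hf0
    · rcases Nat.eq_zero_or_pos (g.cost T live) with hg0 | hg0
      · refine ⟨fun _ ξ ξ' => ?_, fun h => absurd h (by omega)⟩
        have e1 := f0 hf0 ξ ξ'
        have e2 := g0 hg0 ξ ξ'
        simp only at e1 e2
        simp only [e1, e2]
      · refine ⟨fun h => absurd h (by omega), fun _ => ?_⟩
        rw [hf0, zero_add]
        convert (g1 hg0).affine (f.ev (P ξ₀) (Y ξ₀)) 1 using 1
        funext ξ
        have e1 := f0 hf0 ξ ξ₀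
        simp only at e1
        rw [e1, one_mul]
    · refine ⟨fun h => absurd h (by omega), fun _ => ?_⟩
      rcases Nat.eq_zero_or_pos (g.cost T live) with hg0 | hg0
      · rw [hg0, add_zero]
        convert (f1 hf0).affine (g.ev (P ξ₀) (Y ξ₀)) 1 using 1
        funext ξ
        have e1 := g0 hg0 ξ ξ₀
        simp only at e1
        rw [e1, one_mul, add_comm]
      · refine comb f g _ (f1 hf0) (g1 hg0) hf0 hg0 ?_
        intro D ξ h1 h2
        rw [TrivSqZeroExt.snd_add]
        exact D.add_mem h1 h2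
  | mul f g ihf ihg =>
    obtain ⟨f0, f1⟩ := ihf hf.1
    obtain ⟨g0, g1⟩ := ihg hf.2
    simp only [Expr.cost, Expr.ev]
    rcases Nat.eq_zero_or_pos (f.cost T live) with hf0 | hf0
    · rcases Nat.eq_zero_or_pos (g.cost T live) with hg0 | hg0
      · refine ⟨fun _ ξ ξ' => ?_, fun h => absurd h (by omega)⟩
        have e1 := f0 hf0 ξ ξ'
        have e2 := g0 hg0 ξ ξ'
        simp only at e1 e2
        simp only [e1, e2]
      · refine ⟨fun h => absurd h (by omega), fun _ => ?_⟩
        rw [hf0, zero_add]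
        convert (g1 hg0).affine 0 (f.ev (P ξ₀) (Y ξ₀)) using 1
        funext ξ
        have e1 := f0 hf0 ξ ξ₀
        simp only at e1
        rw [e1, zero_add]
    · refine ⟨fun h => absurd h (by omega), fun _ => ?_⟩
      rcases Nat.eq_zero_or_pos (g.cost T live) with hg0 | hg0
      · rw [hg0, add_zero]
        convert (f1 hf0).affine 0 (g.ev (P ξ₀) (Y ξ₀)) using 1
        funext ξ
        have e1 := g0 hg0 ξ ξ₀
        simp only at e1
        rw [e1, zero_add, mul_comm]
      · refine comb f g _ (f1 hf0) (g1 hg0) hf0 hg0 ?_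
        intro D ξ h1 h2
        exact snd_mul_mem h1 h2
  | det r t A₀ u v c ih =>
    simp only [Expr.cost, Expr.ev]
    set e : Fin t → ℕ := fun p => (c p).cost T live with he
    set L : Finset (Fin t) := Finset.univ.filter (fun p => 1 ≤ e p) with hL
    have hsumL : ∑ p, e p = ∑ p ∈ L, e p := by
      rw [hL, Finset.sum_filter]
      refine Finset.sum_congr rfl fun p _ => ?_
      split_ifs with h
      · rfl
      · omega
    have hcst : ∀ p, p ∉ L → Cst (fun ξ => (c p).ev (P ξ) (Y ξ)) := by
      intro p hp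
      apply (ih p (hf.2 p)).1
      simp only [hL, Finset.mem_filter, Finset.mem_univ, true_and, he] at hp
      omega
    have haff : ∀ p ∈ L, Aff A (B (e p)) (fun ξ => (c p).ev (P ξ) (Y ξ)) := by
      intro p hp
      apply (ih p (hf.2 p)).2
      simp only [hL, Finset.mem_filter, Finset.mem_univ, true_and, he] at hp
      exact hp
    have hpos : ∀ p ∈ L, 1 ≤ e p := fun p hp => (Finset.mem_filter.mp hp).2
    rw [hsumL]
    rcases Nat.lt_or_ge L.card 2 with hc2 | hc2
    · rcases Nat.eq_zero_or_pos L.card with hc0 | hc0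
      · rw [Finset.card_eq_zero] at hc0
        rw [hc0] at hcst ⊢
        refine ⟨fun _ ξ ξ' => ?_, fun h => absurd h (by simp)⟩
        have h1 : (fun j => (c j).ev (P ξ) (Y ξ)) = fun j => (c j).ev (P ξ') (Y ξ') :=
          funext fun j => hcst j (by simp) ξ ξ'
        simp only [h1]
      · obtain ⟨p, hp⟩ := Finset.card_eq_one.mp (show L.card = 1 by omega)
        have hp1 : 1 ≤ e p := hpos p (by rw [hp]; simp)
        rw [hp] at hcst haff ⊢
        rw [Finset.sum_singleton]
        refine ⟨fun h => absurd h (by omega), fun _ => ?_⟩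
        refine Aff.det_single A₀ u v p _ ?_ ?_
        · intro q hq
          exact hcst q (by simpa using hq)
        · exact haff p (by simp)
    · refine ⟨fun h => ?_, fun _ => ?_⟩
      · exfalso
        have h1 : L.card ≤ ∑ p ∈ L, e p := by
          rw [Finset.card_eq_sum_ones]
          exact Finset.sum_le_sum hpos
        omega
      · refine Lin.aff (Lin.mono (hB.det r hf.1 t L e hc2 hpos) ?_)
        exact Lin.det A₀ u v L _ _ hcst (fun p hp => (haff p hp).lin)
  | gate r q c ih =>
    simp only [Expr.cost, Expr.ev]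
    set e : Fin r → ℕ := fun p => (c p).cost T live with he
    set L : Finset (Fin r) := Finset.univ.filter (fun p => 1 ≤ e p) with hL
    have hsumL : ∑ p, e p = ∑ p ∈ L, e p := by
      rw [hL, Finset.sum_filter]
      refine Finset.sum_congr rfl fun p _ => ?_
      split_ifs with h
      · rfl
      · omega
    have hcst : ∀ p, p ∉ L → Cst (fun ξ => (c p).ev (P ξ) (Y ξ)) := by
      intro p hp
      apply (ih p (hf p)).1
      simp only [hL, Finset.mem_filter, Finset.mem_univ, true_and, he] at hp
      omega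
    have haff : ∀ p ∈ L, Aff A (B (e p)) (fun ξ => (c p).ev (P ξ) (Y ξ)) := by
      intro p hp
      apply (ih p (hf p)).2
      simp only [hL, Finset.mem_filter, Finset.mem_univ, true_and, he] at hp
      exact hp
    have hpos : ∀ p ∈ L, 1 ≤ e p := fun p hp => (Finset.mem_filter.mp hp).2
    rw [hsumL]
    rcases Nat.eq_zero_or_pos L.card with hc0 | hc0
    · rw [Finset.card_eq_zero] at hc0
      rw [hc0] at hcst ⊢
      refine ⟨fun _ ξ ξ' => ?_, fun h => absurd h (by simp)⟩
      have h1 : (fun a => (c a).ev (P ξ) (Y ξ)) = fun a => (c a).ev (P ξ') (Y ξ') :=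
        funext fun a => hcst a (by simp) ξ ξ'
      simp only [h1]
    · have h1 : L.card ≤ ∑ p ∈ L, e p := by
        rw [Finset.card_eq_sum_ones]
        exact Finset.sum_le_sum hpos
      rw [if_neg (by omega)]
      refine ⟨fun h => absurd h (by omega), fun _ => ?_⟩
      refine Lin.aff (Lin.mono (hB.gate r L e hc0 hpos) ?_)
      exact Lin.arb L q _ _ hcst (fun p hp => (haff p hp).lin)

end Pool.Agent.W940.R
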