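import Mathlib
import Pool.Agent.W940.R3

/-! # The two bounds -/

set_option autoImplicit false
set_option linter.unusedSectionVars false

namespace Pool.Agent.W940.R

open Finset

lemma sum_pred {β : Type*} (L : Finset β) (e : β → ℕ) (h : ∀ p ∈ L, 1 ≤ e p) :
    ∑ p ∈ L, e p = ∑ p ∈ L, (e p - 1) + L.card := by
  rw [Finset.card_eq_sum_ones, ← Finset.sum_add_distrib]
  refine Finset.sum_congr rfl fun p hp => ?_
  have := h p hp
  omega

lemma sum_sq_le {β : Type*} (L : Finset β) (x : β → ℕ) :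
    ∑ p ∈ L, x p ^ 2 ≤ (∑ p ∈ L, x p) ^ 2 := by
  classical
  induction L using Finset.induction_on with
  | empty => simp
  | insert b s hb ih =>
    rw [Finset.sum_insert hb, Finset.sum_insert hb]
    nlinarith [Nat.zero_le (x b * ∑ p ∈ s, x p)]

theorem bnd_linear (C : ℕ) (hC : 4 ≤ C) (ok : ℕ → Prop) (hok : ∀ r, ok r → r + 7 ≤ C) :
    Bnd (fun e => C * (e - 1)) ok where
  mono := fun a b h => Nat.mul_le_mul_left _ (Nat.sub_le_sub_right h 1)
  two := by
    intro e e' h h'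
    obtain ⟨x, rfl⟩ : ∃ x, e = x + 1 := ⟨e - 1, by omega⟩
    obtain ⟨y, rfl⟩ : ∃ y, e' = y + 1 := ⟨e' - 1, by omega⟩
    simp only [Nat.add_sub_cancel]
    have : x + 1 + (y + 1) - 1 = x + y + 1 := by omega
    rw [this]
    nlinarith
  det := by
    intro r hr _ L e hL he
    have hCr := hok r hr
    have h1 : ∑ p ∈ L, (C * (e p - 1) + 2) = C * ∑ p ∈ L, (e p - 1) + 2 * L.card := by
      rw [Finset.sum_add_distrib, Finset.mul_sum, Finset.sum_const, smul_eq_mul, mul_comm 2]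
    have h2 := sum_pred L e he
    set X := ∑ p ∈ L, (e p - 1)
    rw [h1, h2]
    obtain ⟨t, ht⟩ : ∃ t, L.card = t + 2 := ⟨L.card - 2, by omega⟩
    rw [ht]
    have h3 : X + (t + 2) - 1 = X + (t + 1) := by omega
    rw [h3, mul_add C X (t + 1)]
    have h4 : 2 * (t + 2) + min ((t + 2) ^ 2 + 1) (r ^ 2) ≤ C * (t + 1) := by
      have h5 : (r + 7) * (t + 1) ≤ C * (t + 1) := Nat.mul_le_mul_right _ hCr
      refine le_trans ?_ h5
      rcases Nat.le_total (t + 2) r with h | h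
      · have h6 : (t + 2 + 7) * (t + 1) ≤ (r + 7) * (t + 1) := by gcongr
        have h7 := min_le_left ((t + 2) ^ 2 + 1) (r ^ 2)
        nlinarith
      · have h7 := min_le_right ((t + 2) ^ 2 + 1) (r ^ 2)
        have h8 : r * r ≤ r * (t + 2) := Nat.mul_le_mul_left _ h
        nlinarith
    omega
  gate := by
    intro r L e hL he
    have h1 : ∑ p ∈ L, (C * (e p - 1) + 2) = C * ∑ p ∈ L, (e p - 1) + 2 * L.card := by
      rw [Finset.sum_add_distrib, Finset.mul_sum, Finset.sum_const, smul_eq_mul, mul_comm 2]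
    have h2 := sum_pred L e he
    have h0 : L.card ≤ r := by
      have := Finset.card_le_univ L
      simpa using this
    set X := ∑ p ∈ L, (e p - 1)
    rw [h1, h2]
    obtain ⟨t, ht⟩ : ∃ t, L.card = t + 1 := ⟨L.card - 1, by omega⟩
    rw [ht] at h0 ⊢
    have h3 : X + (t + 1) + r - 1 = X + (t + r) := by omega
    rw [h3, mul_add C X (t + r)]
    have h4 : 2 * (t + 1) + (r - (t + 1)) ≤ C * (t + r) := by
      have : 4 * (t + r) ≤ C * (t + r) := Nat.mul_le_mul_right _ hC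
      omega
    omega

theorem bnd_quadratic (ok : ℕ → Prop) : Bnd (fun e => (e - 1) ^ 2 + 8 * (e - 1)) ok where
  mono := by
    intro a b h
    have : a - 1 ≤ b - 1 := Nat.sub_le_sub_right h 1
    simp only
    gcongr
  two := by
    intro e e' h h'
    obtain ⟨x, rfl⟩ : ∃ x, e = x + 1 := ⟨e - 1, by omega⟩
    obtain ⟨y, rfl⟩ : ∃ y, e' = y + 1 := ⟨e' - 1, by omega⟩
    simp only [Nat.add_sub_cancel]
    have : x + 1 + (y + 1) - 1 = x + y + 1 := by omega
    rw [this]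
    nlinarith [Nat.zero_le (x * y)]
  det := by
    intro r hr _ L e hL he
    have h1 : ∑ p ∈ L, ((e p - 1) ^ 2 + 8 * (e p - 1) + 2) =
        ∑ p ∈ L, (e p - 1) ^ 2 + 8 * ∑ p ∈ L, (e p - 1) + 2 * L.card := by
      rw [Finset.sum_add_distrib, Finset.sum_add_distrib, Finset.mul_sum, Finset.sum_const,
        smul_eq_mul, mul_comm 2]
    have h2 := sum_pred L e he
    have h5 : ∑ p ∈ L, (e p - 1) ^ 2 ≤ (∑ p ∈ L, (e p - 1)) ^ 2 := sum_sq_le L (fun p => e p - 1)
    rw [h1, h2]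
    set X := ∑ p ∈ L, (e p - 1)
    obtain ⟨t, ht⟩ : ∃ t, L.card = t + 2 := ⟨L.card - 2, by omega⟩
    rw [ht]
    have h3 : X + (t + 2) - 1 = X + (t + 1) := by omega
    rw [h3]
    have h7 := min_le_left ((t + 2) ^ 2 + 1) (r ^ 2)
    nlinarith [Nat.zero_le (X * t), Nat.zero_le X]
  gate := by
    intro r L e hL he
    have h1 : ∑ p ∈ L, ((e p - 1) ^ 2 + 8 * (e p - 1) + 2) =
        ∑ p ∈ L, (e p - 1) ^ 2 + 8 * ∑ p ∈ L, (e p - 1) + 2 * L.card := by
      rw [Finset.sum_add_distrib, Finset.sum_add_distrib, Finset.mul_sum, Finset.sum_const,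
        smul_eq_mul, mul_comm 2]
    have h2 := sum_pred L e he
    have h5 : ∑ p ∈ L, (e p - 1) ^ 2 ≤ (∑ p ∈ L, (e p - 1)) ^ 2 := sum_sq_le L (fun p => e p - 1)
    have h0 : L.card ≤ r := by
      have := Finset.card_le_univ L
      simpa using this
    rw [h1, h2]
    set X := ∑ p ∈ L, (e p - 1)
    obtain ⟨t, ht⟩ : ∃ t, L.card = t + 1 := ⟨L.card - 1, by omega⟩
    rw [ht] at h0 ⊢
    have h3 : X + (t + 1) + r - 1 = X + (t + r) := by omega
    rw [h3]
    have h6 : 2 * (t + 1) + (r - (t + 1)) ≤ 8 * (t + r) := by omega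
    have h8 : X ^ 2 ≤ (X + (t + r)) ^ 2 := Nat.pow_le_pow_left (Nat.le_add_right _ _) 2
    omega

end Pool.Agent.W940.R
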