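import Mathlib
import Pool.Agent.W940.R4

/-! # Programs -/

set_option autoImplicit false
set_option linter.unusedSectionVars false

namespace Pool.Agent.W940.R

open Finset

universe u v w

section Defs

variable {K : Type u} [Field K] {σ : Type v} {R : Type w} [CommRing R] [Algebra K R]

/-- the values of the lines before line `n` (`0` for the other lines) -/
noncomputable def regs (x : σ → R) (P : ℕ → Expr K σ) : ℕ → ℕ → R
  | 0 => fun _ => 0
  | n + 1 => Function.update (regs x P n) n ((P n).ev x (regs x P n))

/-- the value of line `n` -/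
noncomputable def value (x : σ → R) (P : ℕ → Expr K σ) (n : ℕ) : R := (P n).ev x (regs x P n)

/-- the variables on which the lines before line `n` depend -/
def lineVars [DecidableEq σ] (P : ℕ → Expr K σ) : ℕ → ℕ → Finset σ
  | 0 => fun _ => ∅
  | n + 1 => Function.update (lineVars P n) n ((P n).vars (lineVars P n))

/-- the polynomial computed by line `n` -/
noncomputable def poly (P : ℕ → Expr K σ) (n : ℕ) : MvPolynomial σ K :=
  value (fun i => (MvPolynomial.X i : MvPolynomial σ K)) P n

/-- the weight of an expression: `1` for a leaf with a variable, the number of variables of line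
`j` for a reference to line `j`, and in addition `r` times the number of variables below for a gate
which computes an arbitrary polynomial of `r` arguments -/
def Expr.weight [DecidableEq σ] (S : ℕ → Finset σ) : Expr K σ → ℕ
  | .leaf _ _ => 1
  | .line j => (S j).card
  | .const _ => 0
  | .add f g => f.weight S + g.weight S
  | .mul f g => f.weight S + g.weight S
  | .det _ _ _ _ _ f => ∑ j, (f j).weight S
  | .gate r _ c => (∑ a, (c a).weight S) + r * (Finset.univ.biUnion fun a => (c a).vars S).card

/-- the weight of the lines up to line `n` -/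
def weight [DecidableEq σ] (P : ℕ → Expr K σ) (n : ℕ) : ℕ :=
  ∑ i ∈ Finset.range (n + 1), (P i).weight (lineVars P i)

/-- the local cost of line `i` -/
noncomputable def lcost [DecidableEq σ] (T : Finset σ) (P : ℕ → Expr K σ) (i : ℕ) : ℕ :=
  (P i).cost T (fun j => ¬ Disjoint (lineVars P i j) T)

/-- the local cost of the lines up to line `n` -/
noncomputable def tcost [DecidableEq σ] (T : Finset σ) (P : ℕ → Expr K σ) (n : ℕ) : ℕ :=
  ∑ i ∈ Finset.range (n + 1), lcost T P i

lemma map_regs {R' : Type*} [CommRing R'] [Algebra K R'] (φ : R →ₐ[K] R') (x : σ → R)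
    (P : ℕ → Expr K σ) (n j : ℕ) : φ (regs x P n j) = regs (fun i => φ (x i)) P n j := by
  induction n generalizing j with
  | zero => simp [regs]
  | succ n ih =>
    simp only [regs, Function.update_apply]
    split_ifs with h
    · rw [Expr.map_ev]
      congr 1
      funext j
      exact ih j
    · exact ih j

lemma map_value {R' : Type*} [CommRing R'] [Algebra K R'] (φ : R →ₐ[K] R') (x : σ → R)
    (P : ℕ → Expr K σ) (n : ℕ) : φ (value x P n) = value (fun i => φ (x i)) P n := by
  unfold value
  rw [Expr.map_ev]
  congr 1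
  funext j
  exact map_regs φ x P n j

lemma aeval_poly (P : ℕ → Expr K σ) (n : ℕ) (x : σ → R) :
    MvPolynomial.aeval x (poly P n) = value x P n := by
  unfold poly
  rw [map_value]
  congr 1
  funext i
  simp

end Defs

section Sum

variable {K : Type u} [Field K] {σ : Type v} [DecidableEq σ]

open Classical in
lemma sum_meets_le {β : Type*} (s : Finset β) (T : β → Finset σ)
    (hT : (s : Set β).PairwiseDisjoint T) (V : Finset σ) :
    ∑ b ∈ s, (if ¬ Disjoint V (T b) then 1 else 0) ≤ V.card := by
  calc ∑ b ∈ s, (if ¬ Disjoint V (T b) then 1 else 0) ≤ ∑ b ∈ s, (V ∩ T b).card := by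
        refine Finset.sum_le_sum fun b _ => ?_
        by_cases h : Disjoint V (T b)
        · rw [if_neg (not_not.mpr h)]
          exact Nat.zero_le _
        · rw [if_pos h]
          rw [Finset.not_disjoint_iff_nonempty_inter] at h
          exact Finset.card_pos.mpr h
    _ = (s.biUnion fun b => V ∩ T b).card := by
        rw [Finset.card_biUnion]
        intro a ha b hb hab
        exact (hT ha hb hab).mono Finset.inter_subset_right Finset.inter_subset_right
    _ ≤ V.card := by
        apply Finset.card_le_card
        intro x hx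
        rw [Finset.mem_biUnion] at hx
        obtain ⟨b, _, hb⟩ := hx
        exact Finset.mem_of_mem_inter_left hb

lemma Expr.sum_cost_le {β : Type*} (s : Finset β) (T : β → Finset σ)
    (hT : (s : Set β).PairwiseDisjoint T) (S : ℕ → Finset σ) (f : Expr K σ) :
    ∑ b ∈ s, f.cost (T b) (fun j => ¬ Disjoint (S j) (T b)) ≤ f.weight S := by
  classical
  induction f with
  | leaf i q =>
    simp only [Expr.cost, Expr.weight]
    have := sum_meets_le s T hT {i}
    simp only [Finset.disjoint_singleton_left, not_not, Finset.card_singleton] at this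
    exact this
  | line j =>
    simp only [Expr.cost, Expr.weight]
    refine le_trans (le_of_eq ?_) (sum_meets_le s T hT (S j))
    refine Finset.sum_congr rfl fun b _ => ?_
    congr
  | const c => simp [Expr.cost]
  | add f g ihf ihg =>
    simp only [Expr.cost, Expr.weight, Finset.sum_add_distrib]
    omega
  | mul f g ihf ihg =>
    simp only [Expr.cost, Expr.weight, Finset.sum_add_distrib]
    omega
  | det r t A₀ u v f ih =>
    simp only [Expr.cost, Expr.weight]
    rw [Finset.sum_comm]
    exact Finset.sum_le_sum fun j _ => ih j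
  | gate r q c ih =>
    have h0 : ∀ b, ((∑ a, (c a).cost (T b) (fun j => ¬ Disjoint (S j) (T b))) = 0 ↔
        Disjoint (Finset.univ.biUnion fun a => (c a).vars S) (T b)) := by
      intro b
      simp only [Finset.sum_eq_zero_iff, Finset.mem_univ, true_implies, Expr.cost_eq_zero_iff,
        Finset.disjoint_biUnion_left]
    simp only [Expr.cost, Expr.weight, Finset.sum_add_distrib]
    refine Nat.add_le_add ?_ ?_
    · rw [Finset.sum_comm]
      exact Finset.sum_le_sum fun a _ => ih a
    · have h1 := sum_meets_le s T hT (Finset.univ.biUnion fun a => (c a).vars S)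
      calc ∑ b ∈ s, (if (∑ a, (c a).cost (T b) (fun j => ¬ Disjoint (S j) (T b))) = 0 then 0 else r)
          = r * ∑ b ∈ s, (if ¬ Disjoint (Finset.univ.biUnion fun a => (c a).vars S) (T b)
              then 1 else 0) := by
            rw [Finset.mul_sum]
            refine Finset.sum_congr rfl fun b _ => ?_
            simp only [h0 b]
            split_ifs <;> simp_all
        _ ≤ _ := Nat.mul_le_mul_left _ h1

lemma sum_tcost_le {β : Type*} (s : Finset β) (T : β → Finset σ)
    (hT : (s : Set β).PairwiseDisjoint T) (P : ℕ → Expr K σ) (n : ℕ) :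
    ∑ b ∈ s, tcost (T b) P n ≤ weight P n := by
  unfold tcost weight
  rw [Finset.sum_comm]
  exact Finset.sum_le_sum fun i _ => Expr.sum_cost_le s T hT _ _

end Sum

section Jets

variable {K : Type u} [Field K] {σ : Type v} [DecidableEq σ] {ω : Type*} [Finite ω] {Ξ : Type*}

/-- what line `i` contributes -/
noncomputable def contrib (B : ℕ → ℕ) (T : Finset σ) (P : ℕ → Expr K σ) (i : ℕ) : ℕ :=
  if lcost T P i = 0 then 0 else B (lcost T P i) + 2

theorem Bnd.regs_good {B : ℕ → ℕ} {ok : ℕ → Prop} (hB : Bnd B ok) {T : Finset σ}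
    {X : Ξ → σ → TrivSqZeroExt K (ω → K)}
    (hT : ∀ ξ, ∀ v ∈ T, (X ξ v).snd = 0) (hc : ∀ ξ ξ' v, v ∉ T → X ξ v = X ξ' v)
    (P : ℕ → Expr K σ) (n : ℕ) (hok : ∀ i < n, (P i).DetOk ok) :
    ∃ A : Submodule K (ω → K),
      Module.finrank K A ≤ ∑ i ∈ Finset.range n, contrib B T P i ∧
      (∀ j, ¬ Disjoint (lineVars P n j) T → ∀ ξ, (regs (X ξ) P n j).snd ∈ A) ∧
      (∀ j, ¬ ¬ Disjoint (lineVars P n j) T → Cst (fun ξ => regs (X ξ) P n j)) := by
  induction n with
  | zero =>
    refine ⟨⊥, by simp, ?_, ?_⟩
    · intro j hj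
      simp [lineVars] at hj
    · intro j _ ξ ξ'
      rfl
  | succ n ih =>
    obtain ⟨A, hA, h1, h2⟩ := ih (fun i hi => hok i (by omega))
    obtain ⟨g1, g2⟩ := hB.good hT hc h1 h2 (P n) (hok n (by omega))
    have hl : (P n).cost T (fun j => ¬ Disjoint (lineVars P n j) T) = lcost T P n := rfl
    rw [hl] at g1 g2
    have hz : lcost T P n = 0 ↔ Disjoint ((P n).vars (lineVars P n)) T :=
      Expr.cost_eq_zero_iff T (lineVars P n) (P n)
    rw [Finset.sum_range_succ]
    by_cases h0 : lcost T P n = 0
    · refine ⟨A, ?_, ?_, ?_⟩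
      · omega
      · intro j hj ξ
        by_cases hjn : j = n
        · subst hjn
          simp only [lineVars, Function.update_self] at hj
          exact absurd (hz.mp h0) hj
        · simp only [lineVars, Function.update_of_ne hjn] at hj
          simp only [regs, Function.update_of_ne hjn]
          exact h1 j hj ξ
      · intro j hj ξ ξ'
        by_cases hjn : j = n
        · subst hjn
          simp only [regs, Function.update_self]
          exact g1 h0 ξ ξ'
        · simp only [lineVars, Function.update_of_ne hjn] at hj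
          simp only [regs, Function.update_of_ne hjn]
          exact h2 j hj ξ ξ'
    · obtain ⟨D, hD, hDm⟩ := (g2 (Nat.one_le_iff_ne_zero.mpr h0)).lin
      refine ⟨A ⊔ D, ?_, ?_, ?_⟩
      · have h3 := Submodule.finrank_add_le_finrank_add_finrank A D
        have h4 : contrib B T P n = B (lcost T P n) + 2 := if_neg h0
        omega
      · intro j hj ξ
        by_cases hjn : j = n
        · subst hjn
          simp only [regs, Function.update_self]
          exact hDm ξ
        · simp only [lineVars, Function.update_of_ne hjn] at hj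
          simp only [regs, Function.update_of_ne hjn]
          exact Submodule.mem_sup_left (h1 j hj ξ)
      · intro j hj ξ ξ'
        by_cases hjn : j = n
        · subst hjn
          simp only [lineVars, Function.update_self, not_not] at hj
          exact absurd (hz.mpr hj) h0
        · simp only [lineVars, Function.update_of_ne hjn] at hj
          simp only [regs, Function.update_of_ne hjn]
          exact h2 j hj ξ ξ'

theorem Bnd.value_good {B : ℕ → ℕ} {ok : ℕ → Prop} (hB : Bnd B ok) {T : Finset σ}
    {X : Ξ → σ → TrivSqZeroExt K (ω → K)}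
    (hT : ∀ ξ, ∀ v ∈ T, (X ξ v).snd = 0) (hc : ∀ ξ ξ' v, v ∉ T → X ξ v = X ξ' v)
    (P : ℕ → Expr K σ) (n : ℕ) (hok : ∀ i ≤ n, (P i).DetOk ok) :
    ∃ A : Submodule K (ω → K),
      Module.finrank K A ≤ ∑ i ∈ Finset.range (n + 1), contrib B T P i + 1 ∧
      ∀ ξ, (value (X ξ) P n).snd ∈ A := by
  obtain ⟨A, hA, h1, h2⟩ := hB.regs_good hT hc P (n + 1) (fun i hi => hok i (by omega))
  have hval : ∀ ξ, value (X ξ) P n = regs (X ξ) P (n + 1) n := by
    intro ξ
    simp only [regs, Function.update_self, value]
  by_cases h : Disjoint (lineVars P (n + 1) n) T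
  · obtain ⟨D, hD, hDm⟩ := (h2 n (not_not.mpr h)).lin (A := A)
    refine ⟨A ⊔ D, ?_, ?_⟩
    · have h3 := Submodule.finrank_add_le_finrank_add_finrank A D
      omega
    · intro ξ
      rw [hval ξ]
      exact hDm ξ
  · refine ⟨A, by omega, ?_⟩
    intro ξ
    rw [hval ξ]
    exact h1 n h ξ

lemma sum_contrib_linear (C : ℕ) (hC : 2 ≤ C) (T : Finset σ) (P : ℕ → Expr K σ) (n : ℕ) :
    ∑ i ∈ Finset.range (n + 1), contrib (fun e => C * (e - 1)) T P i ≤ C * tcost T P n := by
  unfold tcost
  rw [Finset.mul_sum]
  refine Finset.sum_le_sum fun i _ => ?_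
  unfold contrib
  split_ifs with h
  · exact Nat.zero_le _
  · obtain ⟨x, hx⟩ : ∃ x, lcost T P i = x + 1 := ⟨lcost T P i - 1, by omega⟩
    have h1 : (fun e => C * (e - 1)) (x + 1) = C * x := rfl
    rw [hx, h1, mul_add]
    omega

lemma sum_contrib_quadratic (T : Finset σ) (P : ℕ → Expr K σ) (n : ℕ) :
    (∑ i ∈ Finset.range n, contrib (fun e => (e - 1) ^ 2 + 8 * (e - 1)) T P i ≤
      (∑ i ∈ Finset.range n, lcost T P i) ^ 2 + 6 * ∑ i ∈ Finset.range n, lcost T P i) ∧
    (1 ≤ ∑ i ∈ Finset.range n, lcost T P i →
      ∑ i ∈ Finset.range n, contrib (fun e => (e - 1) ^ 2 + 8 * (e - 1)) T P i + 5 ≤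
      (∑ i ∈ Finset.range n, lcost T P i) ^ 2 + 6 * ∑ i ∈ Finset.range n, lcost T P i) := by
  induction n with
  | zero => simp
  | succ n ih =>
    rw [Finset.sum_range_succ, Finset.sum_range_succ]
    obtain ⟨h1, h2⟩ := ih
    set S := ∑ i ∈ Finset.range n, contrib (fun e => (e - 1) ^ 2 + 8 * (e - 1)) T P i
    set E := ∑ i ∈ Finset.range n, lcost T P i
    by_cases h : lcost T P n = 0
    · have : contrib (fun e => (e - 1) ^ 2 + 8 * (e - 1)) T P n = 0 := if_pos h
      rw [this, h]
      simpa using ⟨h1, h2⟩
    · have h3 : contrib (fun e => (e - 1) ^ 2 + 8 * (e - 1)) T P n =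
        (lcost T P n - 1) ^ 2 + 8 * (lcost T P n - 1) + 2 := if_neg h
      obtain ⟨x, hx⟩ : ∃ x, lcost T P n = x + 1 := ⟨lcost T P n - 1, by omega⟩
      rw [h3, hx, Nat.add_sub_cancel]
      have h4 : S + (x ^ 2 + 8 * x + 2) + 5 ≤ (E + (x + 1)) ^ 2 + 6 * (E + (x + 1)) := by
        nlinarith [Nat.zero_le (E * x), Nat.zero_le E]
      exact ⟨by omega, fun _ => h4⟩

end Jets

end Pool.Agent.W940.R
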