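import Mathlib
import Pool.Agent.W940.R5
import Pool.Agent.H53R6.Tree

/-! # Programs for the multiples of the permanent -/

set_option autoImplicit false
set_option linter.unusedSectionVars false

namespace Pool.Agent.W940.R

open Finset MvPolynomial Pool.Agent.H567.Nec Pool.Agent.H53R6

universe u

lemma count_general (m : ℕ) (E : Finset (Fin m × Fin m) → ℕ) (W c : ℕ) (a : ℕ → ℕ) (ha : a 1 = 0)
    (hsum : ∀ (s : Finset (Fin m × Fin (m / (2 * Nat.clog 2 m))))
      (T : Fin m × Fin (m / (2 * Nat.clog 2 m)) → Finset (Fin m × Fin m)),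
      (s : Set (Fin m × Fin (m / (2 * Nat.clog 2 m)))).PairwiseDisjoint T →
      ∑ b ∈ s, E (T b) ≤ W)
    (hloc : ∀ ℓ n' : ℕ, 2 * ℓ + n' = m → n' ≤ 2 ^ ℓ → 1 ≤ n' → ∀ r c' : Fin (2 * ℓ) → Fin m,
      Function.Injective r → Function.Injective c' → ∀ T : Finset (Fin m × Fin m),
      T = Finset.univ.image (fun s => (r s, c' s)) → a n' ≤ c * E T) :
    m * (m - 2 * Nat.clog 2 m) * a (m - 2 * Nat.clog 2 m) ≤ 2 * Nat.clog 2 m * (c * W) := by
  classical
  set ℓ := Nat.clog 2 m with hℓ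
  by_cases hm : m ≤ 2 * ℓ
  · rw [Nat.sub_eq_zero_of_le hm]; simp
  push Not at hm
  have hm0 : NeZero m := ⟨by omega⟩
  obtain ⟨n', hn'⟩ : ∃ n', 2 * ℓ + n' = m := ⟨m - 2 * ℓ, by omega⟩
  have hn2 : n' ≤ 2 ^ ℓ := by
    have := Nat.le_pow_clog (b := 2) (by norm_num) m
    rw [← hℓ] at this
    omega
  have hsub : m - 2 * ℓ = n' := by omega
  rw [hsub]
  rcases Nat.eq_zero_or_pos ℓ with h0 | h0
  · have hm1 : m ≤ 1 := by
      by_contra hcon
      have := Nat.clog_pos (b := 2) (n := m) (by norm_num) (by omega)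
      omega
    have hn1 : n' = 1 := by omega
    rw [hn1, ha]
    simp
  have hloc' : ∀ p : Fin m × Fin (m / (2 * ℓ)), a n' ≤ c * E (blk m (2 * ℓ) p) := by
    intro p
    exact hloc ℓ n' hn' hn2 (by omega) (rowB m (2 * ℓ) p.2)
      (colB m (2 * ℓ) p.1 p.2) (rowB_injective _ _ _) (colB_injective _ _ _ _) _ rfl
  have hs := hsum Finset.univ (blk m (2 * ℓ)) (blk_disjoint m (2 * ℓ))
  have h4 : (m * (m / (2 * ℓ))) * a n' ≤ c * W := by
    calc (m * (m / (2 * ℓ))) * a n'
        = ∑ _p : Fin m × Fin (m / (2 * ℓ)), a n' := by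
          rw [Finset.sum_const, Finset.card_univ, Fintype.card_prod, Fintype.card_fin,
            Fintype.card_fin, smul_eq_mul]
      _ ≤ ∑ p : Fin m × Fin (m / (2 * ℓ)), c * E (blk m (2 * ℓ) p) :=
          Finset.sum_le_sum (fun p _ => hloc' p)
      _ = c * ∑ p : Fin m × Fin (m / (2 * ℓ)), E (blk m (2 * ℓ) p) := by
          rw [Finset.mul_sum]
      _ ≤ c * W := Nat.mul_le_mul_left _ hs
  have h5 : n' ≤ 2 * ℓ * (m / (2 * ℓ)) := by
    have := Nat.div_add_mod m (2 * ℓ)
    have := Nat.mod_lt m (show 0 < 2 * ℓ by omega)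
    omega
  calc m * n' * a n' ≤ m * (2 * ℓ * (m / (2 * ℓ))) * a n' := by
        gcongr
    _ = 2 * ℓ * ((m * (m / (2 * ℓ))) * a n') := by ring
    _ ≤ 2 * ℓ * (c * W) := Nat.mul_le_mul_left _ h4

variable {k : Type u} [Field k] [CharZero k]

/-- programs with determinants of bounded order -/
theorem program_linear (m : ℕ) (g : MvPolynomial (Fin m × Fin m) k) (hg : g ≠ 0)
    (hv : ∀ X : Matrix (Fin m) (Fin m) k, X.permanent = 0 → eval (fun p => X p.1 p.2) g = 0)
    (P : ℕ → Expr (RatFunc k) (Fin m × Fin m)) (n : ℕ)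
    (hF : ∀ d : Fin m × Fin m →₀ ℕ, ((poly P n).coeff d).denom.eval 0 ≠ 0 ∧
      RatFunc.eval (RingHom.id k) 0 ((poly P n).coeff d) = g.coeff d)
    (C : ℕ) (hC : 4 ≤ C) (ok : ℕ → Prop) (hok : ∀ r, ok r → r + 7 ≤ C)
    (hP : ∀ i ≤ n, (P i).DetOk ok) :
    m * (m - 2 * Nat.clog 2 m) * ((m - 2 * Nat.clog 2 m) ^ 2 - 2)
      ≤ 2 * Nat.clog 2 m * (C * weight P n) := by
  classical
  have hvan : VanishesWithPer g := fun X hX => hv X hX
  refine count_general m (fun T => tcost T P n) (weight P n) C (fun x => x ^ 2 - 2) (by norm_num)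
    (fun s T hT => sum_tcost_le s T hT P n) ?_
  intro ℓ n' hm hn hn0 r c hr hc T hT
  obtain ⟨X, h1, h2, h3⟩ := exists_jets_border m ℓ n' hm hn hn0 r c hr hc g hg hvan.van (poly P n)
    hF T hT
  obtain ⟨D, hD, hDmem⟩ := (bnd_linear C hC ok hok).value_good (X := X) (T := T) h1 h2 P n hP
  have hTD : D = ⊤ := h3 D (fun ξ => by rw [aeval_poly]; exact hDmem ξ)
  rw [hTD, finrank_top] at hD
  simp only [Module.finrank_fintype_fun_eq_card, Fintype.card_fin] at hD
  have h4 := sum_contrib_linear C (by omega) T P n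
  omega

/-- programs with arbitrary determinants -/
theorem program_quadratic (m : ℕ) (g : MvPolynomial (Fin m × Fin m) k) (hg : g ≠ 0)
    (hv : ∀ X : Matrix (Fin m) (Fin m) k, X.permanent = 0 → eval (fun p => X p.1 p.2) g = 0)
    (P : ℕ → Expr (RatFunc k) (Fin m × Fin m)) (n : ℕ)
    (hF : ∀ d : Fin m × Fin m →₀ ℕ, ((poly P n).coeff d).denom.eval 0 ≠ 0 ∧
      RatFunc.eval (RingHom.id k) 0 ((poly P n).coeff d) = g.coeff d) :
    m * (m - 2 * Nat.clog 2 m) * (m - 2 * Nat.clog 2 m - 2)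
      ≤ 2 * Nat.clog 2 m * weight P n := by
  classical
  have hvan : VanishesWithPer g := fun X hX => hv X hX
  have key := count_general m (fun T => tcost T P n) (weight P n) 1 (fun x => x - 2) (by norm_num)
    (fun s T hT => sum_tcost_le s T hT P n) ?_
  · rw [one_mul] at key
    exact key
  intro ℓ n' hm hn hn0 r c hr hc T hT
  obtain ⟨X, h1, h2, h3⟩ := exists_jets_border m ℓ n' hm hn hn0 r c hr hc g hg hvan.van (poly P n)
    hF T hT
  have hok : ∀ f : Expr (RatFunc k) (Fin m × Fin m), f.DetOk (fun _ => True) := by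
    intro f
    induction f with
    | leaf i q => trivial
    | line j => trivial
    | const c => trivial
    | add f g ihf ihg => exact ⟨ihf, ihg⟩
    | mul f g ihf ihg => exact ⟨ihf, ihg⟩
    | det r t A₀ u v f ih => exact ⟨trivial, fun j => ih j⟩
    | gate r q c ih => exact fun a => ih a
  obtain ⟨D, hD, hDmem⟩ := (bnd_quadratic (fun _ => True)).value_good (X := X) (T := T) h1 h2 P n
    (fun i _ => hok (P i))
  have hTD : D = ⊤ := h3 D (fun ξ => by rw [aeval_poly]; exact hDmem ξ)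
  rw [hTD, finrank_top] at hD
  simp only [Module.finrank_fintype_fun_eq_card, Fintype.card_fin] at hD
  obtain ⟨h4, h5⟩ := sum_contrib_quadratic T P (n + 1)
  have h6 : tcost T P n = ∑ i ∈ Finset.range (n + 1), lcost T P i := rfl
  rw [← h6] at h4 h5
  set E := tcost T P n
  rw [one_mul]
  rcases Nat.eq_zero_or_pos E with h0 | h0
  · rw [h0] at h4
    have : n' ^ 2 ≤ 2 := by omega
    have : n' ≤ 1 := by
      by_contra hcon
      push Not at hcon
      nlinarith
    omega
  · have h7 := h5 h0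
    have h8 : n' ^ 2 + 4 ≤ E ^ 2 + 6 * E + 1 := by omega
    have h9 : n' < E + 3 := by
      by_contra hcon
      push Not at hcon
      nlinarith
    omega

end Pool.Agent.W940.R
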