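import Pool.Agent.W940.M9

/-! # Determinants which vanish on the zeros of the permanent -/

set_option autoImplicit false
set_option linter.unusedSectionVars false

open Module MvPolynomial

namespace Pool.Agent.W940.M

open Pool.Agent.H546R2.SL (perN)
open Pool.Agent.H632R2.Border (totalDegree_map_le)

/-- a determinant over the field is a constant family -/
lemma const_familyD (k : Type*) [Field k] {σ : Type*} (N δ : ℕ)
    (A : Matrix (Fin N) (Fin N) (MvPolynomial σ k)) (hA : ∀ i j, (A i j).totalDegree ≤ δ) :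
    ∃ A' : Matrix (Fin N) (Fin N) (MvPolynomial σ (RatFunc k)),
      (∀ i j, (A' i j).totalDegree ≤ δ) ∧
      ∀ m, (coeff m A'.det).denom.eval 0 ≠ 0 ∧
        RatFunc.eval (RingHom.id k) 0 (coeff m A'.det) = coeff m A.det := by
  refine ⟨A.map (map RatFunc.C), fun i j => (totalDegree_map_le _ _).trans (hA i j), ?_⟩
  intro m
  have h1 : (A.map (map (RatFunc.C (K := k)))).det = map RatFunc.C A.det := by
    rw [← RingHom.mapMatrix_apply, ← RingHom.map_det]
  rw [h1, coeff_map]
  refine ⟨?_, ?_⟩
  · rw [RatFunc.denom_C]; simp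
  · rw [RatFunc.eval_C]; rfl

/-- matrices which are singular wherever the permanent vanishes -/
theorem vanish_bound (K : Type*) [Field K] [CharZero K] (m N δ : ℕ) (hδ : 1 ≤ δ)
    (hm : 55000 * δ ≤ m) (A : Matrix (Fin N) (Fin N) (MvPolynomial (Fin m × Fin m) K))
    (hA : ∀ i j, (A i j).totalDegree ≤ δ) (hdet : A.det ≠ 0)
    (hvan : ∀ x : Fin m × Fin m → K, eval x (perN K m) = 0 → eval x A.det = 0) :
    m ^ 3 ≤ 2200000 * (δ * N) := by
  obtain ⟨A', hA', hdet'⟩ := const_familyD K N δ A hA
  exact multiples_bound K m N δ hδ hm A' hA' A.det hdet hdet' (fun u => by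
    obtain ⟨n, hn⟩ := perN_vanish K A.det hvan u
    refine ⟨n + 1, ?_⟩
    have h : (pderiv u (perN K m) * A.det) ^ (n + 1) =
        pderiv u (perN K m) ^ n * A.det * (pderiv u (perN K m) * A.det ^ n) := by ring
    rw [h]
    exact hn.mul_right _)

end Pool.Agent.W940.M
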