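import Mathlib
import Pool.Agent.H410R2.MSieve3
import Pool.Agent.H361R2.T3
import Pool.Agent.W25.UN.Stm

/-! UB-NWL, part 1: the diagonal lower bound and the sum over the colourings. -/

set_option autoImplicit false

namespace Pool.Agent.W940.UBa

open Finset
open Pool.Agent.H410R2
open Pool.Agent.H361R2 (IsGram lap_identity)
open Pool.Agent.W25.UN (g1 Q1f)

section sv
variable {ι J : Type} [Fintype ι] [DecidableEq ι] [Fintype J] [DecidableEq J]

/-- diagonal kernel -/
noncomputable def dE (p : ℕ) : Option J → Option J → ℝ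
  | none, none => 1
  | none, some _ => 0
  | some _, none => 0
  | some j, some l => if j = l then (p : ℝ) - Fintype.card J else 0

theorem isGram_dE (p : ℕ) (hp : Fintype.card J + 1 ≤ p) : IsGram (dE (J := J) p) := by
  have h0 : (0 : ℝ) ≤ (p : ℝ) - Fintype.card J := by
    have : ((Fintype.card J + 1 : ℕ) : ℝ) ≤ p := by exact_mod_cast hp
    push_cast at this
    linarith
  refine (IsGram.diag (X := Option J) (fun a => match a with
    | none => 1
    | some j => (p : ℝ) - Fintype.card J) ?_).congr ?_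
  · rintro (_ | j)
    · norm_num
    · exact h0
  · rintro (_ | j) (_ | l)
    · simp [dE]
    · simp [dE]
    · simp [dE]
    · by_cases h : j = l
      · simp [dE, h]
      · simp [dE, h]

theorem isGram_g1_sub (p : ℕ) : IsGram (fun a b : Option J => g1 p a b - dE p a b) := by
  have hL : IsGram (fun a b : Option J => ∑ j ∈ (univ : Finset J), ∑ l ∈ (univ : Finset J),
      (1 / 2 : ℝ) * (((if a = some j then 1 else 0) - (if a = some l then 1 else 0)) *
       ((if b = some j then 1 else 0) - (if b = some l then 1 else 0)))) := by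
    apply IsGram.sum
    intro j _
    apply IsGram.sum
    intro l _
    exact (IsGram.rankOne (fun a : Option J =>
      ((if a = some j then (1 : ℝ) else 0) - (if a = some l then 1 else 0)))).smul (by norm_num)
  refine hL.congr ?_
  intro a b
  rw [lap_identity]
  rcases a with _ | j <;> rcases b with _ | l
  · simp [g1, dE]
  · simp [g1, dE]
  · simp [g1, dE]
  · by_cases h : j = l
    · subst h
      simp [g1, dE, Finset.sum_ite_eq]
    · have h' : ¬ l = j := fun e => h e.symm
      simp [g1, dE, h, h', Finset.sum_ite_eq]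

theorem q1_low (pr : ι → ℕ) (hp : ∀ t, Fintype.card J + 1 ≤ pr t) (c : (ι → Option J) → ℝ) :
    ∑ σ, c σ ^ 2 * mulc pr (fun p => (p : ℝ) - Fintype.card J) σ ≤ Q1f pr c := by
  have hgram : IsGram (fun σ τ : ι → Option J =>
      ∏ t, g1 (pr t) (σ t) (τ t) - ∏ t, dE (pr t) (σ t) (τ t)) :=
    IsGram.prod_sub univ (G := fun (t : ι) (σ τ : ι → Option J) => dE (pr t) (σ t) (τ t))
      (D := fun (t : ι) (σ τ : ι → Option J) => g1 (pr t) (σ t) (τ t))
      (fun t _ => (isGram_dE (pr t) (hp t)).pull (fun σ : ι → Option J => σ t))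
      (fun t _ => (isGram_g1_sub (pr t)).pull (fun σ : ι → Option J => σ t))
  have hnn := hgram.nonneg c
  have hsplit : ∑ σ : ι → Option J, ∑ τ : ι → Option J, c σ * c τ *
      (∏ t, g1 (pr t) (σ t) (τ t) - ∏ t, dE (pr t) (σ t) (τ t)) = Q1f pr c -
      ∑ σ : ι → Option J, ∑ τ : ι → Option J, c σ * c τ * ∏ t, dE (pr t) (σ t) (τ t) := by
    unfold Q1f
    rw [← Finset.sum_sub_distrib]
    apply Finset.sum_congr rfl; intro σ _
    rw [← Finset.sum_sub_distrib]
    apply Finset.sum_congr rfl; intro τ _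
    ring
  rw [hsplit] at hnn
  have hdiag : ∑ σ : ι → Option J, ∑ τ : ι → Option J, c σ * c τ *
        ∏ t, dE (pr t) (σ t) (τ t) =
      ∑ σ, c σ ^ 2 * mulc pr (fun p => (p : ℝ) - Fintype.card J) σ := by
    apply Finset.sum_congr rfl
    intro σ _
    rw [Finset.sum_eq_single σ]
    · have : ∏ t, dE (pr t) (σ t) (σ t) = mulc pr (fun p => (p : ℝ) - Fintype.card J) σ := by
        unfold mulc
        apply Finset.prod_congr rfl
        intro t _
        rcases σ t with _ | l
        · simp [dE]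
        · simp [dE]
      rw [this]
      ring
    · intro τ _ hτ
      obtain ⟨t, ht⟩ := Function.ne_iff.1 hτ
      have : dE (pr t) (σ t) (τ t) = 0 := by
        rcases h1 : σ t with _ | l <;> rcases h2 : τ t with _ | l'
        · exact absurd (by rw [h1, h2]) ht
        · rfl
        · rfl
        · have : ¬ l = l' := by
            intro e
            apply ht
            rw [h1, h2, e]
          simp [dE, this]
      rw [Finset.prod_eq_zero (Finset.mem_univ t) this, mul_zero]
    · intro h; exact absurd (Finset.mem_univ σ) h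
  rw [hdiag] at hnn
  linarith

/-- the good colourings -/
noncomputable def goodT (pr : ι → ℕ) (T : Finset J) (i : J) (z : ℝ) : Finset (ι → Option J) :=
  open Classical in
  univ.filter (fun σ => (∀ t, σ t ≠ some i) ∧ ∑ j ∈ T, lg pr (fib σ j) ≤ z)

theorem tuple_lower2 (pr : ι → ℕ) (T : Finset J) (i : J) (hiT : i ∉ T) (β : ℕ → ℝ)
    (hβ : ∀ t, 0 ≤ β (pr t))
    (GG : J → ℝ → ℝ) (hG : Prof J GG) (z M lam : ℝ) (hlam : 0 ≤ lam) (EE : ℝ → ℝ)
    (hE0 : ∀ s, 0 ≤ s → 0 ≤ EE s)
    (hE : ∀ s, 0 ≤ s → s ≤ M → Real.exp (lam * s) ≤ EE s)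
    (hcut : ∀ j ∈ T, ∀ s, 0 ≤ s → M < s → GG j s = 0) :
    (1 - (Fintype.card J : ℝ) ^ 2 * ∑ t, β (pr t) ^ 2) *
        (∏ j ∈ univ.erase i, ∑ a : Finset ι, (∏ t ∈ a, β (pr t)) * GG j (lg pr a) ^ 2) -
      Real.exp (-(lam * z)) *
        (∏ j ∈ univ.erase i, ∑ a : Finset ι, (∏ t ∈ a, β (pr t)) *
          (GG j (lg pr a) ^ 2 * (if j ∈ T then EE (lg pr a) else 1))) ≤
      ∑ σ ∈ goodT pr T i z, (∏ j ∈ univ.erase i, GG j (lg pr (fib σ j))) ^ 2 *
        mulc pr β σ := by
  classical
  set F : J → Finset ι → ℝ := fun j a => if j = i then (if a = ∅ then 1 else 0) else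
    (∏ t ∈ a, β (pr t)) * GG j (lg pr a) ^ 2 with hF
  set F' : J → Finset ι → ℝ := fun j a => if j = i then (if a = ∅ then 1 else 0) else
    (∏ t ∈ a, β (pr t)) * (GG j (lg pr a) ^ 2 * (if j ∈ T then EE (lg pr a) else 1)) with hF'
  have hb : ∀ a : Finset ι, 0 ≤ ∏ t ∈ a, β (pr t) := fun a => Finset.prod_nonneg fun t _ => hβ t
  have hF0 : ∀ j a, 0 ≤ F j a := by
    intro j a
    simp only [hF]
    split_ifs
    · norm_num
    · norm_num
    · exact mul_nonneg (hb a) (sq_nonneg _)
  have hF'0 : ∀ j a, 0 ≤ F' j a := by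
    intro j a
    simp only [hF']
    split_ifs
    · norm_num
    · norm_num
    · exact mul_nonneg (hb a) (mul_nonneg (sq_nonneg _) (hE0 _ (lg_nonneg _ _)))
    · exact mul_nonneg (hb a) (mul_nonneg (sq_nonneg _) zero_le_one)
  -- the value of the product
  have hval : ∀ σ : ι → Option J, (∀ t, σ t ≠ some i) → ∏ j, F j (fib σ j) =
      (∏ j ∈ univ.erase i, GG j (lg pr (fib σ j))) ^ 2 * mulc pr β σ := by
    intro σ hσ
    have hemp : fib σ i = ∅ := (fib_eq_empty σ i).2 hσ
    rw [mulc_eq, ← Finset.mul_prod_erase univ _ (Finset.mem_univ i),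
      ← Finset.mul_prod_erase univ (fun j => ∏ t ∈ fib σ j, β (pr t)) (Finset.mem_univ i), hemp]
    have e1 : F i ∅ = 1 := by simp [hF]
    rw [e1, Finset.prod_empty, one_mul, one_mul, ← Finset.prod_pow, ← Finset.prod_mul_distrib]
    refine Finset.prod_congr rfl fun j hj => ?_
    simp only [hF, if_neg (Finset.ne_of_mem_erase hj)]
    ring
  have hval0 : ∀ σ : ι → Option J, ¬ (∀ t, σ t ≠ some i) → ∏ j, F j (fib σ j) = 0 := by
    intro σ hσ
    apply Finset.prod_eq_zero (Finset.mem_univ i)
    have : fib σ i ≠ ∅ := fun h => hσ ((fib_eq_empty σ i).1 h)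
    simp [hF, this]
  have hval' : ∀ σ : ι → Option J, (∀ t, σ t ≠ some i) → ∏ j, F' j (fib σ j) =
      (∏ j, F j (fib σ j)) * ∏ j ∈ T, EE (lg pr (fib σ j)) := by
    intro σ hσ
    have hemp : fib σ i = ∅ := (fib_eq_empty σ i).2 hσ
    have hT : ∏ j ∈ T, EE (lg pr (fib σ j)) =
        ∏ j ∈ univ.erase i, (if j ∈ T then EE (lg pr (fib σ j)) else 1) := by
      rw [Finset.prod_ite_mem]
      apply Finset.prod_congr _ (fun _ _ => rfl)
      ext j
      simp only [Finset.mem_inter, Finset.mem_erase, Finset.mem_univ, and_true]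
      constructor
      · intro h
        refine ⟨?_, h⟩
        rintro rfl
        exact hiT h
      · exact fun h => h.2
    rw [← Finset.mul_prod_erase univ _ (Finset.mem_univ i),
      ← Finset.mul_prod_erase univ (fun j => F j (fib σ j)) (Finset.mem_univ i), hemp]
    have e1 : F i ∅ = 1 := by simp [hF]
    have e2 : F' i ∅ = 1 := by simp [hF']
    rw [e1, e2, one_mul, one_mul, hT, ← Finset.prod_mul_distrib]
    refine Finset.prod_congr rfl fun j hj => ?_
    simp only [hF, hF', if_neg (Finset.ne_of_mem_erase hj)]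
    ring
  -- sums of F
  have hSi : ∑ a : Finset ι, F i a = 1 := by
    simp only [hF, if_true]
    rw [Finset.sum_ite_eq' univ (∅ : Finset ι) (fun _ => (1 : ℝ))]
    simp
  have hSi' : ∑ a : Finset ι, F' i a = 1 := by
    simp only [hF', if_true]
    rw [Finset.sum_ite_eq' univ (∅ : Finset ι) (fun _ => (1 : ℝ))]
    simp
  have hP : ∏ j, ∑ a : Finset ι, F j a =
      ∏ j ∈ univ.erase i, ∑ a : Finset ι, (∏ t ∈ a, β (pr t)) * GG j (lg pr a) ^ 2 := by
    rw [← Finset.mul_prod_erase univ _ (Finset.mem_univ i), hSi, one_mul]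
    refine Finset.prod_congr rfl fun j hj => Finset.sum_congr rfl fun a _ => ?_
    simp only [hF, if_neg (Finset.ne_of_mem_erase hj)]
  have hP' : ∏ j, ∑ a : Finset ι, F' j a =
      ∏ j ∈ univ.erase i, ∑ a : Finset ι, (∏ t ∈ a, β (pr t)) *
            (GG j (lg pr a) ^ 2 * (if j ∈ T then EE (lg pr a) else 1)) := by
    rw [← Finset.mul_prod_erase univ _ (Finset.mem_univ i), hSi', one_mul]
    refine Finset.prod_congr rfl fun j hj => Finset.sum_congr rfl fun a _ => ?_
    simp only [hF', if_neg (Finset.ne_of_mem_erase hj)]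
  -- lower bound for all tuples
  have hlow := sum_tuple_ge F hF0 (fun t => β (pr t)) hβ (by
    intro j t
    by_cases hj : j = i
    · subst hj
      rw [hSi]
      have : ∑ a ∈ univ.filter (fun a : Finset ι => t ∈ a), F j a = 0 := by
        apply Finset.sum_eq_zero
        intro a ha
        have hta : t ∈ a := (Finset.mem_filter.1 ha).2
        have : a ≠ ∅ := Finset.ne_empty_of_mem hta
        simp [hF, this]
      rw [this, mul_one]
      exact hβ t
    · have := sum_mem_le (fun t => β (pr t)) hβ (fun a => GG j (lg pr a) ^ 2)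
        (fun a => sq_nonneg _) (fun a b hab => by
          apply pow_le_pow_left₀ (hG.nonneg j _ (lg_nonneg _ _))
          exact hG.anti j _ _ (lg_nonneg _ _) (lg_mono pr hab)) t
      simp only [hF, if_neg hj]
      exact this)
  rw [hP] at hlow
  have hup := sum_tuple_le F' hF'0
  rw [hP'] at hup
  -- split
  have hsplit : ∑ σ : ι → Option J, ∏ j, F j (fib σ j) ≤
      ∑ σ ∈ goodT pr T i z, (∏ j ∈ univ.erase i, GG j (lg pr (fib σ j))) ^ 2 * mulc pr β σ +
      Real.exp (-(lam * z)) * ∑ σ : ι → Option J, ∏ j, F' j (fib σ j) := by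
    have e1 : ∑ σ ∈ goodT pr T i z, (∏ j ∈ univ.erase i, GG j (lg pr (fib σ j))) ^ 2 *
        mulc pr β σ = ∑ σ ∈ goodT pr T i z, ∏ j, F j (fib σ j) := by
      refine Finset.sum_congr rfl fun σ hσ => ?_
      rw [hval σ ((Finset.mem_filter.1 hσ).2.1)]
    rw [e1, goodT, Finset.sum_filter, Finset.mul_sum, ← Finset.sum_add_distrib]
    apply Finset.sum_le_sum
    intro σ _
    have hpos' : 0 ≤ ∏ j, F' j (fib σ j) := Finset.prod_nonneg fun j _ => hF'0 _ _
    split_ifs with hc
    · have : 0 ≤ Real.exp (-(lam * z)) * ∏ j, F' j (fib σ j) :=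
        mul_nonneg (Real.exp_pos _).le hpos'
      linarith
    · rw [zero_add]
      by_cases hσ : ∀ t, σ t ≠ some i
      · have hz : z < ∑ j ∈ T, lg pr (fib σ j) := by
          by_contra hcon
          exact hc ⟨hσ, not_lt.1 hcon⟩
        by_cases hzero : ∃ j, j ∈ T ∧ M < lg pr (fib σ j)
        · obtain ⟨j, hj1, hj2⟩ := hzero
          have hj3 : j ≠ i := fun h => hiT (h ▸ hj1)
          have : ∏ j, F j (fib σ j) = 0 := by
            apply Finset.prod_eq_zero (Finset.mem_univ j)
            simp only [hF, if_neg hj3]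
            rw [hcut j hj1 _ (lg_nonneg _ _) hj2]
            simp
          rw [this]
          exact mul_nonneg (Real.exp_pos _).le hpos'
        · push Not at hzero
          rw [hval' σ hσ]
          have hFpos : 0 ≤ ∏ j, F j (fib σ j) := Finset.prod_nonneg fun j _ => hF0 _ _
          have hprodE : Real.exp (lam * ∑ j ∈ T, lg pr (fib σ j)) ≤
              ∏ j ∈ T, EE (lg pr (fib σ j)) := by
            rw [Finset.mul_sum, Real.exp_sum]
            apply Finset.prod_le_prod
            · intro j _; exact (Real.exp_pos _).le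
            · intro j hj
              exact hE _ (lg_nonneg _ _) (hzero j hj)
          have h1 : 1 ≤ Real.exp (-(lam * z)) * ∏ j ∈ T, EE (lg pr (fib σ j)) := by
            calc (1 : ℝ) ≤ Real.exp (-(lam * z)) * Real.exp (lam * ∑ j ∈ T,
                  lg pr (fib σ j)) := by
                  rw [← Real.exp_add]
                  apply Real.one_le_exp
                  nlinarith
              _ ≤ _ := mul_le_mul_of_nonneg_left hprodE (Real.exp_pos _).le
          nlinarith
      · rw [hval0 σ hσ]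
        exact mul_nonneg (Real.exp_pos _).le hpos'
  have hexp : 0 ≤ Real.exp (-(lam * z)) := (Real.exp_pos _).le
  have := mul_le_mul_of_nonneg_left hup hexp
  linarith

/-- the loss from the primes already used -/
theorem mbound (pr : ι → ℕ) (D' : ℕ) (L : ℝ) (hL : 2 ≤ L) (hD : L ^ 2 ≤ (D' : ℝ))
    (hp : ∀ t, D' < pr t) (σ : ι → Option J) (hσ : lgt pr σ ≤ 3 * L) :
    (∏ t, if σ t = none then 1 else ((pr t : ℝ) / ((pr t : ℝ) - 1))) ≤ Real.exp (3 / L) := by
  have hD4 : (4 : ℝ) ≤ D' := by nlinarith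
  have h1 : ∀ t, (if σ t = none then 1 else ((pr t : ℝ) / ((pr t : ℝ) - 1))) ≤
      Real.exp ((if σ t = none then 0 else Real.log (pr t)) / L ^ 2) := by
    intro t
    have hpt : (D' : ℝ) + 1 ≤ pr t := by exact_mod_cast hp t
    have hp1 : (0 : ℝ) < (pr t : ℝ) - 1 := by linarith
    split_ifs
    · simp
    · have e : (pr t : ℝ) / ((pr t : ℝ) - 1) = 1 + 1 / ((pr t : ℝ) - 1) := by
        field_simp
        ring
      rw [e]
      have h2 : 1 / ((pr t : ℝ) - 1) ≤ Real.log (pr t) / L ^ 2 := by
        have h3 : 1 ≤ Real.log (pr t) := by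
          rw [Real.le_log_iff_exp_le (by linarith)]
          have := Real.exp_one_lt_d9
          linarith
        have h4 : L ^ 2 ≤ (pr t : ℝ) - 1 := by linarith
        have h5 : (0 : ℝ) < L ^ 2 := by positivity
        rw [div_le_div_iff₀ hp1 h5]
        nlinarith
      have h6 := Real.add_one_le_exp (Real.log (pr t) / L ^ 2)
      linarith
  have h0 : ∀ t, (0 : ℝ) ≤ (if σ t = none then 1 else ((pr t : ℝ) / ((pr t : ℝ) - 1))) := by
    intro t
    have hpt : (D' : ℝ) + 1 ≤ pr t := by exact_mod_cast hp t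
    have hp1 : (0 : ℝ) < (pr t : ℝ) - 1 := by linarith
    split_ifs
    · norm_num
    · exact div_nonneg (by linarith) hp1.le
  refine (Finset.prod_le_prod (fun t _ => h0 t) (fun t _ => h1 t)).trans ?_
  rw [← Real.exp_sum, ← Finset.sum_div]
  apply Real.exp_le_exp.2
  have : (∑ t, if σ t = none then 0 else Real.log (pr t)) = lgt pr σ := rfl
  rw [this, div_le_div_iff₀ (by positivity) (by linarith)]
  nlinarith

end sv

end Pool.Agent.W940.UBa
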