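import Mathlib
import Pool.Agent.W940.UBa
import Pool.Agent.W25.UB.Stm2

/-! UB-NWL, part 2: pointwise lower bound of the modified weights. -/

set_option autoImplicit false

namespace Pool.Agent.W940.UBb

open Finset Filter Topology
open Pool.Agent.H410R2 hiding GP GP_prof GP_cut_some GP_cut_none GP_lip gg_pos gg_le_one gg_anti ee_bound ee_nonneg gg_lip LB_gg LB_ee Sums exists_sums yx wx wxi Br sum_GP_none sum_GP_some sum_GP_some_ee sum_GP_some_one sum_GPr_none sum_GPr_some S1_final QI_final S2_final w_abs_le wmax gg ee I1 I2 IE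
open Pool.Agent.H361R2.GM
open Pool.Agent.H362R2.CM
open Pool.Agent.W25.UN
open Pool.Agent.W25.UB
open Pool.Agent.W940.UBa

theorem era_of_ne {ι J : Type} [DecidableEq J] (j : J) (σ : ι → Option J)
    (h : ∀ t, σ t ≠ some j) : era j σ = σ := by
  funext t
  unfold era
  rw [if_neg (h t)]

theorem fib_ext_self {ι J : Type} [Fintype ι] [DecidableEq ι] [Fintype J] [DecidableEq J]
    (σ : ι → Option J) (i : J) (hσ : ∀ t, σ t ≠ some i)
    (a : Finset ι) (ha : a ⊆ univ.filter (fun t => σ t = none)) : fib (extC σ i a) i = a := by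
  ext t
  rw [mem_fib]
  unfold extC
  constructor
  · intro h
    split_ifs at h with h1 h2
    · exact absurd h (hσ t)
    · exact h2
  · intro h
    have h0 : σ t = none := (Finset.mem_filter.1 (ha h)).2
    simp [h0, h]

theorem fib_ext_ne {ι J : Type} [Fintype ι] [DecidableEq ι] [Fintype J] [DecidableEq J]
    (σ : ι → Option J) (i : J) (a : Finset ι) (l : J) (hl : l ≠ i) :
    fib (extC σ i a) l = fib σ l := by
  ext t
  rw [mem_fib, mem_fib]
  unfold extC
  constructor
  · intro h
    split_ifs at h with h1 h2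
    · exact h
    · exact absurd (Option.some_inj.1 h) (Ne.symm hl)
  · intro h
    rw [if_pos (by rw [h]; simp), h]

theorem YY_uj0 {ι J : Type} [Fintype ι] [DecidableEq ι] [Fintype J] [DecidableEq J]
    (j : J) (pr : ι → ℕ) (hp : ∀ t, 2 ≤ pr t) (ρ : ι → Option J) (hρ : ∀ t, ρ t ≠ some j) :
    YY j pr (uj j pr 0) ρ = 1 := by
  classical
  apply le_antisymm
  · have h := YY_le j pr hp (uj j pr 0)
      (fun l a => if l = j then (if lg pr a ≤ 0 then 1 else 0) else 1)
      (fun l a => by split_ifs <;> norm_num) (fun τ => by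
        rw [← Finset.mul_prod_erase univ _ (Finset.mem_univ j), if_pos rfl]
        have : ∏ l ∈ univ.erase j, (if l = j then (if lg pr (fib τ l) ≤ 0 then (1 : ℝ) else 0)
            else 1) = 1 := by
          apply Finset.prod_eq_one
          intro l hl
          rw [if_neg (Finset.ne_of_mem_erase hl)]
        rw [this, mul_one]
        exact le_of_eq rfl) ρ hρ
    refine h.trans ?_
    have e1 : ∏ l ∈ univ.erase j, (if l = j then (if lg pr (fib ρ l) ≤ 0 then (1 : ℝ) else 0)
        else 1) = 1 := by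
      apply Finset.prod_eq_one
      intro l hl
      rw [if_neg (Finset.ne_of_mem_erase hl)]
    rw [e1, one_mul]
    simp only [if_true]
    rw [Finset.sum_eq_single (∅ : Finset ι)]
    · simp [lg]
    · intro a _ ha
      rw [if_neg, zero_mul]
      obtain ⟨t, ht⟩ := Finset.nonempty_iff_ne_empty.2 ha
      have h1 : Real.log (pr t) ≤ lg pr a :=
        Finset.single_le_sum (f := fun t => Real.log (pr t))
          (fun s _ => Real.log_natCast_nonneg _) ht
      have h2 : 0 < Real.log (pr t) := by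
        apply Real.log_pos
        have : (2 : ℝ) ≤ pr t := by exact_mod_cast hp t
        linarith
      linarith
    · intro h; exact absurd (Finset.mem_univ _) h
  · have h := le_YY j pr hp (uj j pr 0) (uj_nonneg j pr 0) ρ
    rw [uj_eq_one j pr 0 le_rfl ρ hρ] at h
    exact h

theorem YY_uj_le {ι J : Type} [Fintype ι] [DecidableEq ι] [Fintype J] [DecidableEq J]
    (j : J) (pr : ι → ℕ) (hp : ∀ t, 2 ≤ pr t) (Λ : ℝ) (ρ : ι → Option J)
    (hρ : ∀ t, ρ t ≠ some j) :
    YY j pr (uj j pr Λ) ρ ≤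
      ∑ a : Finset ι, (if lg pr a ≤ Λ then (1 : ℝ) else 0) * ∏ t ∈ a, (1 / ((pr t : ℝ) - 1)) := by
  classical
  have h := YY_le j pr hp (uj j pr Λ)
    (fun l a => if l = j then (if lg pr a ≤ Λ then 1 else 0) else 1)
    (fun l a => by split_ifs <;> norm_num) (fun τ => by
      rw [← Finset.mul_prod_erase univ _ (Finset.mem_univ j), if_pos rfl]
      have : ∏ l ∈ univ.erase j, (if l = j then (if lg pr (fib τ l) ≤ Λ then (1 : ℝ) else 0)
          else 1) = 1 := by
        apply Finset.prod_eq_one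
        intro l hl
        rw [if_neg (Finset.ne_of_mem_erase hl)]
      rw [this, mul_one]
      exact le_of_eq rfl) ρ hρ
  refine h.trans (le_of_eq ?_)
  have e1 : ∏ l ∈ univ.erase j, (if l = j then (if lg pr (fib ρ l) ≤ Λ then (1 : ℝ) else 0)
      else 1) = 1 := by
    apply Finset.prod_eq_one
    intro l hl
    rw [if_neg (Finset.ne_of_mem_erase hl)]
  rw [e1, one_mul]
  simp only [if_true]

variable {k : ℕ}

/-- the coordinates subject to the cut -/
def TT' (k : ℕ) (i j : Fin k) : Finset (Option (Fin k)) :=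
  (((univ : Finset (Option (Fin k))).erase (some j)).erase none).erase (some i)

theorem sum_all (i j : Fin k) (hij : i ≠ j) (f : Option (Fin k) → ℝ) :
    ∑ l, f l = f (some j) + (f none + (f (some i) + ∑ l ∈ TT' k i j, f l)) := by
  have hn : (none : Option (Fin k)) ∈ (univ : Finset (Option (Fin k))).erase (some j) := by simp
  have hi : (some i : Option (Fin k)) ∈
      ((univ : Finset (Option (Fin k))).erase (some j)).erase none := by
    simp [hij]
  rw [← Finset.add_sum_erase _ _ (Finset.mem_univ (some j)), ← Finset.add_sum_erase _ _ hn,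
    ← Finset.add_sum_erase _ _ hi]
  rfl

theorem prod_all (i j : Fin k) (hij : i ≠ j) (f : Option (Fin k) → ℝ) :
    ∏ l ∈ univ.erase (some j), f l = f none * (f (some i) * ∏ l ∈ TT' k i j, f l) := by
  have hn : (none : Option (Fin k)) ∈ (univ : Finset (Option (Fin k))).erase (some j) := by simp
  have hi : (some i : Option (Fin k)) ∈
      ((univ : Finset (Option (Fin k))).erase (some j)).erase none := by
    simp [hij]
  rw [← Finset.mul_prod_erase _ _ hn, ← Finset.mul_prod_erase _ _ hi]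
  rfl

/-- the condition on the cut -/
theorem zA_ge (Q : SPar) (P : Finset ℕ) (L : ℝ) (D' : ℕ) (i j : Fin k) (hij : i ≠ j)
    (hL : 2 ≤ L) (hD : L ^ 2 ≤ (D' : ℝ)) (hP : ∀ p ∈ P, D' < p)
    (τ : IP P → Option (Option (Fin k)))
    (h1 : lg (prP P) (fib τ (some i)) ≤ L) (h2 : lg (prP P) (fib τ none) ≤ L / 48)
    (h3 : lg (prP P) (fib τ (some j)) + ∑ l ∈ TT' k i j, lg (prP P) (fib τ l) ≤ (1 - Q.c) * L) :
    Real.exp (-(3 / L)) * (SS P h0 Q.c L Q.gg / SS P h0 1 L (fun _ => 1)) *
      (GP Q k L (L / 48) (some j) (lg (prP P) (fib τ (some j))) *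
        (GP Q k L (L / 48) none (lg (prP P) (fib τ none)) *
          ∏ l ∈ TT' k i j, GP Q k L (L / 48) l (lg (prP P) (fib τ l)))) ≤ zA Q k P L i τ := by
  classical
  have hL0 : 0 < L := by linarith
  have hD4 : (4 : ℝ) ≤ D' := by nlinarith
  have hD4' : 4 ≤ D' := by exact_mod_cast hD4
  have hP2 : ∀ p ∈ P, 2 ≤ p := fun p hp => by have := hP p hp; omega
  have hp2 : ∀ t : IP P, 2 ≤ prP P t := fun t => hP2 t.1 t.2
  have hpD : ∀ t : IP P, D' < prP P t := fun t => hP t.1 t.2
  have hG := GP_prof Q k L (L / 48) hL0 (by positivity)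
  have hc := Q.hc
  have hc1 := Q.hc1
  set ρ := era (some i) τ with hρd
  have hρ : ∀ t, ρ t ≠ some (some i) := era_ne (some i) τ
  have hfρ : ∀ l, l ≠ some i → fib ρ l = fib τ l := fun l hl => era_fib (some i) τ l hl
  have hji : (some j : Option (Fin k)) ≠ some i := fun h => hij (Option.some_inj.1 h).symm
  have hni : (none : Option (Fin k)) ≠ some i := by simp
  -- the product of the profiles
  set Yo : ℝ := ∏ l ∈ univ.erase (some i), GP Q k L (L / 48) l (lg (prP P) (fib ρ l)) with hYo
  have hYo0 : 0 ≤ Yo := Finset.prod_nonneg fun l _ => hG.nonneg l _ (lg_nonneg _ _)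
  have hjT : ∀ f : Option (Fin k) → ℝ, ∏ l ∈ univ.erase (some i), f l =
      f (some j) * (f none * ∏ l ∈ TT' k i j, f l) := by
    intro f
    rw [prod_all j i hij.symm f]
    have : TT' k j i = TT' k i j := by
      ext l
      simp only [TT', Finset.mem_erase, Finset.mem_univ]
      tauto
    rw [this]
    ring
  have hYo' : Yo = GP Q k L (L / 48) (some j) (lg (prP P) (fib τ (some j))) *
        (GP Q k L (L / 48) none (lg (prP P) (fib τ none)) *
          ∏ l ∈ TT' k i j, GP Q k L (L / 48) l (lg (prP P) (fib τ l))) := by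
    rw [hYo, hjT, hfρ _ hji, hfρ _ hni]
    congr 2
    apply Finset.prod_congr rfl
    intro l hl
    rw [hfρ l (Finset.ne_of_mem_erase hl)]
  -- sizes
  have hsum : ∀ f : Option (Fin k) → ℝ, ∑ l ∈ univ.erase none, f l =
      f (some i) + (f (some j) + ∑ l ∈ TT' k i j, f l) := by
    intro f
    have h := sum_all i j hij f
    rw [← Finset.add_sum_erase _ _ (Finset.mem_univ none)] at h
    linarith
  have hempt : fib ρ (some i) = ∅ := (fib_eq_empty ρ (some i)).2 hρ
  have hlg0 : lg (prP P) (∅ : Finset (IP P)) = 0 := by simp [lg]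
  have hlgt : lgt (prP P) ρ ≤ 3 * L := by
    rw [lgt_eq, sum_all i j hij, hempt, hlg0, hfρ _ hji, hfρ _ hni]
    have : ∑ l ∈ TT' k i j, lg (prP P) (fib ρ l) = ∑ l ∈ TT' k i j, lg (prP P) (fib τ l) := by
      apply Finset.sum_congr rfl
      intro l hl
      rw [hfρ l (Finset.ne_of_mem_erase hl)]
    rw [this]
    nlinarith
  -- numerator
  have hS := sumS_eq (k := k) Q P hP2 L h0 i
  have hnum := Y_ge (some i) (prP P) hp2 (yP Q k P L)
    (fun τ => yw_nonneg _ _ _ hG _ _) ρ (fun a => GP Q k L (L / 48) (some i) (lg (prP P) a))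
    (fun a => hG.nonneg _ _ (lg_nonneg _ _))
    (fun a b hab => hG.anti _ _ _ (lg_nonneg _ _) (lg_mono _ hab)) Yo hYo0 (by
      intro a ha
      by_cases hz : GP Q k L (L / 48) (some i) (lg (prP P) a) = 0
      · simp only [hz, mul_zero]
        exact yw_nonneg _ _ _ hG _ _
      · have hla : lg (prP P) a ≤ Q.c * L := by
          by_contra hcon
          exact hz (GP_cut_some Q k L (L / 48) (some i) (by simp) _ (lg_nonneg _ _)
            (not_le.1 hcon))
        have hfi := fib_ext_self ρ (some i) hρ a ha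
        have hfl := fun l hl => fib_ext_ne ρ (some i) a l hl
        have hcond : ∑ l ∈ univ.erase none, lg (prP P) (fib (extC ρ (some i) a) l) ≤ L := by
          rw [hsum, hfi, hfl _ hji, hfρ _ hji]
          have : ∑ l ∈ TT' k i j, lg (prP P) (fib (extC ρ (some i) a) l) =
              ∑ l ∈ TT' k i j, lg (prP P) (fib τ l) := by
            apply Finset.sum_congr rfl
            intro l hl
            rw [hfl l (Finset.ne_of_mem_erase hl), hfρ l (Finset.ne_of_mem_erase hl)]
          rw [this]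
          nlinarith
        unfold yP yw
        rw [if_pos hcond, mul_one, ← Finset.mul_prod_erase univ _ (Finset.mem_univ (some i)), hfi,
          mul_comm]
        apply le_of_eq
        congr 1
        apply Finset.prod_congr rfl
        intro l hl
        rw [hfl l (Finset.ne_of_mem_erase hl)])
  have hS' : ∑ a : Finset (IP P), GP Q k L (L / 48) (some i) (lg (prP P) a) *
      ∏ t ∈ a, (1 / ((prP P t : ℝ) - 1)) = SS P h0 Q.c L Q.gg := by
    rw [← hS]
    rfl
  rw [hS'] at hnum
  have hm := mbound (prP P) D' L hL hD hpD ρ hlgt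
  -- denominator
  have hden := YY_uj_le (some i) (prP P) hp2 L ρ hρ
  have hZ := sumZ_eq P hP2 L h0
  have hZ' : ∑ a : Finset (IP P), (if lg (prP P) a ≤ L then (1 : ℝ) else 0) *
      ∏ t ∈ a, (1 / ((prP P t : ℝ) - 1)) = SS P h0 1 L (fun _ => 1) := by
    rw [← hZ]
    rfl
  rw [hZ'] at hden
  have hdpos := YY_uj_pos (some i) (prP P) hp2 L hL0.le ρ hρ
  have hYnn := YY_nonneg (some i) (prP P) hp2 (yP Q k P L)
    (fun τ => yw_nonneg _ _ _ hG _ _) ρ
  set U := YY (some i) (prP P) (uj (some i) (prP P) L) ρ with hU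
  set V := YY (some i) (prP P) (yP Q k P L) ρ with hV
  have hVge : Real.exp (-(3 / L)) * (Yo * SS P h0 Q.c L Q.gg) ≤ V := by
    have h4 : Yo * SS P h0 Q.c L Q.gg ≤ Real.exp (3 / L) * V :=
      hnum.trans (mul_le_mul_of_nonneg_right hm hYnn)
    calc Real.exp (-(3 / L)) * (Yo * SS P h0 Q.c L Q.gg)
        ≤ Real.exp (-(3 / L)) * (Real.exp (3 / L) * V) :=
          mul_le_mul_of_nonneg_left h4 (Real.exp_pos _).le
      _ = V := by
          rw [← mul_assoc, ← Real.exp_add]
          simp
  have hz : zA Q k P L i τ = V / U := by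
    unfold zA zP ymod
    rw [← hρd]
    have : uj (some i) (prP P) L τ = 1 := by
      unfold uj
      rw [if_pos h1]
    rw [this, mul_one]
  rw [hz, ← hYo']
  have hS0 : 0 ≤ SS P h0 Q.c L Q.gg := by
    rw [← hS]
    apply Finset.sum_nonneg
    intro a _
    apply mul_nonneg (hG.nonneg _ _ (lg_nonneg _ _))
    apply Finset.prod_nonneg
    intro t _
    have : (2 : ℝ) ≤ (prP P t : ℝ) := by exact_mod_cast hp2 t
    unfold h0
    have : (0 : ℝ) < (prP P t : ℝ) - 1 := by linarith
    positivity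
  calc Real.exp (-(3 / L)) * (SS P h0 Q.c L Q.gg / SS P h0 1 L (fun _ => 1)) * Yo
      = (Real.exp (-(3 / L)) * (Yo * SS P h0 Q.c L Q.gg)) / SS P h0 1 L (fun _ => 1) := by ring
    _ ≤ V / U := by
        apply div_le_div₀ hYnn hVge hdpos hden

theorem zB_ge (Q : SPar) (P : Finset ℕ) (L : ℝ) (D' : ℕ) (i j : Fin k) (hij : i ≠ j)
    (hL : 2 ≤ L) (hD : L ^ 2 ≤ (D' : ℝ)) (hP : ∀ p ∈ P, D' < p)
    (σ : IP P → Option (Option (Fin k))) (hσ : ∀ t, σ t ≠ some (some j))
    (h3 : ∑ l ∈ TT' k i j, lg (prP P) (fib σ l) ≤ (1 - 2 * Q.c) * L) :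
    Real.exp (-(3 / L)) ^ 2 * (SS P h0 Q.c L Q.gg ^ 2 / SS P h0 1 L (fun _ => 1)) *
      ∏ l ∈ univ.erase (some j), GQ Q k L L i l (lg (prP P) (fib σ l)) ≤ zB Q k P L i j σ := by
  classical
  have hL0 : 0 < L := by linarith
  have hD4 : (4 : ℝ) ≤ D' := by nlinarith
  have hD4' : 4 ≤ D' := by exact_mod_cast hD4
  have hP2 : ∀ p ∈ P, 2 ≤ p := fun p hp => by have := hP p hp; omega
  have hp2 : ∀ t : IP P, 2 ≤ prP P t := fun t => hP2 t.1 t.2
  have hpD : ∀ t : IP P, D' < prP P t := fun t => hP t.1 t.2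
  have hG := GP_prof Q k L (L / 48) hL0 (by positivity)
  have hGQ := GQ_prof Q k L L hL0 i
  have hc := Q.hc
  have hc1 := Q.hc1
  have hji : (some j : Option (Fin k)) ≠ some i := fun h => hij (Option.some_inj.1 h).symm
  have hzA0 : ∀ τ, 0 ≤ zA Q k P L i τ := fun τ => zP_nonneg Q P hP2 L L hL0 i τ
  -- value of zB
  have hzB : zB Q k P L i j σ = YY (some j) (prP P) (zA Q k P L i) σ := by
    unfold zB ymod
    rw [era_of_ne (some j) σ hσ, YY_uj0 (some j) (prP P) hp2 σ hσ,
      uj_eq_one (some j) (prP P) 0 le_rfl σ hσ]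
    ring
  have hYnn := YY_nonneg (some j) (prP P) hp2 (zA Q k P L i) hzA0 σ
  rw [hzB]
  rw [prod_all i j hij]
  have hS0 : 0 ≤ SS P h0 Q.c L Q.gg := by
    rw [← sumS_eq (k := k) Q P hP2 L h0 i]
    apply Finset.sum_nonneg
    intro a _
    apply mul_nonneg (hG.nonneg _ _ (lg_nonneg _ _))
    apply Finset.prod_nonneg
    intro t _
    have : (2 : ℝ) ≤ (prP P t : ℝ) := by exact_mod_cast hp2 t
    unfold h0
    have : (0 : ℝ) < (prP P t : ℝ) - 1 := by linarith
    positivity
  have hD0 : 0 < SS P h0 1 L (fun _ => 1) := SSZ_pos P hP2 L hL0.le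
  -- the trivial cases
  by_cases c1 : lg (prP P) (fib σ (some i)) ≤ L
  swap
  · have : GQ Q k L L i (some i) (lg (prP P) (fib σ (some i))) = 0 := by
      unfold GQ
      rw [if_pos rfl, if_neg c1]
    rw [this, zero_mul, mul_zero, mul_zero]
    exact hYnn
  by_cases c2 : lg (prP P) (fib σ none) ≤ L / 48
  swap
  · have : GQ Q k L L i none (lg (prP P) (fib σ none)) = 0 := by
      unfold GQ
      rw [if_neg (by simp)]
      exact GP_cut_none Q k L (L / 48) _ (lg_nonneg _ _) (not_le.1 c2)
    rw [this, zero_mul, mul_zero]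
    exact hYnn
  have e1 : GQ Q k L L i (some i) (lg (prP P) (fib σ (some i))) = 1 := by
    unfold GQ
    rw [if_pos rfl, if_pos c1]
  have e2 : GQ Q k L L i none (lg (prP P) (fib σ none)) =
      GP Q k L (L / 48) none (lg (prP P) (fib σ none)) := by
    unfold GQ
    rw [if_neg (by simp)]
  have e3 : ∏ l ∈ TT' k i j, GQ Q k L L i l (lg (prP P) (fib σ l)) =
      ∏ l ∈ TT' k i j, GP Q k L (L / 48) l (lg (prP P) (fib σ l)) := by
    apply Finset.prod_congr rfl
    intro l hl
    unfold GQ
    rw [if_neg (Finset.ne_of_mem_erase hl)]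
  rw [e1, e2, e3, one_mul]
  set R : ℝ := GP Q k L (L / 48) none (lg (prP P) (fib σ none)) *
    ∏ l ∈ TT' k i j, GP Q k L (L / 48) l (lg (prP P) (fib σ l)) with hR
  have hR0 : 0 ≤ R := mul_nonneg (hG.nonneg _ _ (lg_nonneg _ _))
    (Finset.prod_nonneg fun l _ => hG.nonneg _ _ (lg_nonneg _ _))
  set C : ℝ := Real.exp (-(3 / L)) * (SS P h0 Q.c L Q.gg / SS P h0 1 L (fun _ => 1)) with hC
  have hC0 : 0 ≤ C := mul_nonneg (Real.exp_pos _).le (div_nonneg hS0 hD0.le)
  have hnum := Y_ge (some j) (prP P) hp2 (zA Q k P L i) hzA0 σ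
    (fun a => GP Q k L (L / 48) (some j) (lg (prP P) a))
    (fun a => hG.nonneg _ _ (lg_nonneg _ _))
    (fun a b hab => hG.anti _ _ _ (lg_nonneg _ _) (lg_mono _ hab)) (C * R)
    (mul_nonneg hC0 hR0) (by
      intro a ha
      by_cases hz : GP Q k L (L / 48) (some j) (lg (prP P) a) = 0
      · simp only [hz, mul_zero]
        exact hzA0 _
      · have hla : lg (prP P) a ≤ Q.c * L := by
          by_contra hcon
          exact hz (GP_cut_some Q k L (L / 48) (some j) (by simp) _ (lg_nonneg _ _)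
            (not_le.1 hcon))
        have hfj := fib_ext_self σ (some j) hσ a ha
        have hfl := fun l hl => fib_ext_ne σ (some j) a l hl
        have hT : ∀ l ∈ TT' k i j, l ≠ some j := fun l hl =>
          Finset.ne_of_mem_erase (Finset.mem_of_mem_erase (Finset.mem_of_mem_erase hl))
        have hsT : ∑ l ∈ TT' k i j, lg (prP P) (fib (extC σ (some j) a) l) =
            ∑ l ∈ TT' k i j, lg (prP P) (fib σ l) := by
          apply Finset.sum_congr rfl
          intro l hl
          rw [hfl l (hT l hl)]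
        have hpT : ∏ l ∈ TT' k i j, GP Q k L (L / 48) l (lg (prP P) (fib (extC σ (some j) a) l)) =
            ∏ l ∈ TT' k i j, GP Q k L (L / 48) l (lg (prP P) (fib σ l)) := by
          apply Finset.prod_congr rfl
          intro l hl
          rw [hfl l (hT l hl)]
        have h := zA_ge Q P L D' i j hij hL hD hP (extC σ (some j) a)
          (by rw [hfl _ hji.symm]; exact c1) (by rw [hfl _ (by simp)]; exact c2)
          (by rw [hfj, hsT]; linarith)
        rw [hfj, hpT, hfl none (by simp), ← hC, ← hR] at h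
        refine le_trans (le_of_eq ?_) h
        ring)
  have hS' : ∑ a : Finset (IP P), GP Q k L (L / 48) (some j) (lg (prP P) a) *
      ∏ t ∈ a, (1 / ((prP P t : ℝ) - 1)) = SS P h0 Q.c L Q.gg := by
    rw [← sumS_eq (k := k) Q P hP2 L h0 j]
    rfl
  rw [hS'] at hnum
  have hlgt : lgt (prP P) σ ≤ 3 * L := by
    have hempt : fib σ (some j) = ∅ := (fib_eq_empty σ (some j)).2 hσ
    have hlg0 : lg (prP P) (∅ : Finset (IP P)) = 0 := by simp [lg]
    rw [lgt_eq, sum_all i j hij, hempt, hlg0]
    nlinarith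
  have hm := mbound (prP P) D' L hL hD hpD σ hlgt
  set V := YY (some j) (prP P) (zA Q k P L i) σ with hV
  have h4 : C * R * SS P h0 Q.c L Q.gg ≤ Real.exp (3 / L) * V :=
    hnum.trans (mul_le_mul_of_nonneg_right hm hYnn)
  calc Real.exp (-(3 / L)) ^ 2 * (SS P h0 Q.c L Q.gg ^ 2 / SS P h0 1 L (fun _ => 1)) * R
      = Real.exp (-(3 / L)) * (C * R * SS P h0 Q.c L Q.gg) := by
        rw [hC]
        ring
    _ ≤ Real.exp (-(3 / L)) * (Real.exp (3 / L) * V) :=
        mul_le_mul_of_nonneg_left h4 (Real.exp_pos _).le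
    _ = V := by
        rw [← mul_assoc, ← Real.exp_add]
        simp

end Pool.Agent.W940.UBb
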