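import Mathlib
import Pool.Agent.W940.UBb

/-! UB-NWL: lower bound for the model form of the modified weights. -/

set_option autoImplicit false

namespace Pool.Agent.W940.UBNWL

open Finset Filter Topology
open Pool.Agent.H410R2 hiding GP GP_prof GP_cut_some GP_cut_none GP_lip gg_pos gg_le_one gg_anti ee_bound ee_nonneg gg_lip LB_gg LB_ee Sums exists_sums yx wx wxi Br sum_GP_none sum_GP_some sum_GP_some_ee sum_GP_some_one sum_GPr_none sum_GPr_some S1_final QI_final S2_final w_abs_le wmax gg ee I1 I2 IE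
open Pool.Agent.H361R2.GM
open Pool.Agent.H362R2.CM
open Pool.Agent.W25.UN
open Pool.Agent.W25.UB
open Pool.Agent.W940.UBa
open Pool.Agent.W940.UBb

theorem cw_sq {ι J : Type} [Fintype ι] [DecidableEq ι] [Fintype J] [DecidableEq J] (pr : ι → ℕ)
    (K : ℕ) (y : (ι → Option J) → ℝ) (σ : ι → Option J) :
    cw pr y σ ^ 2 * mulc pr (fun p => (p : ℝ) - K) σ = y σ ^ 2 * mulc pr (hb K) σ := by
  unfold cw mulc
  have : ∏ t, (if σ t = none then 1 else hb K (pr t)) =
      (∏ t, cf (pr t) (σ t)) ^ 2 * ∏ t, (if σ t = none then 1 else ((pr t : ℝ) - K)) := by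
    rw [← Finset.prod_pow, ← Finset.prod_mul_distrib]
    apply Finset.prod_congr rfl
    intro t _
    rcases σ t with _ | l
    · simp [cf]
    · simp only [reduceCtorEq, if_false, cf, hb]
      rw [neg_sq, div_pow, one_pow]
      ring
  rw [this]
  ring

theorem sum_inv_sq (D' : ℕ) (hD : 2 ≤ D') (P : Finset ℕ) (hP : ∀ p ∈ P, D' < p) :
    ∑ p ∈ P, 1 / ((p : ℝ) - 1) ^ 2 ≤ 1 / ((D' : ℝ) - 1) := by
  have hD2 : (2 : ℝ) ≤ D' := by exact_mod_cast hD
  have key : ∀ M : ℕ, D' + 1 ≤ M → ∑ n ∈ Ico (D' + 1) M, 1 / ((n : ℝ) - 1) ^ 2 ≤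
      1 / ((D' : ℝ) - 1) - 1 / ((M : ℝ) - 2) := by
    intro M hM
    induction M, hM using Nat.le_induction with
    | base =>
      simp only [Finset.Ico_self, Finset.sum_empty]
      push_cast
      have : (D' : ℝ) + 1 - 2 = D' - 1 := by ring
      rw [this]
      linarith
    | succ M hM ih =>
      rw [Finset.sum_Ico_succ_top hM]
      have hMr : (D' : ℝ) + 1 ≤ M := by exact_mod_cast hM
      have h1 : 1 / ((M : ℝ) - 1) ^ 2 ≤ 1 / ((M : ℝ) - 2) - 1 / ((M : ℝ) - 1) := by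
        have e : 1 / ((M : ℝ) - 2) - 1 / ((M : ℝ) - 1) = 1 / (((M : ℝ) - 2) * ((M : ℝ) - 1)) := by
          have h2 : (M : ℝ) - 2 ≠ 0 := by linarith
          have h3 : (M : ℝ) - 1 ≠ 0 := by linarith
          field_simp
          ring
        rw [e]
        apply one_div_le_one_div_of_le
        · apply mul_pos <;> linarith
        · nlinarith
      push_cast
      have : (M : ℝ) + 1 - 2 = M - 1 := by ring
      rw [this]
      linarith
  set M := P.sup id + D' + 1 with hM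
  have hsub : P ⊆ Ico (D' + 1) (M + 1) := by
    intro p hp
    rw [mem_Ico]
    have h1 := hP p hp
    have h2 : p ≤ P.sup id := Finset.le_sup (f := id) hp
    omega
  have h1 := Finset.sum_le_sum_of_subset_of_nonneg (f := fun n : ℕ => 1 / ((n : ℝ) - 1) ^ 2) hsub
    (fun _ _ _ => by positivity)
  refine h1.trans ((key (M + 1) (by omega)).trans ?_)
  have h2 : (0 : ℝ) ≤ 1 / (((M + 1 : ℕ) : ℝ) - 2) := by
    have h3 : (D' : ℝ) + 1 ≤ M := by
      have : D' + 1 ≤ M := by omega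
      exact_mod_cast this
    push_cast
    have : (0 : ℝ) < (M : ℝ) + 1 - 2 := by linarith
    positivity
  linarith

variable {k : ℕ}

theorem sumG_ee (Q : SPar) (P : Finset ℕ) (hP : ∀ p ∈ P, 2 ≤ p) (L Λ : ℝ) (h : ℕ → ℝ)
    (j m : Fin k) (hm : m ≠ j) :
    ∑ a : Finset (IP P), (∏ t ∈ a, h (prP P t)) *
      (GQ Q k L Λ j (some m) (lg (prP P) a) ^ 2 * Q.ee (lg (prP P) a / L)) =
      SS P h Q.c L (fun t => Q.gg t ^ 2 * Q.ee t) := by
  rw [SS_eq _ _ _ _ _ (fun p hp => by have := hP p hp; omega)]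
  refine Finset.sum_congr rfl fun a _ => ?_
  have : (some m : Option (Fin k)) ≠ some j := fun h => hm (Option.some_inj.1 h)
  simp only [GQ, GP, if_neg this]
  congr 1
  split_ifs <;> simp

theorem TT_card (i j : Fin k) (hij : i ≠ j) : (TT' k i j).card = k - 2 := by
  have hn : (none : Option (Fin k)) ∈ (univ : Finset (Option (Fin k))).erase (some j) := by simp
  have hi : (some i : Option (Fin k)) ∈
      ((univ : Finset (Option (Fin k))).erase (some j)).erase none := by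
    simp [hij]
  unfold TT'
  rw [Finset.card_erase_of_mem hi, Finset.card_erase_of_mem hn,
    Finset.card_erase_of_mem (Finset.mem_univ _), Finset.card_univ, cardJ]
  omega

theorem main (_hS1G : Pool.Agent.W25.UN.S1Gen) : St_NWL := by
  classical
  intro k Q ε hε hε1 hI1 hI2 hBr
  have hK0 : (0 : ℝ) ≤ k := Nat.cast_nonneg k
  refine ⟨2 + 3 / ε + 4 * ((k : ℝ) + 2) ^ 2 / ε, ?_⟩
  intro L b D' P i j Lf _hSD hL0 hLD hP hB hb0 hS hij
  have a1 : 0 ≤ 3 / ε := by positivity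
  have a2 : 0 ≤ 4 * ((k : ℝ) + 2) ^ 2 / ε := by positivity
  have hL2 : 2 ≤ L := by linarith
  have hL3 : 3 / ε ≤ L := by linarith
  have hL4 : 4 * ((k : ℝ) + 2) ^ 2 / ε ≤ L := by linarith
  have hL0' : 0 < L := by linarith
  have hbp : 0 < b := by rw [hb0]; positivity
  rw [div_le_iff₀ hε] at hL3 hL4
  have hk2 : ((k : ℝ) + 2) ≤ L := by nlinarith
  have hkD : ((k : ℝ) + 2) ≤ D' := by nlinarith
  have hkD' : k + 2 ≤ D' := by exact_mod_cast hkD
  have hD4 : (4 : ℝ) ≤ D' := by nlinarith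
  have hD4' : 4 ≤ D' := by exact_mod_cast hD4
  have hP' : ∀ p ∈ P, D' < p := fun p hp => (hP p hp).2
  have hP2 : ∀ p ∈ P, 2 ≤ p := fun p hp => by have := hP' p hp; omega
  have hp2 : ∀ t : IP P, 2 ≤ prP P t := fun t => hP2 t.1 t.2
  have hpD : ∀ t : IP P, D' < prP P t := fun t => hP' t.1 t.2
  have hc := Q.hc
  have hc1 := Q.hc1
  have hlam := Q.hlam
  -- the densities
  have hhb0 : ∀ p : ℕ, D' < p → 0 ≤ hb (k + 1) p := by
    intro p hp
    have h1 : (D' : ℝ) + 1 ≤ p := by exact_mod_cast hp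
    unfold Pool.Agent.H410R2.hb
    push_cast
    apply div_nonneg
    · linarith
    · positivity
  have hhbt : ∀ t : IP P, 0 ≤ hb (k + 1) (prP P t) := fun t => hhb0 _ (hpD t)
  have hmulc0 : ∀ σ : IP P → Option (Option (Fin k)), 0 ≤ mulc (prP P) (hb (k + 1)) σ := by
    intro σ
    unfold mulc
    apply Finset.prod_nonneg
    intro t _
    split_ifs
    · norm_num
    · exact hhbt t
  -- the overlap
  have hov : ((k : ℝ) + 1) ^ 2 * ∑ t : IP P, hb (k + 1) (prP P t) ^ 2 ≤ ε := by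
    have h1 : ∑ t : IP P, hb (k + 1) (prP P t) ^ 2 ≤ ∑ p ∈ P, 1 / ((p : ℝ) - 1) ^ 2 := by
      have e : ∑ p ∈ P, 1 / ((p : ℝ) - 1) ^ 2 = ∑ t : IP P, 1 / ((prP P t : ℝ) - 1) ^ 2 := by
        rw [← Finset.sum_coe_sort P]
      rw [e]
      apply Finset.sum_le_sum
      intro t _
      have h2 : (D' : ℝ) + 1 ≤ prP P t := by exact_mod_cast hpD t
      have h3 : hb (k + 1) (prP P t) ≤ 1 / ((prP P t : ℝ) - 1) := by
        unfold Pool.Agent.H410R2.hb
        push_cast
        have h4 : (0 : ℝ) < (prP P t : ℝ) - 1 := by linarith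
        rw [div_le_div_iff₀ (by positivity) h4]
        nlinarith
      calc hb (k + 1) (prP P t) ^ 2 ≤ (1 / ((prP P t : ℝ) - 1)) ^ 2 :=
            pow_le_pow_left₀ (hhbt t) h3 2
        _ = _ := by rw [div_pow, one_pow]
    have h2 := sum_inv_sq D' (by omega) P hP'
    have h3 : 1 / ((D' : ℝ) - 1) ≤ 2 / L := by
      rw [div_le_div_iff₀ (by linarith) hL0']
      nlinarith
    have h4 : ((k : ℝ) + 1) ^ 2 * (2 / L) ≤ ε := by
      rw [← mul_div_assoc, div_le_iff₀ hL0']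
      nlinarith
    exact (mul_le_mul_of_nonneg_left ((h1.trans h2).trans h3) (by positivity)).trans h4
  -- the diagonal bound
  have hq := q1_low (J := Option (Fin k)) (prP P) (fun t => by
    rw [cardJ]
    have := hpD t
    omega) (cw (prP P) (zB Q k P L i j))
  rw [cardJ] at hq
  -- pointwise
  set S := SS P h0 Q.c L Q.gg with hSdef
  set Dn := SS P h0 1 L (fun _ => 1) with hDn
  have hSlow : b * (Q.I1 - ε) ≤ S := by rw [hb0]; exact hS.l4
  have hSpos : 0 < b * (Q.I1 - ε) := mul_pos hbp (by linarith)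
  have hDnup : Dn ≤ b * (1 + ε) := by rw [hb0]; exact hS.u5
  have hDnpos : 0 < Dn := SSZ_pos P hP2 L hL0'.le
  have hexp : 1 - ε ≤ Real.exp (-(3 / L)) := by
    have h1 := Real.add_one_le_exp (-(3 / L))
    have h2 : 3 / L ≤ ε := by rw [div_le_iff₀ hL0']; linarith
    linarith
  have h1ε : 0 < 1 - ε := by linarith
  set C2 : ℝ := (1 - ε) ^ 2 * ((b * (Q.I1 - ε)) ^ 2 / (b * (1 + ε))) with hC2
  have hC20 : 0 ≤ C2 := by
    rw [hC2]
    apply mul_nonneg (by positivity)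
    apply div_nonneg (by positivity)
    apply mul_nonneg hbp.le
    linarith
  have hGQ := GQ_prof Q k L L hL0' i
  set G : (IP P → Option (Option (Fin k))) → ℝ := fun σ =>
    ∏ l ∈ univ.erase (some j), GQ Q k L L i l (lg (prP P) (fib σ l)) with hG
  have hG0 : ∀ σ, 0 ≤ G σ := fun σ => Finset.prod_nonneg fun l _ => hGQ.nonneg _ _ (lg_nonneg _ _)
  set z : ℝ := (1 - 2 * Q.c) * L with hz
  have hpt : ∀ σ ∈ goodT (prP P) (TT' k i j) (some j) z, C2 ^ 2 * (G σ ^ 2 *
      mulc (prP P) (hb (k + 1)) σ) ≤ zB Q k P L i j σ ^ 2 * mulc (prP P) (hb (k + 1)) σ := by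
    intro σ hσ
    obtain ⟨-, h1, h2⟩ := Finset.mem_filter.1 hσ
    have h3 := zB_ge Q P L D' i j hij hL2 hLD hP' σ h1 h2
    have h4 : C2 * G σ ≤ zB Q k P L i j σ := by
      refine le_trans ?_ h3
      apply mul_le_mul_of_nonneg_right _ (hG0 σ)
      rw [hC2]
      apply mul_le_mul
      · exact pow_le_pow_left₀ h1ε.le hexp 2
      · apply div_le_div₀ (by positivity) _ hDnpos hDnup
        exact pow_le_pow_left₀ hSpos.le hSlow 2
      · apply div_nonneg (by positivity)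
        apply mul_nonneg hbp.le
        linarith
      · positivity
    rw [← mul_assoc, ← mul_pow]
    apply mul_le_mul_of_nonneg_right _ (hmulc0 σ)
    exact pow_le_pow_left₀ (mul_nonneg hC20 (hG0 σ)) h4 2
  have hsum1 : C2 ^ 2 * ∑ σ ∈ goodT (prP P) (TT' k i j) (some j) z, G σ ^ 2 *
      mulc (prP P) (hb (k + 1)) σ ≤ Q1f (prP P) (cw (prP P) (zB Q k P L i j)) := by
    refine le_trans ?_ hq
    rw [Finset.mul_sum]
    refine (Finset.sum_le_sum hpt).trans ?_
    have e : ∀ σ, cw (prP P) (zB Q k P L i j) σ ^ 2 *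
        mulc (prP P) (fun p => (p : ℝ) - ((k + 1 : ℕ) : ℝ)) σ =
        zB Q k P L i j σ ^ 2 * mulc (prP P) (hb (k + 1)) σ := fun σ => cw_sq _ _ _ _
    rw [Finset.sum_congr rfl (fun σ _ => e σ)]
    exact Finset.sum_le_sum_of_subset_of_nonneg (Finset.subset_univ _)
      fun σ _ _ => mul_nonneg (sq_nonneg _) (hmulc0 σ)
  -- the sum over the colourings
  have hjT : (some j : Option (Fin k)) ∉ TT' k i j := by simp [TT']
  have hnT : (none : Option (Fin k)) ∉ TT' k i j := by simp [TT']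
  have hiT : (some i : Option (Fin k)) ∉ TT' k i j := by simp [TT']
  have htl := tuple_lower2 (prP P) (TT' k i j) (some j) hjT (hb (k + 1)) hhbt (GQ Q k L L i) hGQ
    z (Q.c * L) (Q.lam / L) (by positivity) (fun s => Q.ee (s / L))
    (fun s hs => ee_nonneg Q L hL0' s hs) (fun s hs hs' => ee_bound Q L hL0' s hs hs') (by
      intro l hl s hs hs'
      have hli : l ≠ some i := Finset.ne_of_mem_erase hl
      have hln : l ≠ none := Finset.ne_of_mem_erase (Finset.mem_of_mem_erase hl)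
      unfold GQ
      rw [if_neg hli]
      exact GP_cut_some Q k L (L / 48) l hln s hs hs')
  rw [prod_all i j hij, prod_all i j hij, sumG_none Q P hP2 L L (hb (k + 1)) i,
    sumG_j Q P hP2 L L (hb (k + 1)) i] at htl
  have m1 : ∀ l ∈ TT' k i j, ∑ a : Finset (IP P), (∏ t ∈ a, hb (k + 1) (prP P t)) *
      GQ Q k L L i l (lg (prP P) a) ^ 2 = SS P (hb (k + 1)) Q.c L (fun t => Q.gg t ^ 2) := by
    intro l hl
    have hli : l ≠ some i := Finset.ne_of_mem_erase hl
    have hln : l ≠ none := Finset.ne_of_mem_erase (Finset.mem_of_mem_erase hl)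
    rcases l with _ | m
    · exact absurd rfl hln
    · exact sumG_some Q P hP2 L L (hb (k + 1)) i m (fun h => hli (by rw [h]))
  have m2 : ∀ l ∈ TT' k i j, ∑ a : Finset (IP P), (∏ t ∈ a, hb (k + 1) (prP P t)) *
      (GQ Q k L L i l (lg (prP P) a) ^ 2 * (if l ∈ TT' k i j then Q.ee (lg (prP P) a / L)
        else 1)) = SS P (hb (k + 1)) Q.c L (fun t => Q.gg t ^ 2 * Q.ee t) := by
    intro l hl
    have hli : l ≠ some i := Finset.ne_of_mem_erase hl
    have hln : l ≠ none := Finset.ne_of_mem_erase (Finset.mem_of_mem_erase hl)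
    simp only [if_pos hl]
    rcases l with _ | m
    · exact absurd rfl hln
    · exact sumG_ee Q P hP2 L L (hb (k + 1)) i m (fun h => hli (by rw [h]))
  rw [Finset.prod_congr rfl m1, Finset.prod_congr rfl m2, Finset.prod_const, Finset.prod_const,
    TT_card i j hij] at htl
  simp only [if_neg hnT, if_neg hiT, mul_one] at htl
  rw [sumG_none Q P hP2 L L (hb (k + 1)) i, sumG_j Q P hP2 L L (hb (k + 1)) i, cardJ] at htl
  set T0 := SS P (hb (k + 1)) 1 (L / 48) (fun t => (1 - t) ^ 2) with hT0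
  set X := SS P (hb (k + 1)) 1 L (fun _ => 1) with hX
  set TG := SS P (hb (k + 1)) Q.c L (fun t => Q.gg t ^ 2) with hTG
  set TE := SS P (hb (k + 1)) Q.c L (fun t => Q.gg t ^ 2 * Q.ee t) with hTE
  have b1 : b / 48 * (1 / 3 - ε) ≤ T0 := by
    have := hS.l1
    rw [hb0]
    calc BD D' * L / 48 * (1 / 3 - ε) = BD D' * (L / 48) * (1 / 3 - ε) := by ring
      _ ≤ T0 := this
  have b2 : T0 ≤ b / 48 * (1 / 3 + ε) := by
    have := hS.e1
    rw [hb0]
    calc T0 ≤ BD D' * (L / 48) * (1 / 3 + ε) := this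
      _ = _ := by ring
  have b3 : b * (1 - ε) ≤ X := by rw [hb0]; exact hS.l3
  have b4 : b * (Q.I2 - ε) ≤ TG := by rw [hb0]; exact hS.l2
  have b5 : TE ≤ b * (Q.IE + ε) := by rw [hb0]; exact hS.e2
  have b6 : 0 ≤ TE := SS_nonneg _ _ _ _ _ (fun p hp => hhb0 p (hP' p hp))
    (fun p hp => by have := hP2 p hp; omega) hL0' (fun t ht => by
      apply mul_nonneg (sq_nonneg _)
      unfold SPar.ee
      positivity)
  have b7 : 0 < b / 48 * (1 / 3 - ε) := by
    apply mul_pos (by positivity)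
    linarith
  have b8 : 0 < b * (Q.I2 - ε) := mul_pos hbp (by linarith)
  have b9 : 0 < b * (1 - ε) := mul_pos hbp h1ε
  have hee : Real.exp (-(Q.lam / L * z)) = Real.exp (-(Q.lam * (1 - 2 * Q.c))) := by
    rw [hz]
    congr 2
    field_simp
  rw [hee] at htl
  push_cast at htl
  set e := Real.exp (-(Q.lam * (1 - 2 * Q.c))) with he
  have he0 : 0 < e := Real.exp_pos _
  have c1 : (1 - ε) * (b / 48 * (1 / 3 - ε) * (b * (Q.I2 - ε)) ^ (k - 2)) ≤
      (1 - ((k : ℝ) + 1) ^ 2 * ∑ t : IP P, hb (k + 1) (prP P t) ^ 2) * (T0 * TG ^ (k - 2)) := by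
    apply mul_le_mul
    · linarith
    · apply mul_le_mul b1 (pow_le_pow_left₀ b8.le b4 _) (by positivity) (b7.le.trans b1)
    · exact mul_nonneg b7.le (pow_nonneg b8.le _)
    · linarith
  have c2 : e * (T0 * TE ^ (k - 2)) ≤
      e * (b / 48 * (1 / 3 + ε) * (b * (Q.IE + ε)) ^ (k - 2)) := by
    apply mul_le_mul_of_nonneg_left _ he0.le
    apply mul_le_mul b2 (pow_le_pow_left₀ b6 b5 _) (pow_nonneg b6 _)
    exact mul_nonneg (by positivity) (by linarith)
  have c3 : b / 48 * b ^ (k - 2) * Br2 Q k ε =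
      (1 - ε) * (b / 48 * (1 / 3 - ε) * (b * (Q.I2 - ε)) ^ (k - 2)) -
        e * (b / 48 * (1 / 3 + ε) * (b * (Q.IE + ε)) ^ (k - 2)) := by
    unfold Br2
    rw [mul_pow, mul_pow, ← he]
    ring
  have c4 : b / 48 * b ^ (k - 2) * Br2 Q k ε ≤
      (1 - ((k : ℝ) + 1) ^ 2 * ∑ t : IP P, hb (k + 1) (prP P t) ^ 2) * (T0 * TG ^ (k - 2)) -
        e * (T0 * TE ^ (k - 2)) := by
    rw [c3]
    linarith
  have c5 : 0 ≤ b / 48 * b ^ (k - 2) * Br2 Q k ε := by positivity
  have c6 : b * (1 - ε) * (b / 48 * b ^ (k - 2) * Br2 Q k ε) ≤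
      ∑ σ ∈ goodT (prP P) (TT' k i j) (some j) z, G σ ^ 2 * mulc (prP P) (hb (k + 1)) σ := by
    refine le_trans ?_ htl
    calc b * (1 - ε) * (b / 48 * b ^ (k - 2) * Br2 Q k ε)
        ≤ X * ((1 - ((k : ℝ) + 1) ^ 2 * ∑ t : IP P, hb (k + 1) (prP P t) ^ 2) *
          (T0 * TG ^ (k - 2)) - e * (T0 * TE ^ (k - 2))) :=
          mul_le_mul b3 c4 c5 (b9.le.trans b3)
      _ = _ := by ring
  refine le_trans ?_ hsum1
  calc (1 - ε) ^ 4 * (b * (Q.I1 - ε)) ^ 4 / (b * (1 + ε)) ^ 2 * (b * (1 - ε)) *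
      (b / 48 * b ^ (k - 2) * Br2 Q k ε)
      = C2 ^ 2 * (b * (1 - ε) * (b / 48 * b ^ (k - 2) * Br2 Q k ε)) := by
        have e9 : C2 ^ 2 = (1 - ε) ^ 4 * (b * (Q.I1 - ε)) ^ 4 / (b * (1 + ε)) ^ 2 := by
          rw [hC2, mul_pow ((1 - ε) ^ 2), div_pow ((b * (Q.I1 - ε)) ^ 2), ← pow_mul, ← pow_mul]
          ring
        rw [e9]
        ring
    _ ≤ _ := mul_le_mul_of_nonneg_left c6 (sq_nonneg _)

end Pool.Agent.W940.UBNWL
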