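import Mathlib
import Pool.Agent.W940.R6

/-! # Circuits in which the shared gates depend on few variables -/

set_option autoImplicit false
set_option linter.unusedSectionVars false

namespace Pool.Agent.W940.R

open Finset Pool.Agent.H567.Nec

universe u v

section Circ

variable {K : Type u} [Field K] {σ : Type v} [DecidableEq σ] (Φ : Circuit K σ) (o : Fin Φ.N)

open Classical in
/-- the number of edges from `x` to nodes up to `o` -/
noncomputable def fo (x : Fin Φ.N) : ℕ :=
  (Finset.univ.filter fun e : Fin Φ.N × Bool => e.1 ≤ o ∧ (Φ.node e.1).arg e.2 = some x).card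

/-- a gate which is used once -/
def Inl (x : Fin Φ.N) : Prop := (Φ.node x).IsGate ∧ fo Φ o x = 1

/-- the node depends on a variable of `T` -/
def Live (T : Finset σ) (x : Fin Φ.N) : Prop := ¬ Disjoint (Φ.value x).vars T

open Classical in
/-- the local cost of a node -/
noncomputable def ecost (T : Finset σ) (a : Fin Φ.N) : ℕ :=
  ∑ p : Bool, match h : (Φ.node a).arg p with
    | none => 0
    | some x => if Inl Φ o x then ecost T x else if Live Φ T x then 1 else 0
termination_by a.1
decreasing_by exact Φ.lt a x p h

open Classical in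
/-- the cost of using a node -/
noncomputable def ucost (T : Finset σ) (x : Fin Φ.N) : ℕ :=
  if Inl Φ o x then ecost Φ o T x else if Live Φ T x then 1 else 0

lemma ecost_eq (T : Finset σ) (a : Fin Φ.N) :
    ecost Φ o T a = ∑ p : Bool, ((Φ.node a).arg p).elim 0 (ucost Φ o T) := by
  rw [ecost]
  refine Finset.sum_congr rfl fun p _ => ?_
  split
  · next h => rw [h]; rfl
  · next x h => rw [h]; rfl

lemma value_var {a : Fin Φ.N} {i : σ} (h : Φ.node a = .var i) :
    Φ.value a = MvPolynomial.X i := by
  rw [Circuit.value]; split <;> simp_all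

lemma value_const {a : Fin Φ.N} {c : K} (h : Φ.node a = .const c) :
    Φ.value a = MvPolynomial.C c := by
  rw [Circuit.value]; split <;> simp_all

lemma value_add {a l r : Fin Φ.N} (h : Φ.node a = .add l r) :
    Φ.value a = Φ.value l + Φ.value r := by
  rw [Circuit.value]; split <;> simp_all

lemma value_mul {a l r : Fin Φ.N} (h : Φ.node a = .mul l r) :
    Φ.value a = Φ.value l * Φ.value r := by
  rw [Circuit.value]; split <;> simp_all

lemma ecost_add {T : Finset σ} {a l r : Fin Φ.N} (h : Φ.node a = .add l r) :
    ecost Φ o T a = ucost Φ o T l + ucost Φ o T r := by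
  rw [ecost_eq, Fintype.sum_bool, h]
  simp only [Node.arg, Option.elim_some]
  rw [add_comm]

lemma ecost_mul {T : Finset σ} {a l r : Fin Φ.N} (h : Φ.node a = .mul l r) :
    ecost Φ o T a = ucost Φ o T l + ucost Φ o T r := by
  rw [ecost_eq, Fintype.sum_bool, h]
  simp only [Node.arg, Option.elim_some]
  rw [add_comm]

/-- a gate without live inputs is not live -/
lemma not_live_of_ecost (T : Finset σ) (a : Fin Φ.N) (hg : (Φ.node a).IsGate)
    (h : ecost Φ o T a = 0) : ¬ Live Φ T a := by
  classical
  induction a using WellFoundedLT.induction with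
  | ind a ih =>
  have hu : ∀ x, x < a → ucost Φ o T x = 0 → ¬ Live Φ T x := by
    intro x hx h0
    unfold ucost at h0
    split_ifs at h0 with h1 h2
    · exact ih x hx h1.1 h0
    · exact h2
  unfold Live at *
  rw [not_not]
  cases hn : Φ.node a with
  | var i => rw [hn] at hg; exact absurd hg (by simp [Node.IsGate])
  | const c => rw [hn] at hg; exact absurd hg (by simp [Node.IsGate])
  | add l r =>
    rw [ecost_add Φ o hn] at h
    have h1 := hu l (Φ.lt a l false (by rw [hn]; rfl)) (by omega)
    have h2 := hu r (Φ.lt a r true (by rw [hn]; rfl)) (by omega)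
    rw [not_not] at h1 h2
    rw [value_add Φ hn]
    exact Finset.disjoint_of_subset_left (MvPolynomial.vars_add_subset _ _)
      (Finset.disjoint_union_left.mpr ⟨h1, h2⟩)
  | mul l r =>
    rw [ecost_mul Φ o hn] at h
    have h1 := hu l (Φ.lt a l false (by rw [hn]; rfl)) (by omega)
    have h2 := hu r (Φ.lt a r true (by rw [hn]; rfl)) (by omega)
    rw [not_not] at h1 h2
    rw [value_mul Φ hn]
    exact Finset.disjoint_of_subset_left (MvPolynomial.vars_mul _ _)
      (Finset.disjoint_union_left.mpr ⟨h1, h2⟩)

open Classical in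
/-- The costs of the gates which are not inlined are paid by the edges from such nodes. -/
lemma sum_ecost_le (T : Finset σ) :
    ∑ a ∈ Finset.univ.filter (fun a => a ≤ o ∧ ¬ Inl Φ o a), ecost Φ o T a ≤
      ∑ e ∈ Finset.univ.filter (fun e : Fin Φ.N × Bool => e.1 ≤ o),
        ((Φ.node e.1).arg e.2).elim 0
          (fun x => if ¬ Inl Φ o x ∧ Live Φ T x then 1 else 0) := by
  have h1 : ∀ a, ecost Φ o T a = ∑ p : Bool, ((Φ.node a).arg p).elim 0
      (fun x => if ¬ Inl Φ o x ∧ Live Φ T x then 1 else 0) +
      ∑ p : Bool, ∑ x, if (Φ.node a).arg p = some x ∧ Inl Φ o x then ecost Φ o T x else 0 := by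
    intro a
    rw [ecost_eq, ← Finset.sum_add_distrib]
    refine Finset.sum_congr rfl fun p _ => ?_
    cases hx : (Φ.node a).arg p with
    | none => simp
    | some x =>
      have h2 : (∑ y, if some x = some y ∧ Inl Φ o y then ecost Φ o T y else 0) =
          if Inl Φ o x then ecost Φ o T x else 0 := by
        rw [Finset.sum_eq_single x]
        · simp
        · intro y _ hy
          rw [if_neg]
          rintro ⟨h3, _⟩
          exact hy (Option.some.inj h3).symm
        · intro h; exact absurd (Finset.mem_univ x) h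
      rw [h2]
      simp only [Option.elim_some, ucost]
      by_cases hI : Inl Φ o x
      · simp [hI]
      · by_cases hL : Live Φ T x <;> simp [hI, hL]
  -- summing over all nodes up to `o`
  have h2 : ∑ a ∈ Finset.univ.filter (fun a => a ≤ o), ecost Φ o T a =
      (∑ e ∈ Finset.univ.filter (fun e : Fin Φ.N × Bool => e.1 ≤ o),
        ((Φ.node e.1).arg e.2).elim 0 (fun x => if ¬ Inl Φ o x ∧ Live Φ T x then 1 else 0)) +
      ∑ x ∈ Finset.univ.filter (fun x => Inl Φ o x), ecost Φ o T x := by
    rw [Finset.sum_congr rfl (fun a _ => h1 a), Finset.sum_add_distrib]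
    congr 1
    · rw [Finset.sum_filter, Finset.sum_filter, Fintype.sum_prod_type]
      refine Finset.sum_congr rfl fun a _ => ?_
      by_cases ha : a ≤ o
      · simp [ha]
      · simp [ha]
    · rw [Finset.sum_filter, Finset.sum_filter]
      have h3 : ∀ a, (if a ≤ o then (∑ p : Bool, ∑ x, if (Φ.node a).arg p = some x ∧ Inl Φ o x
          then ecost Φ o T x else 0) else 0) = ∑ p : Bool, ∑ x,
            if (a ≤ o ∧ (Φ.node a).arg p = some x) ∧ Inl Φ o x then ecost Φ o T x else 0 := by
        intro a
        by_cases ha : a ≤ o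
        · simp [ha]
        · simp [ha]
      rw [Finset.sum_congr rfl (fun a _ => h3 a)]
      have h4 : ∑ a, ∑ p : Bool, ∑ x, (if (a ≤ o ∧ (Φ.node a).arg p = some x) ∧ Inl Φ o x
          then ecost Φ o T x else 0) = ∑ x, ∑ e : Fin Φ.N × Bool,
            if (e.1 ≤ o ∧ (Φ.node e.1).arg e.2 = some x) ∧ Inl Φ o x
              then ecost Φ o T x else 0 := by
        rw [Finset.sum_comm' (t' := Finset.univ) (s' := fun _ => Finset.univ) (by simp)]
        rw [Finset.sum_comm]
        rw [Finset.sum_congr rfl (fun a _ => Finset.sum_comm)]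
        rw [Finset.sum_comm]
        refine Finset.sum_congr rfl fun x _ => ?_
        rw [Fintype.sum_prod_type]
      rw [h4]
      refine Finset.sum_congr rfl fun x _ => ?_
      by_cases hI : Inl Φ o x
      · have h5 : (∑ e : Fin Φ.N × Bool, if (e.1 ≤ o ∧ (Φ.node e.1).arg e.2 = some x) ∧ Inl Φ o x
            then ecost Φ o T x else 0) = fo Φ o x * ecost Φ o T x := by
          simp only [hI, and_true]
          rw [← Finset.sum_filter, Finset.sum_const, smul_eq_mul]
          rfl
        rw [h5, hI.2, one_mul, if_pos hI]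
      · simp [hI]
  have h3 : ∑ a ∈ Finset.univ.filter (fun a => a ≤ o), ecost Φ o T a =
      ∑ a ∈ Finset.univ.filter (fun a => a ≤ o ∧ ¬ Inl Φ o a), ecost Φ o T a +
      ∑ a ∈ Finset.univ.filter (fun a => a ≤ o ∧ Inl Φ o a), ecost Φ o T a := by
    rw [← Finset.sum_filter_add_sum_filter_not (Finset.univ.filter (fun a => a ≤ o))
      (fun a => ¬ Inl Φ o a), Finset.filter_filter, Finset.filter_filter]
    simp only [not_not]
  have h4 : Finset.univ.filter (fun x => Inl Φ o x) =
      Finset.univ.filter (fun a => a ≤ o ∧ Inl Φ o a) := by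
    ext x
    simp only [Finset.mem_filter, Finset.mem_univ, true_and]
    refine ⟨fun h => ⟨?_, h⟩, fun h => h.2⟩
    have h5 : 0 < fo Φ o x := by rw [h.2]; exact one_pos
    obtain ⟨e, he⟩ := Finset.card_pos.mp h5
    simp only [Finset.mem_filter, Finset.mem_univ, true_and] at he
    exact le_trans (le_of_lt (Φ.lt e.1 x e.2 he.2)) he.1
  rw [h3, h4] at h2
  omega

end Circ

end Pool.Agent.W940.R
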