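import Mathlib
import Pool.Agent.W940.R8

/-! # Jets of circuits in which the shared gates depend on few variables -/

set_option autoImplicit false
set_option linter.unusedSectionVars false

namespace Pool.Agent.W940.R

open Finset Pool.Agent.H567.Nec Pool.Agent.H53R6

universe u v

section JetsC

variable {K : Type u} [Field K] {σ : Type v} [DecidableEq σ] (Φ : Circuit K σ) (o : Fin Φ.N)
variable {ω : Type*} [Finite ω] {Ξ : Type*}

/-- the jets of a node -/
noncomputable def jt (P : Ξ → σ → TrivSqZeroExt K (ω → K)) (a : Fin Φ.N) (ξ : Ξ) :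
    TrivSqZeroExt K (ω → K) := MvPolynomial.aeval (P ξ) (Φ.value a)

lemma cst_of_not_live {T : Finset σ} {P : Ξ → σ → TrivSqZeroExt K (ω → K)}
    (hc : ∀ ξ ξ' v, v ∉ T → P ξ v = P ξ' v) {a : Fin Φ.N} (h : ¬ Live Φ T a) :
    Cst (jt Φ P a) := by
  intro ξ ξ'
  unfold Live at h
  rw [not_not] at h
  unfold jt
  apply MvPolynomial.eval₂Hom_congr' rfl _ rfl
  intro i hi _
  exact hc ξ ξ' i (fun hT => (Finset.disjoint_left.mp h) hi hT)

variable {A : Submodule K (ω → K)}

/-- sums and products of two families -/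
lemma good_gate {e e' : ℕ} {F G H : Ξ → TrivSqZeroExt K (ω → K)}
    (hF0 : e = 0 → Cst F) (hF : 1 ≤ e → Aff A (4 * (e - 1)) F)
    (hG0 : e' = 0 → Cst G) (hG : 1 ≤ e' → Aff A (4 * (e' - 1)) G)
    (hH : (∀ ξ, H ξ = F ξ + G ξ) ∨ (∀ ξ, H ξ = F ξ * G ξ)) :
    (e + e' = 0 → Cst H) ∧ (1 ≤ e + e' → Aff A (4 * (e + e' - 1)) H) := by
  rcases isEmpty_or_nonempty Ξ with hΞ | ⟨⟨ξ₀⟩⟩
  · exact ⟨fun _ ξ => hΞ.elim ξ, fun _ => ⟨0, 0, 0, ⟨⊥, by simp, fun ξ => hΞ.elim ξ⟩,
      fun ξ => hΞ.elim ξ⟩⟩
  rcases Nat.eq_zero_or_pos e with he | he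
  · rcases Nat.eq_zero_or_pos e' with he' | he'
    · refine ⟨fun _ ξ ξ' => ?_, fun h => absurd h (by omega)⟩
      rcases hH with hH | hH <;> rw [hH ξ, hH ξ', hF0 he ξ ξ', hG0 he' ξ ξ']
    · refine ⟨fun h => absurd h (by omega), fun _ => ?_⟩
      rw [he, zero_add]
      rcases hH with hH | hH
      · convert (hG he').affine (F ξ₀) 1 using 1
        funext ξ
        rw [hH ξ, hF0 he ξ ξ₀, one_mul]
      · convert (hG he').affine 0 (F ξ₀) using 1
        funext ξ
        rw [hH ξ, hF0 he ξ ξ₀, zero_add]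
  · refine ⟨fun h => absurd h (by omega), fun _ => ?_⟩
    rcases Nat.eq_zero_or_pos e' with he' | he'
    · rw [he', add_zero]
      rcases hH with hH | hH
      · convert (hF he).affine (G ξ₀) 1 using 1
        funext ξ
        rw [hH ξ, hG0 he' ξ ξ₀, one_mul, add_comm]
      · convert (hF he).affine 0 (G ξ₀) using 1
        funext ξ
        rw [hH ξ, hG0 he' ξ ξ₀, zero_add, mul_comm]
    · obtain ⟨D, hD, hDm⟩ := (hF he).lin
      obtain ⟨D', hD', hDm'⟩ := (hG he').lin
      refine Lin.aff ⟨D ⊔ D', ?_, ?_⟩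
      · have h3 := Submodule.finrank_add_le_finrank_add_finrank D D'
        omega
      · intro ξ
        have h1 := (sup_le_sup_left (le_sup_left : D ≤ D ⊔ D') A) (hDm ξ)
        have h2 := (sup_le_sup_left (le_sup_right : D' ≤ D ⊔ D') A) (hDm' ξ)
        rcases hH with hH | hH
        · rw [hH ξ, TrivSqZeroExt.snd_add]
          exact Submodule.add_mem _ h1 h2
        · rw [hH ξ]
          exact snd_mul_mem h1 h2

/-- the jets of a gate in terms of those of the shared nodes -/
theorem good_node {T : Finset σ} {P : Ξ → σ → TrivSqZeroExt K (ω → K)}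
    (hc : ∀ ξ ξ' v, v ∉ T → P ξ v = P ξ' v) (b : Fin Φ.N)
    (hA : ∀ x, x < b → ¬ Inl Φ o x → Live Φ T x → ∀ ξ, (jt Φ P x ξ).snd ∈ A)
    (a : Fin Φ.N) (hab : a ≤ b) (hg : (Φ.node a).IsGate) :
    (ecost Φ o T a = 0 → Cst (jt Φ P a)) ∧
    (1 ≤ ecost Φ o T a → Aff A (4 * (ecost Φ o T a - 1)) (jt Φ P a)) := by
  classical
  induction a using WellFoundedLT.induction with
  | ind a ih =>
  have hu : ∀ x, x < a → (ucost Φ o T x = 0 → Cst (jt Φ P x)) ∧
      (1 ≤ ucost Φ o T x → Aff A (4 * (ucost Φ o T x - 1)) (jt Φ P x)) := by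
    intro x hx
    unfold ucost
    split_ifs with h1 h2
    · exact ih x hx (le_trans (le_of_lt hx) hab) h1.1
    · refine ⟨fun h => absurd h (by norm_num), fun _ => ?_⟩
      refine Lin.aff (Lin.mono (Nat.zero_le _) ⟨⊥, by simp, fun ξ => ?_⟩)
      exact Submodule.mem_sup_left (hA x (lt_of_lt_of_le hx hab) h1 h2 ξ)
    · exact ⟨fun _ => cst_of_not_live Φ hc h2, fun h => absurd h (by norm_num)⟩
  cases hn : Φ.node a with
  | var i => rw [hn] at hg; exact absurd hg (by simp [Node.IsGate])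
  | const c => rw [hn] at hg; exact absurd hg (by simp [Node.IsGate])
  | add l r =>
    obtain ⟨l0, l1⟩ := hu l (Φ.lt a l false (by rw [hn]; rfl))
    obtain ⟨r0, r1⟩ := hu r (Φ.lt a r true (by rw [hn]; rfl))
    rw [ecost_add Φ o hn]
    refine good_gate l0 l1 r0 r1 (Or.inl fun ξ => ?_)
    simp only [jt, value_add Φ hn, map_add]
  | mul l r =>
    obtain ⟨l0, l1⟩ := hu l (Φ.lt a l false (by rw [hn]; rfl))
    obtain ⟨r0, r1⟩ := hu r (Φ.lt a r true (by rw [hn]; rfl))
    rw [ecost_mul Φ o hn]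
    refine good_gate l0 l1 r0 r1 (Or.inr fun ξ => ?_)
    simp only [jt, value_mul Φ hn, map_mul]

open Classical in
/-- the jets of the shared nodes before node `n` -/
theorem good_shared {T : Finset σ} {P : Ξ → σ → TrivSqZeroExt K (ω → K)}
    (hT : ∀ ξ, ∀ v ∈ T, (P ξ v).snd = 0) (hc : ∀ ξ ξ' v, v ∉ T → P ξ v = P ξ' v) (n : ℕ) :
    ∃ A : Submodule K (ω → K), Module.finrank K A ≤
      4 * (∑ a ∈ Finset.univ.filter (fun a : Fin Φ.N => a.1 < n ∧ ¬ Inl Φ o a), ecost Φ o T a) ∧
      ∀ x : Fin Φ.N, x.1 < n → ¬ Inl Φ o x → Live Φ T x → ∀ ξ, (jt Φ P x ξ).snd ∈ A := by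
  induction n with
  | zero => exact ⟨⊥, by simp, fun x hx => absurd hx (Nat.not_lt_zero _)⟩
  | succ n ih =>
    obtain ⟨A, hA, hAm⟩ := ih
    have hmono : ∑ a ∈ Finset.univ.filter (fun a : Fin Φ.N => a.1 < n ∧ ¬ Inl Φ o a),
        ecost Φ o T a ≤ ∑ a ∈ Finset.univ.filter (fun a : Fin Φ.N => a.1 < n + 1 ∧ ¬ Inl Φ o a),
          ecost Φ o T a := by
      apply Finset.sum_le_sum_of_subset
      intro a ha
      simp only [Finset.mem_filter, Finset.mem_univ, true_and] at ha ⊢
      exact ⟨by omega, ha.2⟩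
    by_cases hn : n < Φ.N
    · by_cases hI : Inl Φ o ⟨n, hn⟩ ∨ ¬ Live Φ T ⟨n, hn⟩ ∨ ¬ (Φ.node ⟨n, hn⟩).IsGate
      · refine ⟨A, by omega, ?_⟩
        intro x hx h1 h2 ξ
        rcases Nat.lt_succ_iff_lt_or_eq.mp hx with h | h
        · exact hAm x h h1 h2 ξ
        · have hx' : x = ⟨n, hn⟩ := Fin.ext h
          subst hx'
          rcases hI with h3 | h3 | h3
          · exact absurd h3 h1
          · exact absurd h2 h3
          · -- a source
            cases hnode : Φ.node ⟨n, hn⟩ with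
            | var i =>
              have hi : i ∈ T := by
                by_contra hi
                apply h2
                rw [value_var Φ hnode, MvPolynomial.vars_X]
                simpa using hi
              simp only [jt, value_var Φ hnode, MvPolynomial.aeval_X]
              rw [hT ξ i hi]
              exact A.zero_mem
            | const c =>
              exfalso
              apply h2
              rw [value_const Φ hnode, MvPolynomial.vars_C]
              exact Finset.disjoint_empty_left _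
            | add l r => rw [hnode] at h3; exact absurd trivial h3
            | mul l r => rw [hnode] at h3; exact absurd trivial h3
      · push Not at hI
        obtain ⟨h1, h2, h3⟩ := hI
        have h4 : 1 ≤ ecost Φ o T ⟨n, hn⟩ := by
          by_contra h4
          exact not_live_of_ecost Φ o T _ h3 (by omega) h2
        obtain ⟨_, h5⟩ := good_node Φ o hc ⟨n, hn⟩ (fun x hx => hAm x hx) ⟨n, hn⟩ le_rfl h3
        obtain ⟨D, hD, hDm⟩ := (h5 h4).lin
        refine ⟨A ⊔ D, ?_, ?_⟩
        · have h6 := Submodule.finrank_add_le_finrank_add_finrank A D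
          have h7 : ∑ a ∈ Finset.univ.filter (fun a : Fin Φ.N => a.1 < n + 1 ∧ ¬ Inl Φ o a),
              ecost Φ o T a = ecost Φ o T ⟨n, hn⟩ +
              ∑ a ∈ Finset.univ.filter (fun a : Fin Φ.N => a.1 < n ∧ ¬ Inl Φ o a),
                ecost Φ o T a := by
            have h8 : Finset.univ.filter (fun a : Fin Φ.N => a.1 < n + 1 ∧ ¬ Inl Φ o a) =
                insert (⟨n, hn⟩ : Fin Φ.N)
                  (Finset.univ.filter (fun a : Fin Φ.N => a.1 < n ∧ ¬ Inl Φ o a)) := by
              ext a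
              simp only [Finset.mem_filter, Finset.mem_univ, true_and, Finset.mem_insert]
              constructor
              · rintro ⟨h9, h10⟩
                rcases Nat.lt_succ_iff_lt_or_eq.mp h9 with h | h
                · exact Or.inr ⟨h, h10⟩
                · exact Or.inl (Fin.ext h)
              · rintro (rfl | ⟨h9, h10⟩)
                · exact ⟨Nat.lt_succ_self _, h1⟩
                · exact ⟨by omega, h10⟩
            rw [h8, Finset.sum_insert (by simp)]
          rw [h7]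
          omega
        · intro x hx h6 h7 ξ
          rcases Nat.lt_succ_iff_lt_or_eq.mp hx with h | h
          · exact Submodule.mem_sup_left (hAm x h h6 h7 ξ)
          · have hx' : x = ⟨n, hn⟩ := Fin.ext h
            subst hx'
            exact hDm ξ
    · refine ⟨A, by omega, ?_⟩
      intro x hx h1 h2 ξ
      exact hAm x (by have := x.2; omega) h1 h2 ξ

lemma fo_self : fo Φ o o = 0 := by
  classical
  unfold fo
  rw [Finset.card_eq_zero, Finset.filter_eq_empty_iff]
  rintro ⟨b, p⟩ _ ⟨h1, h2⟩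
  exact absurd (Φ.lt b o p h2) (not_lt.mpr h1)

open Classical in
/-- the jets of the output -/
theorem good_output {T : Finset σ} {P : Ξ → σ → TrivSqZeroExt K (ω → K)}
    (hT : ∀ ξ, ∀ v ∈ T, (P ξ v).snd = 0) (hc : ∀ ξ ξ' v, v ∉ T → P ξ v = P ξ' v) :
    ∃ A : Submodule K (ω → K), Module.finrank K A ≤
      4 * (∑ a ∈ Finset.univ.filter (fun a => a ≤ o ∧ ¬ Inl Φ o a), ecost Φ o T a) + 1 ∧
      ∀ ξ, (jt Φ P o ξ).snd ∈ A := by
  obtain ⟨A, hA, hAm⟩ := good_shared Φ o hT hc (o.1 + 1)
  have hI : ¬ Inl Φ o o := by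
    intro h
    have := h.2
    rw [fo_self] at this
    exact absurd this (by norm_num)
  have h1 : Finset.univ.filter (fun a : Fin Φ.N => a.1 < o.1 + 1 ∧ ¬ Inl Φ o a) =
      Finset.univ.filter (fun a => a ≤ o ∧ ¬ Inl Φ o a) := by
    ext a
    simp only [Finset.mem_filter, Finset.mem_univ, true_and, Fin.le_def]
    rw [Nat.lt_succ_iff]
  rw [h1] at hA
  by_cases hL : Live Φ T o
  · exact ⟨A, by omega, fun ξ => hAm o (Nat.lt_succ_self _) hI hL ξ⟩
  · obtain ⟨D, hD, hDm⟩ := (cst_of_not_live Φ (P := P) hc hL).lin (A := A)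
    refine ⟨A ⊔ D, ?_, hDm⟩
    have h3 := Submodule.finrank_add_le_finrank_add_finrank A D
    omega

end JetsC

section Count

variable {K : Type u} [Field K] {σ : Type v} [DecidableEq σ] (Φ : Circuit K σ) (o : Fin Φ.N)

open Classical in
/-- the sum, over the edges of the circuit up to node `o` which do not come from a gate used only
once, of the number of variables on which the node at their origin depends -/
noncomputable def edgeWeight : ℕ :=
  ∑ e ∈ Finset.univ.filter (fun e : Fin Φ.N × Bool => e.1 ≤ o),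
    ((Φ.node e.1).arg e.2).elim 0 (fun x => if ¬ Inl Φ o x then (Φ.value x).vars.card else 0)

open Classical in
lemma sum_shared_le {β : Type*} (s : Finset β) (T : β → Finset σ)
    (hT : (s : Set β).PairwiseDisjoint T) :
    ∑ b ∈ s, ∑ a ∈ Finset.univ.filter (fun a => a ≤ o ∧ ¬ Inl Φ o a), ecost Φ o (T b) a ≤
      edgeWeight Φ o := by
  refine (Finset.sum_le_sum fun b _ => sum_ecost_le Φ o (T b)).trans ?_
  rw [Finset.sum_comm]
  unfold edgeWeight
  refine Finset.sum_le_sum fun e _ => ?_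
  cases hx : (Φ.node e.1).arg e.2 with
  | none => simp
  | some x =>
    simp only [Option.elim_some]
    by_cases hI : Inl Φ o x
    · simp [hI]
    · have := sum_meets_le s T hT (Φ.value x).vars
      simpa [hI, Live] using this

end Count

open MvPolynomial

/-- circuits for the multiples of the permanent -/
theorem circuit_bound {k : Type u} [Field k] [CharZero k] (m : ℕ)
    (g : MvPolynomial (Fin m × Fin m) k) (hg : g ≠ 0)
    (hv : ∀ X : Matrix (Fin m) (Fin m) k, X.permanent = 0 → eval (fun p => X p.1 p.2) g = 0)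
    (Φ : Circuit (RatFunc k) (Fin m × Fin m)) (o : Fin Φ.N)
    (hF : ∀ d : Fin m × Fin m →₀ ℕ, ((Φ.value o).coeff d).denom.eval 0 ≠ 0 ∧
      RatFunc.eval (RingHom.id k) 0 ((Φ.value o).coeff d) = g.coeff d) :
    m * (m - 2 * Nat.clog 2 m) * ((m - 2 * Nat.clog 2 m) ^ 2 - 2)
      ≤ 2 * Nat.clog 2 m * (4 * edgeWeight Φ o) := by
  classical
  have hvan : VanishesWithPer g := fun X hX => hv X hX
  refine count_general m (fun T => ∑ a ∈ Finset.univ.filter (fun a => a ≤ o ∧ ¬ Inl Φ o a),
    ecost Φ o T a) (edgeWeight Φ o) 4 (fun x => x ^ 2 - 2) (by norm_num)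
    (fun s T hT => sum_shared_le Φ o s T hT) ?_
  intro ℓ n' hm hn hn0 r c hr hc T hT
  obtain ⟨X, h1, h2, h3⟩ := exists_jets_border m ℓ n' hm hn hn0 r c hr hc g hg hvan.van
    (Φ.value o) hF T hT
  obtain ⟨D, hD, hDmem⟩ := good_output Φ o (P := X) (T := T) h1 h2
  have hTD : D = ⊤ := h3 D (fun ξ => hDmem ξ)
  rw [hTD, finrank_top] at hD
  simp only [Module.finrank_fintype_fun_eq_card, Fintype.card_fin] at hD
  omega

end Pool.Agent.W940.R
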