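import Mathlib
import Pool.Agent.W940.R9

/-! # Size against the number of variables of the shared gates -/

set_option autoImplicit false
set_option linter.unusedSectionVars false

namespace Pool.Agent.W940.R

open Finset Pool.Agent.H567.Nec

universe u v

section Defs

variable {K : Type u} [Field K] {σ : Type v} (Φ : Circuit K σ)

open Classical in
/-- the number of edges which leave the node `x` -/
noncomputable def outDegree (x : Fin Φ.N) : ℕ :=
  (Finset.univ.filter fun e : Fin Φ.N × Bool => (Φ.node e.1).arg e.2 = some x).card

/-- the number of variables which occur in the polynomial computed at the node `x` -/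
noncomputable def numVars (x : Fin Φ.N) : ℕ := (Φ.value x).vars.card

open Classical in
/-- The sum, over all edges which do not leave a gate that is used only once (so: over the edges
which leave sources and gates used at least twice), of the number of variables which occur in the
polynomial computed at the origin of the edge. -/
noncomputable def sharedWeight : ℕ :=
  ∑ e : Fin Φ.N × Bool, ((Φ.node e.1).arg e.2).elim 0
    (fun x => if (Φ.node x).IsGate ∧ outDegree Φ x = 1 then 0 else numVars Φ x)

end Defs

section Lemmas

variable {K : Type u} [Field K] {σ : Type v} [DecidableEq σ] (Φ : Circuit K σ)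

lemma edgeWeight_le (o : Fin Φ.N) : edgeWeight Φ o ≤ sharedWeight Φ := by
  classical
  unfold edgeWeight sharedWeight
  rw [Finset.sum_filter]
  refine Finset.sum_le_sum fun e _ => ?_
  by_cases he : e.1 ≤ o
  · rw [if_pos he]
    cases hx : (Φ.node e.1).arg e.2 with
    | none => simp
    | some x =>
      simp only [Option.elim_some]
      by_cases hI : Inl Φ o x
      · rw [if_neg (not_not.mpr hI)]
        exact Nat.zero_le _
      · rw [if_pos hI]
        by_cases hS : (Φ.node x).IsGate ∧ outDegree Φ x = 1
        · exfalso
          apply hI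
          refine ⟨hS.1, ?_⟩
          have h1 : fo Φ o x ≤ outDegree Φ x := by
            unfold fo outDegree
            apply Finset.card_le_card
            intro e' he'
            simp only [Finset.mem_filter, Finset.mem_univ, true_and] at he' ⊢
            exact he'.2
          have h2 : 0 < fo Φ o x := by
            unfold fo
            apply Finset.card_pos.mpr
            exact ⟨e, by simp [he, hx]⟩
          omega
        · rw [if_neg hS]
          exact le_rfl
  · rw [if_neg he]
    exact Nat.zero_le _

lemma sharedWeight_le (D : ℕ) (hD : 1 ≤ D)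
    (h : ∀ x, (Φ.node x).IsGate → 2 ≤ outDegree Φ x → numVars Φ x ≤ D) :
    sharedWeight Φ ≤ 2 * Φ.size * D := by
  classical
  have h1 : ∀ e : Fin Φ.N × Bool, ((Φ.node e.1).arg e.2).elim 0
      (fun x => if (Φ.node x).IsGate ∧ outDegree Φ x = 1 then 0 else numVars Φ x) ≤
      if (Φ.node e.1).IsGate then D else 0 := by
    intro e
    cases hx : (Φ.node e.1).arg e.2 with
    | none => simp
    | some x =>
      have hg : (Φ.node e.1).IsGate := by
        cases hn : Φ.node e.1 with
        | var i => rw [hn] at hx; simp [Node.arg] at hx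
        | const c => rw [hn] at hx; simp [Node.arg] at hx
        | add l r => trivial
        | mul l r => trivial
      rw [if_pos hg]
      simp only [Option.elim_some]
      split_ifs with hS
      · exact Nat.zero_le _
      · by_cases hgx : (Φ.node x).IsGate
        · apply h x hgx
          have h2 : 0 < outDegree Φ x := by
            unfold outDegree
            apply Finset.card_pos.mpr
            exact ⟨e, by simp [hx]⟩
          have h3 : outDegree Φ x ≠ 1 := fun h4 => hS ⟨hgx, h4⟩
          omega
        · unfold numVars
          cases hn : Φ.node x with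
          | var i => rw [value_var Φ hn, MvPolynomial.vars_X]; simpa using hD
          | const c => rw [value_const Φ hn, MvPolynomial.vars_C]; simp
          | add l r => rw [hn] at hgx; exact absurd trivial hgx
          | mul l r => rw [hn] at hgx; exact absurd trivial hgx
  unfold sharedWeight
  refine (Finset.sum_le_sum fun e _ => h1 e).trans ?_
  rw [Fintype.sum_prod_type]
  simp only [Fintype.sum_bool]
  unfold Circuit.size
  rw [Finset.sum_add_distrib, ← two_mul, ← Finset.sum_filter, Finset.sum_const, smul_eq_mul,
    mul_assoc]

end Lemmas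

open MvPolynomial

/-- **Main theorem.** -/
theorem shared_bound {k : Type u} [Field k] [CharZero k] (m : ℕ)
    (g : MvPolynomial (Fin m × Fin m) k) (hg : g ≠ 0)
    (hv : ∀ X : Matrix (Fin m) (Fin m) k, X.permanent = 0 → eval (fun p => X p.1 p.2) g = 0)
    (Φ : Circuit (RatFunc k) (Fin m × Fin m)) (o : Fin Φ.N)
    (hF : ∀ d : Fin m × Fin m →₀ ℕ, ((Φ.value o).coeff d).denom.eval 0 ≠ 0 ∧
      RatFunc.eval (RingHom.id k) 0 ((Φ.value o).coeff d) = g.coeff d) :
    m * (m - 2 * Nat.clog 2 m) * ((m - 2 * Nat.clog 2 m) ^ 2 - 2)
      ≤ 8 * Nat.clog 2 m * sharedWeight Φ ∧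
    ∀ D : ℕ, 1 ≤ D → (∀ x, (Φ.node x).IsGate → 2 ≤ outDegree Φ x → numVars Φ x ≤ D) →
      m * (m - 2 * Nat.clog 2 m) * ((m - 2 * Nat.clog 2 m) ^ 2 - 2)
        ≤ 16 * Nat.clog 2 m * (D * Φ.size) := by
  have h1 := circuit_bound m g hg hv Φ o hF
  have h2 := edgeWeight_le Φ o
  have h3 : m * (m - 2 * Nat.clog 2 m) * ((m - 2 * Nat.clog 2 m) ^ 2 - 2)
      ≤ 8 * Nat.clog 2 m * sharedWeight Φ := by
    refine h1.trans ?_
    calc 2 * Nat.clog 2 m * (4 * edgeWeight Φ o) = 8 * Nat.clog 2 m * edgeWeight Φ o := by ring
      _ ≤ _ := Nat.mul_le_mul_left _ h2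
  refine ⟨h3, fun D hD h => h3.trans ?_⟩
  calc 8 * Nat.clog 2 m * sharedWeight Φ ≤ 8 * Nat.clog 2 m * (2 * Φ.size * D) :=
        Nat.mul_le_mul_left _ (sharedWeight_le Φ D hD h)
    _ = 16 * Nat.clog 2 m * (D * Φ.size) := by ring

end Pool.Agent.W940.R
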