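import Pool.Agent.H546R2.SM.B5

set_option autoImplicit false
set_option linter.unusedSectionVars false

open MvPolynomial Finset

namespace Pool.Agent.W940.G

open Pool.Agent.H546R2.SL (eps lin eps_add eps_sum eps_C_mul eps_one eps_mul eps_lin eps_lin_mul
  eps_lin_pow eps_prod_zero_of_col eps_affine_zero eps_prod_zero_of_card)
open Pool.Agent.H546R2.SM (per bl per_transpose per_reindex_rows per_reindex_cols eps_bl_pow_mul
  sel_eps prod_zeta lin_add' lin_smul' eps_emb_lin)

section Free

variable {γ : Type*} [DecidableEq γ] [Fintype γ] {R : Type*} [CommRing R]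

/-- no squarefree monomial meeting `U` occurs -/
def Free (U : Finset γ) (f : MvPolynomial γ R) : Prop := ∀ T : Finset γ, ¬ Disjoint T U → eps T f = 0

lemma Free.mono {U V : Finset γ} (h : U ⊆ V) {f : MvPolynomial γ R} (hf : Free V f) : Free U f :=
  fun T hT => hf T fun hd => hT (hd.mono_right h)

lemma Free.mul {U : Finset γ} {f g : MvPolynomial γ R} (hf : Free U f) (hg : Free U g) :
    Free U (f * g) := by
  intro T hT
  rw [eps_mul]
  apply Finset.sum_eq_zero
  intro T' hT'
  rw [Finset.mem_powerset] at hT'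
  by_cases h1 : Disjoint T' U
  · have h2 : ¬ Disjoint (T \ T') U := by
      intro h2
      apply hT
      rw [← Finset.union_sdiff_of_subset hT']
      exact Finset.disjoint_union_left.mpr ⟨h1, h2⟩
    rw [hg _ h2, mul_zero]
  · rw [hf _ h1, zero_mul]

lemma Free.add {U : Finset γ} {f g : MvPolynomial γ R} (hf : Free U f) (hg : Free U g) :
    Free U (f + g) := by
  intro T hT
  rw [eps_add, hf T hT, hg T hT, add_zero]

lemma Free.one {U : Finset γ} : Free U (1 : MvPolynomial γ R) := by
  intro T hT
  rw [eps_one, if_neg]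
  rintro rfl
  exact hT (Finset.disjoint_empty_left _)

lemma Free.C {U : Finset γ} (a : R) : Free U (MvPolynomial.C a : MvPolynomial γ R) := by
  intro T hT
  have h := (Free.one (R := R) (U := U)) T hT
  rw [← mul_one (MvPolynomial.C a), eps_C_mul, h, mul_zero]

lemma Free.lin {U : Finset γ} {a : γ → R} (h : ∀ c ∈ U, a c = 0) : Free U (lin a) := by
  intro T hT
  rw [eps_lin]
  apply Finset.sum_eq_zero
  intro c _
  by_cases h1 : T = {c}
  · rw [if_pos h1]
    apply h
    by_contra hc
    apply hT
    rw [h1, Finset.disjoint_singleton_left]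
    exact hc
  · rw [if_neg h1]

lemma Free.prod {ι : Type*} {U : Finset γ} (s : Finset ι) (f : ι → MvPolynomial γ R)
    (h : ∀ i ∈ s, Free U (f i)) : Free U (∏ i ∈ s, f i) := by
  classical
  induction s using Finset.induction_on with
  | empty => rw [Finset.prod_empty]; exact Free.one
  | insert i s hi ih =>
    rw [Finset.prod_insert hi]
    exact (h i (Finset.mem_insert_self _ _)).mul (ih fun j hj => h j (Finset.mem_insert_of_mem hj))

lemma X_eq (c : γ) : (X c : MvPolynomial γ R) = lin (Pi.single c 1) := by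
  unfold lin
  rw [Finset.sum_eq_single c]
  · rw [Pi.single_eq_same, map_one, one_mul]
  · intro b _ hb
    rw [Pi.single_eq_of_ne hb, map_zero, zero_mul]
  · intro h; exact absurd (Finset.mem_univ c) h

lemma Free.X {U : Finset γ} {c : γ} (h : c ∉ U) : Free U (MvPolynomial.X c : MvPolynomial γ R) := by
  rw [X_eq]
  apply Free.lin
  intro d hd
  rw [Pi.single_eq_of_ne]
  rintro rfl
  exact h hd

lemma eps_X_mul (c : γ) (S : Finset γ) (f : MvPolynomial γ R) :
    eps S (X c * f) = if c ∈ S then eps (S.erase c) f else 0 := by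
  rw [X_eq, eps_lin_mul]
  by_cases h : c ∈ S
  · rw [if_pos h, Finset.sum_eq_single_of_mem c h]
    · rw [Pi.single_eq_same, one_mul]
    · intro b _ hb
      rw [Pi.single_eq_of_ne hb, zero_mul]
  · rw [if_neg h]
    apply Finset.sum_eq_zero
    intro b hb
    rw [Pi.single_eq_of_ne, zero_mul]
    rintro rfl
    exact h hb

/-- elimination of one column -/
lemma elim_one {c : γ} {S : Finset γ} (hc : c ∉ S) (a b d f : MvPolynomial γ R)
    (ha : Free {c} a) (hf : Free {c} f) :
    eps (insert c S) (f * (a + b * X c + d * (X c * X c))) = eps S (f * b) := by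
  have h1 : f * (a + b * X c + d * (X c * X c)) =
      f * a + (X c * (f * b) + X c * (X c * (f * d))) := by ring
  rw [h1, eps_add, eps_add, (hf.mul ha) _ (by
    rw [Finset.disjoint_singleton_right]
    exact fun h => h (Finset.mem_insert_self _ _)), eps_X_mul, eps_X_mul,
    if_pos (Finset.mem_insert_self _ _), if_pos (Finset.mem_insert_self _ _),
    Finset.erase_insert hc, eps_X_mul, if_neg hc, zero_add, add_zero]

/-- elimination of a set of columns -/
lemma elim_set {U : Finset γ} (a b d : γ → MvPolynomial γ R) (ha : ∀ c ∈ U, Free U (a c))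
    (hb : ∀ c ∈ U, Free U (b c)) (hd : ∀ c ∈ U, Free U (d c)) (s : Finset γ) :
    ∀ (_ : s ⊆ U) (S : Finset γ) (_ : Disjoint S s) (f : MvPolynomial γ R) (_ : Free U f),
      eps (s ∪ S) (f * ∏ c ∈ s, (a c + b c * X c + d c * (X c * X c))) =
        eps S (f * ∏ c ∈ s, b c) := by
  induction s using Finset.induction_on with
  | empty => intro _ S _ f _; simp
  | insert c s hc ih =>
    intro hs S hS f hf
    have hcU : c ∈ U := hs (Finset.mem_insert_self _ _)
    have hsU : s ⊆ U := (Finset.subset_insert _ _).trans hs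
    rw [Finset.disjoint_insert_right] at hS
    rw [Finset.prod_insert hc, Finset.prod_insert hc, Finset.insert_union]
    have h1 : f * ((a c + b c * X c + d c * (X c * X c)) *
        ∏ c ∈ s, (a c + b c * X c + d c * (X c * X c))) =
        (f * ∏ c ∈ s, (a c + b c * X c + d c * (X c * X c))) *
          (a c + b c * X c + d c * (X c * X c)) := by ring
    have hU1 : ({c} : Finset γ) ⊆ U := Finset.singleton_subset_iff.mpr hcU
    rw [h1, elim_one]
    · have h2 : (f * ∏ c ∈ s, (a c + b c * X c + d c * (X c * X c))) * b c =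
          (f * b c) * ∏ c ∈ s, (a c + b c * X c + d c * (X c * X c)) := by ring
      rw [h2, ih hsU S hS.2 _ (hf.mul (hb c hcU))]
      congr 1
      ring
    · rw [Finset.mem_union]
      rintro (h | h)
      · exact hc h
      · exact hS.1 h
    · exact (ha c hcU).mono hU1
    · apply (hf.mono hU1).mul
      apply Free.prod
      intro i hi
      have hci : i ∉ ({c} : Finset γ) := by
        rw [Finset.mem_singleton]
        rintro rfl
        exact hc hi
      exact (((ha i (hsU hi)).mono hU1).add (((hb i (hsU hi)).mono hU1).mul (Free.X hci))).add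
        (((hd i (hsU hi)).mono hU1).mul ((Free.X hci).mul (Free.X hci)))

end Free

section Elim

variable {R : Type*} [CommRing R] {ρ P Γ : Type*} [Fintype ρ] [DecidableEq ρ] [Fintype P]
  [DecidableEq P] [Fintype Γ] [DecidableEq Γ]

/-- the matrix with the columns `P` -/
def elimM (A : ρ → Γ → R) (N E : P → Γ → R) (π : P ≃ P) (w : P → R) :
    (ρ ⊕ P) ⊕ P → P ⊕ Γ → R
  | .inl (.inl _), .inl _ => 0
  | .inl (.inl r), .inr c => A r c
  | .inl (.inr p), .inl p' => if p' = π p then w p else 0
  | .inl (.inr p), .inr c => N p c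
  | .inr p, .inl p' => if p' = p then 1 else 0
  | .inr p, .inr c => E p c

/-- the rows `A` and the rows `W` -/
def St (A : ρ → Γ → R) (W : P → Γ → R) : ρ ⊕ P → Γ → R
  | .inl r, c => A r c
  | .inr p, c => W p c

lemma lin_inr {γ₁ γ₂ : Type*} [Fintype γ₁] [Fintype γ₂] [DecidableEq γ₁] [DecidableEq γ₂]
    (a : γ₁ ⊕ γ₂ → R) (h : ∀ c, a (.inl c) = 0) :
    lin a = ∑ c : γ₂, C (a (.inr c)) * X (.inr c) := by
  unfold lin
  rw [Fintype.sum_sum_type]
  simp [h]

/-- elimination of the columns `P` -/
theorem per_elim (A : ρ → Γ → R) (N E : P → Γ → R) (π : P ≃ P) (w : P → R) :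
    per (elimM A N E π w) = per (St A fun p c => N p c + w p * E (π p) c) := by
  classical
  -- abbreviations
  set j : Γ ↪ P ⊕ Γ := ⟨Sum.inr, Sum.inr_injective⟩ with hj
  set U : Finset (P ⊕ Γ) := Finset.univ.map ⟨Sum.inl, Sum.inl_injective⟩ with hU
  set ex : (Γ → R) → (P ⊕ Γ → R) := fun a => Sum.elim (fun _ => 0) a with hex
  have hfree : ∀ a : Γ → R, Free U (lin (ex a)) := by
    intro a
    apply Free.lin
    intro c hc
    rw [hU, Finset.mem_map] at hc
    obtain ⟨p, _, rfl⟩ := hc
    rfl
  have hN : ∀ p, lin (elimM A N E π w (.inl (.inr p))) =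
      lin (ex (N p)) + C (w p) * X (.inl (π p)) := by
    intro p
    rw [X_eq, ← lin_smul', ← lin_add']
    congr 1
    funext c
    rcases c with p' | c
    · by_cases h : p' = π p
      · subst h
        simp [elimM, hex]
      · have h' : (Sum.inl p' : P ⊕ Γ) ≠ Sum.inl (π p) := fun hh => h (Sum.inl_injective hh)
        simp [elimM, hex, h, Pi.single_eq_of_ne h']
    · have h' : (Sum.inr c : P ⊕ Γ) ≠ Sum.inl (π p) := by simp
      simp [elimM, hex, Pi.single_eq_of_ne h']
  have hE : ∀ p, lin (elimM A N E π w (.inr p)) = lin (ex (E p)) + X (.inl p) := by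
    intro p
    rw [X_eq, ← lin_add']
    congr 1
    funext c
    rcases c with p' | c
    · by_cases h : p' = p
      · subst h
        simp [elimM, hex]
      · have h' : (Sum.inl p' : P ⊕ Γ) ≠ Sum.inl p := fun hh => h (Sum.inl_injective hh)
        simp [elimM, hex, h, Pi.single_eq_of_ne h']
    · have h' : (Sum.inr c : P ⊕ Γ) ≠ Sum.inl p := by simp
      simp [elimM, hex, Pi.single_eq_of_ne h']
  have hA : ∀ r, lin (elimM A N E π w (.inl (.inl r))) = lin (ex (A r)) := by
    intro r
    congr 1
    funext c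
    rcases c with p' | c <;> rfl
  -- the coefficient functions
  set aa : P ⊕ Γ → MvPolynomial (P ⊕ Γ) R := Sum.elim
    (fun p => lin (ex (N (π.symm p))) * lin (ex (E p))) (fun _ => 0) with haa
  set bb : P ⊕ Γ → MvPolynomial (P ⊕ Γ) R := Sum.elim
    (fun p => lin (ex (N (π.symm p))) + C (w (π.symm p)) * lin (ex (E p))) (fun _ => 0) with hbb
  set dd : P ⊕ Γ → MvPolynomial (P ⊕ Γ) R := Sum.elim
    (fun p => C (w (π.symm p))) (fun _ => 0) with hdd
  have hmemU : ∀ c, c ∈ U ↔ ∃ p, c = Sum.inl p := by
    intro c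
    rw [hU, Finset.mem_map]
    constructor
    · rintro ⟨p, _, rfl⟩; exact ⟨p, rfl⟩
    · rintro ⟨p, rfl⟩; exact ⟨p, Finset.mem_univ _, rfl⟩
  have hprod : ∏ r, lin (elimM A N E π w r) = (∏ r, lin (ex (A r))) *
      ∏ c ∈ U, (aa c + bb c * X c + dd c * (X c * X c)) := by
    rw [Fintype.prod_sum_type, Fintype.prod_sum_type, mul_assoc]
    simp_rw [hA]
    congr 1
    rw [hU, Finset.prod_map]
    simp only [Function.Embedding.coeFn_mk]
    rw [← Equiv.prod_comp π.symm (fun p => lin (elimM A N E π w (.inl (.inr p)))),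
      ← Finset.prod_mul_distrib]
    apply Finset.prod_congr rfl
    intro p _
    rw [hN, hE, Equiv.apply_symm_apply, haa, hbb, hdd]
    simp only [Sum.elim_inl]
    ring
  have huniv : (Finset.univ : Finset (P ⊕ Γ)) = U ∪ (Finset.univ : Finset Γ).map j := by
    ext c
    simp only [Finset.mem_univ, true_iff, Finset.mem_union, hmemU, Finset.mem_map, hj,
      Function.Embedding.coeFn_mk, true_and]
    rcases c with p | c
    · exact Or.inl ⟨p, rfl⟩
    · exact Or.inr ⟨c, rfl⟩
  have hdisj : Disjoint ((Finset.univ : Finset Γ).map j) U := by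
    rw [Finset.disjoint_left]
    intro c hc hc'
    rw [hmemU] at hc'
    obtain ⟨p, rfl⟩ := hc'
    rw [Finset.mem_map] at hc
    obtain ⟨c, _, hc⟩ := hc
    simp [hj] at hc
  unfold per
  rw [hprod, huniv, elim_set (U := U) aa bb dd ?_ ?_ ?_ U (Finset.Subset.refl _) _ hdisj _ ?_]
  · -- back to the small matrix
    have h1 : (∏ r, lin (ex (A r))) * ∏ c ∈ U, bb c =
        ∏ r ∈ (Finset.univ : Finset (ρ ⊕ P)), lin (ex (St A (fun p c => N p c + w p * E (π p) c) r)) := by
      rw [Fintype.prod_sum_type]
      congr 1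
      rw [hU, Finset.prod_map]
      simp only [Function.Embedding.coeFn_mk]
      rw [← Equiv.prod_comp π (fun p => bb (Sum.inl p))]
      apply Finset.prod_congr rfl
      intro p _
      rw [hbb]
      simp only [Sum.elim_inl, Equiv.symm_apply_apply]
      rw [← lin_smul', ← lin_add']
      congr 1
      funext c
      rcases c with p' | c
      · simp [hex]
      · simp [hex, St]
    rw [h1, eps_emb_lin j]
    rfl
  · intro c hc
    rw [hmemU] at hc
    obtain ⟨p, rfl⟩ := hc
    exact (hfree _).mul (hfree _)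
  · intro c hc
    rw [hmemU] at hc
    obtain ⟨p, rfl⟩ := hc
    exact (hfree _).add ((Free.C _).mul (hfree _))
  · intro c hc
    rw [hmemU] at hc
    obtain ⟨p, rfl⟩ := hc
    exact Free.C _
  · exact Free.prod _ _ fun _ _ => hfree _

end Elim

end Pool.Agent.W940.G
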