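import Pool.Agent.W940.G7

set_option autoImplicit false
set_option linter.unusedSectionVars false

open MvPolynomial Finset

namespace Pool.Agent.W940.G

open Pool.Agent.H546R2.SL (eps lin eps_add eps_sum eps_C_mul eps_one eps_mul eps_lin eps_lin_mul
  eps_prod_zero_of_card ind)
open Pool.Agent.H546R2.SM (per bl lin_add' lin_smul')

section Rows

variable {γ Γ : Type*} [DecidableEq γ] [Fintype γ] [DecidableEq Γ] [Fintype Γ]
  {R : Type*} [CommRing R]

/-- the linear form of a row placed in a larger set of columns -/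
noncomputable def plin (j : γ ↪ Γ) (f : γ → R) : MvPolynomial Γ R := ∑ c, C (f c) * X (j c)

lemma plin_add (j : γ ↪ Γ) (f g : γ → R) : plin j (fun c => f c + g c) = plin j f + plin j g := by
  unfold plin
  rw [← Finset.sum_add_distrib]
  apply Finset.sum_congr rfl
  intro c _
  rw [map_add]; ring

lemma plin_sub (j : γ ↪ Γ) (f g : γ → R) : plin j (fun c => f c - g c) = plin j f - plin j g := by
  unfold plin
  rw [← Finset.sum_sub_distrib]
  apply Finset.sum_congr rfl
  intro c _
  rw [map_sub]; ring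

lemma plin_smul (j : γ ↪ Γ) (x : R) (f : γ → R) : plin j (fun c => x * f c) = C x * plin j f := by
  unfold plin
  rw [Finset.mul_sum]
  apply Finset.sum_congr rfl
  intro c _
  rw [map_mul]; ring

lemma plin_sum {ι : Type*} (s : Finset ι) (j : γ ↪ Γ) (f : ι → γ → R) :
    plin j (fun c => ∑ i ∈ s, f i c) = ∑ i ∈ s, plin j (f i) := by
  unfold plin
  rw [Finset.sum_comm]
  apply Finset.sum_congr rfl
  intro c _
  rw [map_sum, Finset.sum_mul]

/-- indicator function -/
def idc (R : Type*) [CommRing R] (U : Finset γ) : γ → R := fun c => if c ∈ U then 1 else 0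

/-- unit vector -/
def unit (R : Type*) [CommRing R] (a : γ) : γ → R := fun c => if c = a then 1 else 0

lemma plin_unit (j : γ ↪ Γ) (a : γ) : plin j (unit R a) = X (j a) := by
  unfold plin unit
  rw [Finset.sum_eq_single a]
  · rw [if_pos rfl, map_one, one_mul]
  · intro b _ hb
    rw [if_neg hb, map_zero, zero_mul]
  · intro h; exact absurd (Finset.mem_univ a) h

lemma plin_idc (j : γ ↪ Γ) (U : Finset γ) : plin j (idc R U) = bl R (U.map j) := by
  have h1 : bl R (U.map j) = ∑ c ∈ U, X (j c) := by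
    unfold bl lin
    have h2 : ∀ x : Γ, C (if x ∈ U.map j then (1 : R) else 0) * X x =
        if x ∈ U.map j then (X x : MvPolynomial Γ R) else 0 := by
      intro x
      split_ifs
      · rw [map_one, one_mul]
      · rw [map_zero, zero_mul]
    rw [Finset.sum_congr rfl (fun x _ => h2 x), ← Finset.sum_filter, Finset.filter_mem_eq_inter,
      Finset.univ_inter, Finset.sum_map]
  rw [h1]
  unfold plin idc
  have h2 : ∀ x : γ, C (if x ∈ U then (1 : R) else 0) * X (j x) =
      if x ∈ U then (X (j x) : MvPolynomial Γ R) else 0 := by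
    intro x
    split_ifs
    · rw [map_one, one_mul]
    · rw [map_zero, zero_mul]
  rw [Finset.sum_congr rfl (fun x _ => h2 x), ← Finset.sum_filter, Finset.filter_mem_eq_inter,
    Finset.univ_inter]

/-- fixed rows of a network -/
abbrev NR (a J : ℕ) := (Fin (a * a) × Fin 5) ⊕
  ((Fin 2 × Fin a) × (Fin a ⊕ (Σ j : Fin J, Fin (2 ^ (j : ℕ)))))

variable {a J : ℕ}

/-- the fixed rows of a network -/
def nrow (D : NetD γ (Fin (a * a)) (Fin 2 × Fin a)) (τ : Fin a → R)
    (ζ : (j : ℕ) → Fin (2 ^ j) → R) : NR a J → γ → R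
  | .inl (i, 0), c => idc R D.Φ c + unit R (D.z i 1) c
  | .inl (i, 1), c => unit R (D.z i 0) c + unit R (D.z i 1) c + unit R (D.z i 2) c +
      unit R (D.z i 3) c
  | .inl (i, 2), c => unit R (D.z i 0) c + unit R (D.z i 1) c - unit R (D.z i 2) c -
      unit R (D.z i 3) c
  | .inl (i, 3), c => idc R (D.S (D.cl i)) c + unit R (D.z i 2) c
  | .inl (i, 4), c => idc R (D.S (D.cl' i)) c + unit R (D.z i 3) c
  | .inr (x, .inl s), c => (∑ j ∈ range J, idc R (D.L x j) c) + τ s * idc R (D.S x) c
  | .inr (x, .inr ⟨j, s⟩), c => idc R (D.L x j) c + ζ j s * (unit R (D.u x j) c + idc R D.W c)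

/-- wires of a network: constant part -/
def wN (D : NetD γ (Fin (a * a)) (Fin 2 × Fin a)) (μ : ℕ → R) (x : (Fin 2 × Fin a) × Fin J) :
    γ → R := fun c => unit R (D.u x.1 x.2) c - μ x.2 * idc R D.W c

/-- wires of a network: active part -/
def wE (D : NetD γ (Fin (a * a)) (Fin 2 × Fin a)) (R : Type*) [CommRing R]
    (_ : (Fin 2 × Fin a) × Fin J) : γ → R := idc R D.W

theorem net_prod (D : NetD γ (Fin (a * a)) (Fin 2 × Fin a)) (j : γ ↪ Γ)
    (A : Fin (a * a) → MvPolynomial Γ R) (τ : Fin a → R) (ζ : (j : ℕ) → Fin (2 ^ j) → R)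
    (μ : ℕ → R) (l : Fin 2 × Fin a → R) :
    (∏ i, (A i + X (j (D.z i 0)))) * ((∏ r : NR a J, plin j (nrow D τ ζ r)) *
      ∏ x : (Fin 2 × Fin a) × Fin J,
        plin j (fun c => wN D μ x c + l x.1 ^ 2 ^ (x.2 : ℕ) * wE D R x c)) =
      (D.map j).poly A τ ζ μ l J := by
  unfold NetD.poly
  have hA : ∏ x : Fin (a * a) × Fin 5, plin j (nrow D τ ζ (.inl x : NR a J)) =
      ∏ i, ∏ s, plin j (nrow D τ ζ (.inl (i, s) : NR a J)) :=
    Fintype.prod_prod_type (f := fun x => plin j (nrow D τ ζ (.inl x : NR a J)))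
  have hB : ∏ x : (Fin 2 × Fin a) × (Fin a ⊕ (Σ j : Fin J, Fin (2 ^ (j : ℕ)))),
      plin j (nrow D τ ζ (.inr x : NR a J)) =
      ∏ x, ∏ y, plin j (nrow D τ ζ (.inr (x, y) : NR a J)) :=
    Fintype.prod_prod_type (f := fun x => plin j (nrow D τ ζ (.inr x : NR a J)))
  have hC : ∏ x : (Fin 2 × Fin a) × Fin J,
      plin j (fun c => wN D μ x c + l x.1 ^ 2 ^ (x.2 : ℕ) * wE D R x c) =
      ∏ x, ∏ i : Fin J, plin j (fun c => wN D μ (x, i) c + l (x, i).1 ^ 2 ^ ((x, i).2 : ℕ) *
        wE D R (x, i) c) :=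
    Fintype.prod_prod_type (f := fun x : (Fin 2 × Fin a) × Fin J =>
      plin j (fun c => wN D μ x c + l x.1 ^ 2 ^ (x.2 : ℕ) * wE D R x c))
  have hL : (∏ i, (A i + X (j (D.z i 0)))) * ((∏ r : NR a J, plin j (nrow D τ ζ r)) *
      ∏ x : (Fin 2 × Fin a) × Fin J,
        plin j (fun c => wN D μ x c + l x.1 ^ 2 ^ (x.2 : ℕ) * wE D R x c)) =
      (∏ i, ((A i + X (j (D.z i 0))) * ∏ s, plin j (nrow D τ ζ (.inl (i, s) : NR a J)))) *
      ∏ x, ((∏ y, plin j (nrow D τ ζ (.inr (x, y) : NR a J))) *
        ∏ i : Fin J, plin j (fun c => wN D μ (x, i) c + l (x, i).1 ^ 2 ^ ((x, i).2 : ℕ) *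
        wE D R (x, i) c)) := by
    rw [Fintype.prod_sum_type, hA, hB, hC, Finset.prod_mul_distrib, Finset.prod_mul_distrib]
    ring
  rw [hL]
  refine congrArg₂ (fun x y => x * y) (Finset.prod_congr rfl fun i _ => ?_)
    (Finset.prod_congr rfl fun x _ => ?_)
  · rw [Fin.prod_univ_five]
    have h0 : plin j (nrow D τ ζ (.inl (i, 0) : NR a J)) =
        bl R (D.Φ.map j) + X (j (D.z i 1)) := by
      rw [← plin_idc, ← plin_unit, ← plin_add]; rfl
    have h1 : plin j (nrow D τ ζ (.inl (i, 1) : NR a J)) =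
        X (j (D.z i 0)) + X (j (D.z i 1)) + X (j (D.z i 2)) + X (j (D.z i 3)) := by
      rw [← plin_unit, ← plin_unit, ← plin_unit, ← plin_unit, ← plin_add, ← plin_add, ← plin_add]
      rfl
    have h2 : plin j (nrow D τ ζ (.inl (i, 2) : NR a J)) =
        X (j (D.z i 0)) + X (j (D.z i 1)) - X (j (D.z i 2)) - X (j (D.z i 3)) := by
      rw [← plin_unit, ← plin_unit, ← plin_unit, ← plin_unit, ← plin_add, ← plin_sub, ← plin_sub]
      rfl
    have h3 : plin j (nrow D τ ζ (.inl (i, 3) : NR a J)) =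
        bl R ((D.S (D.cl i)).map j) + X (j (D.z i 2)) := by
      rw [← plin_idc, ← plin_unit, ← plin_add]; rfl
    have h4 : plin j (nrow D τ ζ (.inl (i, 4) : NR a J)) =
        bl R ((D.S (D.cl' i)).map j) + X (j (D.z i 3)) := by
      rw [← plin_idc, ← plin_unit, ← plin_add]; rfl
    rw [h0, h1, h2, h3, h4]
    unfold fanP
    change _ = (A i + X (j (D.z i 0))) * ((bl R (D.Φ.map j) + X (j (D.z i 1))) *
      ((X (j (D.z i 0)) + X (j (D.z i 1)) + X (j (D.z i 2)) + X (j (D.z i 3))) *
      ((X (j (D.z i 0)) + X (j (D.z i 1)) - X (j (D.z i 2)) - X (j (D.z i 3))) *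
      ((bl R ((D.S (D.cl i)).map j) + X (j (D.z i 2))) *
        (bl R ((D.S (D.cl' i)).map j) + X (j (D.z i 3)))))))
    ring
  · rw [Fintype.prod_sum_type, Fintype.prod_sigma]
    unfold clsP
    rw [mul_assoc, ← Finset.prod_mul_distrib, Finset.prod_range]
    refine congrArg₂ (fun x y => x * y) (Finset.prod_congr rfl fun s _ => ?_)
      (Finset.prod_congr rfl fun i _ => ?_)
    ·
      have h1 : plin j (nrow D τ ζ (.inr (x, .inl s) : NR a J)) =
          (∑ i ∈ range J, bl R ((D.L x i).map j)) + C (τ s) * bl R ((D.S x).map j) := by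
        rw [← plin_idc, ← plin_smul]
        have h2 : ∑ i ∈ range J, bl R ((D.L x i).map j) =
            ∑ i ∈ range J, plin j (idc R (D.L x i)) :=
          Finset.sum_congr rfl fun i _ => (plin_idc j _).symm
        rw [h2, ← plin_sum, ← plin_add]
        rfl
      rw [h1]
      rfl
    · unfold blkP
      refine congrArg₂ (fun x y => x * y) (Finset.prod_congr rfl fun s _ => ?_) ?_
      ·
        have h1 : plin j (nrow D τ ζ (.inr (x, .inr ⟨i, s⟩) : NR a J)) =
            bl R ((D.L x i).map j) + C (ζ i s) * (X (j (D.u x i)) + bl R (D.W.map j)) := by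
          rw [← plin_idc, ← plin_idc, ← plin_unit, ← plin_add, ← plin_smul, ← plin_add]
          rfl
        rw [h1]
        rfl
      · have h1 : plin j (fun c => wN D μ (x, i) c + l (x, i).1 ^ 2 ^ ((x, i).2 : ℕ) *
            wE D R (x, i) c) =
            X (j (D.u x i)) + C (l x ^ 2 ^ (i : ℕ) - μ i) * bl R (D.W.map j) := by
          rw [plin_add, plin_smul]
          unfold wN wE
          rw [plin_sub, plin_smul, plin_unit, plin_idc, map_sub]
          simp only
          ring
        rw [h1]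
        rfl

end Rows

section Mark

variable {Γ : Type*} [DecidableEq Γ] [Fintype Γ] {R : Type*} [CommRing R]

lemma elim_prodX (s : Finset Γ) : Elim s (∏ c ∈ s, X c) (1 : MvPolynomial Γ R) := by
  have h1 := Elim.prod (R := R) s (fun c => {c}) (fun c => X c) (fun _ => 1) ?_ ?_ ?_ ?_
  · have h2 : s.biUnion (fun c => ({c} : Finset Γ)) = s := by
      ext c; simp
    rwa [h2, Finset.prod_const_one] at h1
  · intro c _
    apply Elim.single' 0 1 0
    · intro T _
      unfold eps
      rw [coeff_zero]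
    · ring
  · intro c _ d _ hcd
    exact Free.X (by simpa using hcd.symm)
  · intro c _ d _ _
    exact Free.one
  · intro c _ d _ hcd
    simpa using hcd

lemma elim_sq (U : Finset Γ) (c : Γ) (p : MvPolynomial Γ R) : Elim U (X c * (X c * p)) 0 := by
  intro S _
  rw [eps_X_mul, eps_X_mul]
  have h0 : eps S (0 : MvPolynomial Γ R) = 0 := by unfold eps; rw [coeff_zero]
  rw [h0]
  split_ifs with h1 h2
  · exact absurd h2 (Finset.notMem_erase c _)
  · rfl
  · rfl

/-- one marker -/
theorem marker {n : ℕ} [NeZero n] (d : Fin n → Γ) (e : Γ) (hd : Function.Injective d)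
    (he : ∀ p, d p ≠ e) (x : Fin n → R) (g : Fin n) :
    Elim (insert e (Finset.univ.image d))
      ((∑ p, C (x p) * X (d p)) * ∏ p : Fin n, ((if p = 0 then X e else 0) + X (d (p + g))))
      (C (x g)) := by
  classical
  have h1 : ∏ p : Fin n, ((if p = 0 then (X e : MvPolynomial Γ R) else 0) + X (d (p + g))) =
      (X e + X (d g)) * ∏ p ∈ Finset.univ.erase g, X (d p) := by
    rw [← Equiv.prod_comp (Equiv.subRight g)
      (fun p => ((if p = 0 then (X e : MvPolynomial Γ R) else 0) + X (d (p + g)))),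
      ← Finset.mul_prod_erase Finset.univ _ (Finset.mem_univ g)]
    congr 1
    · simp
    · apply Finset.prod_congr rfl
      intro p hp
      have hne : p - g ≠ 0 := fun h => (Finset.mem_erase.mp hp).1 (sub_eq_zero.mp h)
      simp [hne]
  have h2 : (∑ p, C (x p) * X (d p)) * ((X e + X (d g)) * ∏ p ∈ Finset.univ.erase g,
      (X (d p) : MvPolynomial Γ R)) = C (x g) * ∏ c ∈ insert e (Finset.univ.image d), X c +
        (X (d g) * (X (d g) * (C (x g) * ∏ p ∈ Finset.univ.erase g, X (d p))) +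
        ∑ p ∈ Finset.univ.erase g, X (d p) * (X (d p) * (C (x p) * ((X e + X (d g)) *
          ∏ c ∈ (Finset.univ.erase g).erase p, X (d c))))) := by
    rw [← Finset.add_sum_erase Finset.univ _ (Finset.mem_univ g), add_mul, Finset.sum_mul,
      Finset.prod_insert, Finset.prod_image (fun a _ b _ h => hd h),
      ← Finset.mul_prod_erase Finset.univ (fun p => X (d p)) (Finset.mem_univ g)]
    · have h3 : ∑ p ∈ Finset.univ.erase g, C (x p) * X (d p) * ((X e + X (d g)) *
          ∏ p ∈ Finset.univ.erase g, (X (d p) : MvPolynomial Γ R)) =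
          ∑ p ∈ Finset.univ.erase g, X (d p) * (X (d p) * (C (x p) * ((X e + X (d g)) *
          ∏ c ∈ (Finset.univ.erase g).erase p, X (d c)))) := by
        apply Finset.sum_congr rfl
        intro p hp
        rw [← Finset.mul_prod_erase (Finset.univ.erase g) (fun p => X (d p)) hp]
        ring
      rw [h3]
      ring
    · intro h
      rw [Finset.mem_image] at h
      obtain ⟨p, _, hp⟩ := h
      exact he p hp
  rw [h1, h2]
  have h4 : (C (x g) : MvPolynomial Γ R) = C (x g) * 1 + (0 + ∑ _p ∈ Finset.univ.erase g, 0) := by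
    rw [Finset.sum_const_zero]; ring
  have key := Elim.add ((elim_prodX (R := R) (insert e (Finset.univ.image d))).mul_left
    (Free.C (x g))) (Elim.add (elim_sq (insert e (Finset.univ.image d)) (d g)
      (C (x g) * ∏ p ∈ Finset.univ.erase g, (X (d p) : MvPolynomial Γ R)))
      (Elim.sum (Finset.univ.erase g) (fun p => X (d p) * (X (d p) * (C (x p) *
        ((X e + X (d g)) * ∏ c ∈ (Finset.univ.erase g).erase p, (X (d c) : MvPolynomial Γ R)))))
        (fun _ => 0) (fun p _ => elim_sq (insert e (Finset.univ.image d)) (d p) _)))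
  rw [← h4] at key
  exact key

end Mark

end Pool.Agent.W940.G
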