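import Pool.Agent.W940.G8
import Pool.Agent.W940.G9

set_option autoImplicit false
set_option linter.unusedSectionVars false

open MvPolynomial Finset

namespace Pool.Agent.W940.G

open Pool.Agent.H546R2.SL (eps lin eps_add eps_sum eps_C_mul eps_one eps_mul eps_lin eps_lin_mul
  eps_prod_zero_of_card ind)
open Pool.Agent.H546R2.SM (per bl lin_add' lin_smul')

section Val

variable {R : Type*} [CommRing R]

lemma eps_rename {γ Γ : Type*} [DecidableEq γ] [Fintype γ] [DecidableEq Γ] [Fintype Γ]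
    (j : γ ↪ Γ) (S : Finset γ) (p : MvPolynomial γ R) :
    eps (S.map j) (rename j p) = eps S p := by
  unfold eps
  rw [← coeff_rename_mapDomain j j.injective p (ind S)]
  congr 1
  unfold ind
  rw [Finset.sum_map, Finsupp.mapDomain_finsetSum]
  apply Finset.sum_congr rfl
  intro c _
  rw [Finsupp.mapDomain_single]

lemma eps_prodX_mul {γ : Type*} [DecidableEq γ] [Fintype γ] (V : Finset γ) :
    ∀ (S : Finset γ) (f : MvPolynomial γ R), V ⊆ S →
      eps S ((∏ c ∈ V, X c) * f) = eps (S \ V) f := by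
  induction V using Finset.induction_on with
  | empty => intro S f _; simp
  | insert c V hc ih =>
    intro S f hS
    rw [Finset.prod_insert hc, mul_assoc, eps_X_mul, if_pos (hS (Finset.mem_insert_self _ _)),
      ih (S.erase c) f]
    · congr 1
      ext x
      simp only [Finset.mem_sdiff, Finset.mem_erase, Finset.mem_insert]
      tauto
    · intro x hx
      rw [Finset.mem_erase]
      refine ⟨?_, hS (Finset.mem_insert_of_mem hx)⟩
      rintro rfl
      exact hc hx

/-- the functional of the small matrix -/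
noncomputable def PhiS {m C₀ : ℕ} (k : ℕ) (A : Fin m → Fin C₀ → R) (ρ : Fin m → R)
    (χ : Fin C₀ → R) : R :=
  ∑ S ∈ (Finset.univ : Finset (Fin C₀)).powersetCard k,
    (∏ c ∈ S, χ c) * eps S (∏ r, (C (ρ r) + lin (A r)))

lemma eval_q {m C₀ k : ℕ} (hm : m = 2 * k) (A : Fin m → Fin C₀ → R) (ρ : Fin m → R)
    (χ : Fin C₀ → R) :
    eps Finset.univ ((∑ T ∈ (Finset.univ : Finset (Fin m)).powersetCard k,
      (∏ r ∈ Finset.univ \ T, lin (A r)) * C (∏ r ∈ T, ρ r)) *
      (∑ T ∈ (Finset.univ : Finset (Fin C₀)).powersetCard k,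
        (∏ c ∈ Finset.univ \ T, X c) * C (∏ c ∈ T, χ c))) = PhiS k A ρ χ := by
  classical
  unfold PhiS
  rw [Finset.mul_sum, eps_sum]
  apply Finset.sum_congr rfl
  intro S hS
  rw [Finset.mem_powersetCard] at hS
  have h1 : (∑ T ∈ (Finset.univ : Finset (Fin m)).powersetCard k,
      (∏ r ∈ Finset.univ \ T, lin (A r)) * C (∏ r ∈ T, ρ r)) *
      ((∏ c ∈ Finset.univ \ S, X c) * C (∏ c ∈ S, χ c)) =
      C (∏ c ∈ S, χ c) * ((∏ c ∈ Finset.univ \ S, X c) *
      ∑ T ∈ (Finset.univ : Finset (Fin m)).powersetCard k,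
      (∏ r ∈ Finset.univ \ T, lin (A r)) * C (∏ r ∈ T, ρ r)) := by ring
  rw [h1, eps_C_mul, eps_prodX_mul _ _ _ (Finset.subset_univ _),
    Finset.sdiff_sdiff_eq_self (Finset.subset_univ S)]
  congr 1
  rw [Finset.prod_add, eps_sum, eps_sum]
  apply Finset.sum_subset_zero_on_sdiff
  · intro T _
    rw [Finset.mem_powerset]
    exact Finset.subset_univ _
  · intro T hT
    rw [Finset.mem_sdiff, Finset.mem_powersetCard] at hT
    rw [← map_prod, eps_C_mul, eps_prod_zero_of_card, mul_zero]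
    rw [Finset.card_sdiff_of_subset (Finset.subset_univ T), Finset.card_univ, Fintype.card_fin, hS.2]
    intro h2
    apply hT.2
    refine ⟨Finset.subset_univ _, ?_⟩
    have h3 : T.card ≤ m := by
      have := Finset.card_le_univ T
      rwa [Fintype.card_fin] at this
    omega
  · intro T _
    rw [map_prod, mul_comm]

end Val

section FreePoly

variable {γ : Type*} [DecidableEq γ] [Fintype γ] {R : Type*} [CommRing R]
  {I κ : Type*} [Fintype I] [DecidableEq I] [Fintype κ] [DecidableEq κ]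

lemma NetD.free_poly (D : NetD γ I κ) {V : Finset γ} {J : ℕ} (h : Disjoint (D.all J) V)
    (A : I → MvPolynomial γ R) (hA : ∀ i, Free V (A i)) {w : ℕ} (τ : Fin w → R)
    (ζ : (j : ℕ) → Fin (2 ^ j) → R) (μ : ℕ → R) (l : κ → R) :
    Free V (D.poly A τ ζ μ l J) := by
  have hfan : ∀ i, Disjoint (fanU (D.z i)) V := fun i => h.mono_left
    ((Finset.subset_biUnion_of_mem (fun i => fanU (D.z i)) (Finset.mem_univ i)).trans
      Finset.subset_union_left)
  have hcl : ∀ c, Disjoint (D.clU J c) V := fun c => h.mono_left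
    (((Finset.subset_biUnion_of_mem (fun c => D.clU J c) (Finset.mem_univ c)).trans
      Finset.subset_union_left).trans Finset.subset_union_right)
  have hΦ : Disjoint D.Φ V := h.mono_left fun x hx => by
    unfold NetD.all
    simp only [Finset.mem_union]
    exact Or.inr (Or.inr (Or.inl hx))
  have hW : Disjoint D.W V := h.mono_left fun x hx => by
    unfold NetD.all
    simp only [Finset.mem_union]
    exact Or.inr (Or.inr (Or.inr hx))
  have hLsub : ∀ c, ∀ j < J, D.L c j ∪ {D.u c j} ⊆ D.clU J c := by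
    intro c j hj
    refine Finset.Subset.trans ?_ Finset.subset_union_right
    exact Finset.subset_biUnion_of_mem (fun j => D.L c j ∪ {D.u c j}) (Finset.mem_range.mpr hj)
  have hS : ∀ c, Disjoint (D.S c) V := fun c => (hcl c).mono_left Finset.subset_union_left
  unfold NetD.poly
  apply Free.mul
  · apply Free.prod
    intro i _
    exact Free.fanP (fun a ha => Finset.disjoint_left.mp (hfan i) (mem_fanU.mpr ⟨a, rfl⟩) ha)
      (hA i) (Free.blset hΦ) (Free.blset (hS _)) (Free.blset (hS _))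
  · apply Free.prod
    intro c _
    apply Free.clsP (hS c)
    · intro j hj
      exact ((hcl c).mono_left (hLsub c j hj)).mono_left Finset.subset_union_left
    · intro j hj
      have := ((hcl c).mono_left (hLsub c j hj)).mono_left Finset.subset_union_right
      exact Finset.disjoint_singleton_left.mp this
    · exact Free.blset hW

end FreePoly

section Small

variable (R : Type*) [CommRing R] (n k Jr Jc : ℕ)

/-- number of main rows -/
abbrev mm (n : ℕ) := n * n

/-- number of main columns -/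
abbrev CC₀ (n : ℕ) := (2 * n) * (2 * n)

/-- auxiliary columns -/
abbrev Oc (n k Jr Jc : ℕ) := NC n Jr k ⊕ (NC (2 * n) Jc k ⊕ (Fin 2 × (Fin n ⊕ Unit)))

/-- auxiliary rows -/
abbrev Or (n Jr Jc : ℕ) := NR n Jr ⊕ (NR (2 * n) Jc ⊕ Fin 2)

/-- wires -/
abbrev Pw (n Jr Jc : ℕ) := ((Fin 2 × Fin n) × Fin Jr) ⊕ (((Fin 2 × Fin (2 * n)) × Fin Jc) ⊕
  (Fin 2 × Fin n))

/-- the constants of the gadget -/
structure Cst (R : Type*) (n : ℕ) where
  τr : Fin n → R
  τc : Fin (2 * n) → R
  ζ : (j : ℕ) → Fin (2 ^ j) → R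
  μ : ℕ → R
  x : Fin 2 → Fin n → R

variable {R n k Jr Jc}

/-- auxiliary rows -/
def orow (cs : Cst R n) : Or n Jr Jc → Oc n k Jr Jc → R
  | .inl x, .inl c => nrow (cD n Jr k) cs.τr cs.ζ x c
  | .inl _, .inr _ => 0
  | .inr (.inl _), .inl _ => 0
  | .inr (.inl x), .inr (.inl c) => nrow (cD (2 * n) Jc k) cs.τc cs.ζ x c
  | .inr (.inl _), .inr (.inr _) => 0
  | .inr (.inr _), .inl _ => 0
  | .inr (.inr _), .inr (.inl _) => 0
  | .inr (.inr s), .inr (.inr (s', .inl p)) => if s' = s then cs.x s p else 0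
  | .inr (.inr _), .inr (.inr (_, .inr _)) => 0

/-- constant parts of the wires -/
def pN [NeZero n] (cs : Cst R n) : Pw n Jr Jc → Oc n k Jr Jc → R
  | .inl x, .inl c => wN (cD n Jr k) cs.μ x c
  | .inl _, .inr _ => 0
  | .inr (.inl _), .inl _ => 0
  | .inr (.inl x), .inr (.inl c) => wN (cD (2 * n) Jc k) cs.μ x c
  | .inr (.inl _), .inr (.inr _) => 0
  | .inr (.inr _), .inl _ => 0
  | .inr (.inr _), .inr (.inl _) => 0
  | .inr (.inr _), .inr (.inr (_, .inl _)) => 0
  | .inr (.inr (s, p)), .inr (.inr (s', .inr _)) => if s' = s ∧ p = 0 then 1 else 0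

/-- active parts of the wires -/
def pE (R : Type*) [CommRing R] (n k Jr Jc : ℕ) : Pw n Jr Jc → Oc n k Jr Jc → R
  | .inl x, .inl c => wE (cD n Jr k) R x c
  | .inl _, .inr _ => 0
  | .inr (.inl _), .inl _ => 0
  | .inr (.inl x), .inr (.inl c) => wE (cD (2 * n) Jc k) R x c
  | .inr (.inl _), .inr (.inr _) => 0
  | .inr (.inr _), .inl _ => 0
  | .inr (.inr _), .inr (.inl _) => 0
  | .inr (.inr (s, p)), .inr (.inr (s', .inl p')) => if s' = s ∧ p' = p then 1 else 0
  | .inr (.inr _), .inr (.inr (_, .inr _)) => 0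

/-- reduction modulo `n` -/
def fsh (n : ℕ) [NeZero n] (a : ℕ) : Fin n := ⟨a % n, Nat.mod_lt _ (Nat.pos_of_ne_zero (NeZero.ne n))⟩

lemma fsh_zero (n : ℕ) [NeZero n] : fsh n 0 = 0 := by
  apply Fin.ext
  simp [fsh]

lemma fsh_add (n : ℕ) [NeZero n] (a b : ℕ) : fsh n (a + b) = fsh n a + fsh n b := by
  apply Fin.ext
  simp [fsh, Fin.val_add]

lemma fsh_val (n : ℕ) [NeZero n] (g : Fin n) : fsh n (g : ℕ) = g := by
  apply Fin.ext
  simp [fsh, Nat.mod_eq_of_lt g.2]

/-- the operation for the shift `g` -/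
def opg [NeZero n] (br : Fin n → R) (bc : Fin (2 * n) → R) (g : Fin 2 → ℕ) :
    Op (Pw n Jr Jc) R :=
  (Equiv.sumCongr (Equiv.refl _) (Equiv.sumCongr (Equiv.refl _)
    (Equiv.prodShear (Equiv.refl (Fin 2)) fun s => Equiv.addRight (fsh n (g s)))),
  fun p => match p with
    | .inl ((s, x), j) => (br x ^ g s) ^ 2 ^ (j : ℕ)
    | .inr (.inl ((s, y), j)) => (bc y ^ g s) ^ 2 ^ (j : ℕ)
    | .inr (.inr _) => 1)

/-- the fixed rows of the small matrix -/
def smA (cs : Cst R n) (A : Fin (mm n) → Fin (CC₀ n) → R) :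
    Fin (mm n) ⊕ (Fin (CC₀ n) ⊕ Or n Jr Jc) → Fin (CC₀ n) ⊕ Oc n k Jr Jc → R
  | .inl r, .inl c => A r c
  | .inl r, .inr o => unit R (Sum.inl ((cD n Jr k).z r 0)) o
  | .inr (.inl c'), .inl c => if c = c' then 1 else 0
  | .inr (.inl c'), .inr o => unit R (Sum.inr (Sum.inl ((cD (2 * n) Jc k).z c' 0))) o
  | .inr (.inr _), .inl _ => 0
  | .inr (.inr x), .inr o => orow cs x o

/-- lift of functions on the auxiliary columns -/
def lft {β γ : Type*} {P : Type*} (E : P → γ → R) : P → β ⊕ γ → R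
  | _, .inl _ => 0
  | p, .inr o => E p o

/-- linear form on the main columns -/
noncomputable def linX {C₀ : ℕ} (γ : Type*) (a : Fin C₀ → R) : MvPolynomial (Fin C₀ ⊕ γ) R :=
  ∑ c, C (a c) * X (.inl c)

lemma lin_split {C₀ : ℕ} {γ : Type*} [Fintype γ] [DecidableEq γ] (f : Fin C₀ ⊕ γ → R) :
    lin f = linX γ (fun c => f (.inl c)) + plin ⟨Sum.inr, Sum.inr_injective⟩ (fun o => f (.inr o)) := by
  unfold lin linX plin
  rw [Fintype.sum_sum_type]
  rfl

lemma linX_zero {C₀ : ℕ} {γ : Type*} : linX γ (fun _ : Fin C₀ => (0 : R)) = 0 := by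
  unfold linX
  simp

lemma linX_unit {C₀ : ℕ} {γ : Type*} (c' : Fin C₀) :
    linX γ (fun c : Fin C₀ => if c = c' then (1 : R) else 0) = X (.inl c') := by
  unfold linX
  rw [Finset.sum_eq_single c']
  · simp
  · intro b _ hb
    simp [hb]
  · intro h; exact absurd (Finset.mem_univ _) h

lemma plin_inl {α β Γ : Type*} [Fintype α] [Fintype β] [DecidableEq α] [DecidableEq β]
    [Fintype Γ] [DecidableEq Γ] (j : α ⊕ β ↪ Γ) (f : α ⊕ β → R) (h : ∀ b, f (.inr b) = 0) :
    plin j f = plin (Function.Embedding.inl.trans j) (fun a => f (.inl a)) := by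
  unfold plin
  rw [Fintype.sum_sum_type]
  simp [h]

lemma plin_inr {α β Γ : Type*} [Fintype α] [Fintype β] [DecidableEq α] [DecidableEq β]
    [Fintype Γ] [DecidableEq Γ] (j : α ⊕ β ↪ Γ) (f : α ⊕ β → R) (h : ∀ a, f (.inl a) = 0) :
    plin j f = plin (Function.Embedding.inr.trans j) (fun b => f (.inr b)) := by
  unfold plin
  rw [Fintype.sum_sum_type]
  simp [h]

end Small

end Pool.Agent.W940.G
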