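import Pool.Agent.W940.G10

set_option autoImplicit false
set_option linter.unusedSectionVars false

open MvPolynomial Finset

namespace Pool.Agent.W940.G

open Pool.Agent.H546R2.SL (eps lin eps_add eps_sum eps_C_mul eps_one eps_mul eps_lin eps_lin_mul
  eps_prod_zero_of_card ind)
open Pool.Agent.H546R2.SM (per bl lin_add' lin_smul')

section Small

variable {R : Type*} [CommRing R] {n k Jr Jc : ℕ}

/-- embeddings of the parts of the auxiliary columns -/
def jr (n k Jr Jc : ℕ) : NC n Jr k ↪ Fin (CC₀ n) ⊕ Oc n k Jr Jc :=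
  Function.Embedding.inl.trans Function.Embedding.inr

/-- embeddings of the parts of the auxiliary columns -/
def jc (n k Jr Jc : ℕ) : NC (2 * n) Jc k ↪ Fin (CC₀ n) ⊕ Oc n k Jr Jc :=
  Function.Embedding.inl.trans (Function.Embedding.inr.trans Function.Embedding.inr)

/-- embeddings of the parts of the auxiliary columns -/
def jm (n k Jr Jc : ℕ) : Fin 2 × (Fin n ⊕ Unit) ↪ Fin (CC₀ n) ⊕ Oc n k Jr Jc :=
  Function.Embedding.inr.trans (Function.Embedding.inr.trans Function.Embedding.inr)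

lemma lin_aux (f : Fin (CC₀ n) ⊕ Oc n k Jr Jc → R) (h : ∀ c, f (.inl c) = 0) :
    lin f = plin Function.Embedding.inr (fun o => f (.inr o)) := by
  rw [lin_split]
  have h1 : (fun c => f (.inl c)) = fun _ => (0 : R) := funext h
  rw [h1, linX_zero, zero_add]
  rfl

/-- the polynomial of one marker -/
noncomputable def mkP (n k Jr Jc : ℕ) [NeZero n] (x : Fin n → R) (s : Fin 2) (g : Fin n) :
    MvPolynomial (Fin (CC₀ n) ⊕ Oc n k Jr Jc) R :=
  (∑ p, C (x p) * X (jm n k Jr Jc (s, .inl p))) *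
    ∏ p : Fin n, ((if p = 0 then X (jm n k Jr Jc (s, .inr ())) else 0) +
      X (jm n k Jr Jc (s, .inl (p + g))))

theorem small_prod [NeZero n] (cs : Cst R n) (br : Fin n → R) (bc : Fin (2 * n) → R)
    (g : Fin 2 → ℕ) (A : Fin (mm n) → Fin (CC₀ n) → R) :
    ∏ x, lin (St (smA (k := k) (Jr := Jr) (Jc := Jc) cs A) (fun p o => lft (pN cs) p o +
      lft (act (opg br bc g) (pE R n k Jr Jc)) p o) x) =
    ((cD n Jr k).map (jr n k Jr Jc)).poly (fun r => linX (Oc n k Jr Jc) (A r)) cs.τr cs.ζ cs.μ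
      (fun c => br c.2 ^ g c.1) Jr *
    (((cD (2 * n) Jc k).map (jc n k Jr Jc)).poly (fun c => X (.inl c)) cs.τc cs.ζ cs.μ
      (fun c => bc c.2 ^ g c.1) Jc *
    (mkP n k Jr Jc (cs.x 0) 0 (fsh n (g 0)) * mkP n k Jr Jc (cs.x 1) 1 (fsh n (g 1)))) := by
  rw [← net_prod, ← net_prod]
  simp only [Fintype.prod_sum_type]
  have e1 : ∀ r, lin (St (smA (k := k) (Jr := Jr) (Jc := Jc) cs A) (fun p o => lft (pN cs) p o +
      lft (act (opg br bc g) (pE R n k Jr Jc)) p o) (.inl (.inl r))) =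
      linX (Oc n k Jr Jc) (A r) + X (jr n k Jr Jc ((cD n Jr k).z r 0)) := by
    intro r
    rw [lin_split]
    congr 1
    exact plin_unit _ _
  have e2 : ∀ c, lin (St (smA (k := k) (Jr := Jr) (Jc := Jc) cs A) (fun p o => lft (pN cs) p o +
      lft (act (opg br bc g) (pE R n k Jr Jc)) p o) (.inl (.inr (.inl c)))) =
      X (.inl c) + X (jc n k Jr Jc ((cD (2 * n) Jc k).z c 0)) := by
    intro c
    rw [lin_split]
    congr 1
    · exact linX_unit _
    · exact plin_unit _ _
  have e3 : ∀ x, lin (St (smA (k := k) (Jr := Jr) (Jc := Jc) cs A) (fun p o => lft (pN cs) p o +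
      lft (act (opg br bc g) (pE R n k Jr Jc)) p o) (.inl (.inr (.inr (.inl x))))) =
      plin (jr n k Jr Jc) (nrow (cD n Jr k) cs.τr cs.ζ x) := by
    intro x
    rw [lin_aux _ (fun c => rfl), plin_inl _ _ (fun b => rfl)]
    rfl
  have e4 : ∀ x, lin (St (smA (k := k) (Jr := Jr) (Jc := Jc) cs A) (fun p o => lft (pN cs) p o +
      lft (act (opg br bc g) (pE R n k Jr Jc)) p o) (.inl (.inr (.inr (.inr (.inl x)))))) =
      plin (jc n k Jr Jc) (nrow (cD (2 * n) Jc k) cs.τc cs.ζ x) := by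
    intro x
    rw [lin_aux _ (fun c => rfl), plin_inr _ _ (fun b => rfl), plin_inl _ _ (fun b => rfl)]
    rfl
  have e5 : ∀ s, lin (St (smA (k := k) (Jr := Jr) (Jc := Jc) cs A) (fun p o => lft (pN cs) p o +
      lft (act (opg br bc g) (pE R n k Jr Jc)) p o) (.inl (.inr (.inr (.inr (.inr s)))))) =
      ∑ p, C (cs.x s p) * X (jm n k Jr Jc (s, .inl p)) := by
    intro s
    rw [lin_aux _ (fun c => rfl), plin_inr _ _ (fun b => rfl), plin_inr _ _ (fun b => rfl)]
    unfold plin
    rw [Fintype.sum_prod_type, Finset.sum_eq_single s]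
    · rw [Fintype.sum_sum_type]
      simp [St, smA, orow, jm]
    · intro s' _ hs'
      apply Finset.sum_eq_zero
      rintro (p | p) _
      · simp [St, smA, orow, hs']
      · simp [St, smA, orow]
    · intro h; exact absurd (Finset.mem_univ _) h
  have e6 : ∀ x, lin (St (smA (k := k) (Jr := Jr) (Jc := Jc) cs A) (fun p o => lft (pN cs) p o +
      lft (act (opg br bc g) (pE R n k Jr Jc)) p o) (.inr (.inl x))) =
      plin (jr n k Jr Jc) (fun c => wN (cD n Jr k) cs.μ x c + (br x.1.2 ^ g x.1.1) ^ 2 ^ (x.2 : ℕ) *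
        wE (cD n Jr k) R x c) := by
    intro x
    rw [lin_aux _ (fun c => by simp [St, lft]), plin_inl _ _ (fun b => by
      simp [St, lft, pN, act, opg, pE])]
    rfl
  have e7 : ∀ x, lin (St (smA (k := k) (Jr := Jr) (Jc := Jc) cs A) (fun p o => lft (pN cs) p o +
      lft (act (opg br bc g) (pE R n k Jr Jc)) p o) (.inr (.inr (.inl x)))) =
      plin (jc n k Jr Jc) (fun c => wN (cD (2 * n) Jc k) cs.μ x c +
        (bc x.1.2 ^ g x.1.1) ^ 2 ^ (x.2 : ℕ) * wE (cD (2 * n) Jc k) R x c) := by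
    intro x
    rw [lin_aux _ (fun c => by simp [St, lft]), plin_inr _ _ (fun b => by
      simp [St, lft, pN, act, opg, pE]), plin_inl _ _ (fun b => by
      simp [St, lft, pN, act, opg, pE])]
    rfl
  have e8 : ∀ x : Fin 2 × Fin n, lin (St (smA (k := k) (Jr := Jr) (Jc := Jc) cs A)
      (fun p o => lft (pN cs) p o +
      lft (act (opg br bc g) (pE R n k Jr Jc)) p o) (.inr (.inr (.inr x)))) =
      (if x.2 = 0 then X (jm n k Jr Jc (x.1, .inr ())) else 0) +
        X (jm n k Jr Jc (x.1, .inl (x.2 + fsh n (g x.1)))) := by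
    rintro ⟨s, p⟩
    rw [lin_aux _ (fun c => by simp [St, lft]), plin_inr _ _ (fun b => by
      simp [St, lft, pN, act, opg, pE]), plin_inr _ _ (fun b => by
      simp [St, lft, pN, act, opg, pE])]
    unfold plin
    rw [Fintype.sum_prod_type, Finset.sum_eq_single s]
    · rw [Fintype.sum_sum_type, add_comm]
      congr 1
      · by_cases hp : p = 0
        · simp [St, lft, pN, act, opg, pE, hp, jm]
        · simp [St, lft, pN, act, opg, pE, hp]
      · rw [Finset.sum_eq_single (p + fsh n (g s))]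
        · simp [St, lft, pN, act, opg, pE, jm]
        · intro p' _ hp'
          simp [St, lft, pN, act, opg, pE, hp']
        · intro h; exact absurd (Finset.mem_univ _) h
    · intro s' _ hs'
      apply Finset.sum_eq_zero
      rintro (p' | p') _
      · simp [St, lft, pN, act, opg, pE, hs']
      · simp [St, lft, pN, act, opg, pE, hs']
    · intro h; exact absurd (Finset.mem_univ _) h
  simp only [e1, e2, e3, e4, e5, e6, e7, e8]
  unfold mkP
  have e9 : ∏ x : Fin 2 × Fin n, ((if x.2 = 0 then (X (jm n k Jr Jc (x.1, .inr ())) :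
      MvPolynomial (Fin (CC₀ n) ⊕ Oc n k Jr Jc) R) else 0) +
        X (jm n k Jr Jc (x.1, .inl (x.2 + fsh n (g x.1))))) =
      ∏ s, ∏ p, ((if p = 0 then (X (jm n k Jr Jc (s, .inr ())) :
      MvPolynomial (Fin (CC₀ n) ⊕ Oc n k Jr Jc) R) else 0) +
        X (jm n k Jr Jc (s, .inl (p + fsh n (g s))))) :=
    Fintype.prod_prod_type (f := fun x : Fin 2 × Fin n => ((if x.2 = 0 then
      (X (jm n k Jr Jc (x.1, .inr ())) : MvPolynomial (Fin (CC₀ n) ⊕ Oc n k Jr Jc) R) else 0) +
        X (jm n k Jr Jc (x.1, .inl (x.2 + fsh n (g x.1))))))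
  rw [e9, Fin.prod_univ_two, Fin.prod_univ_two]
  ring

end Small

end Pool.Agent.W940.G
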