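import Pool.Agent.W940.G11

set_option autoImplicit false
set_option linter.unusedSectionVars false

open MvPolynomial Finset

namespace Pool.Agent.W940.G

open Pool.Agent.H546R2.SL (eps lin eps_add eps_sum eps_C_mul eps_one eps_mul eps_lin eps_lin_mul
  eps_prod_zero_of_card ind)
open Pool.Agent.H546R2.SM (per bl lin_add' lin_smul')

section Small

variable {R : Type*} [CommRing R] {n k Jr Jc : ℕ}

lemma Elim.mul2 {γ : Type*} [DecidableEq γ] [Fintype γ] {U V : Finset γ}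
    {p q p' q' : MvPolynomial γ R} (h : Elim U p q) (h' : Elim V p' q') (h1 : Free V p)
    (h2 : Free U q') (hd : Disjoint U V) : Elim (U ∪ V) (p * p') (q * q') := by
  rw [Finset.union_comm]
  exact (h'.mul_left h1).trans (h.mul_right h2) hd.symm

lemma free_linX {γ : Type*} [DecidableEq γ] [Fintype γ] {C₀ : ℕ} (V : Finset (Fin C₀ ⊕ γ))
    (hV : ∀ c : Fin C₀, Sum.inl c ∉ V) (a : Fin C₀ → R) : Free V (linX γ a) := by
  unfold linX
  apply Free.sum
  intro c _
  exact (Free.C _).mul (Free.X (hV c))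

lemma linX_rename {γ : Type*} {C₀ : ℕ} (a : Fin C₀ → R) :
    linX γ a = rename (Function.Embedding.inl : Fin C₀ ↪ Fin C₀ ⊕ γ) (lin a) := by
  unfold linX lin
  rw [map_sum]
  apply Finset.sum_congr rfl
  intro c _
  rw [map_mul, rename_C, rename_X]
  rfl

/-- the main columns -/
def Um (n k Jr Jc : ℕ) : Finset (Fin (CC₀ n) ⊕ Oc n k Jr Jc) :=
  Finset.univ.map Function.Embedding.inl

/-- the columns of one marker -/
def Umk (n k Jr Jc : ℕ) (s : Fin 2) : Finset (Fin (CC₀ n) ⊕ Oc n k Jr Jc) :=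
  insert (jm n k Jr Jc (s, .inr ())) (Finset.univ.image fun p => jm n k Jr Jc (s, .inl p))

lemma mem_Umk {s : Fin 2} {x : Fin (CC₀ n) ⊕ Oc n k Jr Jc} :
    x ∈ Umk n k Jr Jc s ↔ ∃ y, x = jm n k Jr Jc (s, y) := by
  unfold Umk
  rw [Finset.mem_insert, Finset.mem_image]
  constructor
  · rintro (rfl | ⟨p, _, rfl⟩)
    · exact ⟨_, rfl⟩
    · exact ⟨_, rfl⟩
  · rintro ⟨(y | y), rfl⟩
    · exact Or.inr ⟨y, Finset.mem_univ _, rfl⟩
    · exact Or.inl rfl

lemma mem_mapu {α β : Type*} [Fintype α] (j : α ↪ β) (x : β) :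
    x ∈ (Finset.univ : Finset α).map j ↔ ∃ y, x = j y := by
  rw [Finset.mem_map]
  constructor
  · rintro ⟨y, _, rfl⟩; exact ⟨y, rfl⟩
  · rintro ⟨y, rfl⟩; exact ⟨y, Finset.mem_univ _, rfl⟩

lemma marker_elim [NeZero n] (x : Fin n → R) (s : Fin 2) (g : Fin n) :
    Elim (Umk n k Jr Jc s) (mkP n k Jr Jc x s g) (C (x g)) := by
  unfold mkP Umk
  apply marker
  · intro p p' h
    have := (jm n k Jr Jc).injective h
    simpa using this
  · intro p h
    have := (jm n k Jr Jc).injective h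
    simp at this

lemma free_mkP [NeZero n] (V : Finset (Fin (CC₀ n) ⊕ Oc n k Jr Jc)) (x : Fin n → R) (s : Fin 2)
    (g : Fin n) (hV : ∀ y, jm n k Jr Jc (s, y) ∉ V) : Free V (mkP n k Jr Jc x s g) := by
  unfold mkP
  apply Free.mul
  · apply Free.sum
    intro p _
    exact (Free.C _).mul (Free.X (hV _))
  · apply Free.prod
    intro p _
    apply Free.add
    · split_ifs
      · exact Free.X (hV _)
      · have := (Free.C (0 : R) : Free V _)
        rwa [map_zero] at this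
    · exact Free.X (hV _)

theorem per_small [NeZero n] (hk : mm n = 2 * k) (cs : Cst R n) {er ec : ℕ → R}
    (hζ : ∀ j, IsZeta R (cs.ζ j) (-1)) (hμ : ∀ j, ((2 ^ j : ℕ) : R) * cs.μ j = 1)
    (hτr : IsTau R cs.τr er) (her : ∀ a ≤ n, er (n - a) * (val Jr a : R) = (val Jr n : R))
    (hτc : IsTau R cs.τc ec)
    (hec : ∀ a ≤ 2 * n, ec (2 * n - a) * (val Jc a : R) = (val Jc (2 * n) : R))
    (br : Fin n → R) (bc : Fin (2 * n) → R) (g : Fin 2 → ℕ) (A : Fin (mm n) → Fin (CC₀ n) → R) :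
    per (St (smA (k := k) (Jr := Jr) (Jc := Jc) cs A) (fun p o => lft (pN cs) p o +
      lft (act (opg br bc g) (pE R n k Jr Jc)) p o)) =
    netC R (n * n) (2 * n) n Jr k * netC R ((2 * n) * (2 * n)) (2 * (2 * n)) (2 * n) Jc k *
      (cs.x 0 (fsh n (g 0)) * cs.x 1 (fsh n (g 1))) *
      PhiS k A (fun r => br r.divNat ^ g 0 * br r.modNat ^ g 1)
        (fun c => bc c.divNat ^ g 0 * bc c.modNat ^ g 1) := by
  classical
  have hK1 : k ≤ n * n := by unfold mm at hk; omega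
  have hK2 : k ≤ (2 * n) * (2 * n) := by nlinarith
  have hall1 : ((cD n Jr k).map (jr n k Jr Jc)).all Jr = Finset.univ.map (jr n k Jr Jc) := by
    rw [NetD.all_map, cD_all]
  have hall2 : ((cD (2 * n) Jc k).map (jc n k Jr Jc)).all Jc = Finset.univ.map (jc n k Jr Jc) := by
    rw [NetD.all_map, cD_all]
  have hmain1 : ∀ c, (Sum.inl c : Fin (CC₀ n) ⊕ Oc n k Jr Jc) ∉
      Finset.univ.map (jr n k Jr Jc) := by
    intro c h
    rw [mem_mapu] at h
    obtain ⟨y, hy⟩ := h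
    simp [jr] at hy
  have hmain2 : ∀ c, (Sum.inl c : Fin (CC₀ n) ⊕ Oc n k Jr Jc) ∉
      Finset.univ.map (jc n k Jr Jc) := by
    intro c h
    rw [mem_mapu] at h
    obtain ⟨y, hy⟩ := h
    simp [jc] at hy
  have hmain3 : ∀ s c, (Sum.inl c : Fin (CC₀ n) ⊕ Oc n k Jr Jc) ∉ Umk n k Jr Jc s := by
    intro s c h
    rw [mem_Umk] at h
    obtain ⟨y, hy⟩ := h
    simp [jm] at hy
  have hd12 : Disjoint (Finset.univ.map (jr n k Jr Jc)) (Finset.univ.map (jc n k Jr Jc)) := by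
    rw [Finset.disjoint_left]
    intro x hx hx'
    rw [mem_mapu] at hx hx'
    obtain ⟨y, rfl⟩ := hx
    obtain ⟨y', hy'⟩ := hx'
    simp [jr, jc] at hy'
  have hd1m : ∀ s, Disjoint (Finset.univ.map (jr n k Jr Jc)) (Umk n k Jr Jc s) := by
    intro s
    rw [Finset.disjoint_left]
    intro x hx hx'
    rw [mem_mapu] at hx
    rw [mem_Umk] at hx'
    obtain ⟨y, rfl⟩ := hx
    obtain ⟨y', hy'⟩ := hx'
    simp [jr, jm] at hy'
  have hd2m : ∀ s, Disjoint (Finset.univ.map (jc n k Jr Jc)) (Umk n k Jr Jc s) := by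
    intro s
    rw [Finset.disjoint_left]
    intro x hx hx'
    rw [mem_mapu] at hx
    rw [mem_Umk] at hx'
    obtain ⟨y, rfl⟩ := hx
    obtain ⟨y', hy'⟩ := hx'
    simp [jc, jm] at hy'
  have hmk : ∀ s s' : Fin 2, s ≠ s' → ∀ y, jm n k Jr Jc (s, y) ∉ Umk n k Jr Jc s' := by
    intro s s' hs y h
    rw [mem_Umk] at h
    obtain ⟨y', hy'⟩ := h
    have := (jm n k Jr Jc).injective hy'
    simp only [Prod.mk.injEq] at this
    exact hs this.1
  have hdmm : Disjoint (Umk n k Jr Jc 0) (Umk n k Jr Jc 1) := by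
    rw [Finset.disjoint_left]
    intro x hx
    rw [mem_Umk] at hx
    obtain ⟨y, rfl⟩ := hx
    exact hmk 0 1 (by decide) y
  -- the eliminations
  have E1 := ((cD_ok (J := Jr) hK1).map (jr n k Jr Jc)).net
    (fun r => linX (Oc n k Jr Jc) (A r)) (fun i => by
      rw [hall1]; exact free_linX _ hmain1 _) hζ hμ hτr her (fun c => br c.2 ^ g c.1)
  have E2 := ((cD_ok (J := Jc) hK2).map (jc n k Jr Jc)).net
    (fun c => (X (.inl c) : MvPolynomial (Fin (CC₀ n) ⊕ Oc n k Jr Jc) R)) (fun i => by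
      rw [hall2]; exact Free.X (hmain2 _)) hζ hμ hτc hec (fun c => bc c.2 ^ g c.1)
  have E3 := marker_elim (n := n) (k := k) (Jr := Jr) (Jc := Jc) (cs.x 0) 0 (fsh n (g 0))
  have E4 := marker_elim (n := n) (k := k) (Jr := Jr) (Jc := Jc) (cs.x 1) 1 (fsh n (g 1))
  have hcard1 : Fintype.card (Fin 2 × Fin n) = 2 * n := by simp
  have hcard2 : Fintype.card (Fin 2 × Fin (2 * n)) = 2 * (2 * n) := by simp
  rw [hall1, Fintype.card_fin, hcard1] at E1
  rw [hall2, Fintype.card_fin, hcard2] at E2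
  have a := E3.mul2 E4 (free_mkP _ _ _ _ (hmk 0 1 (by decide))) (Free.C _) hdmm
  have hP2 : Free (Umk n k Jr Jc 0 ∪ Umk n k Jr Jc 1)
      (((cD (2 * n) Jc k).map (jc n k Jr Jc)).poly
        (fun c => (X (.inl c) : MvPolynomial (Fin (CC₀ n) ⊕ Oc n k Jr Jc) R)) cs.τc cs.ζ cs.μ
      (fun c => bc c.2 ^ g c.1) Jc) := by
    apply NetD.free_poly
    · rw [hall2, Finset.disjoint_union_right]
      exact ⟨hd2m 0, hd2m 1⟩
    · intro c
      apply Free.X
      rw [Finset.mem_union, not_or]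
      exact ⟨hmain3 0 c, hmain3 1 c⟩
  have b := E2.mul2 a hP2 ((Free.C _).mul (Free.C _)) (by
    rw [Finset.disjoint_union_right]
    exact ⟨hd2m 0, hd2m 1⟩)
  have hP1 : Free (Finset.univ.map (jc n k Jr Jc) ∪ (Umk n k Jr Jc 0 ∪ Umk n k Jr Jc 1))
      (((cD n Jr k).map (jr n k Jr Jc)).poly (fun r => linX (Oc n k Jr Jc) (A r)) cs.τr cs.ζ cs.μ
      (fun c => br c.2 ^ g c.1) Jr) := by
    apply NetD.free_poly
    · rw [hall1, Finset.disjoint_union_right, Finset.disjoint_union_right]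
      exact ⟨hd12, hd1m 0, hd1m 1⟩
    · intro r
      apply free_linX
      intro c
      rw [Finset.mem_union, Finset.mem_union, not_or, not_or]
      exact ⟨hmain2 c, hmain3 0 c, hmain3 1 c⟩
  have hQ : Free (Finset.univ.map (jr n k Jr Jc))
      ((C (netC R ((2 * n) * (2 * n)) (2 * (2 * n)) (2 * n) Jc k) *
        ∑ T ∈ (Finset.univ : Finset (Fin ((2 * n) * (2 * n)))).powersetCard k,
          (∏ i ∈ Finset.univ \ T, (X (.inl i) : MvPolynomial (Fin (CC₀ n) ⊕ Oc n k Jr Jc) R)) *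
          C (∏ i ∈ T, bc ((cD (2 * n) Jc k).map (jc n k Jr Jc) |>.cl i).2 ^
            g ((cD (2 * n) Jc k).map (jc n k Jr Jc) |>.cl i).1 *
            bc ((cD (2 * n) Jc k).map (jc n k Jr Jc) |>.cl' i).2 ^
            g ((cD (2 * n) Jc k).map (jc n k Jr Jc) |>.cl' i).1)) *
        (C (cs.x 0 (fsh n (g 0))) * C (cs.x 1 (fsh n (g 1))))) := by
    apply Free.mul
    · apply Free.mul (Free.C _)
      apply Free.sum
      intro T _
      apply Free.mul _ (Free.C _)
      apply Free.prod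
      intro i _
      exact Free.X (hmain1 _)
    · exact (Free.C _).mul (Free.C _)
  have c := E1.mul2 b hP1 hQ (by
    rw [Finset.disjoint_union_right, Finset.disjoint_union_right]
    exact ⟨hd12, hd1m 0, hd1m 1⟩)
  have huniv : (Finset.univ : Finset (Fin (CC₀ n) ⊕ Oc n k Jr Jc)) =
      (Finset.univ.map (jr n k Jr Jc) ∪ (Finset.univ.map (jc n k Jr Jc) ∪
        (Umk n k Jr Jc 0 ∪ Umk n k Jr Jc 1))) ∪ Finset.univ.map Function.Embedding.inl := by
    symm
    apply Finset.eq_univ_of_forall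
    intro x
    simp only [Finset.mem_union, mem_mapu, mem_Umk]
    rcases x with x | (x | (x | ⟨s, x⟩))
    · exact Or.inr ⟨x, rfl⟩
    · exact Or.inl (Or.inl ⟨x, rfl⟩)
    · exact Or.inl (Or.inr (Or.inl ⟨x, rfl⟩))
    · fin_cases s
      · exact Or.inl (Or.inr (Or.inr (Or.inl ⟨x, rfl⟩)))
      · exact Or.inl (Or.inr (Or.inr (Or.inr ⟨x, rfl⟩)))
  have hdis : Disjoint ((Finset.univ : Finset (Fin (CC₀ n))).map
      (Function.Embedding.inl : Fin (CC₀ n) ↪ Fin (CC₀ n) ⊕ Oc n k Jr Jc))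
      (Finset.univ.map (jr n k Jr Jc) ∪ (Finset.univ.map (jc n k Jr Jc) ∪
        (Umk n k Jr Jc 0 ∪ Umk n k Jr Jc 1))) := by
    rw [Finset.disjoint_left]
    intro x hx
    rw [mem_mapu] at hx
    obtain ⟨y, rfl⟩ := hx
    simp only [Finset.mem_union, not_or]
    exact ⟨hmain1 y, hmain2 y, hmain3 0 y, hmain3 1 y⟩
  have hfin := c _ hdis
  rw [← huniv] at hfin
  unfold per
  rw [small_prod, hfin]
  rw [← eval_q hk, ← eps_rename (Function.Embedding.inl : Fin (CC₀ n) ↪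
    Fin (CC₀ n) ⊕ Oc n k Jr Jc), ← eps_C_mul]
  have h1 : rename (Function.Embedding.inl : Fin (CC₀ n) ↪ Fin (CC₀ n) ⊕ Oc n k Jr Jc)
      (∑ T ∈ (Finset.univ : Finset (Fin (mm n))).powersetCard k,
      (∏ r ∈ Finset.univ \ T, lin (A r)) * C (∏ r ∈ T, (br r.divNat ^ g 0 * br r.modNat ^ g 1))) =
      ∑ T ∈ (Finset.univ : Finset (Fin (n * n))).powersetCard k,
          (∏ i ∈ Finset.univ \ T, linX (Oc n k Jr Jc) (A i)) *
          C (∏ r ∈ T, (br r.divNat ^ g 0 * br r.modNat ^ g 1)) := by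
    rw [map_sum]
    apply Finset.sum_congr rfl
    intro T _
    rw [map_mul, map_prod, rename_C]
    simp only [linX_rename]
  have h2 : rename (Function.Embedding.inl : Fin (CC₀ n) ↪ Fin (CC₀ n) ⊕ Oc n k Jr Jc)
      (∑ T ∈ (Finset.univ : Finset (Fin (CC₀ n))).powersetCard k,
      (∏ c ∈ Finset.univ \ T, X c) * C (∏ r ∈ T, (bc r.divNat ^ g 0 * bc r.modNat ^ g 1))) =
      ∑ T ∈ (Finset.univ : Finset (Fin ((2 * n) * (2 * n)))).powersetCard k,
          (∏ i ∈ Finset.univ \ T, (X (.inl i) : MvPolynomial (Fin (CC₀ n) ⊕ Oc n k Jr Jc) R)) *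
          C (∏ r ∈ T, (bc r.divNat ^ g 0 * bc r.modNat ^ g 1)) := by
    rw [map_sum]
    apply Finset.sum_congr rfl
    intro T _
    rw [map_mul, map_prod, rename_C]
    simp only [rename_X]
    rfl
  rw [map_mul (rename (R := R) (Function.Embedding.inl : Fin (CC₀ n) ↪
    Fin (CC₀ n) ⊕ Oc n k Jr Jc)), h1, h2]
  have h4 : ∀ (a b x y : R) (p q : MvPolynomial (Fin (CC₀ n) ⊕ Oc n k Jr Jc) R),
      C (a * b * (x * y)) * (p * q) = C a * p * (C b * q * (C x * C y)) := by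
    intro a b x y p q
    rw [map_mul, map_mul, map_mul]
    ring
  rw [h4]
  rfl

end Small

end Pool.Agent.W940.G
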