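import Pool.Agent.W940.G12

set_option autoImplicit false
set_option linter.unusedSectionVars false

open MvPolynomial Finset

namespace Pool.Agent.W940.G

open Pool.Agent.H546R2.SL (eps lin eps_add eps_sum eps_C_mul eps_one eps_mul eps_lin eps_lin_mul
  eps_prod_zero_of_card ind)
open Pool.Agent.H546R2.SM (per bl per_reindex_rows per_reindex_cols lin_add' lin_smul')

section Block

variable {R : Type*} [CommRing R] {B P₁ P₂ ρ Γ : Type*} [Fintype B] [DecidableEq B]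
  [Fintype P₁] [DecidableEq P₁] [Fintype P₂] [DecidableEq P₂] [Fintype ρ] [DecidableEq ρ]
  [Fintype Γ] [DecidableEq Γ] {w₁ w₂ : ℕ}

/-- two selectors -/
def blkM (ζ₁ : Fin w₁ → R) (ζ₂ : Fin w₂ → R) (M : (B × P₁) ⊕ ρ → (B × P₂) ⊕ Γ → R) :
    ((B × P₁) ⊕ ρ) ⊕ (Fin w₁ ⊕ (B × Fin w₂)) → ((B × P₂) ⊕ Γ) ⊕ ((B × Fin w₁) ⊕ Fin w₂) → R
  | .inl r, .inl c => M r c
  | .inl (.inl (b, _)), .inr (.inl (b', _)) => if b = b' then 1 else 0
  | .inl (.inr _), .inr (.inl _) => 0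
  | .inl _, .inr (.inr _) => 0
  | .inr (.inl _), .inl _ => 0
  | .inr (.inl _), .inr (.inl (_, i)) => ζ₁ i
  | .inr (.inl _), .inr (.inr _) => 0
  | .inr (.inr (b, _)), .inl (.inl (b', _)) => if b' = b then 1 else 0
  | .inr (.inr _), .inl (.inr _) => 0
  | .inr (.inr _), .inr (.inl _) => 0
  | .inr (.inr (_, i)), .inr (.inr _) => ζ₂ i

theorem per_blkM (h₁ : Fintype.card P₁ = w₁) (h₂ : Fintype.card P₂ = w₂) (hw₁ : 0 < w₁)
    (hw₂ : 0 < w₂) {ζ₁ : Fin w₁ → R} {ζ₂ : Fin w₂ → R} {κ₁ κ₂ : R} (hζ₁ : IsZeta R ζ₁ κ₁)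
    (hζ₂ : IsZeta R ζ₂ κ₂) (M : (B × P₁) ⊕ ρ → (B × P₂) ⊕ Γ → R) :
    per (blkM ζ₁ ζ₂ M) = (κ₁ * (w₁.factorial : R) ^ Fintype.card B) *
      ((κ₂ * (w₂.factorial : R) ^ Fintype.card B) * ∑ b : B, ∑ b' : B, per (rs (rsT M b) b')) := by
  classical
  let e : ((B × P₁) ⊕ (ρ ⊕ (B × Fin w₂))) ⊕ Fin w₁ ≃ ((B × P₁) ⊕ ρ) ⊕ (Fin w₁ ⊕ (B × Fin w₂)) :=
    ⟨fun x => match x with
      | .inl (.inl r) => .inl (.inl r)
      | .inl (.inr (.inl r)) => .inl (.inr r)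
      | .inl (.inr (.inr y)) => .inr (.inr y)
      | .inr y => .inr (.inl y),
    fun x => match x with
      | .inl (.inl r) => .inl (.inl r)
      | .inl (.inr r) => .inl (.inr (.inl r))
      | .inr (.inr y) => .inl (.inr (.inr y))
      | .inr (.inl y) => .inr y,
    by rintro ((r | (p | q)) | y) <;> rfl, by rintro ((r | y) | (p | q)) <;> rfl⟩
  let f : (((B × P₂) ⊕ Γ) ⊕ Fin w₂) ⊕ (B × Fin w₁) ≃ ((B × P₂) ⊕ Γ) ⊕ ((B × Fin w₁) ⊕ Fin w₂) :=
    ⟨fun x => match x with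
      | .inl (.inl r) => .inl r
      | .inl (.inr y) => .inr (.inr y)
      | .inr y => .inr (.inl y),
    fun x => match x with
      | .inl r => .inl (.inl r)
      | .inr (.inr y) => .inl (.inr y)
      | .inr (.inl y) => .inr y,
    by rintro ((r | p) | y) <;> rfl, by rintro (r | (p | q)) <;> rfl⟩
  set M' : (B × P₁) ⊕ (ρ ⊕ (B × Fin w₂)) → ((B × P₂) ⊕ Γ) ⊕ Fin w₂ → R :=
    fun r c => sel ζ₂ M ((Equiv.sumAssoc _ _ _).symm r) c with hM'
  rw [← per_reindex_rows e, ← per_reindex_cols f]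
  have h1 : (fun r c => blkM ζ₁ ζ₂ M (e r) (f c)) = selT ζ₁ M' := by
    funext r c
    rcases r with (((⟨b, p⟩) | (r | ⟨b, i⟩)) | i) <;> rcases c with (((⟨b', p'⟩ | c) | j) | ⟨b', j⟩) <;>
      rfl
  rw [h1, per_selT h₁ hw₁ ζ₁ κ₁ hζ₁]
  congr 1
  rw [Finset.mul_sum]
  apply Finset.sum_congr rfl
  intro b _
  rw [← per_sel h₂ hw₂ ζ₂ κ₂ hζ₂, ← per_reindex_rows (Equiv.sumAssoc P₁ ρ (B × Fin w₂)).symm]
  congr 1
  funext r c
  rcases r with (p | (r | ⟨b'', i⟩)) <;> rcases c with ((⟨b', p'⟩ | c) | j) <;> rfl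

end Block

section Fam

variable {R : Type*} [CommRing R] {n k Jr Jc : ℕ}

lemma opg_add [NeZero n] (br : Fin n → R) (bc : Fin (2 * n) → R) (g g' : Fin 2 → ℕ)
    (p : Pw n Jr Jc) :
    (opg br bc (g + g')).1 p = (opg br bc g').1 ((opg br bc g).1 p) := by
  rcases p with x | (x | ⟨s, x⟩)
  · rfl
  · rfl
  · simp only [opg, Equiv.sumCongr_apply, Sum.map_inr, Equiv.prodShear_apply, Equiv.coe_addRight,
      Pi.add_apply, fsh_add, Equiv.refl_apply]
    rw [add_assoc]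

lemma opg_addw [NeZero n] (br : Fin n → R) (bc : Fin (2 * n) → R) (g g' : Fin 2 → ℕ)
    (p : Pw n Jr Jc) :
    (opg br bc (g + g')).2 p = (opg br bc g).2 p * (opg br bc g').2 ((opg br bc g).1 p) := by
  rcases p with ⟨⟨s, x⟩, j⟩ | (⟨⟨s, x⟩, j⟩ | ⟨s, x⟩)
  · simp only [opg, Pi.add_apply]
    rw [pow_add, mul_pow]
    rfl
  · simp only [opg, Pi.add_apply]
    rw [pow_add, mul_pow]
    rfl
  · simp [opg]

lemma opg_zero [NeZero n] (br : Fin n → R) (bc : Fin (2 * n) → R) (p : Pw n Jr Jc) :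
    (opg br bc 0).1 p = p := by
  rcases p with x | (x | ⟨s, x⟩)
  · rfl
  · rfl
  · simp only [opg, Equiv.sumCongr_apply, Sum.map_inr, Equiv.prodShear_apply, Equiv.coe_addRight,
      Pi.zero_apply, fsh_zero, Equiv.refl_apply, add_zero]

lemma opg_zerow [NeZero n] (br : Fin n → R) (bc : Fin (2 * n) → R) (p : Pw n Jr Jc) :
    (opg br bc 0).2 p = 1 := by
  rcases p with ⟨⟨s, x⟩, j⟩ | (⟨⟨s, x⟩, j⟩ | ⟨s, x⟩) <;> simp [opg]

lemma act_opg [NeZero n] (br : Fin n → R) (bc : Fin (2 * n) → R) (g g' : Fin 2 → ℕ)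
    {Γ : Type*} (E : Pw n Jr Jc → Γ → R) :
    act (opg br bc g) (act (opg br bc g') E) = act (opg br bc (g + g')) E := by
  funext p c
  unfold act
  rw [opg_add, opg_addw, mul_assoc]

lemma isFam_opg [NeZero n] (br : Fin n → R) (bc : Fin (2 * n) → R) (s : Fin 2) :
    IsFam (fun a => (opg br bc (Pi.single s a) : Op (Pw n Jr Jc) R)) where
  one := fun p => by
    simp only [Pi.single_zero]
    exact opg_zero br bc p
  onew := fun p => by
    simp only [Pi.single_zero]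
    exact opg_zerow br bc p
  add := fun a b p => by
    simp only [Pi.single_add]
    exact opg_add br bc _ _ p
  addw := fun a b p => by
    simp only [Pi.single_add]
    exact opg_addw br bc _ _ p

end Fam

end Pool.Agent.W940.G
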