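import Pool.Agent.W940.G13

set_option autoImplicit false
set_option linter.unusedSectionVars false

open MvPolynomial Finset

namespace Pool.Agent.W940.G

open Pool.Agent.H546R2.SL (eps lin eps_add eps_sum eps_C_mul eps_one eps_mul eps_lin eps_lin_mul
  eps_prod_zero_of_card ind)
open Pool.Agent.H546R2.SM (per bl per_reindex_rows per_reindex_cols lin_add' lin_smul')

section Base

variable {R : Type*} [CommRing R] {q n k Jr Jc : ℕ}

/-- rows of the base matrix -/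
abbrev RowB (q n Jr Jc : ℕ) := ((Fin q × Fin (mm n)) ⊕ (Fin (CC₀ n) ⊕ Or n Jr Jc)) ⊕
  (Fin (mm n) ⊕ (Fin q × Fin (CC₀ n)))

/-- columns of the base matrix -/
abbrev ColB (q n k Jr Jc : ℕ) := ((Fin q × Fin (CC₀ n)) ⊕ Oc n k Jr Jc) ⊕
  ((Fin q × Fin (mm n)) ⊕ Fin (CC₀ n))

/-- the core of the base matrix -/
def mA (cs : Cst R n) (A : Fin q → Fin q → Fin (mm n) → Fin (CC₀ n) → R) :
    (Fin q × Fin (mm n)) ⊕ (Fin (CC₀ n) ⊕ Or n Jr Jc) →
      (Fin q × Fin (CC₀ n)) ⊕ Oc n k Jr Jc → R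
  | .inl (b, r), .inl (b', c) => A b b' r c
  | .inl (_, r), .inr o => unit R (Sum.inl ((cD n Jr k).z r 0)) o
  | .inr (.inl c'), .inl (_, c) => if c = c' then 1 else 0
  | .inr (.inl c'), .inr o => unit R (Sum.inr (Sum.inl ((cD (2 * n) Jc k).z c' 0))) o
  | .inr (.inr _), .inl _ => 0
  | .inr (.inr x), .inr o => orow cs x o

/-- the base matrix -/
def base (cs : Cst R n) (ζ₁ : Fin (mm n) → R) (ζ₂ : Fin (CC₀ n) → R)
    (A : Fin q → Fin q → Fin (mm n) → Fin (CC₀ n) → R) : RowB q n Jr Jc → ColB q n k Jr Jc → R :=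
  blkM ζ₁ ζ₂ (mA cs A)

/-- wires of the base matrix -/
def lftB {P : Type*} (q n k Jr Jc : ℕ) (E : P → Oc n k Jr Jc → R) : P → ColB q n k Jr Jc → R
  | _, .inl (.inl _) => 0
  | p, .inl (.inr o) => E p o
  | _, .inr _ => 0

lemma lftB_add {P : Type*} (N E : P → Oc n k Jr Jc → R) :
    (fun p c => lftB q n k Jr Jc N p c + lftB q n k Jr Jc E p c) =
      lftB q n k Jr Jc (fun p c => N p c + E p c) := by
  funext p c
  rcases c with ((c | c) | c) <;> simp [lftB]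

lemma lft_add {β γ P : Type*} (N E : P → γ → R) :
    (fun (p : P) (c : β ⊕ γ) => lft N p c + lft E p c) =
      lft (fun p c => N p c + E p c) := by
  funext p c
  rcases c with c | c <;> simp [lft]

lemma lftB_act {P : Type*} (o : Op P R) (E : P → Oc n k Jr Jc → R) :
    act o (lftB q n k Jr Jc E) = lftB q n k Jr Jc (act o E) := by
  funext p c
  rcases c with ((c | c) | c) <;> simp [lftB, act]

theorem per_base (cs : Cst R n) {ζ₁ : Fin (mm n) → R} {ζ₂ : Fin (CC₀ n) → R} {κ₁ κ₂ : R}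
    (hζ₁ : IsZeta R ζ₁ κ₁) (hζ₂ : IsZeta R ζ₂ κ₂) (hn : 0 < n)
    (A : Fin q → Fin q → Fin (mm n) → Fin (CC₀ n) → R) (E : Pw n Jr Jc → Oc n k Jr Jc → R) :
    per (St (base cs ζ₁ ζ₂ A) (lftB q n k Jr Jc E)) = (κ₁ * ((mm n).factorial : R) ^ q) *
      ((κ₂ * ((CC₀ n).factorial : R) ^ q) *
        ∑ b : Fin q, ∑ b' : Fin q, per (St (smA cs (A b b')) (lft E))) := by
  classical
  set M : (Fin q × Fin (mm n)) ⊕ ((Fin (CC₀ n) ⊕ Or n Jr Jc) ⊕ Pw n Jr Jc) →
      (Fin q × Fin (CC₀ n)) ⊕ Oc n k Jr Jc → R := fun r c => match r, c with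
    | .inl r, c => mA cs A (.inl r) c
    | .inr (.inl r), c => mA cs A (.inr r) c
    | .inr (.inr _), .inl _ => 0
    | .inr (.inr p), .inr o => E p o with hM
  let e : ((Fin q × Fin (mm n)) ⊕ ((Fin (CC₀ n) ⊕ Or n Jr Jc) ⊕ Pw n Jr Jc)) ⊕
      (Fin (mm n) ⊕ (Fin q × Fin (CC₀ n))) ≃ RowB q n Jr Jc ⊕ Pw n Jr Jc :=
    ⟨fun x => match x with
      | .inl (.inl r) => .inl (.inl (.inl r))
      | .inl (.inr (.inl r)) => .inl (.inl (.inr r))
      | .inl (.inr (.inr p)) => .inr p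
      | .inr y => .inl (.inr y),
    fun x => match x with
      | .inl (.inl (.inl r)) => .inl (.inl r)
      | .inl (.inl (.inr r)) => .inl (.inr (.inl r))
      | .inr p => .inl (.inr (.inr p))
      | .inl (.inr y) => .inr y,
    by rintro ((r | (r | p)) | y) <;> rfl, by rintro (((r | r) | y) | p) <;> rfl⟩
  have h1 := per_blkM (Fintype.card_fin _) (Fintype.card_fin _) (by unfold mm; positivity)
    (by unfold CC₀; positivity) hζ₁ hζ₂ M
  rw [Fintype.card_fin] at h1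
  rw [← per_reindex_rows e]
  have h2 : (fun r => St (base cs ζ₁ ζ₂ A) (lftB q n k Jr Jc E) (e r)) = blkM ζ₁ ζ₂ M := by
    funext r c
    rcases r with ((⟨b, r⟩ | ((r | r) | p)) | (y | ⟨b, y⟩)) <;>
      rcases c with ((⟨b', c⟩ | c) | (⟨b', c⟩ | c)) <;> rfl
  rw [h2, h1]
  congr 2
  apply Finset.sum_congr rfl
  intro b _
  apply Finset.sum_congr rfl
  intro b' _
  rw [← per_reindex_rows (Equiv.sumAssoc (Fin (mm n)) (Fin (CC₀ n) ⊕ Or n Jr Jc) (Pw n Jr Jc))]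
  congr 1
  funext r c
  rcases r with ((r | (r | r)) | p) <;> rcases c with (c | c) <;> rfl

end Base

section Big

variable {R : Type*} [CommRing R] {q n k Jr Jc : ℕ}

/-- the conditions on the constants -/
structure Cst.Good [NeZero n] (cs : Cst R n) (S : Subring R) (Jr Jc : ℕ) (er ec : ℕ → R) : Prop where
  hζ : ∀ j, IsZeta R (cs.ζ j) (-1)
  hμ : ∀ j, ((2 ^ j : ℕ) : R) * cs.μ j = 1
  hτr : IsTau R cs.τr er
  her : ∀ a ≤ n, er (n - a) * (val Jr a : R) = (val Jr n : R)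
  hτc : IsTau R cs.τc ec
  hec : ∀ a ≤ 2 * n, ec (2 * n - a) * (val Jc a : R) = (val Jc (2 * n) : R)
  mζ : ∀ j i, cs.ζ j i ∈ S
  mμ : ∀ j, cs.μ j ∈ S
  mτr : ∀ i, cs.τr i ∈ S
  mτc : ∀ i, cs.τc i ∈ S
  mx : ∀ s i, cs.x s i ∈ S

lemma unit_mem {γ : Type*} [DecidableEq γ] [Fintype γ] (S : Subring R) (a c : γ) :
    unit R a c ∈ S := by
  unfold unit
  split_ifs
  · exact S.one_mem
  · exact S.zero_mem

lemma idc_mem {γ : Type*} [DecidableEq γ] [Fintype γ] (S : Subring R) (U : Finset γ) (c : γ) :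
    idc R U c ∈ S := by
  unfold idc
  split_ifs
  · exact S.one_mem
  · exact S.zero_mem

lemma nrow_mem {γ : Type*} [DecidableEq γ] [Fintype γ] {a J : ℕ} (S : Subring R)
    (D : NetD γ (Fin (a * a)) (Fin 2 × Fin a)) {τ : Fin a → R} {ζ : (j : ℕ) → Fin (2 ^ j) → R}
    (hτ : ∀ i, τ i ∈ S) (hζ : ∀ j i, ζ j i ∈ S) (x : NR a J) (c : γ) : nrow D τ ζ x c ∈ S := by
  have hi : ∀ U : Finset γ, idc R U c ∈ S := fun U => idc_mem S U c
  have hu : ∀ a : γ, unit R a c ∈ S := fun a => unit_mem S a c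
  rcases x with ⟨i, s⟩ | ⟨x, (s | ⟨j, s⟩)⟩
  · fin_cases s
    · exact S.add_mem (hi _) (hu _)
    · exact S.add_mem (S.add_mem (S.add_mem (hu _) (hu _)) (hu _)) (hu _)
    · exact S.sub_mem (S.sub_mem (S.add_mem (hu _) (hu _)) (hu _)) (hu _)
    · exact S.add_mem (hi _) (hu _)
    · exact S.add_mem (hi _) (hu _)
  · exact S.add_mem (S.sum_mem fun j _ => hi _) (S.mul_mem (hτ _) (hi _))
  · exact S.add_mem (hi _) (S.mul_mem (hζ _ _) (S.add_mem (hu _) (hi _)))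

lemma orow_mem [NeZero n] {cs : Cst R n} {S : Subring R} {er ec : ℕ → R} (h : cs.Good S Jr Jc er ec)
    (x : Or n Jr Jc) (c : Oc n k Jr Jc) : orow cs x c ∈ S := by
  rcases x with x | (x | s) <;> rcases c with c | (c | ⟨s', (c | c)⟩) <;> simp only [orow]
  · exact nrow_mem S _ h.mτr h.mζ x c
  · exact S.zero_mem
  · exact S.zero_mem
  · exact S.zero_mem
  · exact S.zero_mem
  · exact nrow_mem S _ h.mτc h.mζ x c
  · exact S.zero_mem
  · exact S.zero_mem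
  · exact S.zero_mem
  · exact S.zero_mem
  · split_ifs
    · exact h.mx _ _
    · exact S.zero_mem
  · exact S.zero_mem

lemma pN_mem [NeZero n] {cs : Cst R n} {S : Subring R} {er ec : ℕ → R} (h : cs.Good S Jr Jc er ec)
    (x : Pw n Jr Jc) (c : Oc n k Jr Jc) : pN cs x c ∈ S := by
  rcases x with x | (x | ⟨s, p⟩) <;> rcases c with c | (c | ⟨s', (c | c)⟩) <;> simp only [pN]
  · exact S.sub_mem (unit_mem S _ _) (S.mul_mem (h.mμ _) (idc_mem S _ _))
  · exact S.zero_mem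
  · exact S.zero_mem
  · exact S.zero_mem
  · exact S.zero_mem
  · exact S.sub_mem (unit_mem S _ _) (S.mul_mem (h.mμ _) (idc_mem S _ _))
  · exact S.zero_mem
  · exact S.zero_mem
  · exact S.zero_mem
  · exact S.zero_mem
  · exact S.zero_mem
  · split_ifs
    · exact S.one_mem
    · exact S.zero_mem

lemma pE_mem (S : Subring R) (x : Pw n Jr Jc) (c : Oc n k Jr Jc) : pE R n k Jr Jc x c ∈ S := by
  rcases x with x | (x | ⟨s, p⟩) <;> rcases c with c | (c | ⟨s', (c | c)⟩) <;> simp only [pE]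
  · exact idc_mem S _ _
  · exact S.zero_mem
  · exact S.zero_mem
  · exact S.zero_mem
  · exact S.zero_mem
  · exact idc_mem S _ _
  · exact S.zero_mem
  · exact S.zero_mem
  · exact S.zero_mem
  · exact S.zero_mem
  · split_ifs
    · exact S.one_mem
    · exact S.zero_mem
  · exact S.zero_mem

lemma opg_mem [NeZero n] (S : Subring R) {br : Fin n → R} {bc : Fin (2 * n) → R}
    (hbr : ∀ i, br i ∈ S) (hbc : ∀ i, bc i ∈ S) (g : Fin 2 → ℕ) (p : Pw n Jr Jc) :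
    (opg br bc g).2 p ∈ S := by
  rcases p with ⟨⟨s, x⟩, j⟩ | (⟨⟨s, x⟩, j⟩ | ⟨s, x⟩)
  · exact S.pow_mem (S.pow_mem (hbr _) _) _
  · exact S.pow_mem (S.pow_mem (hbc _) _) _
  · exact S.one_mem

lemma lftB_mem {P : Type*} {S : Subring R} {E : P → Oc n k Jr Jc → R} (hE : ∀ p c, E p c ∈ S)
    (p : P) (c : ColB q n k Jr Jc) : lftB q n k Jr Jc E p c ∈ S := by
  rcases c with ((c | c) | c)
  · exact S.zero_mem
  · exact hE _ _
  · exact S.zero_mem

/-- modification of one entry of a family of matrices -/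
def updA {m C₀ : ℕ} (A : Fin q → Fin q → Fin m → Fin C₀ → R) (b₀ b₀' : Fin q) (r₀ : Fin m)
    (c₀ : Fin C₀) (x : R) : Fin q → Fin q → Fin m → Fin C₀ → R :=
  fun b b' r c => A b b' r c + if (b = b₀ ∧ r = r₀) then (if (b' = b₀' ∧ c = c₀) then x else 0) else 0

lemma base_updA (cs : Cst R n) (ζ₁ : Fin (mm n) → R) (ζ₂ : Fin (CC₀ n) → R)
    (A : Fin q → Fin q → Fin (mm n) → Fin (CC₀ n) → R) (b₀ b₀' : Fin q) (r₀ : Fin (mm n))
    (c₀ : Fin (CC₀ n)) (x : R) :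
    (base cs ζ₁ ζ₂ (updA A b₀ b₀' r₀ c₀ x) : RowB q n Jr Jc → ColB q n k Jr Jc → R) =
      upd (base cs ζ₁ ζ₂ A) (.inl (.inl (b₀, r₀))) (.inl (.inl (b₀', c₀))) x := by
  funext r c
  rcases r with ((⟨b, r⟩ | (r | r)) | (y | ⟨b, y⟩)) <;>
    rcases c with ((⟨b', c⟩ | c) | (⟨b', c⟩ | c)) <;>
    simp [base, blkM, mA, upd, updA]

lemma base_mem [NeZero n] {cs : Cst R n} {S : Subring R} {er ec : ℕ → R}
    (h : cs.Good S Jr Jc er ec) {ζ₁ : Fin (mm n) → R} {ζ₂ : Fin (CC₀ n) → R}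
    (h₁ : ∀ i, ζ₁ i ∈ S) (h₂ : ∀ i, ζ₂ i ∈ S) (A : Fin q → Fin q → Fin (mm n) → Fin (CC₀ n) → R)
    (i : RowB q n Jr Jc) (j : ColB q n k Jr Jc) :
    base cs ζ₁ ζ₂ A i j ∈ S ∨ ∃ b b' r c, base cs ζ₁ ζ₂ A i j = A b b' r c := by
  rcases i with ((⟨b, r⟩ | (r | r)) | (y | ⟨b, y⟩)) <;>
    rcases j with ((⟨b', c⟩ | c) | (⟨b', c⟩ | c)) <;> simp only [base, blkM, mA]
  · exact Or.inr ⟨b, b', r, c, rfl⟩
  · exact Or.inl (unit_mem S _ _)
  · left
    split_ifs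
    · exact S.one_mem
    · exact S.zero_mem
  · exact Or.inl S.zero_mem
  · left
    split_ifs
    · exact S.one_mem
    · exact S.zero_mem
  · exact Or.inl (unit_mem S _ _)
  · exact Or.inl S.zero_mem
  · exact Or.inl S.zero_mem
  · exact Or.inl S.zero_mem
  · exact Or.inl (orow_mem h _ _)
  · exact Or.inl S.zero_mem
  · exact Or.inl S.zero_mem
  · exact Or.inl S.zero_mem
  · exact Or.inl S.zero_mem
  · exact Or.inl (h₁ _)
  · exact Or.inl S.zero_mem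
  · left
    split_ifs
    · exact S.one_mem
    · exact S.zero_mem
  · exact Or.inl S.zero_mem
  · exact Or.inl S.zero_mem
  · exact Or.inl (h₂ _)

end Big

end Pool.Agent.W940.G
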