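import Pool.Agent.W940.G14

set_option autoImplicit false
set_option linter.unusedSectionVars false

open MvPolynomial Finset

namespace Pool.Agent.W940.G

open Pool.Agent.H546R2.SL (eps lin eps_add eps_sum eps_C_mul eps_one eps_mul eps_lin eps_lin_mul
  eps_prod_zero_of_card ind)
open Pool.Agent.H546R2.SM (per bl per_reindex_rows per_reindex_cols lin_add' lin_smul')

section Big

variable {R : Type*} [CommRing R] {q n k Jr Jc : ℕ}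

/-- the constant of the gadget -/
def cstB (R : Type*) [CommRing R] (q n k Jr Jc w ℓ : ℕ) (κ κ₁ κ₂ : R) : R :=
  ((κ * (w.factorial : R) ^ 2) ^ ℓ * (κ * (w.factorial : R) ^ 2) ^ ℓ) *
    ((κ₁ * ((mm n).factorial : R) ^ q) * (κ₂ * ((CC₀ n).factorial : R) ^ q)) *
    (netC R (n * n) (2 * n) n Jr k * netC R ((2 * n) * (2 * n)) (2 * (2 * n)) (2 * n) Jc k)

theorem big [NeZero n] (hk : mm n = 2 * k) (S : Subring R) {cs : Cst R n} {er ec : ℕ → R}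
    (h : cs.Good S Jr Jc er ec) {br : Fin n → R} {bc : Fin (2 * n) → R} (hbr : ∀ i, br i ∈ S)
    (hbc : ∀ i, bc i ∈ S) {ζ₁ : Fin (mm n) → R} {ζ₂ : Fin (CC₀ n) → R} {κ₁ κ₂ : R}
    (hζ₁ : IsZeta R ζ₁ κ₁) (hζ₂ : IsZeta R ζ₂ κ₂) (h₁ : ∀ i, ζ₁ i ∈ S) (h₂ : ∀ i, ζ₂ i ∈ S)
    {w : ℕ} (hw : Fintype.card (Pw n Jr Jc) = w) (hw0 : 0 < w) {ζ : Fin w → R} {κ : R}
    (hζ : IsZeta R ζ κ) (hζS : ∀ i, ζ i ∈ S) (ℓ : ℕ) :
    ∃ (ρ' Γ' : Type) (_ : Fintype ρ') (_ : DecidableEq ρ') (_ : Fintype Γ') (_ : DecidableEq Γ')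
      (T : (Fin q → Fin q → Fin (mm n) → Fin (CC₀ n) → R) → ρ' → Γ' → R),
      Fintype.card ρ' = Fintype.card (RowB q n Jr Jc) + w + 6 * w * ℓ ∧
      Fintype.card Γ' = Fintype.card (ColB q n k Jr Jc) + 6 * w * ℓ ∧
      (∀ b₀ b₀' r₀ c₀, ∃ i₀ j₀, ∀ A x, T (updA A b₀ b₀' r₀ c₀ x) = upd (T A) i₀ j₀ x) ∧
      (∀ A i j, T A i j ∈ S ∨ ∃ b b' r c, T A i j = A b b' r c) ∧
      ∀ A, per (T A) = cstB R q n k Jr Jc w ℓ κ κ₁ κ₂ * ∑ g₁ ∈ range (2 ^ ℓ), ∑ g₀ ∈ range (2 ^ ℓ),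
        ∑ b, ∑ b', (cs.x 0 (fsh n g₀) * cs.x 1 (fsh n g₁)) * PhiS k (A b b')
          (fun r => br r.divNat ^ g₀ * br r.modNat ^ g₁)
          (fun c => bc c.divNat ^ g₀ * bc c.modNat ^ g₁) := by
  classical
  have hn : 0 < n := Nat.pos_of_ne_zero (NeZero.ne n)
  obtain ⟨ρ₁, Γ₁, i1, i2, i3, i4, T₁, F₁, N₁, hc₁, hc₁', henl₁, hN₁, hper₁⟩ :=
    iter S hw hw0 hζ hζS (isFam_opg br bc (0 : Fin 2)) (fun a p => opg_mem S hbr hbc _ p) ℓ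
      (RowB q n Jr Jc) (ColB q n k Jr Jc) (lftB q n k Jr Jc (pN cs))
      (fun p c => lftB_mem (fun p c => pN_mem h p c) p c)
  obtain ⟨ρ₂, Γ₂, i5, i6, i7, i8, T₂, F₂, N₂, hc₂, hc₂', henl₂, hN₂, hper₂⟩ :=
    iter S hw hw0 hζ hζS (isFam_opg br bc (1 : Fin 2)) (fun a p => opg_mem S hbr hbc _ p) ℓ
      ρ₁ Γ₁ N₁ hN₁
  refine ⟨ρ₂ ⊕ Pw n Jr Jc, Γ₂, inferInstance, inferInstance, inferInstance, inferInstance,
    fun A => St (T₂ (T₁ (base cs ζ₁ ζ₂ A)))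
      (fun p c => N₂ p c + F₂ (F₁ (lftB q n k Jr Jc (pE R n k Jr Jc))) p c), ?_, ?_, ?_, ?_, ?_⟩
  · rw [Fintype.card_sum, hw, hc₂, hc₁]
    ring
  · rw [hc₂', hc₁']
    ring
  · intro b₀ b₀' r₀ c₀
    obtain ⟨i₁, j₁, hu₁⟩ := henl₁.upd (.inl (.inl (b₀, r₀))) (.inl (.inl (b₀', c₀)))
    obtain ⟨i₂, j₂, hu₂⟩ := henl₂.upd i₁ j₁
    refine ⟨.inl i₂, j₂, fun A x => ?_⟩
    have hb := base_updA (q := q) (k := k) (Jr := Jr) (Jc := Jc) cs ζ₁ ζ₂ A b₀ b₀' r₀ c₀ x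
    simp only
    rw [hb, hu₁, hu₂]
    funext i j
    rcases i with i | i
    · simp [St, upd]
    · simp [St, upd]
  · intro A i j
    rcases i with i | p
    · change T₂ (T₁ (base cs ζ₁ ζ₂ A)) i j ∈ S ∨ ∃ b b' r c, T₂ (T₁ (base cs ζ₁ ζ₂ A)) i j = A b b' r c
      rcases henl₂.mem (T₁ (base cs ζ₁ ζ₂ A)) i j with h3 | ⟨r, c, h3⟩
      · exact Or.inl h3
      · rw [h3]
        rcases henl₁.mem (base cs ζ₁ ζ₂ A) r c with h4 | ⟨r', c', h4⟩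
        · exact Or.inl h4
        · rw [h4]
          exact base_mem h h₁ h₂ A r' c'
    · left
      change N₂ p j + F₂ (F₁ (lftB q n k Jr Jc (pE R n k Jr Jc))) p j ∈ S
      apply S.add_mem (hN₂ p j)
      rcases henl₂.memF (F₁ (lftB q n k Jr Jc (pE R n k Jr Jc))) p j with h3 | ⟨c, h3⟩
      · rw [h3]; exact S.zero_mem
      · rw [h3]
        rcases henl₁.memF (lftB q n k Jr Jc (pE R n k Jr Jc)) p c with h4 | ⟨c', h4⟩
        · rw [h4]; exact S.zero_mem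
        · rw [h4]
          exact lftB_mem (fun p c => pE_mem S p c) p c'
  · intro A
    rw [hper₂]
    unfold cstB
    rw [mul_assoc, mul_assoc, Finset.mul_sum, Finset.mul_sum, Finset.mul_sum, Finset.mul_sum]
    apply Finset.sum_congr rfl
    intro g₁ _
    rw [← henl₁.act, hper₁]
    simp only [Finset.mul_sum]
    apply Finset.sum_congr rfl
    intro g₀ _
    rw [act_opg, lftB_act, lftB_add, per_base cs hζ₁ hζ₂ hn, ← lft_add]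
    simp only [Finset.mul_sum]
    apply Finset.sum_congr rfl
    intro b _
    apply Finset.sum_congr rfl
    intro b' _
    rw [per_small hk cs h.hζ h.hμ h.hτr h.her h.hτc h.hec]
    have e0 : (Pi.single (M := fun _ : Fin 2 => ℕ) 0 g₀ + Pi.single (M := fun _ : Fin 2 => ℕ) 1 g₁) 0 = g₀ := by
      simp
    have e1 : (Pi.single (M := fun _ : Fin 2 => ℕ) 0 g₀ + Pi.single (M := fun _ : Fin 2 => ℕ) 1 g₁) 1 = g₁ := by
      simp
    rw [e0, e1]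
    ring

end Big

end Pool.Agent.W940.G
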