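import Pool.Agent.H546R2.SM.B8
import Pool.Agent.W940.G15

set_option autoImplicit false
set_option linter.unusedSectionVars false

open MvPolynomial Finset

namespace Pool.Agent.W940.G

open Pool.Agent.H546R2.SL
open Pool.Agent.H546R2.SM

section Scale

variable {R : Type*} [CommRing R] {m C₀ k : ℕ}

/-- rescaling -/
lemma PhiS_scale (a b : Fin m → Fin C₀ → R) (ρ : Fin m → R) (χ : Fin C₀ → R) (s : R)
    (hab : ∀ r c, s * (χ c * a r c) = ρ r * b r c) :
    s ^ k * PhiS k a ρ χ = (∏ r, ρ r) * phi k (∏ r, (1 + lin (b r))) := by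
  classical
  unfold PhiS phi
  rw [Finset.mul_sum, Finset.mul_sum]
  apply Finset.sum_congr rfl
  intro S hS
  rw [Finset.mem_powersetCard] at hS
  have h1 : s ^ k * ((∏ c ∈ S, χ c) * eps S (∏ r, (C (ρ r) + lin (a r)))) =
      eps S (∏ r, (C (ρ r) + lin (fun c => (s * χ c) * a r c))) := by
    rw [eps_scale Finset.univ ρ a (fun c => s * χ c), Finset.prod_mul_distrib, Finset.prod_const,
      hS.2, mul_assoc]
  have h2 : ∏ r, (C (ρ r) + lin (fun c => (s * χ c) * a r c)) =
      C (∏ r, ρ r) * ∏ r, (1 + lin (b r)) := by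
    rw [map_prod, ← Finset.prod_mul_distrib]
    apply Finset.prod_congr rfl
    intro r _
    rw [mul_add, mul_one, ← lin_smul']
    congr 2
    funext c
    rw [mul_assoc]
    exact hab r c
  rw [h1, h2, eps_C_mul]

end Scale

section Ents

variable (S : Type*) [CommRing S] (q n k : ℕ)

/-- index type of the variables -/
abbrev Id2 (q n k : ℕ) := Fin q × Fin q × (Fin n × Fin n) × Fin k

/-- exponents -/
def ex2 {n : ℕ} (c : Fin (CC₀ n)) (r : Fin (mm n)) (g : ℕ × ℕ) : ℕ :=
  ex c.divNat r.divNat g.1 + ex c.modNat r.modNat g.2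

/-- a variable entry -/
noncomputable def zen (b b' : Fin q) (r : Fin (mm n)) (c : Fin (CC₀ n)) :
    MvPolynomial (Id2 q n k) S :=
  if h : ((r.divNat : ℕ) ≤ c.divNat ∧ (c.divNat : ℕ) - r.divNat < n) ∧
      ((r.modNat : ℕ) ≤ c.modNat ∧ (c.modNat : ℕ) - r.modNat < n) then
    ∑ l : Fin k, C (((r : ℕ) : S) ^ (l : ℕ)) *
      X (b, b', (⟨(c.divNat : ℕ) - r.divNat, h.1.2⟩, ⟨(c.modNat : ℕ) - r.modNat, h.2.2⟩), l) else 0

/-- scaled entries -/
noncomputable def ben (t : S) (g : ℕ × ℕ) (b b' : Fin q) (r : Fin (mm n)) (c : Fin (CC₀ n)) :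
    MvPolynomial (Id2 q n k) S :=
  C (t ^ ex2 c r g) * zen S q n k b b' r c

/-- the forms -/
noncomputable def Yg (t : S) (v : Fin q × Fin q × Fin (mm n) × Fin (CC₀ n)) :
    MvPolynomial (Id2 q n k) S :=
  ∑ g : Fin n × Fin n, C (t ^ ex2 v.2.2.2 v.2.2.1 (g.1, g.2)) *
    phi k (X v.2.2.2 * ∏ r ∈ Finset.univ.erase v.2.2.1,
      (1 + lin (ben S q n k t (g.1, g.2) v.1 v.2.1 r)))

variable {S q n k}

lemma map_zen {S' : Type*} [CommRing S'] (f : S →+* S') (b b' : Fin q) (r : Fin (mm n))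
    (c : Fin (CC₀ n)) : MvPolynomial.map f (zen S q n k b b' r c) = zen S' q n k b b' r c := by
  unfold zen
  split_ifs
  · rw [map_sum]
    apply Finset.sum_congr rfl
    intro l _
    rw [map_mul, map_C, map_X, map_pow, map_natCast]
  · rw [map_zero]

lemma map_ben {S' : Type*} [CommRing S'] (f : S →+* S') (t : S) (g : ℕ × ℕ) (b b' : Fin q)
    (r : Fin (mm n)) (c : Fin (CC₀ n)) :
    MvPolynomial.map f (ben S q n k t g b b' r c) = ben S' q n k (f t) g b b' r c := by
  unfold ben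
  rw [map_mul, map_C, map_pow, map_zen]

lemma map_Yg {S' : Type*} [CommRing S'] (f : S →+* S') (t : S)
    (v : Fin q × Fin q × Fin (mm n) × Fin (CC₀ n)) :
    MvPolynomial.map f (Yg S q n k t v) = Yg S' q n k (f t) v := by
  unfold Yg
  rw [map_sum]
  apply Finset.sum_congr rfl
  intro g _
  rw [map_mul, map_C, map_pow, map_phi_deriv (MvPolynomial.map f)]
  simp only [map_ben]

variable {K : Type*} [Field K]

lemma zen_homog (b b' : Fin q) (r : Fin (mm n)) (c : Fin (CC₀ n)) :
    (zen K q n k b b' r c).IsHomogeneous 1 := by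
  unfold zen
  split_ifs
  · apply IsHomogeneous.sum
    intro l _
    exact isHomogeneous_C_mul_X _ _
  · exact isHomogeneous_zero _ _ _

lemma ben_homog (t : K) (g : ℕ × ℕ) (b b' : Fin q) (r : Fin (mm n)) (c : Fin (CC₀ n)) :
    (ben K q n k t g b b' r c).IsHomogeneous 1 :=
  (zen_homog b b' r c).C_mul _

lemma Yg_homog (t : K) (v : Fin q × Fin q × Fin (mm n) × Fin (CC₀ n)) :
    (Yg K q n k t v).IsHomogeneous (k - 1) := by
  unfold Yg
  apply IsHomogeneous.sum
  intro g _
  exact (phi_deriv_homog _ (fun r c => ben_homog t _ _ _ r c) _ _).C_mul _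

/-- the column of the shift `a` -/
def jj (a : Fin n × Fin n) : Fin (mm n) ↪ Fin (CC₀ n) :=
  ⟨fun r => finProdFinEquiv (⟨(r.divNat : ℕ) + a.1, by omega⟩, ⟨(r.modNat : ℕ) + a.2, by omega⟩),
    fun r r' h => by
      have h1 := finProdFinEquiv.injective h
      rw [Prod.mk.injEq, Fin.mk.injEq, Fin.mk.injEq] at h1
      have h2 : (r.divNat, r.modNat) = (r'.divNat, r'.modNat) := by
        rw [Prod.mk.injEq]
        exact ⟨Fin.ext (by omega), Fin.ext (by omega)⟩
      exact finProdFinEquiv.symm.injective h2⟩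

lemma jj_div (a : Fin n × Fin n) (r : Fin (mm n)) : ((jj a r).divNat : ℕ) = r.divNat + a.1 := by
  have h := finProdFinEquiv.symm_apply_apply ((⟨(r.divNat : ℕ) + a.1, by omega⟩,
    ⟨(r.modNat : ℕ) + a.2, by omega⟩) : Fin (2 * n) × Fin (2 * n))
  exact congrArg (fun x : Fin (2 * n) × Fin (2 * n) => (x.1 : ℕ)) h

lemma jj_mod (a : Fin n × Fin n) (r : Fin (mm n)) : ((jj a r).modNat : ℕ) = r.modNat + a.2 := by
  have h := finProdFinEquiv.symm_apply_apply ((⟨(r.divNat : ℕ) + a.1, by omega⟩,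
    ⟨(r.modNat : ℕ) + a.2, by omega⟩) : Fin (2 * n) × Fin (2 * n))
  exact congrArg (fun x : Fin (2 * n) × Fin (2 * n) => (x.2 : ℕ)) h

lemma ex2_eq_zero (c : Fin (CC₀ n)) (r : Fin (mm n)) (a : Fin n × Fin n) :
    ex2 c r (a.1, a.2) = 0 ↔ c = jj a r := by
  unfold ex2
  rw [Nat.add_eq_zero_iff, ex_eq_zero, ex_eq_zero]
  constructor
  · rintro ⟨h1, h2⟩
    apply finProdFinEquiv.symm.injective
    have h3 : (c.divNat, c.modNat) = ((jj a r).divNat, (jj a r).modNat) := by
      rw [Prod.mk.injEq]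
      exact ⟨Fin.ext (by rw [jj_div, h1]), Fin.ext (by rw [jj_mod, h2])⟩
    exact h3
  · rintro rfl
    exact ⟨jj_div a r, jj_mod a r⟩

lemma zen_jj (S : Type*) [CommRing S] (b b' : Fin q) (a : Fin n × Fin n) (r : Fin (mm n)) :
    zen S q n k b b' r (jj a r) =
      ∑ l : Fin k, C (((r : ℕ) : S) ^ (l : ℕ)) * X (b, b', a, l) := by
  unfold zen
  have h1 := jj_div a r
  have h2 := jj_mod a r
  have ha1 := a.1.2
  have ha2 := a.2.2
  rw [dif_pos (by omega)]
  apply Finset.sum_congr rfl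
  intro l _
  congr 2
  have e1 : (⟨((jj a r).divNat : ℕ) - r.divNat, by omega⟩ : Fin n) = a.1 := Fin.ext (by
    simp only; omega)
  have e2 : (⟨((jj a r).modNat : ℕ) - r.modNat, by omega⟩ : Fin n) = a.2 := Fin.ext (by
    simp only; omega)
  rw [e1, e2]

lemma eval_ben_zero (ξ : Id2 q n k → K) (b b' : Fin q) (a : Fin n × Fin n) (r : Fin (mm n)) :
    (fun c => eval ξ (ben K q n k 0 (a.1, a.2) b b' r c)) =
      Pi.single (jj a r) (avec (fun l => ξ (b, b', a, l)) r) := by
  funext c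
  unfold ben
  rw [map_mul, eval_C]
  by_cases hc : c = jj a r
  · rw [(ex2_eq_zero _ _ _).mpr hc, pow_zero, one_mul, hc, Pi.single_eq_same, zen_jj, map_sum]
    unfold avec
    apply Finset.sum_congr rfl
    intro l _
    rw [map_mul, eval_C, eval_X]
  · rw [zero_pow (fun hh => hc ((ex2_eq_zero _ _ _).mp hh)), zero_mul, Pi.single_eq_of_ne hc]

/-- the forms at `t = 0` -/
lemma eval_Yg_zero (hk : 0 < k) (ξ : Id2 q n k → K) (b b' : Fin q)
    (a : Fin n × Fin n) (r₀ : Fin (mm n)) :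
    eval ξ (Yg K q n k 0 (b, b', r₀, jj a r₀)) =
      es (fun r : Fin (mm n) => avec (fun l => ξ (b, b', a, l)) r) (Finset.univ.erase r₀)
        (k - 1) := by
  classical
  unfold Yg
  rw [Finset.sum_eq_single a]
  · have h1 : ex2 (jj a r₀) r₀ (a.1, a.2) = 0 := (ex2_eq_zero _ _ _).mpr rfl
    simp only [h1, pow_zero, map_one, one_mul]
    rw [map_phi_deriv (eval ξ)]
    have h2 := phi_diag hk (jj a) (fun r : Fin (mm n) => avec (fun l => ξ (b, b', a, l)) r) r₀
    rw [← h2]
    simp only [eval_ben_zero]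
  · intro g _ hg
    have h1 : ex2 (jj a r₀) r₀ (g.1, g.2) ≠ 0 := by
      intro hh
      rw [ex2_eq_zero] at hh
      apply hg
      have h3 := congrArg (fun x : Fin (CC₀ n) => (x.divNat : ℕ)) hh
      have h4 := congrArg (fun x : Fin (CC₀ n) => (x.modNat : ℕ)) hh
      simp only [jj_div, jj_mod] at h3 h4
      apply Prod.ext
      · apply Fin.ext; omega
      · apply Fin.ext; omega
    simp only
    rw [zero_pow h1, map_zero, zero_mul]
  · intro hh; exact absurd (Finset.mem_univ a) hh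

/-- only the trivial zero at `t = 0` -/
lemma zero_of_Yg [CharZero K] (hk : 2 ≤ k) (hm : mm n = 2 * k) (ξ : Id2 q n k → K)
    (hξ : ∀ v, eval ξ (Yg K q n k 0 v) = 0) : ξ = 0 := by
  classical
  have key : ∀ (b b' : Fin q) (a : Fin n × Fin n), (fun l : Fin k => ξ (b, b', a, l)) = 0 := by
    intro b b' a
    set z : Fin k → K := fun l => ξ (b, b', a, l) with hz
    set S : Finset (Fin (mm n)) := Finset.univ.filter fun j => ¬ (avec z j = 0) with hS
    have hSm : ∀ j, j ∈ S ↔ avec z j ≠ 0 := by intro j; simp [hS]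
    have h1 : ∀ j : Fin (mm n), es (fun j : Fin (mm n) => avec z j)
        (Finset.univ.erase j) (k - 1) = 0 := by
      intro j
      rw [← eval_Yg_zero (by omega) ξ b b' a j]
      exact hξ _
    have hcard := support_small (by omega) (fun j : Fin (mm n) => avec z j) h1 S hSm
    apply vandermonde_zero z ((Finset.univ \ S).map Fin.valEmbedding)
    · rw [Finset.card_map, Finset.card_sdiff_of_subset (Finset.subset_univ S), Finset.card_univ,
        Fintype.card_fin]
      omega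
    · intro t ht
      rw [Finset.mem_map] at ht
      obtain ⟨j, hj, rfl⟩ := ht
      rw [Finset.mem_sdiff, hSm] at hj
      push Not at hj
      exact hj.2
  funext ⟨b, b', a, l⟩
  exact congrFun (key b b' a) l

end Ents

end Pool.Agent.W940.G
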