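import Pool.Agent.W940.G16

set_option autoImplicit false
set_option linter.unusedSectionVars false

open MvPolynomial Finset

namespace Pool.Agent.W940.G

open Pool.Agent.H546R2.SL
open Pool.Agent.H546R2.SM

section Wt

variable {K : Type*} [Field K] {q n k : ℕ}

/-- a parameter with the additional condition `∑ t ^ (g² k) ≠ 0` -/
theorem exists_t2 (K : Type*) [Field K] [IsAlgClosed K] [CharZero K] {q n k : ℕ} (hk : 2 ≤ k)
    (hm : mm n = 2 * k) (hq : 0 < q) (hn : 0 < n) :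
    ∃ t : K, t ≠ 0 ∧ (∑ g : Fin n, t ^ ((g : ℕ) ^ 2 * k)) ≠ 0 ∧
      ∀ ξ : Id2 q n k → K, (∀ v, eval ξ (Yg K q n k t v) = 0) → ξ = 0 := by
  set u : Polynomial K := ∑ g : Fin n, Polynomial.X ^ ((g : ℕ) ^ 2 * k) with hu
  have hu0 : u.eval 0 = 1 := by
    rw [hu, Polynomial.eval_finsetSum, Finset.sum_eq_single (⟨0, hn⟩ : Fin n)]
    · simp
    · intro g _ hg
      have hg' : (g : ℕ) ≠ 0 := fun h => hg (Fin.ext h)
      rw [Polynomial.eval_pow, Polynomial.eval_X, zero_pow]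
      exact Nat.mul_ne_zero (pow_ne_zero _ hg') (by omega)
    · intro hx; exact absurd (Finset.mem_univ _) hx
  have hmap : ∀ (s : K) v, MvPolynomial.map (Polynomial.evalRingHom s)
      (C u * Yg (Polynomial K) q n k Polynomial.X v) = C (u.eval s) * Yg K q n k s v := by
    intro s v
    rw [map_mul, map_C, map_Yg, Polynomial.coe_evalRingHom, Polynomial.eval_X]
  obtain ⟨t, ht, h1⟩ := degenerate (K := K)
    (fun v => C u * Yg (Polynomial K) q n k Polynomial.X v) (k - 1) (by omega)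
    (fun t v => by
      rw [hmap]
      exact (Yg_homog t v).C_mul _)
    (fun x hx => by
      apply zero_of_Yg hk hm x
      intro v
      have := hx v
      rwa [hmap, hu0, map_one, one_mul] at this)
  have hut : u.eval t ≠ 0 := by
    intro h0
    have h2 := h1 (fun _ => 1) (fun v => by rw [hmap, h0]; simp)
    exact one_ne_zero (congrFun h2 (⟨0, hq⟩, ⟨0, hq⟩, (⟨0, hn⟩, ⟨0, hn⟩), ⟨0, by omega⟩))
  refine ⟨t, ht, ?_, fun ξ hξ => h1 ξ fun v => ?_⟩
  · rw [hu, Polynomial.eval_finsetSum] at hut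
    simpa using hut
  · rw [hmap, map_mul, hξ v, mul_zero]

/-- base of the weights -/
noncomputable def wb (t : K) (y : ℕ) : K := (t ^ (2 * y))⁻¹

lemma wb_ne {t : K} (ht : t ≠ 0) (y : ℕ) : wb t y ≠ 0 := inv_ne_zero (pow_ne_zero _ ht)

lemma weight1 {t : K} (ht : t ≠ 0) (g c r : ℕ) :
    t ^ (g ^ 2) * (wb t c ^ g * t ^ ex c r 0) = wb t r ^ g * t ^ ex c r g := by
  unfold wb
  rw [inv_pow, inv_pow, ← pow_mul, ← pow_mul]
  have h1 : t ^ (2 * c * g) ≠ 0 := pow_ne_zero _ ht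
  have h2 : t ^ (2 * r * g) ≠ 0 := pow_ne_zero _ ht
  have h3 : t ^ (2 * r * g) * (t ^ (g ^ 2) * t ^ ex c r 0) = t ^ (2 * c * g) * t ^ ex c r g := by
    rw [← pow_add, ← pow_add, ← pow_add]
    congr 1
    have := ex_identity c r g
    have e1 : 2 * r * g = 2 * g * r := by ring
    have e2 : 2 * c * g = 2 * g * c := by ring
    omega
  calc t ^ (g ^ 2) * ((t ^ (2 * c * g))⁻¹ * t ^ ex c r 0) =
      (t ^ (2 * c * g))⁻¹ * ((t ^ (2 * r * g))⁻¹ * (t ^ (2 * r * g) *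
        (t ^ (g ^ 2) * t ^ ex c r 0))) := by
        rw [inv_mul_cancel_left₀ h2]; ring
    _ = (t ^ (2 * r * g))⁻¹ * t ^ ex c r g := by
        rw [h3, mul_left_comm (t ^ (2 * c * g))⁻¹, inv_mul_cancel_left₀ h1]

/-- the two-dimensional weights of the rows -/
noncomputable def rw2 (t : K) (g : ℕ × ℕ) (r : Fin (mm n)) : K :=
  wb t r.divNat ^ g.1 * wb t r.modNat ^ g.2

/-- the two-dimensional weights of the columns -/
noncomputable def cw2 (t : K) (g : ℕ × ℕ) (c : Fin (CC₀ n)) : K :=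
  wb t c.divNat ^ g.1 * wb t c.modNat ^ g.2

lemma rw2_ne {t : K} (ht : t ≠ 0) (g : ℕ × ℕ) (r : Fin (mm n)) : rw2 t g r ≠ 0 :=
  mul_ne_zero (pow_ne_zero _ (wb_ne ht _)) (pow_ne_zero _ (wb_ne ht _))

/-- the square of the shift -/
noncomputable def sg (t : K) (g : ℕ × ℕ) : K := t ^ (g.1 ^ 2) * t ^ (g.2 ^ 2)

lemma weight2 {t : K} (ht : t ≠ 0) (g : ℕ × ℕ) (c : Fin (CC₀ n)) (r : Fin (mm n)) :
    sg t g * (cw2 t g c * t ^ ex2 c r (0, 0)) = rw2 t g r * t ^ ex2 c r g := by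
  unfold sg cw2 rw2 ex2
  have h1 := weight1 ht g.1 c.divNat r.divNat
  have h2 := weight1 ht g.2 c.modNat r.modNat
  rw [pow_add, pow_add]
  calc _ = (t ^ (g.1 ^ 2) * (wb t c.divNat ^ g.1 * t ^ ex c.divNat r.divNat 0)) *
      (t ^ (g.2 ^ 2) * (wb t c.modNat ^ g.2 * t ^ ex c.modNat r.modNat 0)) := by ring
    _ = _ := by rw [h1, h2]; ring

/-- the weights of the markers -/
noncomputable def xw (K : Type*) [Field K] (n k : ℕ) (t : K) (s : Fin 2) (g : ℕ) : K :=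
  (t ^ (g ^ 2)) ^ k * (∏ r : Fin (mm n), wb t (if s = 0 then (r.divNat : ℕ) else r.modNat) ^ g)⁻¹

lemma xw_mul (t : K) (g : ℕ × ℕ) :
    xw K n k t 0 g.1 * xw K n k t 1 g.2 = sg t g ^ k * (∏ r : Fin (mm n), rw2 t g r)⁻¹ := by
  unfold xw sg rw2
  rw [Finset.prod_mul_distrib, mul_inv, mul_pow]
  simp only [if_true, if_neg (show (1 : Fin 2) ≠ 0 by decide)]
  ring

/-- value of a weighted functional -/
lemma xw_PhiS {t : K} (ht : t ≠ 0) (g : ℕ × ℕ) (a b : Fin (mm n) → Fin (CC₀ n) →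
    MvPolynomial (Id2 q n k) K)
    (hab : ∀ r c, C (sg t g) * (C (cw2 t g c) * a r c) = C (rw2 t g r) * b r c) :
    C (xw K n k t 0 g.1 * xw K n k t 1 g.2) * PhiS k a (fun r => C (rw2 t g r))
      (fun c => C (cw2 t g c)) = phi k (∏ r, (1 + lin (b r))) := by
  have h1 := PhiS_scale (k := k) a b (fun r => C (rw2 t g r)) (fun c => C (cw2 t g c))
    (C (sg t g)) hab
  have h2 : (∏ r : Fin (mm n), rw2 t g r) ≠ 0 :=
    Finset.prod_ne_zero_iff.mpr fun r _ => rw2_ne ht g r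
  rw [xw_mul, map_mul, map_pow, mul_comm (C (sg t g) ^ k), mul_assoc, h1, ← map_prod,
    ← mul_assoc, ← map_mul, inv_mul_cancel₀ h2, map_one, one_mul]

/-- the shift of one entry after rescaling -/
noncomputable def mu2 (t : K) (g : ℕ × ℕ) (c : Fin (CC₀ n)) (r : Fin (mm n)) : K :=
  (rw2 t g r)⁻¹ * (sg t g * cw2 t g c)

lemma mu2_spec {t : K} (ht : t ≠ 0) (g : ℕ × ℕ) (c : Fin (CC₀ n)) (r : Fin (mm n)) :
    t ^ ex2 c r (0, 0) * mu2 t g c r = t ^ ex2 c r g := by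
  unfold mu2
  have h2 := weight2 ht g c r
  calc t ^ ex2 c r (0, 0) * ((rw2 t g r)⁻¹ * (sg t g * cw2 t g c)) =
      (rw2 t g r)⁻¹ * (sg t g * (cw2 t g c * t ^ ex2 c r (0, 0))) := by ring
    _ = t ^ ex2 c r g := by rw [h2, inv_mul_cancel_left₀ (rw2_ne ht g r)]

/-- the variable entries -/
noncomputable def Aen (K : Type*) [Field K] (q n k : ℕ) (t : K) (b b' : Fin q) (r : Fin (mm n))
    (c : Fin (CC₀ n)) : MvPolynomial (Id2 q n k) K :=
  C (t ^ ex2 c r (0, 0)) * zen K q n k b b' r c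

lemma Aen_rel {t : K} (ht : t ≠ 0) (g : ℕ × ℕ) (b b' : Fin q) (r : Fin (mm n)) (c : Fin (CC₀ n)) :
    C (sg t g) * (C (cw2 t g c) * Aen K q n k t b b' r c) =
      C (rw2 t g r) * ben K q n k t g b b' r c := by
  unfold Aen ben
  rw [← mul_assoc (C (cw2 t g c)), ← map_mul, ← mul_assoc, ← map_mul, weight2 ht g c r, map_mul,
    mul_assoc]

/-- the value of the functional -/
noncomputable def Fn (K : Type*) [Field K] (q n k : ℕ) (t : K)
    (A : Fin q → Fin q → Fin (mm n) → Fin (CC₀ n) → MvPolynomial (Id2 q n k) K) :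
    MvPolynomial (Id2 q n k) K :=
  ∑ b : Fin q, ∑ b' : Fin q, ∑ g : Fin n × Fin n,
    C (xw K n k t 0 g.1 * xw K n k t 1 g.2) * PhiS k (A b b') (fun r => C (rw2 t (g.1, g.2) r))
      (fun c => C (cw2 t (g.1, g.2) c))

lemma Fn_Aen {t : K} (ht : t ≠ 0) : Fn K q n k t (Aen K q n k t) =
    ∑ b : Fin q, ∑ b' : Fin q, ∑ g : Fin n × Fin n,
      phi k (∏ r, (1 + lin (ben K q n k t (g.1, g.2) b b' r))) := by
  unfold Fn
  apply Finset.sum_congr rfl
  intro b _
  apply Finset.sum_congr rfl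
  intro b' _
  apply Finset.sum_congr rfl
  intro g _
  exact xw_PhiS ht (g.1, g.2) _ _ (fun r c => Aen_rel ht _ b b' r c)

/-- adding `1` to one variable entry -/
theorem Fn_diff {t : K} (ht : t ≠ 0) (b₀ b₀' : Fin q) (r₀ : Fin (mm n)) (c₀ : Fin (CC₀ n)) :
    C (t ^ ex2 c₀ r₀ (0, 0)) * (Fn K q n k t (updA (Aen K q n k t) b₀ b₀' r₀ c₀ 1) -
      Fn K q n k t (Aen K q n k t)) = Yg K q n k t (b₀, b₀', r₀, c₀) := by
  classical
  unfold Fn
  rw [← Finset.sum_sub_distrib]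
  have hother : ∀ b b' : Fin q, ¬ (b = b₀ ∧ b' = b₀') →
      updA (Aen K q n k t) b₀ b₀' r₀ c₀ 1 b b' = Aen K q n k t b b' := by
    intro b b' hbb
    funext r c
    unfold updA
    by_cases h1 : b = b₀ ∧ r = r₀
    · rw [if_pos h1, if_neg (fun hh => hbb ⟨h1.1, hh.1⟩), add_zero]
    · rw [if_neg h1, add_zero]
  rw [Finset.sum_eq_single b₀]
  · rw [← Finset.sum_sub_distrib, Finset.sum_eq_single b₀']
    · rw [← Finset.sum_sub_distrib]
      unfold Yg
      rw [Finset.mul_sum]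
      apply Finset.sum_congr rfl
      intro g _
      have hA1 := xw_PhiS ht ((g.1 : ℕ), (g.2 : ℕ)) (updA (Aen K q n k t) b₀ b₀' r₀ c₀ 1 b₀ b₀')
        (fun r c => ben K q n k t (g.1, g.2) b₀ b₀' r c +
            if r = r₀ ∧ c = c₀ then C (mu2 t (g.1, g.2) c₀ r₀) else 0) (by
          intro r c
          unfold updA
          rw [mul_add, mul_add, mul_add, Aen_rel ht]
          congr 1
          by_cases hr : r = r₀
          · by_cases hc : c = c₀
            · rw [if_pos ⟨rfl, hr⟩, if_pos ⟨rfl, hc⟩, if_pos ⟨hr, hc⟩, mul_one, hr, hc]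
              unfold mu2
              rw [← map_mul, ← map_mul, mul_inv_cancel_left₀ (rw2_ne ht _ _)]
            · rw [if_pos ⟨rfl, hr⟩, if_neg (fun hh => hc hh.2), if_neg (fun hh => hc hh.2)]
              ring
          · rw [if_neg (fun hh => hr hh.2), if_neg (fun hh => hr hh.1)]
            ring)
      have hA2 := xw_PhiS ht ((g.1 : ℕ), (g.2 : ℕ)) (Aen K q n k t b₀ b₀')
        (ben K q n k t (g.1, g.2) b₀ b₀') (fun r c => Aen_rel ht _ b₀ b₀' r c)
      simp only at hA1 hA2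
      rw [hA1, hA2, phi_diff (k := k) (ben K q n k t (g.1, g.2) b₀ b₀') _ r₀ c₀
        (C (mu2 t (g.1, g.2) c₀ r₀)) (fun r c => rfl), ← mul_assoc, ← map_mul, mu2_spec ht]
    · intro b' _ hb'
      rw [hother b₀ b' (fun hh => hb' hh.2), sub_self]
    · intro hh; exact absurd (Finset.mem_univ _) hh
  · intro b _ hb
    rw [← Finset.sum_sub_distrib]
    apply Finset.sum_eq_zero
    intro b' _
    rw [hother b b' (fun hh => hb hh.1), sub_self]
  · intro hh; exact absurd (Finset.mem_univ _) hh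

end Wt

end Pool.Agent.W940.G
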