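import Pool.Agent.W940.G17

set_option autoImplicit false
set_option linter.unusedSectionVars false

open MvPolynomial Finset

namespace Pool.Agent.W940.G

open Pool.Agent.H546R2.SL
open Pool.Agent.H546R2.SM

section Pad

variable {R : Type*} [CommRing R] {ρ γ : Type*} [Fintype ρ] [DecidableEq ρ] [Fintype γ]
  [DecidableEq γ]

/-- padding by an identity matrix -/
def pad (p : ℕ) (M : ρ → γ → R) : ρ ⊕ Fin p → γ ⊕ Fin p → R
  | .inl r, .inl c => M r c
  | .inl _, .inr _ => 0
  | .inr _, .inl _ => 0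
  | .inr i, .inr j => if j = i then 1 else 0

lemma per_pad (p : ℕ) (M : ρ → γ → R) : per (pad p M) = per M := by
  classical
  set jl : γ ↪ γ ⊕ Fin p := Function.Embedding.inl with hjl
  set jr' : Fin p ↪ γ ⊕ Fin p := Function.Embedding.inr with hjr
  unfold per
  rw [Fintype.prod_sum_type]
  have h1 : ∏ i : Fin p, lin (pad p M (.inr i)) = ∏ c ∈ Finset.univ.map jr',
      (X c : MvPolynomial (γ ⊕ Fin p) R) := by
    rw [Finset.prod_map]
    apply Finset.prod_congr rfl
    intro i _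
    rw [X_eq]
    congr 1
    funext c
    rcases c with c | j
    · simp [pad, hjr]
    · by_cases h : j = i
      · subst h; simp [pad, hjr]
      · have h' : (Sum.inr j : γ ⊕ Fin p) ≠ Sum.inr i := fun hh => h (Sum.inr_injective hh)
        simp [pad, hjr, h, Pi.single_eq_of_ne h']
  have h2 : (Finset.univ : Finset (γ ⊕ Fin p)) \ Finset.univ.map jr' = Finset.univ.map jl := by
    ext c
    simp only [Finset.mem_sdiff, Finset.mem_univ, true_and, mem_mapu]
    rcases c with c | j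
    · simp [hjr, hjl]
    · simp [hjr, hjl]
  rw [h1, mul_comm, eps_prodX_mul _ _ _ (Finset.subset_univ _), h2, eps_emb_lin jl]
  rfl

end Pad

section Star

variable {K : Type*} [Field K] {q n k : ℕ}

lemma phi_one' {R : Type*} [CommRing R] {w : ℕ} (k : ℕ) (hk : 0 < k) :
    phi k (1 : MvPolynomial (Fin w) R) = 0 := by
  unfold phi
  apply Finset.sum_eq_zero
  intro S hS
  rw [eps_one, if_neg]
  rintro rfl
  rw [Finset.mem_powersetCard, Finset.card_empty] at hS
  omega

lemma eval_ben_origin (t : K) (g : ℕ × ℕ) (b b' : Fin q) (r : Fin (mm n)) (c : Fin (CC₀ n)) :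
    eval (0 : Id2 q n k → K) (ben K q n k t g b b' r c) = 0 := by
  unfold ben zen
  rw [map_mul]
  split_ifs
  · rw [map_sum]
    simp
  · simp

/-- the value at the origin of one functional -/
lemma eval_phi_origin (hk : 0 < k) (t : K) (g : ℕ × ℕ) (b b' : Fin q) :
    eval (0 : Id2 q n k → K)
      (phi k (∏ r, (1 + lin (ben K q n k t g b b' r)))) = 0 := by
  rw [map_phi, map_prod]
  have h1 : ∀ r : Fin (mm n), MvPolynomial.map (eval (0 : Id2 q n k → K))
      (1 + lin (ben K q n k t g b b' r)) = 1 := by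
    intro r
    rw [map_add, map_one, map_lin]
    simp only [eval_ben_origin]
    unfold lin
    simp
  simp_rw [h1]
  rw [Finset.prod_const_one, phi_one' k hk]

/-- the evaluation point -/
def pt (K : Type*) [Field K] (q n k : ℕ) : Id2 q n k → K :=
  fun x => if (x.2.2.1.1 : ℕ) = 0 ∧ (x.2.2.1.2 : ℕ) = 0 ∧ (x.2.2.2 : ℕ) = 0 then 1 else 0

lemma eval_ben_pt (hn : 0 < n) (hk : 0 < k) (t : K) (g : ℕ × ℕ) (b b' : Fin q) (r : Fin (mm n))
    (c : Fin (CC₀ n)) :
    eval (pt K q n k) (ben K q n k t g b b' r c) =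
      Pi.single (M := fun _ => K) (jj (⟨0, hn⟩, ⟨0, hn⟩) r) (sg t g) c := by
  classical
  unfold ben
  rw [map_mul, eval_C]
  by_cases hc : c = jj (⟨0, hn⟩, ⟨0, hn⟩) r
  · subst hc
    rw [Pi.single_eq_same, zen_jj, map_sum, Finset.sum_eq_single (⟨0, hk⟩ : Fin k)]
    · have h1 : ex2 (jj (⟨0, hn⟩, ⟨0, hn⟩) r) r g = g.1 ^ 2 + g.2 ^ 2 := by
        unfold ex2 ex
        rw [jj_div, jj_mod]
        simp
      rw [h1, map_mul, eval_C, eval_X, pow_add]
      simp [pt, sg]
    · intro l _ hl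
      have hl' : (l : ℕ) ≠ 0 := fun h => hl (Fin.ext h)
      rw [map_mul, eval_X]
      simp [pt, hl']
    · intro hx; exact absurd (Finset.mem_univ _) hx
  · rw [Pi.single_eq_of_ne hc]
    unfold zen
    split_ifs with h1
    · rw [map_sum, Finset.sum_eq_zero, mul_zero]
      intro l _
      rw [map_mul, eval_X]
      unfold pt
      simp only
      rw [if_neg, mul_zero]
      rintro ⟨h2, h3, _⟩
      apply hc
      have h4 := (ex2_eq_zero c r (⟨0, hn⟩, ⟨0, hn⟩)).mp (by
        unfold ex2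
        rw [Nat.add_eq_zero_iff, ex_eq_zero, ex_eq_zero]
        simp only at h2 h3 ⊢
        constructor <;> omega)
      exact h4
    · simp

/-- the value at the special point of one functional -/
lemma eval_phi_pt (hm : mm n = 2 * k) (hn : 0 < n) (hk : 0 < k) (t : K) (g : ℕ × ℕ) (b b' : Fin q) :
    eval (pt K q n k) (phi k (∏ r, (1 + lin (ben K q n k t g b b' r)))) =
      ((2 * k).choose k : K) * sg t g ^ k := by
  classical
  rw [map_phi, map_prod]
  have h1 : ∀ r : Fin (mm n), MvPolynomial.map (eval (pt K q n k))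
      (1 + lin (ben K q n k t g b b' r)) =
      1 + lin (Pi.single (M := fun _ => K) (jj (⟨0, hn⟩, ⟨0, hn⟩) r) (sg t g)) := by
    intro r
    rw [map_add, map_one, map_lin]
    congr 1
    congr 1
    funext c
    exact eval_ben_pt hn hk t g b b' r c
  simp_rw [h1]
  unfold phi
  have h2 : ∀ S ∈ (Finset.univ : Finset (Fin (CC₀ n))).powersetCard k,
      eps S (∏ r, (1 + lin (Pi.single (M := fun _ => K) (jj (⟨0, hn⟩, ⟨0, hn⟩) r) (sg t g)))) =
      if S ⊆ (Finset.univ : Finset (Fin (mm n))).map (jj (⟨0, hn⟩, ⟨0, hn⟩)) then sg t g ^ k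
        else 0 := by
    intro S hS
    rw [eps_diag (jj (⟨0, hn⟩, ⟨0, hn⟩)) (fun _ => sg t g) (fun _ => sg t g) (fun _ => rfl),
      Finset.prod_const, (Finset.mem_powersetCard.mp hS).2]
  rw [Finset.sum_congr rfl h2, ← Finset.sum_filter, Finset.sum_const]
  have h3 : ((Finset.univ : Finset (Fin (CC₀ n))).powersetCard k).filter
      (fun S => S ⊆ (Finset.univ : Finset (Fin (mm n))).map (jj (⟨0, hn⟩, ⟨0, hn⟩))) =
      ((Finset.univ : Finset (Fin (mm n))).map (jj (⟨0, hn⟩, ⟨0, hn⟩))).powersetCard k := by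
    ext S
    simp only [Finset.mem_filter, Finset.mem_powersetCard]
    constructor
    · rintro ⟨⟨_, h4⟩, h5⟩; exact ⟨h5, h4⟩
    · rintro ⟨h4, h5⟩; exact ⟨⟨Finset.subset_univ _, h5⟩, h4⟩
  rw [h3, Finset.card_powersetCard, Finset.card_map, Finset.card_univ, Fintype.card_fin, hm,
    nsmul_eq_mul]

lemma eval_Fn_pt [CharZero K] (hm : mm n = 2 * k) (hn : 0 < n) (hk : 0 < k) (hq : 0 < q) {t : K}
    (ht : t ≠ 0) (hut : (∑ g : Fin n, t ^ ((g : ℕ) ^ 2 * k)) ≠ 0) :
    eval (pt K q n k) (Fn K q n k t (Aen K q n k t)) ≠ 0 := by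
  rw [Fn_Aen ht]
  simp only [map_sum, eval_phi_pt hm hn hk]
  have h1 : ∑ g : Fin n × Fin n, ((2 * k).choose k : K) * sg t ((g.1 : ℕ), (g.2 : ℕ)) ^ k =
      ((2 * k).choose k : K) * ((∑ g : Fin n, t ^ ((g : ℕ) ^ 2 * k)) *
        (∑ g : Fin n, t ^ ((g : ℕ) ^ 2 * k))) := by
    rw [← Finset.mul_sum, Fintype.sum_prod_type, Finset.sum_mul_sum]
    congr 1
    apply Finset.sum_congr rfl
    intro g _
    apply Finset.sum_congr rfl
    intro g' _
    unfold sg
    rw [mul_pow, ← pow_mul, ← pow_mul]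
  rw [Finset.sum_const, Finset.sum_const, h1, Finset.card_univ, Fintype.card_fin, nsmul_eq_mul,
    nsmul_eq_mul]
  have hq' : (q : K) ≠ 0 := by exact_mod_cast hq.ne'
  have hch : (((2 * k).choose k : ℕ) : K) ≠ 0 := by
    exact_mod_cast (Nat.choose_pos (by omega : k ≤ 2 * k)).ne'
  exact mul_ne_zero hq' (mul_ne_zero hq' (mul_ne_zero hch (mul_ne_zero hut hut)))

lemma eval_Fn_origin (hk : 0 < k) {t : K} (ht : t ≠ 0) :
    eval (0 : Id2 q n k → K) (Fn K q n k t (Aen K q n k t)) = 0 := by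
  rw [Fn_Aen ht]
  simp only [map_sum, eval_phi_origin hk]
  simp

end Star

end Pool.Agent.W940.G
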