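import Pool.Agent.W940.G18

set_option autoImplicit false
set_option linter.unusedSectionVars false

open MvPolynomial Finset

namespace Pool.Agent.W940.G

open Pool.Agent.H546R2.SL
open Pool.Agent.H546R2.SM

section Consts

/-- transport of constants -/
def Cst.map {R R' : Type*} [CommRing R] [CommRing R'] {n : ℕ} (f : R →+* R') (cs : Cst R n) :
    Cst R' n where
  τr := fun i => f (cs.τr i)
  τc := fun i => f (cs.τc i)
  ζ := fun j i => f (cs.ζ j i)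
  μ := fun j => f (cs.μ j)
  x := fun s i => f (cs.x s i)

lemma Cst.Good.map {R R' : Type*} [CommRing R] [CommRing R'] {n : ℕ} [NeZero n] {cs : Cst R n}
    {S : Subring R} {Jr Jc : ℕ} {er ec : ℕ → R} (h : cs.Good S Jr Jc er ec) (f : R →+* R') :
    (cs.map f).Good f.range Jr Jc (fun i => f (er i)) (fun i => f (ec i)) where
  hζ := fun j => by
    have h1 := (h.hζ j).map f
    rwa [map_neg, map_one] at h1
  hμ := fun j => by
    have h1 := congrArg f (h.hμ j)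
    rw [map_mul, map_natCast, map_one] at h1
    exact h1
  hτr := h.hτr.map f
  her := fun a ha => by
    have h1 := congrArg f (h.her a ha)
    rw [map_mul, map_intCast, map_intCast] at h1
    exact h1
  hτc := h.hτc.map f
  hec := fun a ha => by
    have h1 := congrArg f (h.hec a ha)
    rw [map_mul, map_intCast, map_intCast] at h1
    exact h1
  mζ := fun j i => ⟨_, rfl⟩
  mμ := fun j => ⟨_, rfl⟩
  mτr := fun i => ⟨_, rfl⟩
  mτc := fun i => ⟨_, rfl⟩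
  mx := fun s i => ⟨_, rfl⟩

lemma exists_tau_val (K : Type*) [Field K] [IsAlgClosed K] [CharZero K] (w J : ℕ)
    (hw : w < 2 ^ J) : ∃ (τ : Fin w → K) (e : ℕ → K), IsTau K τ e ∧
      ∀ a ≤ w, e (w - a) * (val J a : K) = (val J w : K) := by
  have hne : ∀ a ≤ w, (val J a : K) ≠ 0 := by
    intro a ha
    exact_mod_cast val_ne J a (by omega)
  obtain ⟨τ, hτ⟩ := exists_tau K w (fun t => (val J w : K) / (val J (w - t) : K)) (by
    exact div_self (hne w le_rfl))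
  refine ⟨τ, _, hτ, fun a ha => ?_⟩
  rw [Nat.sub_sub_self ha, div_mul_cancel₀ _ (hne a ha)]

lemma exists_cst (K : Type*) [Field K] [IsAlgClosed K] [CharZero K] (n Jr Jc : ℕ) [NeZero n]
    (hJr : n < 2 ^ Jr) (hJc : 2 * n < 2 ^ Jc) (x : Fin 2 → Fin n → K) :
    ∃ (cs : Cst K n) (er ec : ℕ → K), cs.Good ⊤ Jr Jc er ec ∧ cs.x = x := by
  obtain ⟨τr, er, hτr, her⟩ := exists_tau_val K n Jr hJr
  obtain ⟨τc, ec, hτc, hec⟩ := exists_tau_val K (2 * n) Jc hJc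
  choose ζ hζ using fun j : ℕ => exists_zeta K (2 ^ j) (by positivity)
  refine ⟨⟨τr, τc, ζ, fun j => (((2 ^ j : ℕ) : K))⁻¹, x⟩, er, ec, ⟨hζ, ?_, hτr, her, hτc, hec,
    fun _ _ => Subring.mem_top _, fun _ => Subring.mem_top _, fun _ => Subring.mem_top _,
    fun _ => Subring.mem_top _, fun _ _ => Subring.mem_top _⟩, rfl⟩
  intro j
  apply mul_inv_cancel₀
  exact_mod_cast (by positivity : (2 ^ j : ℕ) ≠ 0)

end Consts

section Cards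

lemma card_sig (J : ℕ) : Fintype.card (Σ j : Fin J, Fin (2 ^ (j : ℕ))) + 1 = 2 ^ J := by
  rw [Fintype.card_sigma]
  simp only [Fintype.card_fin]
  rw [← Finset.sum_range (fun j => 2 ^ j)]
  induction J with
  | zero => simp
  | succ J ih => rw [Finset.sum_range_succ, pow_succ]; omega

/-- the size of the gadget -/
def NN (q ℓ : ℕ) : ℕ := 5 * (2 ^ ℓ) ^ 2 * q + 60 * (2 ^ ℓ) ^ 2 +
  (36 * ℓ ^ 2 + 78 * ℓ + 6) * 2 ^ ℓ + 2

lemma card_Pw (ℓ : ℕ) : Fintype.card (Pw (2 ^ ℓ) (ℓ + 1) (ℓ + 2)) = (6 * ℓ + 12) * 2 ^ ℓ := by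
  simp only [Fintype.card_sum, Fintype.card_prod, Fintype.card_fin]
  ring

lemma card_NC (a J k : ℕ) (hk : k ≤ a * a) : Fintype.card (NC a J k) =
    5 * (a * a) + k + 2 * a * (a + (2 ^ J - 1 + J)) := by
  have h := card_sig J
  have h1 : Fintype.card (Σ j : Fin J, Fin (2 ^ (j : ℕ))) = 2 ^ J - 1 := by omega
  simp only [Fintype.card_sum, Fintype.card_prod, Fintype.card_fin, h1]
  have h2 : a * a - k + k = a * a := Nat.sub_add_cancel hk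
  have h3 : a * a * 4 + (a * a - k + (2 * k + 2 * a * (a + (2 ^ J - 1 + J)))) =
      a * a * 4 + (a * a - k + k) + k + 2 * a * (a + (2 ^ J - 1 + J)) := by ring
  rw [h3, h2]
  ring

lemma card_NR (a J : ℕ) : Fintype.card (NR a J) = 5 * (a * a) + 2 * a * (a + (2 ^ J - 1)) := by
  have h := card_sig J
  have h1 : Fintype.card (Σ j : Fin J, Fin (2 ^ (j : ℕ))) = 2 ^ J - 1 := by omega
  simp only [Fintype.card_sum, Fintype.card_prod, Fintype.card_fin, h1]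
  ring

lemma card_col (q n m c : ℕ) (A B : Type) [Fintype A] [Fintype B] :
    Fintype.card (((Fin q × Fin c) ⊕ (A ⊕ (B ⊕ (Fin 2 × (Fin n ⊕ Unit))))) ⊕
      ((Fin q × Fin m) ⊕ Fin c)) =
      q * c + (Fintype.card A + (Fintype.card B + 2 * (n + 1))) + (q * m + c) := by
  simp only [Fintype.card_sum, Fintype.card_prod, Fintype.card_fin, Fintype.card_unit]

lemma card_row (q m c : ℕ) (A B : Type) [Fintype A] [Fintype B] :
    Fintype.card (((Fin q × Fin m) ⊕ (Fin c ⊕ (A ⊕ (B ⊕ Fin 2)))) ⊕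
      (Fin m ⊕ (Fin q × Fin c))) =
      q * m + (c + (Fintype.card A + (Fintype.card B + 2))) + (m + q * c) := by
  simp only [Fintype.card_sum, Fintype.card_prod, Fintype.card_fin]

lemma card_ColB (q ℓ k : ℕ) (hm : mm (2 ^ ℓ) = 2 * k) :
    Fintype.card (ColB q (2 ^ ℓ) k (ℓ + 1) (ℓ + 2)) + 6 * ((6 * ℓ + 12) * 2 ^ ℓ) * ℓ = NN q ℓ := by
  have hk : k ≤ 2 ^ ℓ * 2 ^ ℓ := by unfold mm at hm; omega
  have hk2 : k ≤ 2 * 2 ^ ℓ * (2 * 2 ^ ℓ) := by nlinarith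
  have h1 : Fintype.card (ColB q (2 ^ ℓ) k (ℓ + 1) (ℓ + 2)) =
      q * (2 * 2 ^ ℓ * (2 * 2 ^ ℓ)) + (Fintype.card (NC (2 ^ ℓ) (ℓ + 1) k) +
        (Fintype.card (NC (2 * 2 ^ ℓ) (ℓ + 2) k) + 2 * (2 ^ ℓ + 1))) +
      (q * (2 ^ ℓ * 2 ^ ℓ) + 2 * 2 ^ ℓ * (2 * 2 ^ ℓ)) := by
    exact card_col q (2 ^ ℓ) _ _ _ _
  rw [h1, card_NC _ _ _ hk, card_NC _ _ _ hk2]
  have e1 : 2 ^ (ℓ + 1) - 1 + (ℓ + 1) = 2 * 2 ^ ℓ + ℓ := by
    have : 0 < 2 ^ ℓ := by positivity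
    rw [pow_succ]; omega
  have e2 : 2 ^ (ℓ + 2) - 1 + (ℓ + 2) = 4 * 2 ^ ℓ + (ℓ + 1) := by
    have : 0 < 2 ^ ℓ := by positivity
    rw [pow_succ, pow_succ]; omega
  rw [e1, e2]
  unfold NN
  have h2 : 2 * k = 2 ^ ℓ * 2 ^ ℓ := hm.symm
  have h3 : k + k = 2 ^ ℓ * 2 ^ ℓ := by omega
  generalize 2 ^ ℓ = n at *
  nlinarith

lemma card_RowB (q ℓ k : ℕ) (hm : mm (2 ^ ℓ) = 2 * k) :
    Fintype.card (RowB q (2 ^ ℓ) (ℓ + 1) (ℓ + 2)) + (6 * ℓ + 12) * 2 ^ ℓ +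
      6 * ((6 * ℓ + 12) * 2 ^ ℓ) * ℓ = NN q ℓ := by
  have h1 : Fintype.card (RowB q (2 ^ ℓ) (ℓ + 1) (ℓ + 2)) =
      q * (2 ^ ℓ * 2 ^ ℓ) + (2 * 2 ^ ℓ * (2 * 2 ^ ℓ) + (Fintype.card (NR (2 ^ ℓ) (ℓ + 1)) +
        (Fintype.card (NR (2 * 2 ^ ℓ) (ℓ + 2)) + 2))) +
      (2 ^ ℓ * 2 ^ ℓ + q * (2 * 2 ^ ℓ * (2 * 2 ^ ℓ))) := by
    exact card_row q _ _ _ _
  rw [h1, card_NR, card_NR]
  have e1 : 2 ^ (ℓ + 1) - 1 + 1 = 2 * 2 ^ ℓ := by
    have : 0 < 2 ^ ℓ := by positivity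
    rw [pow_succ]; omega
  have e2 : 2 ^ (ℓ + 2) - 1 + 1 = 4 * 2 ^ ℓ := by
    have : 0 < 2 ^ ℓ := by positivity
    rw [pow_succ, pow_succ]; omega
  obtain ⟨x, hx⟩ : ∃ x, x = 2 ^ (ℓ + 1) - 1 := ⟨_, rfl⟩
  obtain ⟨y, hy⟩ : ∃ y, y = 2 ^ (ℓ + 2) - 1 := ⟨_, rfl⟩
  rw [← hx, ← hy]
  rw [← hx] at e1
  rw [← hy] at e2
  unfold NN
  generalize 2 ^ ℓ = n at *
  have e3 : x = 2 * n - 1 := by omega
  have hn : 0 < n := by omega
  obtain ⟨m, rfl⟩ : ∃ m, n = m + 1 := ⟨n - 1, by omega⟩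
  have e4 : x = 2 * m + 1 := by omega
  have e5 : y = 4 * m + 3 := by omega
  rw [e4, e5]
  ring

end Cards

end Pool.Agent.W940.G
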