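import Pool.Agent.W940.G1

set_option autoImplicit false
set_option linter.unusedSectionVars false

open MvPolynomial Finset

namespace Pool.Agent.W940.G

open Pool.Agent.H546R2.SL (eps lin eps_add eps_sum eps_C_mul eps_one eps_mul eps_lin eps_lin_mul
  eps_lin_pow eps_prod_zero_of_col eps_affine_zero eps_prod_zero_of_card)
open Pool.Agent.H546R2.SM (per bl per_transpose per_reindex_rows per_reindex_cols eps_bl_pow_mul
  sel_eps prod_zeta lin_add' lin_smul' eps_emb_lin)

section Sel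

variable {R : Type*} [CommRing R] {ρ B P Γ : Type*} [Fintype ρ] [DecidableEq ρ] [Fintype B]
  [DecidableEq B] [Fintype P] [DecidableEq P] [Fintype Γ] [DecidableEq Γ] {w : ℕ}

/-- selector: one family of groups of columns -/
def sel (ζ : Fin w → R) (M : ρ → (B × P) ⊕ Γ → R) :
    ρ ⊕ (B × Fin w) → ((B × P) ⊕ Γ) ⊕ Fin w → R
  | .inl r, .inl c => M r c
  | .inl _, .inr _ => 0
  | .inr (b, _), .inl (.inl (b', _)) => if b' = b then 1 else 0
  | .inr _, .inl (.inr _) => 0
  | .inr (_, i), .inr _ => ζ i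

/-- restriction to a group -/
def rs (M : ρ → (B × P) ⊕ Γ → R) (b : B) : ρ → P ⊕ Γ → R
  | r, .inl p => M r (.inl (b, p))
  | r, .inr c => M r (.inr c)

/-- all columns -/
abbrev SCol (B P Γ : Type*) (w : ℕ) := ((B × P) ⊕ Γ) ⊕ Fin w

/-- the group of columns -/
def blkS (Γ : Type*) [Fintype Γ] [DecidableEq Γ] (P : Type*) [Fintype P] [DecidableEq P] (w : ℕ)
    {B : Type*} [Fintype B] [DecidableEq B] (b : B) : Finset (SCol B P Γ w) :=
  Finset.univ.map ⟨fun p : P => .inl (.inl (b, p)), fun _ _ h => by simpa using h⟩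

/-- the floating columns -/
def floS (Γ : Type*) [Fintype Γ] [DecidableEq Γ] (P : Type*) [Fintype P] [DecidableEq P] (w : ℕ)
    (B : Type*) [Fintype B] [DecidableEq B] : Finset (SCol B P Γ w) :=
  Finset.univ.map ⟨fun j : Fin w => .inr j, fun _ _ h => by simpa using h⟩

/-- the embedding of the columns of one group -/
def embS (Γ P : Type*) (w : ℕ) {B : Type*} (b : B) : P ⊕ Γ ↪ SCol B P Γ w :=
  ⟨fun x => match x with
    | .inl p => .inl (.inl (b, p))
    | .inr c => .inl (.inr c), by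
    rintro (x | x) (y | y) h <;> simp_all⟩

lemma mem_blkS (b : B) (c : SCol B P Γ w) : c ∈ blkS Γ P w b ↔ ∃ p, c = .inl (.inl (b, p)) := by
  unfold blkS
  rw [Finset.mem_map]
  constructor
  · rintro ⟨p, _, rfl⟩; exact ⟨p, rfl⟩
  · rintro ⟨p, rfl⟩; exact ⟨p, Finset.mem_univ _, rfl⟩

lemma mem_floS (c : SCol B P Γ w) : c ∈ floS Γ P w B ↔ ∃ j, c = .inr j := by
  unfold floS
  rw [Finset.mem_map]
  constructor
  · rintro ⟨p, _, rfl⟩; exact ⟨p, rfl⟩
  · rintro ⟨p, rfl⟩; exact ⟨p, Finset.mem_univ _, rfl⟩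

lemma mem_embS (b : B) (c : SCol B P Γ w) : c ∈ Finset.univ.map (embS Γ P w b) ↔
    (∃ p, c = .inl (.inl (b, p))) ∨ ∃ d, c = .inl (.inr d) := by
  rw [Finset.mem_map]
  constructor
  · rintro ⟨p | d, _, rfl⟩
    · exact Or.inl ⟨p, rfl⟩
    · exact Or.inr ⟨d, rfl⟩
  · rintro (⟨p, rfl⟩ | ⟨d, rfl⟩)
    · exact ⟨.inl p, Finset.mem_univ _, rfl⟩
    · exact ⟨.inr d, Finset.mem_univ _, rfl⟩

lemma card_blkS (b : B) : (blkS Γ P w b).card = Fintype.card P := by
  unfold blkS
  rw [Finset.card_map, Finset.card_univ]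

lemma card_floS : (floS Γ P w B).card = w := by
  unfold floS
  rw [Finset.card_map, Finset.card_univ, Fintype.card_fin]

lemma lin_selrow (ζ : Fin w → R) (M : ρ → (B × P) ⊕ Γ → R) (b : B) (i : Fin w) :
    lin (sel ζ M (.inr (b, i))) =
      bl R (blkS Γ P w b) + C (ζ i) * bl R (floS Γ P w B) := by
  unfold bl
  rw [← lin_smul', ← lin_add']
  congr 1
  funext c
  simp only [mem_blkS, mem_floS]
  rcases c with ((⟨b', j⟩ | c) | j)
  · by_cases h : b' = b
    · simp [sel, h]
    · simp [sel, h]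
  · simp [sel]
  · simp [sel]

lemma remS (b : B) :
    Finset.univ \ (floS Γ P w B ∪ (Finset.univ.erase b).biUnion (blkS Γ P w)) =
    Finset.univ.map (embS Γ P w b) := by
  ext c
  rw [mem_embS]
  simp only [Finset.mem_sdiff, Finset.mem_univ, true_and, Finset.mem_union, mem_floS,
    Finset.mem_biUnion, Finset.mem_erase, mem_blkS]
  rcases c with ((⟨b', j⟩ | c) | j)
  · by_cases h : b' = b
    · simp [h]
    · simp [h]
  · simp
  · simp

/-- the selector -/
theorem per_sel (hP : Fintype.card P = w) (hw : 0 < w) (ζ : Fin w → R) (κ : R)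
    (hζ : ∀ t ≤ w, ∑ V : Finset (Fin w), (if V.card = t then ∏ c ∈ V, ζ c else 0) =
      if t = 0 then 1 else if t = w then κ else 0)
    (M : ρ → (B × P) ⊕ Γ → R) :
    per (sel ζ M) = (κ * (w.factorial : R) ^ Fintype.card B) * ∑ b : B, per (rs M b) := by
  classical
  have hC : ∀ (E Y : MvPolynomial (SCol B P Γ w) R),
      ∏ i, (E + C (ζ i) * Y) = E ^ w + C κ * Y ^ w := by
    intro E Y
    apply prod_zeta hw (fun i => C (ζ i)) (C κ)
    intro t ht
    have h1 := congrArg (C (σ := SCol B P Γ w)) (hζ t ht)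
    rw [map_sum] at h1
    have h2 : ∀ V : Finset (Fin w), (if V.card = t then ∏ c ∈ V, C (ζ c) else 0) =
        C (σ := SCol B P Γ w) (if V.card = t then ∏ c ∈ V, ζ c else 0) := by
      intro V
      split_ifs
      · rw [map_prod]
      · rw [map_zero]
    simp_rw [h2]
    rw [h1]
    split_ifs <;> simp
  have hrows : ∏ r, lin (sel ζ M r) = (∏ r : ρ, lin (sel ζ M (.inl r))) *
      ∏ b ∈ (Finset.univ : Finset B), (bl R (blkS Γ P w b) ^ w +
          C κ * bl R (floS Γ P w B) ^ w) := by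
    rw [Fintype.prod_sum_type, Fintype.prod_prod_type]
    congr 1
    apply Finset.prod_congr rfl
    intro b _
    rw [← hC]
    apply Finset.prod_congr rfl
    intro i _
    exact lin_selrow ζ M b i
  have hf : ∀ (S : Finset (SCol B P Γ w)) (j : Fin w), Sum.inr j ∈ S →
      eps S (∏ r : ρ, lin (sel ζ M (.inl r))) = 0 := by
    intro S j hc
    apply eps_prod_zero_of_col Finset.univ (fun r : ρ => sel ζ M (.inl r)) (.inr j)
    · intro r _
      rfl
    · exact hc
  have hF : ∀ S : Finset (SCol B P Γ w), floS Γ P w B ⊆ S →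
      eps S (∏ r : ρ, lin (sel ζ M (.inl r))) = 0 := by
    intro S hS
    exact hf S ⟨0, hw⟩ (hS ((mem_floS _).mpr ⟨_, rfl⟩))
  have hd1 : ∀ b ∈ (Finset.univ : Finset B), ∀ b' ∈ (Finset.univ : Finset B), b ≠ b' →
      Disjoint (blkS Γ P w b) (blkS Γ P w b') := by
    intro b _ b' _ hbb
    rw [Finset.disjoint_left]
    intro c hc hc'
    rw [mem_blkS] at hc hc'
    obtain ⟨j, rfl⟩ := hc
    obtain ⟨j', hj'⟩ := hc'
    simp only [Sum.inl.injEq, Prod.mk.injEq] at hj'
    exact hbb hj'.1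
  have hd2 : ∀ b ∈ (Finset.univ : Finset B), Disjoint (blkS Γ P w b) (floS Γ P w B) := by
    intro b _
    rw [Finset.disjoint_left]
    intro c hc hc'
    rw [mem_blkS] at hc
    rw [mem_floS] at hc'
    obtain ⟨j, rfl⟩ := hc
    obtain ⟨j', hj'⟩ := hc'
    simp at hj'
  have hsel := sel_eps (blkS Γ P w) (floS Γ P w B) w card_floS hw κ
    (∏ r : ρ, lin (sel ζ M (.inl r))) hF Finset.univ
    (fun b _ => (card_blkS b).trans hP) hd1 hd2 Finset.univ (Finset.subset_univ _)
    (fun b _ => Finset.subset_univ _)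
  have hS : ∀ b : B, eps (Finset.univ \ (floS Γ P w B ∪ (Finset.univ.erase b).biUnion (blkS Γ P w)))
      (∏ r : ρ, lin (sel ζ M (.inl r))) = per (rs M b) := by
    intro b
    have h0 : ∀ r : ρ, (fun c => sel ζ M (.inl r) (embS Γ P w b c)) = rs M b r := by
      intro r
      funext c
      rcases c with c | c
      · rfl
      · rfl
    rw [remS b, eps_emb_lin]
    simp only [h0]
    rfl
  have hfin : per (sel ζ M) = eps Finset.univ (∏ r, lin (sel ζ M r)) := rfl
  rw [hfin, hrows]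
  refine hsel.trans ?_
  rw [Finset.card_univ]
  congr 1
  exact Finset.sum_congr rfl fun b _ => hS b

end Sel

section SelT

variable {R : Type*} [CommRing R] {ρ B P Γ : Type*} [Fintype ρ] [DecidableEq ρ] [Fintype B]
  [DecidableEq B] [Fintype P] [DecidableEq P] [Fintype Γ] [DecidableEq Γ] {w : ℕ}

/-- selector for the rows -/
def selT (ζ : Fin w → R) (M : (B × P) ⊕ ρ → Γ → R) :
    ((B × P) ⊕ ρ) ⊕ Fin w → Γ ⊕ (B × Fin w) → R
  | .inl r, .inl c => M r c
  | .inr _, .inl _ => 0
  | .inl (.inl (b', _)), .inr (b, _) => if b' = b then 1 else 0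
  | .inl (.inr _), .inr _ => 0
  | .inr _, .inr (_, i) => ζ i

/-- restriction to a group of rows -/
def rsT (M : (B × P) ⊕ ρ → Γ → R) (b : B) : P ⊕ ρ → Γ → R
  | .inl p, c => M (.inl (b, p)) c
  | .inr r, c => M (.inr r) c

theorem per_selT (hP : Fintype.card P = w) (hw : 0 < w) (ζ : Fin w → R) (κ : R)
    (hζ : ∀ t ≤ w, ∑ V : Finset (Fin w), (if V.card = t then ∏ c ∈ V, ζ c else 0) =
      if t = 0 then 1 else if t = w then κ else 0)
    (M : (B × P) ⊕ ρ → Γ → R) :
    per (selT ζ M) = (κ * (w.factorial : R) ^ Fintype.card B) * ∑ b : B, per (rsT M b) := by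
  have h1 := per_sel hP hw ζ κ hζ (fun c r => M r c)
  have h2 : (fun c r => selT ζ M r c) = sel ζ (fun c r => M r c) := by
    funext c r
    rcases c with (c | ⟨b, i⟩) <;> rcases r with ((⟨b', p⟩ | r) | j) <;> rfl
  rw [← per_transpose, h2, h1]
  congr 1
  apply Finset.sum_congr rfl
  intro b _
  rw [← per_transpose]
  congr 1
  funext r c
  rcases r with r | r <;> rfl

end SelT

section Stage

variable {R : Type*} [CommRing R] {ρ B P Γ : Type*} [Fintype ρ] [DecidableEq ρ] [Fintype B]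
  [DecidableEq B] [Fintype P] [DecidableEq P] [Fintype Γ] [DecidableEq Γ] {w : ℕ}

/-- new fixed rows of a stage -/
def stA (ζ : Fin w → R) (A : ρ → Γ → R) (N : P → Γ → R) (π : B → (P ≃ P)) (wt : B → P → R) :
    (ρ ⊕ P) ⊕ (B × Fin w) → ((B × P) ⊕ Γ) ⊕ Fin w → R
  | .inl (.inl _), .inl (.inl _) => 0
  | .inl (.inl r), .inl (.inr c) => A r c
  | .inl (.inl _), .inr _ => 0
  | .inl (.inr p), .inl (.inl (b, p')) => if p' = π b p then wt b p else 0
  | .inl (.inr p), .inl (.inr c) => N p c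
  | .inl (.inr _), .inr _ => 0
  | .inr (b, _), .inl (.inl (b', _)) => if b' = b then 1 else 0
  | .inr _, .inl (.inr _) => 0
  | .inr (_, i), .inr _ => ζ i

/-- new constant parts of the wires -/
def stN (R : Type*) [CommRing R] (B P Γ : Type*) [DecidableEq P] (w : ℕ) :
    P → ((B × P) ⊕ Γ) ⊕ Fin w → R
  | p, .inl (.inl (_, p')) => if p' = p then 1 else 0
  | _, .inl (.inr _) => 0
  | _, .inr _ => 0

/-- new active parts of the wires -/
def stE (B : Type*) (w : ℕ) (E : P → Γ → R) : P → ((B × P) ⊕ Γ) ⊕ Fin w → R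
  | _, .inl (.inl _) => 0
  | p, .inl (.inr c) => E p c
  | _, .inr _ => 0

/-- one stage -/
theorem per_stage (hP : Fintype.card P = w) (hw : 0 < w) (ζ : Fin w → R) (κ : R)
    (hζ : ∀ t ≤ w, ∑ V : Finset (Fin w), (if V.card = t then ∏ c ∈ V, ζ c else 0) =
      if t = 0 then 1 else if t = w then κ else 0)
    (A : ρ → Γ → R) (N E : P → Γ → R) (π : B → (P ≃ P)) (wt : B → P → R) :
    per (St (stA ζ A N π wt) fun p c => stN R B P Γ w p c + stE B w E p c) =
      (κ * (w.factorial : R) ^ Fintype.card B) *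
        ∑ b : B, per (St A fun p c => N p c + wt b p * E (π b p) c) := by
  classical
  set M : (ρ ⊕ P) ⊕ P → (B × P) ⊕ Γ → R := fun r c => match r, c with
    | .inl (.inl _), .inl _ => 0
    | .inl (.inl r), .inr c => A r c
    | .inl (.inr p), .inl (b, p') => if p' = π b p then wt b p else 0
    | .inl (.inr p), .inr c => N p c
    | .inr p, .inl (_, p') => if p' = p then 1 else 0
    | .inr p, .inr c => E p c with hM
  let e : ((ρ ⊕ P) ⊕ P) ⊕ (B × Fin w) ≃ ((ρ ⊕ P) ⊕ (B × Fin w)) ⊕ P :=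
    ⟨fun x => match x with
      | .inl (.inl r) => .inl (.inl r)
      | .inl (.inr p) => .inr p
      | .inr y => .inl (.inr y),
    fun x => match x with
      | .inl (.inl r) => .inl (.inl r)
      | .inl (.inr y) => .inr y
      | .inr p => .inl (.inr p),
    by rintro ((r | p) | y) <;> rfl, by rintro ((r | y) | p) <;> rfl⟩
  have h1 := per_sel hP hw ζ κ hζ M
  rw [← per_reindex_rows e]
  have h2 : (fun r => St (stA ζ A N π wt) (fun p c => stN R B P Γ w p c + stE B w E p c) (e r)) =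
      sel ζ M := by
    funext r c
    rcases r with (((r | p) | p) | ⟨b, i⟩) <;> rcases c with ((⟨b', p'⟩ | c) | j) <;>
      simp [e, St, stA, stN, stE, sel, hM]
  rw [h2, h1]
  congr 1
  apply Finset.sum_congr rfl
  intro b _
  rw [← per_elim A N E (π b) (wt b)]
  congr 1
  funext r c
  rcases r with ((r | p) | p) <;> rcases c with (p' | c) <;> rfl

end Stage

end Pool.Agent.W940.G
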