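import Pool.Agent.W940.G19

set_option autoImplicit false
set_option linter.unusedSectionVars false

open MvPolynomial Finset

namespace Pool.Agent.W940.G

open Pool.Agent.H546R2.SL
open Pool.Agent.H546R2.SM

lemma netC_map {R R' : Type*} [CommRing R] [CommRing R'] (f : R →+* R') (nI nκ w J K : ℕ) :
    f (netC R nI nκ w J K) = netC R' nI nκ w J K := by
  unfold netC
  simp only [map_mul, map_pow, map_natCast, map_intCast, map_neg, map_one, map_ofNat]

lemma netC_ne {K : Type*} [Field K] [CharZero K] (nI nκ w J k : ℕ) (h : w < 2 ^ J) :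
    netC K nI nκ w J k ≠ 0 := by
  unfold netC
  have hf : ∀ n : ℕ, ((n.factorial : K)) ≠ 0 := fun n => by exact_mod_cast (Nat.factorial_pos n).ne'
  have hv : (val J w : K) ≠ 0 := by exact_mod_cast val_ne J w h
  exact mul_ne_zero (hf _) (mul_ne_zero (hf _) (mul_ne_zero (pow_ne_zero _ (mul_ne_zero (hf _) hv))
    (mul_ne_zero (pow_ne_zero _ (by norm_num)) (pow_ne_zero _ (by norm_num)))))

lemma cstB_map {R R' : Type*} [CommRing R] [CommRing R'] (f : R →+* R') (q n k Jr Jc w ℓ : ℕ)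
    (κ κ₁ κ₂ : R) :
    f (cstB R q n k Jr Jc w ℓ κ κ₁ κ₂) = cstB R' q n k Jr Jc w ℓ (f κ) (f κ₁) (f κ₂) := by
  unfold cstB
  simp only [map_mul, map_pow, map_natCast, netC_map]

lemma cstB_ne {K : Type*} [Field K] [CharZero K] (q n k Jr Jc w ℓ : ℕ) (h : n < 2 ^ Jr)
    (h' : 2 * n < 2 ^ Jc) :
    cstB K q n k Jr Jc w ℓ (-1) (-1) (-1) ≠ 0 := by
  unfold cstB
  have hf : ∀ n : ℕ, ((n.factorial : K)) ≠ 0 := fun n => by exact_mod_cast (Nat.factorial_pos n).ne'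
  have h1 : (-1 : K) ≠ 0 := by norm_num
  have h2 : ∀ m : ℕ, ((-1 : K) * (w.factorial : K) ^ 2) ^ m ≠ 0 := fun m =>
    pow_ne_zero _ (mul_ne_zero h1 (pow_ne_zero _ (hf _)))
  exact mul_ne_zero (mul_ne_zero (mul_ne_zero (h2 _) (h2 _)) (mul_ne_zero
    (mul_ne_zero h1 (pow_ne_zero _ (hf _))) (mul_ne_zero h1 (pow_ne_zero _ (hf _)))))
    (mul_ne_zero (netC_ne _ _ _ _ _ h) (netC_ne _ _ _ _ _ h'))

lemma upd_pad {R : Type*} [CommRing R] {ρ γ : Type*} [DecidableEq ρ] [DecidableEq γ] (p : ℕ)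
    (M : ρ → γ → R) (i : ρ) (j : γ) (x : R) :
    pad p (upd M i j x) = upd (pad p M) (.inl i) (.inl j) x := by
  funext r c
  rcases r with r | r <;> rcases c with c | c <;> simp [pad, upd]

/-- **the substitution** -/
theorem exists_subst2 (K : Type*) [Field K] [IsAlgClosed K] [CharZero K] {q ℓ k p : ℕ}
    (hk : 2 ≤ k) (hm : mm (2 ^ ℓ) = 2 * k) (hq : 0 < q) (N : ℕ) (hN : N = NN q ℓ + p) :
    ∃ (S : Fin N × Fin N → MvPolynomial (Id2 q (2 ^ ℓ) k) K)
      (y : Fin q × Fin q × Fin (mm (2 ^ ℓ)) × Fin (CC₀ (2 ^ ℓ)) →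
        MvPolynomial (Id2 q (2 ^ ℓ) k) K),
      (∀ v, (S v).totalDegree ≤ 1) ∧
      (∀ v, (y v).IsHomogeneous (k - 1)) ∧
      (∀ x : Id2 q (2 ^ ℓ) k → K, (∀ v, eval x (y v) = 0) → x = 0) ∧
      (∀ v, ∃ (c : K) (u : Fin N × Fin N), y v = C c * aeval S (pderiv u (perN K N))) ∧
      eval (0 : Id2 q (2 ^ ℓ) k → K) (aeval S (perN K N)) = 0 ∧ aeval S (perN K N) ≠ 0 := by
  classical
  set n := 2 ^ ℓ with hn
  have hn0 : 0 < n := by positivity
  have : NeZero n := ⟨hn0.ne'⟩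
  have hJr : n < 2 ^ (ℓ + 1) := by rw [pow_succ]; omega
  have hJc : 2 * n < 2 ^ (ℓ + 2) := by rw [pow_succ, pow_succ]; omega
  obtain ⟨t, ht, hut, hzero⟩ := exists_t2 (q := q) (n := n) (k := k) K hk hm hq hn0
  obtain ⟨cs, er, ec, hcs, hx⟩ := exists_cst K n (ℓ + 1) (ℓ + 2) hJr hJc
    (fun s i => xw K n k t s i)
  have hcs' := hcs.map (C : K →+* MvPolynomial (Id2 q n k) K)
  obtain ⟨z₁, hz₁⟩ := exists_zeta K (mm n) (by unfold mm; positivity)
  obtain ⟨z₂, hz₂⟩ := exists_zeta K (CC₀ n) (by unfold CC₀; positivity)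
  have hw0 : 0 < (6 * ℓ + 12) * 2 ^ ℓ := by positivity
  obtain ⟨z, hz⟩ := exists_zeta K ((6 * ℓ + 12) * 2 ^ ℓ) hw0
  have hmapζ : ∀ {w : ℕ} {ζ : Fin w → K}, (IsZeta K ζ (-1)) →
      IsZeta (MvPolynomial (Id2 q n k) K) (fun i => C (ζ i)) (C (-1)) := fun h => h.map C
  obtain ⟨ρ', Γ', i1, i2, i3, i4, T, hc, hc', hupd, hmem, hper⟩ :=
    big (q := q) hm (C : K →+* MvPolynomial (Id2 q n k) K).range hcs'
      (br := fun y => C (wb t y)) (bc := fun y => C (wb t y)) (fun i => ⟨_, rfl⟩)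
      (fun i => ⟨_, rfl⟩) (hmapζ hz₁) (hmapζ hz₂) (fun i => ⟨_, rfl⟩) (fun i => ⟨_, rfl⟩)
      (card_Pw ℓ) hw0 (hmapζ hz) (fun i => ⟨_, rfl⟩) ℓ
  -- the value in terms of `Fn`
  have hval : ∀ A, per (T A) = C (cstB K q n k (ℓ + 1) (ℓ + 2) ((6 * ℓ + 12) * 2 ^ ℓ) ℓ
      (-1) (-1) (-1)) * Fn K q n k t A := by
    intro A
    rw [hper, cstB_map]
    congr 1
    unfold Fn
    rw [Finset.sum_comm]
    have hs : ∀ f : ℕ → ℕ → MvPolynomial (Id2 q n k) K,
        ∑ g₀ ∈ range (2 ^ ℓ), ∑ g₁ ∈ range (2 ^ ℓ), f g₀ g₁ = ∑ g : Fin n × Fin n, f g.1 g.2 := by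
      intro f
      rw [Fintype.sum_prod_type, Finset.sum_range]
      apply Finset.sum_congr rfl
      intro g₀ _
      rw [Finset.sum_range]
    rw [hs (fun g₀ g₁ => ∑ b, ∑ b', ((cs.map C).x 0 (fsh n g₀) * (cs.map C).x 1 (fsh n g₁)) *
      PhiS k (A b b')
          (fun r => (C (wb t r.divNat)) ^ g₀ * (C (wb t r.modNat)) ^ g₁)
          (fun c => (C (wb t c.divNat)) ^ g₀ * (C (wb t c.modNat)) ^ g₁)), Finset.sum_comm]
    apply Finset.sum_congr rfl
    intro b _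
    rw [Finset.sum_comm]
    apply Finset.sum_congr rfl
    intro b' _
    apply Finset.sum_congr rfl
    intro g _
    have e1 : (cs.map (C : K →+* MvPolynomial (Id2 q n k) K)).x 0 (fsh n (g.1 : ℕ)) =
        C (xw K n k t 0 g.1) := by
      change C (cs.x 0 (fsh n (g.1 : ℕ))) = _
      rw [hx, fsh_val]
    have e2 : (cs.map (C : K →+* MvPolynomial (Id2 q n k) K)).x 1 (fsh n (g.2 : ℕ)) =
        C (xw K n k t 1 g.2) := by
      change C (cs.x 1 (fsh n (g.2 : ℕ))) = _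
      rw [hx, fsh_val]
    rw [e1, e2]
    unfold rw2 cw2
    simp only [map_mul, map_pow]
  set D := cstB K q n k (ℓ + 1) (ℓ + 2) ((6 * ℓ + 12) * 2 ^ ℓ) ℓ (-1) (-1) (-1) with hD
  have hDne : D ≠ 0 := cstB_ne _ _ _ _ _ _ _ hJr hJc
  set M : ρ' ⊕ Fin p → Γ' ⊕ Fin p → MvPolynomial (Id2 q n k) K :=
    pad p (T (Aen K q n k t)) with hM
  let e1 : Fin N ≃ ρ' ⊕ Fin p := Fintype.equivOfCardEq (by
    rw [Fintype.card_fin, Fintype.card_sum, Fintype.card_fin, hN, hc, ← card_RowB q ℓ k hm])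
  let e2 : Fin N ≃ Γ' ⊕ Fin p := Fintype.equivOfCardEq (by
    rw [Fintype.card_fin, Fintype.card_sum, Fintype.card_fin, hN, hc', ← card_ColB q ℓ k hm])
  have hdeg : ∀ i j, (M i j).totalDegree ≤ 1 := by
    intro i j
    have h0 : (0 : MvPolynomial (Id2 q n k) K).totalDegree ≤ 1 := by simp
    have h1 : (1 : MvPolynomial (Id2 q n k) K).totalDegree ≤ 1 := by simp
    rcases i with i | i <;> rcases j with j | j
    · change (T (Aen K q n k t) i j).totalDegree ≤ 1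
      rcases hmem (Aen K q n k t) i j with ⟨x, hx⟩ | ⟨b, b', r, c, hx⟩
      · rw [← hx, totalDegree_C]
        exact Nat.zero_le _
      · rw [hx]
        exact ((zen_homog (K := K) b b' r c).C_mul (t ^ ex2 c r (0, 0))).totalDegree_le
    · exact h0
    · exact h0
    · change (if j = i then (1 : MvPolynomial (Id2 q n k) K) else 0).totalDegree ≤ 1
      split_ifs
      · exact h1
      · exact h0
  refine ⟨fun x => M (e1 x.1) (e2 x.2), fun v => Yg K q n k t v, fun v => hdeg _ _,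
    fun v => Yg_homog t v, hzero, ?_, ?_⟩
  · rintro ⟨b₀, b₀', r₀, c₀⟩
    obtain ⟨i₀, j₀, hij⟩ := hupd b₀ b₀' r₀ c₀
    refine ⟨D⁻¹ * t ^ ex2 c₀ r₀ (0, 0), (e1.symm (.inl i₀), e2.symm (.inl j₀)), ?_⟩
    have h1 : aeval (fun x : Fin N × Fin N => M (e1 x.1) (e2 x.2))
        (pderiv (e1.symm (.inl i₀), e2.symm (.inl j₀)) (perN K N)) = _ :=
      aeval_pderiv M e1 e2 (e1.symm (.inl i₀)) (e2.symm (.inl j₀))
    rw [Equiv.apply_symm_apply, Equiv.apply_symm_apply] at h1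
    have h2 := per_add M (pad p (T (updA (Aen K q n k t) b₀ b₀' r₀ c₀ 1))) (.inl i₀) (.inl j₀)
      (fun i j => by rw [hij, upd_pad]; rfl)
    rw [← h2, hM, per_pad, per_pad, hval, hval, ← mul_sub] at h1
    have hY := Fn_diff (q := q) (n := n) (k := k) ht b₀ b₀' r₀ c₀
    rw [h1]
    change Yg K q n k t (b₀, b₀', r₀, c₀) = _
    rw [← hY, map_mul C]
    have h3 : C (D⁻¹) * C D = (1 : MvPolynomial (Id2 q n k) K) := by
      rw [← map_mul, inv_mul_cancel₀ hDne, map_one]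
    calc _ = (C (D⁻¹) * C D) * (C (t ^ ex2 c₀ r₀ (0, 0)) *
        (Fn K q n k t (updA (Aen K q n k t) b₀ b₀' r₀ c₀ 1) - Fn K q n k t (Aen K q n k t))) := by
          rw [h3, one_mul]
      _ = _ := by ring
  · have h1 : aeval (fun x : Fin N × Fin N => M (e1 x.1) (e2 x.2)) (perN K N) = per M := by
      have h2 := map_permanent (aeval (R := K)
        (fun p : Fin N × Fin N => M (e1 p.1) (e2 p.2))).toRingHom
        (fun i j : Fin N => (X (i, j) : MvPolynomial (Fin N × Fin N) K))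
      unfold per
      rw [← permanent_eq M e1 e2]
      refine h2.trans ?_
      congr 1
      ext i j
      simp only [Matrix.of_apply, AlgHom.toRingHom_eq_coe, RingHom.coe_coe, aeval_X]
    rw [h1, hM, per_pad, hval]
    constructor
    · rw [map_mul, eval_Fn_origin (by omega) ht, mul_zero]
    · intro h0
      have h3 := congrArg (eval (pt K q n k)) h0
      rw [map_mul, eval_C, map_zero] at h3
      exact mul_ne_zero hDne (eval_Fn_pt hm hn0 (by omega) hq ht hut) h3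

end Pool.Agent.W940.G
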