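import Pool.Agent.W940.G2

set_option autoImplicit false
set_option linter.unusedSectionVars false

open MvPolynomial Finset

namespace Pool.Agent.W940.G

open Pool.Agent.H546R2.SL (eps lin eps_add eps_sum eps_C_mul eps_one eps_mul eps_lin eps_lin_mul
  eps_lin_pow eps_prod_zero_of_col eps_affine_zero eps_prod_zero_of_card)
open Pool.Agent.H546R2.SM (per bl per_transpose per_reindex_rows per_reindex_cols eps_bl_pow_mul
  eps_bl_pow sel_eps prod_zeta lin_add' lin_smul' eps_emb_lin)

section Elim

variable {γ : Type*} [DecidableEq γ] [Fintype γ] {R : Type*} [CommRing R]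

/-- `q` is what is left of `p` when the columns `U` are used up -/
def Elim (U : Finset γ) (p q : MvPolynomial γ R) : Prop :=
  ∀ S : Finset γ, Disjoint S U → eps (U ∪ S) p = eps S q

lemma Elim.refl (p : MvPolynomial γ R) : Elim ∅ p p := by
  intro S _
  rw [Finset.empty_union]

lemma Elim.trans {U V : Finset γ} {p q r : MvPolynomial γ R} (h1 : Elim U p q) (h2 : Elim V q r)
    (hd : Disjoint U V) : Elim (U ∪ V) p r := by
  intro S hS
  rw [Finset.disjoint_union_right] at hS
  rw [Finset.union_assoc, h1 (V ∪ S) (Finset.disjoint_union_left.mpr ⟨hd.symm, hS.1⟩), h2 S hS.2]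

lemma Elim.mul_left {U : Finset γ} {f p q : MvPolynomial γ R} (hf : Free U f) (h : Elim U p q) :
    Elim U (f * p) (f * q) := by
  intro S hS
  rw [eps_mul, eps_mul]
  symm
  apply Finset.sum_subset_zero_on_sdiff
  · exact Finset.powerset_mono.mpr Finset.subset_union_right
  · intro T hT
    rw [Finset.mem_sdiff, Finset.mem_powerset, Finset.mem_powerset] at hT
    have h1 : ¬ Disjoint T U := by
      intro hd
      apply hT.2
      intro c hc
      rcases Finset.mem_union.mp (hT.1 hc) with h | h
      · exact absurd h (Finset.disjoint_left.mp hd hc)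
      · exact h
    rw [hf T h1, zero_mul]
  · intro T hT
    rw [Finset.mem_powerset] at hT
    have h1 : (U ∪ S) \ T = U ∪ (S \ T) := by
      rw [Finset.union_sdiff_distrib, Finset.sdiff_eq_self_of_disjoint]
      exact (hS.mono_left hT).symm
    rw [h1, h _ (hS.mono_left Finset.sdiff_subset)]

lemma Elim.mul_right {U : Finset γ} {f p q : MvPolynomial γ R} (hf : Free U f) (h : Elim U p q) :
    Elim U (p * f) (q * f) := by
  rw [mul_comm p, mul_comm q]
  exact h.mul_left hf

lemma Elim.add {U : Finset γ} {p q p' q' : MvPolynomial γ R} (h : Elim U p q) (h' : Elim U p' q') :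
    Elim U (p + p') (q + q') := by
  intro S hS
  rw [eps_add, eps_add, h S hS, h' S hS]

lemma Elim.sum {ι : Type*} {U : Finset γ} (s : Finset ι) (p q : ι → MvPolynomial γ R)
    (h : ∀ i ∈ s, Elim U (p i) (q i)) : Elim U (∑ i ∈ s, p i) (∑ i ∈ s, q i) := by
  intro S hS
  rw [eps_sum, eps_sum]
  exact Finset.sum_congr rfl fun i hi => h i hi S hS

lemma Elim.single {c : γ} (a b r : MvPolynomial γ R) (ha : Free {c} a) :
    Elim {c} (a + b * X c + X c * X c * r) b := by
  intro S hS
  rw [Finset.disjoint_singleton_right] at hS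
  have h1 : a + b * X c + X c * X c * r = a + (X c * b + X c * (X c * r)) := by ring
  have h2 : ({c} ∪ S : Finset γ) = insert c S := rfl
  rw [h1, h2, eps_add, eps_add, ha _ (by
    rw [Finset.disjoint_singleton_right]
    exact fun h => h (Finset.mem_insert_self _ _)), eps_X_mul, eps_X_mul,
    if_pos (Finset.mem_insert_self _ _), if_pos (Finset.mem_insert_self _ _),
    Finset.erase_insert hS, eps_X_mul, if_neg hS, zero_add, add_zero]

lemma Elim.single' {c : γ} {p : MvPolynomial γ R} (a b r : MvPolynomial γ R) (ha : Free {c} a)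
    (hp : p = a + b * X c + X c * X c * r) : Elim {c} p b := by
  rw [hp]; exact Elim.single a b r ha

/-- a power of the sum of the eliminated columns -/
lemma Elim.blpow {U : Finset γ} (a : MvPolynomial γ R) (ha : Free U a) (n : ℕ) :
    Elim U (a * bl R U ^ n) (if n = U.card then C (n.factorial : R) * a else 0) := by
  have h1 : Elim U (bl R U ^ n) (if n = U.card then C (n.factorial : R) else 0) := by
    intro S hS
    rw [eps_bl_pow]
    by_cases h : n = U.card
    · rw [if_pos h]
      by_cases hSe : S = ∅
      · subst hSe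
        rw [Finset.union_empty, if_pos ⟨h.symm, Finset.Subset.refl _⟩,
          ← mul_one (C _), eps_C_mul, eps_one, if_pos rfl, mul_one]
      · rw [if_neg, ← mul_one (C _), eps_C_mul, eps_one, if_neg hSe, mul_zero]
        rintro ⟨_, h3⟩
        obtain ⟨c, hc⟩ := Finset.nonempty_iff_ne_empty.mpr hSe
        exact Finset.disjoint_left.mp hS hc (h3 (Finset.mem_union_right _ hc))
    · rw [if_neg h, if_neg]
      · unfold eps
        rw [coeff_zero]
      · rintro ⟨h2, h3⟩
        apply h
        rw [← h2]
        congr 1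
        exact Finset.Subset.antisymm h3 Finset.subset_union_left
  have h2 := h1.mul_left ha
  by_cases h : n = U.card
  · rw [if_pos h] at h2 ⊢
    rwa [mul_comm (C _) a]
  · rw [if_neg h] at h2 ⊢
    rwa [mul_zero] at h2

/-- elimination of disjoint families -/
lemma Elim.prod {ι : Type*} [DecidableEq ι] (s : Finset ι) (U : ι → Finset γ)
    (p q : ι → MvPolynomial γ R) (h : ∀ i ∈ s, Elim (U i) (p i) (q i))
    (hp : ∀ i ∈ s, ∀ j ∈ s, i ≠ j → Free (U i) (p j))
    (hq : ∀ i ∈ s, ∀ j ∈ s, i ≠ j → Free (U i) (q j))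
    (hd : ∀ i ∈ s, ∀ j ∈ s, i ≠ j → Disjoint (U i) (U j)) :
    Elim (s.biUnion U) (∏ i ∈ s, p i) (∏ i ∈ s, q i) := by
  induction s using Finset.induction_on with
  | empty =>
    rw [Finset.prod_empty, Finset.prod_empty, Finset.biUnion_empty]
    exact Elim.refl _
  | insert i s hi ih =>
    rw [Finset.prod_insert hi, Finset.prod_insert hi, Finset.biUnion_insert]
    have hii : i ∈ insert i s := Finset.mem_insert_self _ _
    have hsub : ∀ j ∈ s, j ∈ insert i s := fun j hj => Finset.mem_insert_of_mem hj
    have hne : ∀ j ∈ s, i ≠ j := fun j hj hh => hi (hh ▸ hj)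
    have ih' := ih (fun j hj => h j (hsub j hj)) (fun j hj k hk => hp j (hsub j hj) k (hsub k hk))
      (fun j hj k hk => hq j (hsub j hj) k (hsub k hk))
      (fun j hj k hk => hd j (hsub j hj) k (hsub k hk))
    have h1 : Elim (U i) (p i * ∏ j ∈ s, p j) (q i * ∏ j ∈ s, p j) :=
      (h i hii).mul_right (Free.prod _ _ fun j hj => hp i hii j (hsub j hj) (hne j hj))
    have h2 : Elim (s.biUnion U) (q i * ∏ j ∈ s, p j) (q i * ∏ j ∈ s, q j) := by
      apply ih'.mul_left
      intro T hT
      have h3 : ∃ j ∈ s, ¬ Disjoint T (U j) := by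
        by_contra hcon
        push Not at hcon
        exact hT ((Finset.disjoint_biUnion_right _ _ _).mpr hcon)
      obtain ⟨j, hj, h4⟩ := h3
      exact hq j (hsub j hj) i hii (fun hh => hne j hj hh.symm) T h4
    refine h1.trans h2 ?_
    rw [Finset.disjoint_biUnion_right]
    intro j hj
    exact hd i hii j (hsub j hj) (hne j hj)

lemma Free.blset {U A : Finset γ} (h : Disjoint A U) : Free U (bl R A) := by
  unfold bl
  apply Free.lin
  intro c hc
  rw [if_neg]
  exact fun hA => Finset.disjoint_left.mp h hA hc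

lemma Free.pow {U : Finset γ} {f : MvPolynomial γ R} (hf : Free U f) (n : ℕ) : Free U (f ^ n) := by
  induction n with
  | zero => rw [pow_zero]; exact Free.one
  | succ n ih => rw [pow_succ]; exact ih.mul hf

lemma Free.sum {ι : Type*} {U : Finset γ} (s : Finset ι) (f : ι → MvPolynomial γ R)
    (h : ∀ i ∈ s, Free U (f i)) : Free U (∑ i ∈ s, f i) := by
  intro T hT
  rw [eps_sum]
  exact Finset.sum_eq_zero fun i hi => h i hi T hT

lemma Free.union {U V : Finset γ} {f : MvPolynomial γ R} (h1 : Free U f) (h2 : Free V f) :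
    Free (U ∪ V) f := by
  intro T hT
  rw [Finset.disjoint_union_right, not_and_or] at hT
  rcases hT with h | h
  · exact h1 T h
  · exact h2 T h

end Elim

end Pool.Agent.W940.G
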