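import Pool.Agent.W940.G3

set_option autoImplicit false
set_option linter.unusedSectionVars false

open MvPolynomial Finset

namespace Pool.Agent.W940.G

open Pool.Agent.H546R2.SL (eps lin eps_add eps_sum eps_C_mul eps_one eps_mul eps_lin eps_lin_mul
  eps_lin_pow eps_prod_zero_of_col eps_affine_zero eps_prod_zero_of_card)
open Pool.Agent.H546R2.SM (per bl per_transpose per_reindex_rows per_reindex_cols eps_bl_pow_mul
  eps_bl_pow sel_eps prod_zeta lin_add' lin_smul' eps_emb_lin)

section Block

variable {γ : Type*} [DecidableEq γ] [Fintype γ] {R : Type*} [CommRing R]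

lemma pow_expand {A : Type*} [CommRing A] (x w : A) (M : ℕ) :
    ∃ r, (x + w) ^ (M + 1) = w ^ (M + 1) + (M + 1 : ℕ) * w ^ M * x + x * x * r := by
  induction M with
  | zero => exact ⟨0, by simp [add_comm]⟩
  | succ M ih =>
    obtain ⟨r, hr⟩ := ih
    refine ⟨(M + 1 : ℕ) * w ^ M + r * (x + w), ?_⟩
    rw [pow_succ, hr]
    push_cast
    ring

/-- a family of constants as in `exists_zeta` -/
def IsZeta (R : Type*) [CommRing R] {w : ℕ} (ζ : Fin w → R) (κ : R) : Prop :=
  ∀ t ≤ w, ∑ V : Finset (Fin w), (if V.card = t then ∏ c ∈ V, ζ c else 0) =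
    if t = 0 then 1 else if t = w then κ else 0

lemma IsZeta.map {R S : Type*} [CommRing R] [CommRing S] (f : R →+* S) {w : ℕ} {ζ : Fin w → R}
    {κ : R} (h : IsZeta R ζ κ) : IsZeta S (fun i => f (ζ i)) (f κ) := by
  intro t ht
  have h1 := congrArg f (h t ht)
  rw [map_sum] at h1
  have h2 : ∀ V : Finset (Fin w), (if V.card = t then ∏ c ∈ V, f (ζ c) else 0) =
      f (if V.card = t then ∏ c ∈ V, ζ c else 0) := by
    intro V
    split_ifs
    · rw [map_prod]
    · rw [map_zero]
  simp_rw [h2]
  rw [h1]
  split_ifs <;> simp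

/-- the rows of a block -/
noncomputable def blkP (L : Finset γ) (u : γ) (W : MvPolynomial γ R) {M : ℕ} (ζ : Fin M → R)
    (μ l : R) : MvPolynomial γ R :=
  (∏ i, (bl R L + C (ζ i) * (X u + W))) * (X u + C (l - μ) * W)

lemma block_u {M : ℕ} (hM : 0 < M) {L : Finset γ} {u : γ} (hu : u ∉ L) {W : MvPolynomial γ R}
    (hW : Free {u} W) {ζ : Fin M → R} (hζ : IsZeta R ζ (-1)) {μ : R} (hμ : (M : R) * μ = 1)
    (l : R) :
    Elim {u} (blkP L u W ζ μ l) (bl R L ^ M - C (M * l) * W ^ M) := by
  obtain ⟨M, rfl⟩ : ∃ M', M = M' + 1 := ⟨M - 1, by omega⟩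
  obtain ⟨r, hr⟩ := pow_expand (X u : MvPolynomial γ R) W M
  have h1 : ∏ i, (bl R L + C (ζ i) * (X u + W)) = bl R L ^ (M + 1) - (X u + W) ^ (M + 1) := by
    rw [prod_zeta hM (fun i => C (ζ i)) (C (-1)) (hζ.map C)]
    rw [map_neg, map_one]
    ring
  have hL : Free {u} (bl R L) := Free.blset (by simpa using hu)
  unfold blkP
  rw [h1, hr]
  apply Elim.single' ((bl R L ^ (M + 1) - W ^ (M + 1)) * (C (l - μ) * W)) _
    (-r * (X u + C (l - μ) * W) - ((M + 1 : ℕ) : MvPolynomial γ R) * W ^ M)
  · have h2 : Free {u} (bl R L ^ (M + 1) - W ^ (M + 1)) := by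
      rw [sub_eq_add_neg, ← neg_one_mul, ← map_one (C : R →+* MvPolynomial γ R), ← map_neg]
      exact (hL.pow _).add ((Free.C _).mul (hW.pow _))
    exact h2.mul ((Free.C _).mul hW)
  · have h3 : C (((M + 1 : ℕ) : R) * μ) = (1 : MvPolynomial γ R) := by rw [hμ, map_one]
    rw [map_mul, map_natCast] at h3
    rw [map_mul, map_natCast, map_sub]
    have h4 : bl R L ^ (M + 1) - ((M + 1 : ℕ) : MvPolynomial γ R) * C l * W ^ (M + 1) =
        bl R L ^ (M + 1) - W ^ (M + 1) * (((M + 1 : ℕ) : MvPolynomial γ R) * C μ) -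
          ((M + 1 : ℕ) : MvPolynomial γ R) * W ^ M * ((C l - C μ) * W) := by
      ring
    rw [h4, h3]
    ring

/-- the values of the counter -/
def val : ℕ → ℕ → ℤ
  | 0, n => if n = 0 then 1 else 0
  | J + 1, n => ((2 ^ J).factorial : ℤ) *
      (val J n - if 2 ^ J ≤ n then 2 ^ J * (n.choose (2 ^ J)) * val J (n - 2 ^ J) else 0)

lemma val_zero : ∀ (J n : ℕ), 2 ^ J ≤ n → val J n = 0 := by
  intro J
  induction J with
  | zero =>
    intro n hn
    simp only [val]
    rw [if_neg]
    simp at hn
    omega
  | succ J ih =>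
    intro n hn
    have h1 : 2 ^ J ≤ n - 2 ^ J := by rw [pow_succ] at hn; omega
    have h2 : 2 ^ J ≤ n := by rw [pow_succ] at hn; omega
    simp only [val]
    rw [ih n h2, ih _ h1]
    simp

lemma val_ne : ∀ (J n : ℕ), n < 2 ^ J → val J n ≠ 0 := by
  intro J
  induction J with
  | zero =>
    intro n hn
    simp only [val]
    rw [if_pos]
    · exact one_ne_zero
    · simpa using hn
  | succ J ih =>
    intro n hn
    simp only [val]
    apply mul_ne_zero
    · exact_mod_cast (Nat.factorial_pos _).ne'
    · by_cases h : 2 ^ J ≤ n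
      · rw [if_pos h, val_zero J n h, zero_sub, neg_ne_zero]
        apply mul_ne_zero
        · apply mul_ne_zero
          · positivity
          · exact_mod_cast (Nat.choose_pos h).ne'
        · apply ih
          rw [pow_succ] at hn
          omega
      · rw [if_neg h, sub_zero]
        exact ih n (by omega)

/-- all columns of the first blocks -/
def colsB (L : ℕ → Finset γ) (u : ℕ → γ) (t : ℕ) : Finset γ :=
  (Finset.range t).biUnion fun j => L j ∪ {u j}

lemma colsB_succ (L : ℕ → Finset γ) (u : ℕ → γ) (t : ℕ) :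
    colsB L u (t + 1) = colsB L u t ∪ ({u t} ∪ L t) := by
  unfold colsB
  rw [Finset.range_add_one, Finset.biUnion_insert, Finset.union_comm, Finset.union_comm (L t)]

/-- the counter -/
theorem ctr (L : ℕ → Finset γ) (u : ℕ → γ) (W : MvPolynomial γ R)
    (ζ : (j : ℕ) → Fin (2 ^ j) → R) (μ : ℕ → R) (l : R) (t : ℕ)
    (hcard : ∀ j < t, (L j).card = 2 ^ j)
    (hd : ∀ i < t, ∀ j < t, i ≠ j → Disjoint (L i ∪ {u i}) (L j ∪ {u j}))
    (hu : ∀ j < t, u j ∉ L j)
    (hW : ∀ j < t, Free (L j ∪ {u j}) W)
    (hζ : ∀ j, IsZeta R (ζ j) (-1)) (hμ : ∀ j, ((2 ^ j : ℕ) : R) * μ j = 1) :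
    ∀ n : ℕ, Elim (colsB L u t)
      ((∑ j ∈ range t, bl R (L j)) ^ n *
        ∏ j ∈ range t, blkP (L j) (u j) W (ζ j) (μ j) (l ^ 2 ^ j))
      (C ((val t n : R) * l ^ n) * W ^ n) := by
  induction t with
  | zero =>
    intro n
    rw [Finset.range_zero, Finset.sum_empty, Finset.prod_empty, mul_one]
    have h0 : colsB L u 0 = ∅ := by simp [colsB]
    rw [h0]
    by_cases hn : n = 0
    · subst hn
      simp only [val, pow_zero, if_true, Int.cast_one, mul_one, map_one]
      exact Elim.refl _
    · rw [zero_pow hn]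
      simp only [val, if_neg hn, Int.cast_zero, zero_mul, map_zero]
      exact Elim.refl _
  | succ t ih =>
    intro n
    have ih' := ih (fun j hj => hcard j (by omega)) (fun i hi j hj => hd i (by omega) j (by omega))
      (fun j hj => hu j (by omega)) (fun j hj => hW j (by omega))
    set O := ∑ j ∈ range t, bl R (L j) with hO
    set B := ∏ j ∈ range t, blkP (L j) (u j) W (ζ j) (μ j) (l ^ 2 ^ j) with hB
    set M := 2 ^ t with hM
    have hMpos : 0 < M := by rw [hM]; positivity
    have hct : (L t).card = M := hcard t (by omega)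
    have hut : u t ∉ L t := hu t (by omega)
    have hdt : ∀ j < t, Disjoint (L j ∪ {u j}) (L t ∪ {u t}) :=
      fun j hj => hd j (by omega) t (by omega) (by omega)
    have hUt : Disjoint (colsB L u t) (L t ∪ {u t}) := by
      unfold colsB
      rw [Finset.disjoint_biUnion_left]
      intro j hj
      exact hdt j (Finset.mem_range.mp hj)
    rw [Finset.disjoint_union_right] at hUt
    have hLfree : Free (colsB L u t) (bl R (L t)) := Free.blset hUt.1.symm
    have hXfree : Free (colsB L u t) (X (u t) : MvPolynomial γ R) :=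
      Free.X (Finset.disjoint_singleton_right.mp hUt.2)
    have hWfree : Free (colsB L u t) W := by
      intro T hT
      have h3 : ∃ j ∈ range t, ¬ Disjoint T (L j ∪ {u j}) := by
        by_contra hcon
        push Not at hcon
        exact hT ((Finset.disjoint_biUnion_right _ _ _).mpr hcon)
      obtain ⟨j, hj, h4⟩ := h3
      exact hW j (by rw [Finset.mem_range] at hj; omega) T h4
    have hWt : Free (L t ∪ {u t}) W := hW t (by omega)
    -- expansion
    have h1 : (∑ j ∈ range (t + 1), bl R (L j)) ^ n *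
        ∏ j ∈ range (t + 1), blkP (L j) (u j) W (ζ j) (μ j) (l ^ 2 ^ j) =
        ∑ m ∈ range (n + 1), (O ^ (n - m) * B) *
          (C ((n.choose m : ℕ) : R) * (bl R (L t) ^ m * blkP (L t) (u t) W (ζ t) (μ t) (l ^ M))) := by
      rw [Finset.sum_range_succ, Finset.prod_range_succ, ← hO, ← hB, add_comm O, add_pow,
        Finset.sum_mul]
      apply Finset.sum_congr rfl
      intro m _
      rw [map_natCast]
      ring
    rw [h1, colsB_succ]
    have hblk : ∀ V : Finset γ, Free V (bl R (L t)) → Free V (X (u t) : MvPolynomial γ R) →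
        Free V W → Free V (blkP (L t) (u t) W (ζ t) (μ t) (l ^ M)) := by
      intro V h1 h2 h3
      unfold blkP
      exact (Free.prod _ _ fun i _ => h1.add ((Free.C _).mul (h2.add h3))).mul
        (h2.add ((Free.C _).mul h3))
    have s1 : Elim (colsB L u t) (∑ m ∈ range (n + 1), (O ^ (n - m) * B) *
          (C ((n.choose m : ℕ) : R) * (bl R (L t) ^ m * blkP (L t) (u t) W (ζ t) (μ t) (l ^ M))))
        (∑ m ∈ range (n + 1), (C ((val t (n - m) : R) * l ^ (n - m)) * W ^ (n - m)) *
          (C ((n.choose m : ℕ) : R) * (bl R (L t) ^ m * blkP (L t) (u t) W (ζ t) (μ t) (l ^ M)))) := by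
      apply Elim.sum
      intro m _
      apply (ih' (n - m)).mul_right
      exact (Free.C _).mul ((hLfree.pow _).mul (hblk _ hLfree hXfree hWfree))
    have hWu : Free {u t} W := hWt.mono Finset.subset_union_right
    have hWL : Free (L t) W := hWt.mono Finset.subset_union_left
    have hLu : Free {u t} (bl R (L t)) := Free.blset (by simpa using hut)
    have s2 : Elim {u t} (∑ m ∈ range (n + 1), (C ((val t (n - m) : R) * l ^ (n - m)) * W ^ (n - m)) *
          (C ((n.choose m : ℕ) : R) * (bl R (L t) ^ m * blkP (L t) (u t) W (ζ t) (μ t) (l ^ M))))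
        (∑ m ∈ range (n + 1), (C ((val t (n - m) : R) * l ^ (n - m)) * W ^ (n - m)) *
          (C ((n.choose m : ℕ) : R) * (bl R (L t) ^ m * (bl R (L t) ^ M - C (M * l ^ M) * W ^ M)))) := by
      apply Elim.sum
      intro m _
      have hb := block_u hMpos hut hWu (hζ t) (hμ t) (l ^ M)
      exact ((hb.mul_left (hLu.pow m)).mul_left (Free.C _)).mul_left
        ((Free.C _).mul (hWu.pow _))
    -- the last step
    set c : ℕ → MvPolynomial γ R := fun m => C ((val t (n - m) : R) * l ^ (n - m) *
      ((n.choose m : ℕ) : R)) * W ^ (n - m) with hc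
    have hcfree : ∀ m, Free (L t) (c m) := fun m => (Free.C _).mul (hWL.pow _)
    have h5 : (∑ m ∈ range (n + 1), (C ((val t (n - m) : R) * l ^ (n - m)) * W ^ (n - m)) *
          (C ((n.choose m : ℕ) : R) * (bl R (L t) ^ m * (bl R (L t) ^ M - C (M * l ^ M) * W ^ M)))) =
        ∑ m ∈ range (n + 1), (c m * bl R (L t) ^ (m + M) +
          (C (-1) * (C (M * l ^ M) * W ^ M) * c m) * bl R (L t) ^ m) := by
      apply Finset.sum_congr rfl
      intro m _
      rw [hc]
      simp only [map_mul, map_neg, map_one, pow_add]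
      ring
    have s3 : Elim (L t) (∑ m ∈ range (n + 1), (c m * bl R (L t) ^ (m + M) +
          (C (-1) * (C (M * l ^ M) * W ^ M) * c m) * bl R (L t) ^ m))
        (∑ m ∈ range (n + 1), ((if m + M = (L t).card then C (((m + M).factorial : ℕ) : R) * c m
            else 0) +
          (if m = (L t).card then C ((m.factorial : ℕ) : R) *
            (C (-1) * (C (M * l ^ M) * W ^ M) * c m) else 0))) := by
      apply Elim.sum
      intro m _
      apply Elim.add
      · exact Elim.blpow _ (hcfree m) _
      · exact Elim.blpow _ (((Free.C _).mul ((Free.C _).mul (hWL.pow _))).mul (hcfree m)) _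
    have h6 : (∑ m ∈ range (n + 1), ((if m + M = (L t).card then C (((m + M).factorial : ℕ) : R) * c m
            else 0) +
          (if m = (L t).card then C ((m.factorial : ℕ) : R) *
            (C (-1) * (C (M * l ^ M) * W ^ M) * c m) else 0))) =
        C ((val (t + 1) n : R) * l ^ n) * W ^ n := by
      rw [hct, Finset.sum_add_distrib]
      have h7 : ∑ m ∈ range (n + 1), (if m + M = M then C (((m + M).factorial : ℕ) : R) * c m else 0) =
          C ((M.factorial : ℕ) : R) * c 0 := by
        rw [Finset.sum_eq_single_of_mem 0 (by simp)]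
        · rw [if_pos (by omega), zero_add]
        · intro m _ hm
          rw [if_neg (by omega)]
      rw [h7]
      by_cases hMn : M ≤ n
      · have h8 : ∑ m ∈ range (n + 1), (if m = M then C ((m.factorial : ℕ) : R) *
            (C (-1) * (C (M * l ^ M) * W ^ M) * c m) else 0) =
            C ((M.factorial : ℕ) : R) * (C (-1) * (C (M * l ^ M) * W ^ M) * c M) := by
          rw [Finset.sum_eq_single_of_mem M (by simp; omega)]
          · rw [if_pos rfl]
          · intro m _ hm
            rw [if_neg hm]
        rw [h8, hc]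
        simp only [val]
        rw [← hM, if_pos hMn, Nat.sub_zero, Nat.choose_zero_right]
        have h9 : W ^ n = W ^ M * W ^ (n - M) := by rw [← pow_add]; congr 1; omega
        have h10 : l ^ n = l ^ M * l ^ (n - M) := by rw [← pow_add]; congr 1; omega
        rw [h9, h10]
        have h11 : (((2 : ℤ) ^ t : ℤ) : R) = (M : R) := by rw [hM]; push_cast; rfl
        push_cast
        rw [hM]
        push_cast
        simp only [map_mul, map_sub, map_neg, map_one, map_pow, map_natCast, map_intCast]
        ring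
      · have h8 : ∑ m ∈ range (n + 1), (if m = M then C ((m.factorial : ℕ) : R) *
            (C (-1) * (C (M * l ^ M) * W ^ M) * c m) else 0) = 0 := by
          apply Finset.sum_eq_zero
          intro m hm
          rw [Finset.mem_range] at hm
          rw [if_neg (by omega)]
        rw [h8, hc]
        simp only [val]
        rw [← hM, if_neg hMn, Nat.sub_zero, Nat.choose_zero_right, sub_zero, add_zero]
        push_cast
        simp only [map_mul, map_one, map_pow, map_natCast, map_intCast]
        ring
    rw [h5] at s2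
    rw [h6] at s3
    refine s1.trans (s2.trans s3 ?_) ?_
    · rw [Finset.disjoint_singleton_left]; exact hut
    · rw [Finset.disjoint_union_right]; exact ⟨hUt.2, hUt.1⟩

end Block

end Pool.Agent.W940.G
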