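import Pool.Agent.W940.G4
import Pool.Agent.H546R2.SL.A8

set_option autoImplicit false
set_option linter.unusedSectionVars false

open MvPolynomial Finset

namespace Pool.Agent.W940.G

open Pool.Agent.H546R2.SL (eps lin eps_add eps_sum eps_C_mul eps_one eps_mul eps_lin eps_lin_mul
  eps_lin_pow eps_prod_zero_of_col eps_affine_zero eps_prod_zero_of_card exists_enum)
open Pool.Agent.H546R2.SM (per bl per_transpose per_reindex_rows per_reindex_cols eps_bl_pow_mul
  eps_bl_pow sel_eps prod_zeta lin_add' lin_smul' eps_emb_lin)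

/-- a family of constants with prescribed elementary symmetric functions -/
def IsTau (R : Type*) [CommRing R] {w : ℕ} (τ : Fin w → R) (e : ℕ → R) : Prop :=
  ∀ t ≤ w, ∑ V : Finset (Fin w), (if V.card = t then ∏ c ∈ V, τ c else 0) = e t

lemma IsTau.map {R S : Type*} [CommRing R] [CommRing S] (f : R →+* S) {w : ℕ} {τ : Fin w → R}
    {e : ℕ → R} (h : IsTau R τ e) : IsTau S (fun i => f (τ i)) (fun t => f (e t)) := by
  intro t ht
  change _ = f (e t)
  rw [← h t ht, map_sum]
  apply Finset.sum_congr rfl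
  intro V _
  split_ifs
  · rw [map_prod]
  · rw [map_zero]

lemma exists_tau (K : Type*) [Field K] [IsAlgClosed K] (w : ℕ) (e : ℕ → K) (he : e 0 = 1) :
    ∃ τ : Fin w → K, IsTau K τ e := by
  classical
  set p : Polynomial K := ∑ t ∈ Finset.range (w + 1), Polynomial.C (e t) * Polynomial.X ^ (w - t)
    with hp
  have hcoeff : ∀ s ≤ w, p.coeff s = e (w - s) := by
    intro s hs
    rw [hp, Polynomial.finsetSum_coeff]
    simp only [Polynomial.coeff_C_mul_X_pow]
    rw [Finset.sum_eq_single (w - s)]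
    · rw [if_pos (by omega)]
    · intro t ht hts
      rw [Finset.mem_range] at ht
      rw [if_neg (by omega)]
    · intro h
      exact absurd (Finset.mem_range.mpr (by omega)) h
  have hdegle : p.natDegree ≤ w := by
    rw [hp]
    apply Polynomial.natDegree_sum_le_of_forall_le
    intro t _
    exact (Polynomial.natDegree_C_mul_X_pow_le _ _).trans (Nat.sub_le _ _)
  have hmonic : p.Monic := by
    apply Polynomial.monic_of_natDegree_le_of_coeff_eq_one w hdegle
    rw [hcoeff w le_rfl, Nat.sub_self, he]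
  have hdeg : p.natDegree = w := by
    apply le_antisymm hdegle
    apply Polynomial.le_natDegree_of_ne_zero
    rw [hcoeff w le_rfl, Nat.sub_self, he]
    exact one_ne_zero
  have hsplit : p.Splits := IsAlgClosed.splits p
  have hcard : p.roots.card = w := by rw [← hdeg]; exact hsplit.natDegree_eq_card_roots.symm
  have hprod : p = (p.roots.map fun a => Polynomial.X - Polynomial.C a).prod :=
    hsplit.eq_prod_roots_of_monic hmonic
  obtain ⟨f, hf⟩ := exists_enum p.roots w hcard
  refine ⟨fun i => - f i, ?_⟩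
  intro t ht
  have hp2 : p = ∏ i : Fin w, (Polynomial.X + Polynomial.C (- f i)) := by
    rw [hprod, ← hf, Multiset.map_map]
    unfold Finset.prod
    congr 1
    apply Multiset.map_congr rfl
    intro i _
    simp [sub_eq_add_neg]
  have h1 := Finset.prod_X_add_C_coeff (R := K) (Finset.univ : Finset (Fin w)) (fun i => - f i)
    (k := w - t) (by simp)
  rw [← hp2, Finset.card_univ, Fintype.card_fin, Nat.sub_sub_self ht] at h1
  rw [← Finset.sum_filter]
  have h2 : (Finset.univ.filter fun V : Finset (Fin w) => V.card = t) =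
      Finset.univ.powersetCard t := by
    ext V; simp [Finset.mem_powersetCard]
  rw [h2, ← h1, hcoeff _ (Nat.sub_le _ _), Nat.sub_sub_self ht]

lemma prod_tau {A : Type*} [CommRing A] {w : ℕ} (τ : Fin w → A) (e : ℕ → A) (hτ : IsTau A τ e)
    (E Y : A) : ∏ i, (E + τ i * Y) = ∑ t ∈ range (w + 1), e t * (Y ^ t * E ^ (w - t)) := by
  classical
  have h1 : ∏ i, (E + τ i * Y) = ∑ V : Finset (Fin w),
      (∏ c ∈ V, τ c) * (Y ^ V.card * E ^ (w - V.card)) := by
    have h2 : ∏ i, (E + τ i * Y) = ∏ i, (τ i * Y + E) :=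
      Finset.prod_congr rfl fun i _ => add_comm _ _
    rw [h2, Finset.prod_add, Finset.powerset_univ]
    apply Finset.sum_congr rfl
    intro V _
    rw [Finset.prod_mul_distrib, Finset.prod_const, Finset.prod_const,
      Finset.card_sdiff_of_subset (Finset.subset_univ V), Finset.card_univ, Fintype.card_fin]
    ring
  have h3 : ∀ V : Finset (Fin w), (∏ c ∈ V, τ c) * (Y ^ V.card * E ^ (w - V.card)) =
      ∑ t ∈ Finset.range (w + 1), (if V.card = t then ∏ c ∈ V, τ c else 0) *
        (Y ^ t * E ^ (w - t)) := by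
    intro V
    have hV : V.card ≤ w := by
      have := Finset.card_le_univ V
      rwa [Fintype.card_fin] at this
    rw [Finset.sum_eq_single_of_mem V.card (Finset.mem_range.mpr (by omega))]
    · rw [if_pos rfl]
    · intro t _ ht
      rw [if_neg ht.symm, zero_mul]
  rw [h1, Finset.sum_congr rfl (fun V _ => h3 V), Finset.sum_comm]
  apply Finset.sum_congr rfl
  intro t ht
  rw [← Finset.sum_mul, hτ t (by rw [Finset.mem_range] at ht; omega)]

section Class

variable {γ : Type*} [DecidableEq γ] [Fintype γ] {R : Type*} [CommRing R]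

lemma free_colsB {L : ℕ → Finset γ} {u : ℕ → γ} {t : ℕ} {f : MvPolynomial γ R}
    (h : ∀ j < t, Free (L j ∪ {u j}) f) : Free (colsB L u t) f := by
  intro T hT
  have h3 : ∃ j ∈ range t, ¬ Disjoint T (L j ∪ {u j}) := by
    by_contra hcon
    push Not at hcon
    exact hT ((Finset.disjoint_biUnion_right _ _ _).mpr hcon)
  obtain ⟨j, hj, h4⟩ := h3
  exact h j (Finset.mem_range.mp hj) T h4

lemma Free.blkP {V L : Finset γ} {u : γ} {W : MvPolynomial γ R} {M : ℕ} {ζ : Fin M → R} {μ l : R}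
    (h1 : Disjoint L V) (h2 : u ∉ V) (h3 : Free V W) : Free V (G.blkP L u W ζ μ l) := by
  unfold G.blkP
  exact (Free.prod _ _ fun i _ => (Free.blset h1).add ((Free.C _).mul ((Free.X h2).add h3))).mul
    ((Free.X h2).add ((Free.C _).mul h3))

/-- one class of emitters -/
noncomputable def clsP (S : Finset γ) (L : ℕ → Finset γ) (u : ℕ → γ) (W : MvPolynomial γ R)
    {w : ℕ} (τ : Fin w → R) (ζ : (j : ℕ) → Fin (2 ^ j) → R) (μ : ℕ → R) (l : R) (J : ℕ) :
    MvPolynomial γ R :=
  (∏ i, ((∑ j ∈ range J, bl R (L j)) + C (τ i) * bl R S)) *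
    ∏ j ∈ range J, blkP (L j) (u j) W (ζ j) (μ j) (l ^ 2 ^ j)

theorem cls {w J : ℕ} (S : Finset γ) (L : ℕ → Finset γ) (u : ℕ → γ) (W : MvPolynomial γ R)
    (τ : Fin w → R) (e : ℕ → R) (ζ : (j : ℕ) → Fin (2 ^ j) → R) (μ : ℕ → R) (l : R)
    (hS : S.card = w) (hSU : Disjoint S (colsB L u J)) (hWS : Free S W)
    (hcard : ∀ j < J, (L j).card = 2 ^ j)
    (hd : ∀ i < J, ∀ j < J, i ≠ j → Disjoint (L i ∪ {u i}) (L j ∪ {u j}))
    (hu : ∀ j < J, u j ∉ L j)
    (hW : ∀ j < J, Free (L j ∪ {u j}) W)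
    (hζ : ∀ j, IsZeta R (ζ j) (-1)) (hμ : ∀ j, ((2 ^ j : ℕ) : R) * μ j = 1)
    (hτ : IsTau R τ e) (he : ∀ n ≤ w, e (w - n) * (val J n : R) = (val J w : R)) (n : ℕ)
    (hn : n ≤ w) :
    Elim (S ∪ colsB L u J) (bl R S ^ n * clsP S L u W τ ζ μ l J)
      (C ((w.factorial : R) * (val J w : R) * l ^ n) * W ^ n) := by
  have hctr := ctr L u W ζ μ l J hcard hd hu hW hζ hμ
  unfold clsP
  set O := ∑ j ∈ range J, bl R (L j) with hO
  set B := ∏ j ∈ range J, blkP (L j) (u j) W (ζ j) (μ j) (l ^ 2 ^ j) with hB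
  rw [prod_tau (fun i => C (τ i)) (fun t => C (e t)) (hτ.map C)]
  have h1 : bl R S ^ n * ((∑ t ∈ range (w + 1), C (e t) * (bl R S ^ t * O ^ (w - t))) * B) =
      ∑ t ∈ range (w + 1), (O ^ (w - t) * B) * (C (e t) * bl R S ^ (n + t)) := by
    rw [Finset.sum_mul, Finset.mul_sum]
    apply Finset.sum_congr rfl
    intro t _
    rw [pow_add]
    ring
  rw [h1]
  have hSfree : Free (colsB L u J) (bl R S) := Free.blset hSU
  have s1 : Elim (colsB L u J) (∑ t ∈ range (w + 1), (O ^ (w - t) * B) * (C (e t) * bl R S ^ (n + t)))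
      (∑ t ∈ range (w + 1), (C ((val J (w - t) : R) * l ^ (w - t)) * W ^ (w - t)) *
        (C (e t) * bl R S ^ (n + t))) := by
    apply Elim.sum
    intro t _
    exact (hctr (w - t)).mul_right ((Free.C _).mul (hSfree.pow _))
  have s2 : Elim S (∑ t ∈ range (w + 1), (C ((val J (w - t) : R) * l ^ (w - t)) * W ^ (w - t)) *
        (C (e t) * bl R S ^ (n + t)))
      (∑ t ∈ range (w + 1), if n + t = S.card then C (((n + t).factorial : ℕ) : R) *
        (C ((val J (w - t) : R) * l ^ (w - t)) * W ^ (w - t) * C (e t)) else 0) := by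
    apply Elim.sum
    intro t _
    rw [← mul_assoc]
    exact Elim.blpow _ (((Free.C _).mul (hWS.pow _)).mul (Free.C _)) _
  have h2 : (∑ t ∈ range (w + 1), if n + t = S.card then C (((n + t).factorial : ℕ) : R) *
        (C ((val J (w - t) : R) * l ^ (w - t)) * W ^ (w - t) * C (e t)) else 0) =
      C ((w.factorial : R) * (val J w : R) * l ^ n) * W ^ n := by
    rw [Finset.sum_eq_single_of_mem (w - n) (by simp)]
    · rw [hS, if_pos (by omega), Nat.add_sub_cancel' hn, Nat.sub_sub_self hn, ← he n hn]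
      simp only [map_mul]
      ring
    · intro t _ ht
      rw [hS, if_neg (by omega)]
  rw [h2] at s2
  rw [Finset.union_comm]
  exact s1.trans s2 hSU.symm

/-- the fan out -/
theorem fan (z z' y y' : γ) (h1 : z ≠ z') (h2 : z ≠ y) (h3 : z ≠ y') (h4 : z' ≠ y) (h5 : z' ≠ y')
    (h6 : y ≠ y') (A Φ S S' : MvPolynomial γ R) (hA : Free {z, z', y, y'} A)
    (hΦ : Free {z, z', y, y'} Φ) (hS : Free {z, z', y, y'} S) (hS' : Free {z, z', y, y'} S') :
    Elim {z, z', y, y'} ((A + X z) * ((Φ + X z') * ((X z + X z' + X y + X y') *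
      ((X z + X z' - X y - X y') * ((S + X y) * (S' + X y'))))))
      (C 2 * (A * Φ - S * S')) := by
  have hz : ∀ {f : MvPolynomial γ R}, Free {z, z', y, y'} f → Free {z} f :=
    fun h => h.mono (by intro c hc; simp at hc; simp [hc])
  have hz' : ∀ {f : MvPolynomial γ R}, Free {z, z', y, y'} f → Free {z'} f :=
    fun h => h.mono (by intro c hc; simp at hc; simp [hc])
  have hy : ∀ {f : MvPolynomial γ R}, Free {z, z', y, y'} f → Free {y} f :=
    fun h => h.mono (by intro c hc; simp at hc; simp [hc])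
  have hy' : ∀ {f : MvPolynomial γ R}, Free {z, z', y, y'} f → Free {y'} f :=
    fun h => h.mono (by intro c hc; simp at hc; simp [hc])
  have hX : ∀ {a b : γ}, a ≠ b → Free {b} (X a : MvPolynomial γ R) :=
    fun h => Free.X (by simpa using h)
  have hneg : ∀ {U : Finset γ} {f : MvPolynomial γ R}, Free U f → Free U (-f) := by
    intro U f hf
    rw [← neg_one_mul, ← map_one (C : R →+* MvPolynomial γ R), ← map_neg]
    exact (Free.C _).mul hf
  have hsub : ∀ {U : Finset γ} {f g : MvPolynomial γ R}, Free U f → Free U g → Free U (f - g) := by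
    intro U f g hf hg
    rw [sub_eq_add_neg]
    exact hf.add (hneg hg)
  set Z : MvPolynomial γ R := X z with hZ
  set Z' : MvPolynomial γ R := X z' with hZ'
  set Y : MvPolynomial γ R := X y with hY
  set Y' : MvPolynomial γ R := X y' with hY'
  -- first step
  have s1 : Elim {z} ((A + Z) * ((Φ + Z') * ((Z + Z' + Y + Y') *
      ((Z + Z' - Y - Y') * ((S + Y) * (S' + Y'))))))
      (((C 2 * A * Z' + (Z' * Z' - (Y + Y') * (Y + Y'))) * (Φ + Z')) * ((S + Y) * (S' + Y'))) := by
    apply Elim.single' ((A * (Z' * Z' - (Y + Y') * (Y + Y'))) * (Φ + Z') * ((S + Y) * (S' + Y'))) _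
      ((A + C 2 * Z' + Z) * (Φ + Z') * ((S + Y) * (S' + Y')))
    · have e1 : Free {z} (Y + Y') := (hX h2.symm).add (hX h3.symm)
      have e2 : Free {z} Z' := hX h1.symm
      exact (((hz hA).mul (hsub (e2.mul e2) (e1.mul e1))).mul ((hz hΦ).add e2)).mul
        (((hz hS).add (hX h2.symm)).mul ((hz hS').add (hX h3.symm)))
    · have hC2 : (C 2 : MvPolynomial γ R) = 2 := by rw [map_ofNat]
      rw [hC2]
      ring
  have s2 : Elim {z'} (((C 2 * A * Z' + (Z' * Z' - (Y + Y') * (Y + Y'))) * (Φ + Z')) *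
      ((S + Y) * (S' + Y')))
      ((C 2 * A * Φ - (Y + Y') * (Y + Y')) * ((S + Y) * (S' + Y'))) := by
    apply Elim.single' (- ((Y + Y') * (Y + Y')) * Φ * ((S + Y) * (S' + Y'))) _
      ((C 2 * A + Φ + Z') * ((S + Y) * (S' + Y')))
    · have e1 : Free {z'} (Y + Y') := (hX h4.symm).add (hX h5.symm)
      exact ((hneg (e1.mul e1)).mul (hz' hΦ)).mul
        (((hz' hS).add (hX h4.symm)).mul ((hz' hS').add (hX h5.symm)))
    · ring
  have s3 : Elim {y} ((C 2 * A * Φ - (Y + Y') * (Y + Y')) * ((S + Y) * (S' + Y')))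
      ((C 2 * A * Φ - Y' * Y' - C 2 * Y' * S) * (S' + Y')) := by
    apply Elim.single' ((C 2 * A * Φ - Y' * Y') * S * (S' + Y')) _
      ((- S - C 2 * Y' - Y) * (S' + Y'))
    · have e1 : Free {y} Y' := hX h6.symm
      exact ((hsub (((Free.C _).mul (hy hA)).mul (hy hΦ)) (e1.mul e1)).mul (hy hS)).mul
        ((hy hS').add e1)
    · have hC2 : (C 2 : MvPolynomial γ R) = 2 := by rw [map_ofNat]
      rw [hC2]
      ring
  have s4 : Elim {y'} ((C 2 * A * Φ - Y' * Y' - C 2 * Y' * S) * (S' + Y'))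
      (C 2 * (A * Φ - S * S')) := by
    apply Elim.single' (C 2 * A * Φ * S') _ (- S' - Y' - C 2 * S)
    · exact (((Free.C _).mul (hy' hA)).mul (hy' hΦ)).mul (hy' hS')
    · ring
  have hset : ({z, z', y, y'} : Finset γ) = {z} ∪ ({z'} ∪ ({y} ∪ {y'})) := by
    ext c
    simp only [Finset.mem_insert, Finset.mem_singleton, Finset.mem_union]
  rw [hset]
  refine s1.trans (s2.trans (s3.trans s4 ?_) ?_) ?_
  · simpa using h6
  · simp only [Finset.disjoint_union_right, Finset.disjoint_singleton]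
    exact ⟨h4, h5⟩
  · simp only [Finset.disjoint_union_right, Finset.disjoint_singleton]
    exact ⟨h1, h2, h3⟩

end Class

end Pool.Agent.W940.G
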