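import Pool.Agent.W940.G5

set_option autoImplicit false
set_option linter.unusedSectionVars false

open MvPolynomial Finset

namespace Pool.Agent.W940.G

open Pool.Agent.H546R2.SL (eps lin eps_add eps_sum eps_C_mul eps_one eps_mul eps_lin eps_lin_mul
  eps_lin_pow eps_prod_zero_of_col eps_affine_zero eps_prod_zero_of_card exists_enum)
open Pool.Agent.H546R2.SM (per bl per_transpose per_reindex_rows per_reindex_cols eps_bl_pow_mul
  eps_bl_pow sel_eps prod_zeta lin_add' lin_smul' eps_emb_lin)

section Net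

variable {γ : Type*} [DecidableEq γ] [Fintype γ] {R : Type*} [CommRing R]

lemma Free.biUnion {ι : Type*} {s : Finset ι} {U : ι → Finset γ} {f : MvPolynomial γ R}
    (h : ∀ i ∈ s, Free (U i) f) : Free (s.biUnion U) f := by
  intro T hT
  have h3 : ∃ j ∈ s, ¬ Disjoint T (U j) := by
    by_contra hcon
    push Not at hcon
    exact hT ((Finset.disjoint_biUnion_right _ _ _).mpr hcon)
  obtain ⟨j, hj, h4⟩ := h3
  exact h j hj T h4

lemma Free.neg {U : Finset γ} {f : MvPolynomial γ R} (hf : Free U f) : Free U (-f) := by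
  rw [← neg_one_mul, ← map_one (MvPolynomial.C : R →+* MvPolynomial γ R), ← map_neg]
  exact (Free.C _).mul hf

lemma Free.sub {U : Finset γ} {f g : MvPolynomial γ R} (hf : Free U f) (hg : Free U g) :
    Free U (f - g) := by
  rw [sub_eq_add_neg]
  exact hf.add hg.neg

/-- the rows at one emitter -/
noncomputable def fanP (z : Fin 4 → γ) (A Φ S S' : MvPolynomial γ R) : MvPolynomial γ R :=
  (A + X (z 0)) * ((Φ + X (z 1)) * ((X (z 0) + X (z 1) + X (z 2) + X (z 3)) *
    ((X (z 0) + X (z 1) - X (z 2) - X (z 3)) * ((S + X (z 2)) * (S' + X (z 3))))))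

/-- the columns at one emitter -/
def fanU (z : Fin 4 → γ) : Finset γ := {z 0, z 1, z 2, z 3}

lemma mem_fanU {z : Fin 4 → γ} {c : γ} : c ∈ fanU z ↔ ∃ i, c = z i := by
  unfold fanU
  simp only [Finset.mem_insert, Finset.mem_singleton]
  constructor
  · rintro (h | h | h | h)
    exacts [⟨0, h⟩, ⟨1, h⟩, ⟨2, h⟩, ⟨3, h⟩]
  · rintro ⟨i, rfl⟩
    fin_cases i <;> simp

lemma Free.fanP {V : Finset γ} {z : Fin 4 → γ} {A Φ S S' : MvPolynomial γ R}
    (hz : ∀ i, z i ∉ V) (h1 : Free V A) (h2 : Free V Φ) (h3 : Free V S) (h4 : Free V S') :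
    Free V (G.fanP z A Φ S S') := by
  have hX : ∀ i, Free V (MvPolynomial.X (z i) : MvPolynomial γ R) := fun i => Free.X (hz i)
  unfold G.fanP
  exact (h1.add (hX 0)).mul ((h2.add (hX 1)).mul (((((hX 0).add (hX 1)).add (hX 2)).add (hX 3)).mul
    (((((hX 0).add (hX 1)).sub (hX 2)).sub (hX 3)).mul ((h3.add (hX 2)).mul (h4.add (hX 3))))))

lemma Free.clsP {V S : Finset γ} {L : ℕ → Finset γ} {u : ℕ → γ} {W : MvPolynomial γ R}
    {w : ℕ} {τ : Fin w → R} {ζ : (j : ℕ) → Fin (2 ^ j) → R} {μ : ℕ → R} {l : R} {J : ℕ}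
    (h1 : Disjoint S V) (h2 : ∀ j < J, Disjoint (L j) V) (h3 : ∀ j < J, u j ∉ V)
    (h4 : Free V W) : Free V (G.clsP S L u W τ ζ μ l J) := by
  unfold G.clsP
  apply Free.mul
  · apply Free.prod
    intro i _
    apply Free.add
    · apply Free.sum
      intro j hj
      exact Free.blset (h2 j (Finset.mem_range.mp hj))
    · exact (Free.C _).mul (Free.blset h1)
  · apply Free.prod
    intro j hj
    exact Free.blkP (h2 j (Finset.mem_range.mp hj)) (h3 j (Finset.mem_range.mp hj)) h4

/-- the data of a network -/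
structure NetD (γ I κ : Type*) where
  z : I → Fin 4 → γ
  cl : I → κ
  cl' : I → κ
  Φ : Finset γ
  W : Finset γ
  S : κ → Finset γ
  L : κ → ℕ → Finset γ
  u : κ → ℕ → γ

variable {I κ : Type*} [Fintype I] [DecidableEq I] [Fintype κ] [DecidableEq κ]

/-- the columns of a class -/
def NetD.clU (D : NetD γ I κ) (J : ℕ) (c : κ) : Finset γ := D.S c ∪ colsB (D.L c) (D.u c) J

/-- all columns of a network -/
def NetD.all (D : NetD γ I κ) (J : ℕ) : Finset γ :=
  (Finset.univ.biUnion fun i => fanU (D.z i)) ∪ ((Finset.univ.biUnion fun c => D.clU J c) ∪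
    (D.Φ ∪ D.W))

/-- the conditions on a network -/
structure NetD.Ok (D : NetD γ I κ) (w J K : ℕ) : Prop where
  zinj : ∀ i j, ∀ a b, D.z i a = D.z j b → i = j ∧ a = b
  zc : ∀ i a c, D.z i a ∉ D.clU J c
  zΦ : ∀ i a, D.z i a ∉ D.Φ
  zW : ∀ i a, D.z i a ∉ D.W
  cc : ∀ c c', c ≠ c' → Disjoint (D.clU J c) (D.clU J c')
  cΦ : ∀ c, Disjoint (D.clU J c) D.Φ
  cW : ∀ c, Disjoint (D.clU J c) D.W
  ΦW : Disjoint D.Φ D.W
  Scard : ∀ c, (D.S c).card = w
  Lcard : ∀ c, ∀ j < J, (D.L c j).card = 2 ^ j
  LL : ∀ c, ∀ i < J, ∀ j < J, i ≠ j → Disjoint (D.L c i ∪ {D.u c i}) (D.L c j ∪ {D.u c j})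
  uL : ∀ c, ∀ j < J, D.u c j ∉ D.L c j
  SU : ∀ c, Disjoint (D.S c) (colsB (D.L c) (D.u c) J)
  fib : ∀ c, ((Finset.univ.filter fun i => D.cl i = c) ∪
    (Finset.univ.filter fun i => D.cl' i = c)).card ≤ w
  fibd : ∀ i j, D.cl i ≠ D.cl' j
  Φcard : D.Φ.card + K = Fintype.card I
  Wcard : D.W.card = 2 * K

/-- the rows of the network -/
noncomputable def NetD.poly (D : NetD γ I κ) (A : I → MvPolynomial γ R) {w : ℕ}
    (τ : Fin w → R) (ζ : (j : ℕ) → Fin (2 ^ j) → R) (μ : ℕ → R) (l : κ → R) (J : ℕ) :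
    MvPolynomial γ R :=
  (∏ i, fanP (D.z i) (A i) (bl R D.Φ) (bl R (D.S (D.cl i))) (bl R (D.S (D.cl' i)))) *
    ∏ c, clsP (D.S c) (D.L c) (D.u c) (bl R D.W) τ ζ μ (l c) J

/-- the constant of a network -/
def netC (R : Type*) [CommRing R] (nI nκ w J K : ℕ) : R :=
  (2 * K).factorial * ((nI - K).factorial * (((w.factorial : R) * (val J w : R)) ^ nκ *
    ((-1) ^ K * 2 ^ nI)))

/-- multiplicity of a class -/
def NetD.mult (D : NetD γ I κ) (T : Finset I) (c : κ) : ℕ :=
  (T.filter fun i => D.cl i = c).card + (T.filter fun i => D.cl' i = c).card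

lemma prod_cl {A : Type*} [CommRing A] (T : Finset I) (cl : I → κ) (f : κ → A) :
    ∏ i ∈ T, f (cl i) = ∏ c, f c ^ (T.filter fun i => cl i = c).card := by
  rw [← Finset.prod_fiberwise T cl (fun i => f (cl i))]
  apply Finset.prod_congr rfl
  intro c _
  rw [Finset.prod_congr rfl (g := fun _ => f c), Finset.prod_const]
  intro i hi
  rw [(Finset.mem_filter.mp hi).2]

lemma sum_mult (D : NetD γ I κ) (T : Finset I) : ∑ c, D.mult T c = 2 * T.card := by
  unfold NetD.mult
  rw [Finset.sum_add_distrib, ← Finset.card_eq_sum_card_fiberwise (fun _ _ => Finset.mem_univ _),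
    ← Finset.card_eq_sum_card_fiberwise (fun _ _ => Finset.mem_univ _)]
  ring

lemma NetD.Ok.mult_le {D : NetD γ I κ} {w J K : ℕ} (h : D.Ok w J K) (T : Finset I) (c : κ) :
    D.mult T c ≤ w := by
  refine le_trans ?_ (h.fib c)
  unfold NetD.mult
  rw [← Finset.card_union_of_disjoint]
  · apply Finset.card_le_card
    apply Finset.union_subset_union
    · intro i hi
      rw [Finset.mem_filter] at hi ⊢
      exact ⟨Finset.mem_univ _, hi.2⟩
    · intro i hi
      rw [Finset.mem_filter] at hi ⊢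
      exact ⟨Finset.mem_univ _, hi.2⟩
  · rw [Finset.disjoint_left]
    intro i hi hi'
    rw [Finset.mem_filter] at hi hi'
    exact h.fibd i i (hi.2.trans hi'.2.symm)

lemma NetD.Ok.fan_clU {D : NetD γ I κ} {w J K : ℕ} (h : D.Ok w J K) (i : I) (c : κ) :
    Disjoint (fanU (D.z i)) (D.clU J c) := by
  rw [Finset.disjoint_left]
  intro x hx
  rw [mem_fanU] at hx
  obtain ⟨a, rfl⟩ := hx
  exact h.zc i a c

/-- **the network** -/
theorem NetD.Ok.net {D : NetD γ I κ} {w J K : ℕ} (h : D.Ok w J K) (A : I → MvPolynomial γ R)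
    (hA : ∀ i, Free (D.all J) (A i)) {τ : Fin w → R} {e : ℕ → R}
    {ζ : (j : ℕ) → Fin (2 ^ j) → R} {μ : ℕ → R} (hζ : ∀ j, IsZeta R (ζ j) (-1))
    (hμ : ∀ j, ((2 ^ j : ℕ) : R) * μ j = 1) (hτ : IsTau R τ e)
    (he : ∀ n ≤ w, e (w - n) * (val J n : R) = (val J w : R)) (l : κ → R) :
    Elim (D.all J) (D.poly A τ ζ μ l J)
      (C (netC R (Fintype.card I) (Fintype.card κ) w J K) *
        ∑ T ∈ (Finset.univ : Finset I).powersetCard K,
          (∏ i ∈ Finset.univ \ T, A i) * C (∏ i ∈ T, l (D.cl i) * l (D.cl' i))) := by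
  classical
  -- subsets of all columns
  have hfan_sub : ∀ i, fanU (D.z i) ⊆ D.all J := fun i =>
    (Finset.subset_biUnion_of_mem (fun i => fanU (D.z i)) (Finset.mem_univ i)).trans
      Finset.subset_union_left
  have hcl_sub : ∀ c, D.clU J c ⊆ D.all J := fun c =>
    ((Finset.subset_biUnion_of_mem (fun c => D.clU J c) (Finset.mem_univ c)).trans
      Finset.subset_union_left).trans Finset.subset_union_right
  have hΦ_sub : D.Φ ⊆ D.all J := fun x hx => by
    unfold NetD.all
    simp only [Finset.mem_union]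
    exact Or.inr (Or.inr (Or.inl hx))
  have hW_sub : D.W ⊆ D.all J := fun x hx => by
    unfold NetD.all
    simp only [Finset.mem_union]
    exact Or.inr (Or.inr (Or.inr hx))
  -- disjointness
  have hfS : ∀ i c, Disjoint (D.S c) (fanU (D.z i)) := fun i c =>
    (h.fan_clU i c).symm.mono_left Finset.subset_union_left
  have hfΦ : ∀ i, Disjoint D.Φ (fanU (D.z i)) := by
    intro i
    rw [Finset.disjoint_right]
    intro x hx
    rw [mem_fanU] at hx
    obtain ⟨a, rfl⟩ := hx
    exact h.zΦ i a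
  have hfW : ∀ i, Disjoint D.W (fanU (D.z i)) := by
    intro i
    rw [Finset.disjoint_right]
    intro x hx
    rw [mem_fanU] at hx
    obtain ⟨a, rfl⟩ := hx
    exact h.zW i a
  have hff : ∀ i j, i ≠ j → Disjoint (fanU (D.z i)) (fanU (D.z j)) := by
    intro i j hij
    rw [Finset.disjoint_left]
    intro x hx hx'
    rw [mem_fanU] at hx hx'
    obtain ⟨a, rfl⟩ := hx
    obtain ⟨b, hb⟩ := hx'
    exact hij (h.zinj _ _ _ _ hb).1
  have hLsub : ∀ c, ∀ j < J, D.L c j ∪ {D.u c j} ⊆ D.clU J c := by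
    intro c j hj
    refine Finset.Subset.trans ?_ Finset.subset_union_right
    exact Finset.subset_biUnion_of_mem (fun j => D.L c j ∪ {D.u c j}) (Finset.mem_range.mpr hj)
  have hSsub : ∀ c, D.S c ⊆ D.clU J c := fun c => Finset.subset_union_left
  -- freeness of the class polynomials
  have hclsfree : ∀ (V : Finset γ) (c : κ), Disjoint (D.clU J c) V → Disjoint D.W V →
      Free V (clsP (D.S c) (D.L c) (D.u c) (bl R D.W) τ ζ μ (l c) J) := by
    intro V c h1 h2
    apply Free.clsP (h1.mono_left (hSsub c))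
    · intro j hj
      exact (h1.mono_left (hLsub c j hj)).mono_left Finset.subset_union_left
    · intro j hj
      have := (h1.mono_left (hLsub c j hj)).mono_left Finset.subset_union_right
      exact Finset.disjoint_singleton_left.mp this
    · exact Free.blset h2
  set Cls := ∏ c, clsP (D.S c) (D.L c) (D.u c) (bl R D.W) τ ζ μ (l c) J with hCls
  -- step 1
  have s1 : Elim (Finset.univ.biUnion fun i => fanU (D.z i)) (D.poly A τ ζ μ l J)
      ((∏ i, (C 2 * (A i * bl R D.Φ - bl R (D.S (D.cl i)) * bl R (D.S (D.cl' i))))) * Cls) := by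
    unfold NetD.poly
    apply Elim.mul_right
    · apply Free.biUnion
      intro i _
      apply Free.prod
      intro c _
      exact hclsfree _ c (h.fan_clU i c).symm (hfW i)
    · apply Elim.prod
      · intro i _
        have hne : ∀ a b : Fin 4, a ≠ b → D.z i a ≠ D.z i b :=
          fun a b hab hh => hab (h.zinj _ _ _ _ hh).2
        exact fan _ _ _ _ (hne _ _ (by decide)) (hne _ _ (by decide)) (hne _ _ (by decide))
          (hne _ _ (by decide)) (hne _ _ (by decide)) (hne _ _ (by decide)) _ _ _ _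
          ((hA i).mono (hfan_sub i)) (Free.blset (hfΦ i)) (Free.blset (hfS i _))
          (Free.blset (hfS i _))
      · intro i _ j _ hij
        apply Free.fanP
        · intro a ha
          exact Finset.disjoint_left.mp (hff j i hij.symm) (mem_fanU.mpr ⟨a, rfl⟩) ha
        · exact (hA j).mono (hfan_sub i)
        · exact Free.blset (hfΦ i)
        · exact Free.blset (hfS i _)
        · exact Free.blset (hfS i _)
      · intro i _ j _ hij
        exact (Free.C _).mul ((((hA j).mono (hfan_sub i)).mul (Free.blset (hfΦ i))).sub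
          ((Free.blset (hfS i _)).mul (Free.blset (hfS i _))))
      · intro i _ j _ hij
        exact hff i j hij
  -- expansion
  have hexp : (∏ i, (C 2 * (A i * bl R D.Φ - bl R (D.S (D.cl i)) * bl R (D.S (D.cl' i))))) * Cls =
      ∑ T ∈ (Finset.univ : Finset I).powerset, (C ((-1) ^ T.card * 2 ^ Fintype.card I) *
        ((∏ i ∈ Finset.univ \ T, A i) * bl R D.Φ ^ (Finset.univ \ T).card)) *
        ∏ c, (bl R (D.S c) ^ D.mult T c * clsP (D.S c) (D.L c) (D.u c) (bl R D.W) τ ζ μ (l c) J) := by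
    have h1 : ∏ i, (C 2 * (A i * bl R D.Φ - bl R (D.S (D.cl i)) * bl R (D.S (D.cl' i)))) =
        C (2 ^ Fintype.card I) * ∏ i, (C (-1) * (bl R (D.S (D.cl i)) * bl R (D.S (D.cl' i))) +
          A i * bl R D.Φ) := by
      rw [Finset.prod_mul_distrib, Finset.prod_const, Finset.card_univ, map_pow]
      congr 1
      apply Finset.prod_congr rfl
      intro i _
      rw [map_neg, map_one]
      ring
    rw [h1, Finset.prod_add, Finset.mul_sum, Finset.sum_mul]
    apply Finset.sum_congr rfl
    intro T _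
    rw [Finset.prod_mul_distrib, Finset.prod_mul_distrib, Finset.prod_mul_distrib,
      Finset.prod_mul_distrib, Finset.prod_const, Finset.prod_const, prod_cl T D.cl
      (fun c => bl R (D.S c)), prod_cl T D.cl' (fun c => bl R (D.S c)), ← hCls,
      ← Finset.prod_mul_distrib]
    have h2 : ∏ c, (bl R (D.S c) ^ (T.filter fun i => D.cl i = c).card *
        bl R (D.S c) ^ (T.filter fun i => D.cl' i = c).card) = ∏ c, bl R (D.S c) ^ D.mult T c := by
      apply Finset.prod_congr rfl
      intro c _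
      rw [← pow_add]
      rfl
    rw [h2, map_mul, map_pow, map_pow]
    ring
  -- step 2
  have s2 : Elim (Finset.univ.biUnion fun c => D.clU J c)
      (∑ T ∈ (Finset.univ : Finset I).powerset, (C ((-1) ^ T.card * 2 ^ Fintype.card I) *
        ((∏ i ∈ Finset.univ \ T, A i) * bl R D.Φ ^ (Finset.univ \ T).card)) *
        ∏ c, (bl R (D.S c) ^ D.mult T c * clsP (D.S c) (D.L c) (D.u c) (bl R D.W) τ ζ μ (l c) J))
      (∑ T ∈ (Finset.univ : Finset I).powerset, (C ((-1) ^ T.card * 2 ^ Fintype.card I) *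
        ((∏ i ∈ Finset.univ \ T, A i) * bl R D.Φ ^ (Finset.univ \ T).card)) *
        ∏ c, (C ((w.factorial : R) * (val J w : R) * l c ^ D.mult T c) *
          bl R D.W ^ D.mult T c)) := by
    apply Elim.sum
    intro T _
    apply Elim.mul_left
    · apply Free.biUnion
      intro c _
      exact (Free.C _).mul ((Free.prod _ _ fun i _ => (hA i).mono (hcl_sub c)).mul
        ((Free.blset (h.cΦ c).symm).pow _))
    · apply Elim.prod
      · intro c _
        exact cls (D.S c) (D.L c) (D.u c) (bl R D.W) τ e ζ μ (l c) (h.Scard c) (h.SU c)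
          (Free.blset ((h.cW c).symm.mono_right (hSsub c))) (h.Lcard c) (h.LL c) (h.uL c)
          (fun j hj => Free.blset ((h.cW c).symm.mono_right (hLsub c j hj))) hζ hμ hτ he _
          (h.mult_le T c)
      · intro c _ c' _ hcc
        exact ((Free.blset ((h.cc c' c hcc.symm).mono_left (hSsub c'))).pow _).mul
          (hclsfree _ c' (h.cc c' c hcc.symm) (h.cW c).symm)
      · intro c _ c' _ _
        exact (Free.C _).mul ((Free.blset (h.cW c).symm).pow _)
      · intro c _ c' _ hcc
        exact h.cc c c' hcc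
  -- step 3
  have hcollect : ∀ T : Finset I, (C ((-1) ^ T.card * 2 ^ Fintype.card I) *
        ((∏ i ∈ Finset.univ \ T, A i) * bl R D.Φ ^ (Finset.univ \ T).card)) *
        ∏ c, (C ((w.factorial : R) * (val J w : R) * l c ^ D.mult T c) * bl R D.W ^ D.mult T c) =
      (C (((w.factorial : R) * (val J w : R)) ^ Fintype.card κ *
        ((-1) ^ T.card * 2 ^ Fintype.card I)) *
        ((∏ i ∈ Finset.univ \ T, A i) * C (∏ i ∈ T, l (D.cl i) * l (D.cl' i))) *
          bl R D.W ^ (2 * T.card)) * bl R D.Φ ^ (Finset.univ \ T).card := by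
    intro T
    rw [Finset.prod_mul_distrib, Finset.prod_pow_eq_pow_sum, sum_mult, ← map_prod,
      Finset.prod_mul_distrib, Finset.prod_const, Finset.card_univ]
    have h1 : ∏ c, l c ^ D.mult T c = ∏ i ∈ T, l (D.cl i) * l (D.cl' i) := by
      rw [Finset.prod_mul_distrib, prod_cl T D.cl l, prod_cl T D.cl' l, ← Finset.prod_mul_distrib]
      apply Finset.prod_congr rfl
      intro c _
      rw [← pow_add]
      rfl
    rw [h1]
    simp only [map_mul]
    ring
  have s3 : Elim D.Φ
      (∑ T ∈ (Finset.univ : Finset I).powerset, (C ((-1) ^ T.card * 2 ^ Fintype.card I) *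
        ((∏ i ∈ Finset.univ \ T, A i) * bl R D.Φ ^ (Finset.univ \ T).card)) *
        ∏ c, (C ((w.factorial : R) * (val J w : R) * l c ^ D.mult T c) *
          bl R D.W ^ D.mult T c))
      (∑ T ∈ (Finset.univ : Finset I).powerset, if (Finset.univ \ T).card = D.Φ.card then
        C ((((Finset.univ \ T).card).factorial : ℕ) : R) *
        (C (((w.factorial : R) * (val J w : R)) ^ Fintype.card κ *
        ((-1) ^ T.card * 2 ^ Fintype.card I)) *
        ((∏ i ∈ Finset.univ \ T, A i) * C (∏ i ∈ T, l (D.cl i) * l (D.cl' i))) *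
          bl R D.W ^ (2 * T.card)) else 0) := by
    apply Elim.sum
    intro T _
    rw [hcollect T]
    apply Elim.blpow
    exact ((Free.C _).mul ((Free.prod _ _ fun i _ => (hA i).mono hΦ_sub).mul (Free.C _))).mul
      ((Free.blset h.ΦW.symm).pow _)
  have hK : K ≤ Fintype.card I := by have := h.Φcard; omega
  have h4 : (∑ T ∈ (Finset.univ : Finset I).powerset, if (Finset.univ \ T).card = D.Φ.card then
        C ((((Finset.univ \ T).card).factorial : ℕ) : R) *
        (C (((w.factorial : R) * (val J w : R)) ^ Fintype.card κ *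
        ((-1) ^ T.card * 2 ^ Fintype.card I)) *
        ((∏ i ∈ Finset.univ \ T, A i) * C (∏ i ∈ T, l (D.cl i) * l (D.cl' i))) *
          bl R D.W ^ (2 * T.card)) else 0) =
      ∑ T ∈ (Finset.univ : Finset I).powersetCard K,
        (C (((Fintype.card I - K).factorial : R) * (((w.factorial : R) * (val J w : R)) ^
          Fintype.card κ * ((-1) ^ K * 2 ^ Fintype.card I))) *
        ((∏ i ∈ Finset.univ \ T, A i) * C (∏ i ∈ T, l (D.cl i) * l (D.cl' i)))) *
          bl R D.W ^ (2 * K) := by
    rw [← Finset.sum_filter]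
    have h5 : (Finset.univ : Finset I).powerset.filter
        (fun T => (Finset.univ \ T).card = D.Φ.card) = (Finset.univ : Finset I).powersetCard K := by
      ext T
      rw [Finset.mem_filter, Finset.mem_powerset, Finset.mem_powersetCard,
        Finset.card_sdiff_of_subset (Finset.subset_univ T), Finset.card_univ]
      have h6 : T.card ≤ Fintype.card I := Finset.card_le_univ T
      have := h.Φcard
      constructor
      · rintro ⟨h7, h8⟩; exact ⟨h7, by omega⟩
      · rintro ⟨h7, h8⟩; exact ⟨h7, by omega⟩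
    rw [h5]
    apply Finset.sum_congr rfl
    intro T hT
    rw [Finset.mem_powersetCard] at hT
    rw [Finset.card_sdiff_of_subset (Finset.subset_univ T), Finset.card_univ, hT.2]
    simp only [map_mul]
    ring
  rw [h4] at s3
  have s4 : Elim D.W (∑ T ∈ (Finset.univ : Finset I).powersetCard K,
        (C (((Fintype.card I - K).factorial : R) * (((w.factorial : R) * (val J w : R)) ^
          Fintype.card κ * ((-1) ^ K * 2 ^ Fintype.card I))) *
        ((∏ i ∈ Finset.univ \ T, A i) * C (∏ i ∈ T, l (D.cl i) * l (D.cl' i)))) *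
          bl R D.W ^ (2 * K))
      (C (netC R (Fintype.card I) (Fintype.card κ) w J K) *
        ∑ T ∈ (Finset.univ : Finset I).powersetCard K,
          (∏ i ∈ Finset.univ \ T, A i) * C (∏ i ∈ T, l (D.cl i) * l (D.cl' i))) := by
    rw [Finset.mul_sum]
    apply Elim.sum
    intro T _
    have h6 := Elim.blpow (U := D.W) (C (((Fintype.card I - K).factorial : R) * (((w.factorial : R) *
      (val J w : R)) ^ Fintype.card κ * ((-1) ^ K * 2 ^ Fintype.card I))) *
        ((∏ i ∈ Finset.univ \ T, A i) * C (∏ i ∈ T, l (D.cl i) * l (D.cl' i))))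
      ((Free.C _).mul ((Free.prod _ _ fun i _ => (hA i).mono hW_sub).mul (Free.C _))) (2 * K)
    rw [if_pos h.Wcard.symm] at h6
    unfold netC
    have h7 : C (((2 * K).factorial : ℕ) : R) * (C (((Fintype.card I - K).factorial : R) *
        (((w.factorial : R) * (val J w : R)) ^ Fintype.card κ * ((-1) ^ K * 2 ^ Fintype.card I))) *
        ((∏ i ∈ Finset.univ \ T, A i) * C (∏ i ∈ T, l (D.cl i) * l (D.cl' i)))) =
        C (((2 * K).factorial : R) * (((Fintype.card I - K).factorial : R) *
          (((w.factorial : R) * (val J w : R)) ^ Fintype.card κ * ((-1) ^ K * 2 ^ Fintype.card I)))) *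
        ((∏ i ∈ Finset.univ \ T, A i) * C (∏ i ∈ T, l (D.cl i) * l (D.cl' i))) := by
      rw [← mul_assoc, ← map_mul]
    rw [h7] at h6
    exact h6
  rw [hexp] at s1
  unfold NetD.all
  refine s1.trans (s2.trans (s3.trans s4 h.ΦW) ?_) ?_
  · rw [Finset.disjoint_union_right, Finset.disjoint_biUnion_left, Finset.disjoint_biUnion_left]
    exact ⟨fun c _ => h.cΦ c, fun c _ => h.cW c⟩
  · rw [Finset.disjoint_biUnion_left]
    intro i _
    rw [Finset.disjoint_union_right, Finset.disjoint_union_right, Finset.disjoint_biUnion_right]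
    exact ⟨fun c _ => h.fan_clU i c, (hfΦ i).symm, (hfW i).symm⟩

end Net

end Pool.Agent.W940.G
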