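import Pool.Agent.W940.G6

set_option autoImplicit false
set_option linter.unusedSectionVars false

open MvPolynomial Finset

namespace Pool.Agent.W940.G

open Pool.Agent.H546R2.SL (eps lin)
open Pool.Agent.H546R2.SM (per bl lin_add' lin_smul')

section Map

variable {γ Γ : Type*} [DecidableEq γ] [Fintype γ] [DecidableEq Γ] [Fintype Γ]
  {I κ : Type*} [Fintype I] [DecidableEq I] [Fintype κ] [DecidableEq κ]

/-- transport of a network -/
def NetD.map (D : NetD γ I κ) (j : γ ↪ Γ) : NetD Γ I κ where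
  z := fun i a => j (D.z i a)
  cl := D.cl
  cl' := D.cl'
  Φ := D.Φ.map j
  W := D.W.map j
  S := fun c => (D.S c).map j
  L := fun c i => (D.L c i).map j
  u := fun c i => j (D.u c i)

lemma colsB_map (j : γ ↪ Γ) (L : ℕ → Finset γ) (u : ℕ → γ) (t : ℕ) :
    colsB (fun i => (L i).map j) (fun i => j (u i)) t = (colsB L u t).map j := by
  ext x
  unfold colsB
  simp only [Finset.mem_biUnion, Finset.mem_range, Finset.mem_union, Finset.mem_map,
    Finset.mem_singleton]
  constructor
  · rintro ⟨i, hi, (⟨y, hy, rfl⟩ | rfl)⟩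
    · exact ⟨y, ⟨i, hi, Or.inl hy⟩, rfl⟩
    · exact ⟨u i, ⟨i, hi, Or.inr rfl⟩, rfl⟩
  · rintro ⟨y, ⟨i, hi, (hy | rfl)⟩, rfl⟩
    · exact ⟨i, hi, Or.inl ⟨y, hy, rfl⟩⟩
    · exact ⟨i, hi, Or.inr rfl⟩

lemma NetD.clU_map (D : NetD γ I κ) (j : γ ↪ Γ) (J : ℕ) (c : κ) :
    (D.map j).clU J c = (D.clU J c).map j := by
  unfold NetD.clU
  rw [Finset.map_union, ← colsB_map]
  rfl

lemma NetD.all_map (D : NetD γ I κ) (j : γ ↪ Γ) (J : ℕ) :
    (D.map j).all J = (D.all J).map j := by
  unfold NetD.all
  rw [Finset.map_union, Finset.map_union, Finset.map_union]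
  congr 1
  · ext x
    simp only [Finset.mem_biUnion, Finset.mem_univ, true_and, Finset.mem_map, mem_fanU]
    constructor
    · rintro ⟨i, a, rfl⟩
      exact ⟨D.z i a, ⟨i, a, rfl⟩, rfl⟩
    · rintro ⟨y, ⟨i, a, rfl⟩, rfl⟩
      exact ⟨i, a, rfl⟩
  · congr 1
    ext x
    simp only [Finset.mem_biUnion, Finset.mem_univ, true_and, Finset.mem_map, NetD.clU_map]
    constructor
    · rintro ⟨c, y, hy, rfl⟩
      exact ⟨y, ⟨c, hy⟩, rfl⟩
    · rintro ⟨y, ⟨c, hy⟩, rfl⟩
      exact ⟨c, y, hy, rfl⟩

lemma NetD.Ok.map {D : NetD γ I κ} {w J K : ℕ} (h : D.Ok w J K) (j : γ ↪ Γ) :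
    (D.map j).Ok w J K where
  zinj := fun i i' a b hh => h.zinj i i' a b (j.injective hh)
  zc := fun i a c => by
    rw [NetD.clU_map]
    change j (D.z i a) ∉ _
    rw [Finset.mem_map']
    exact h.zc i a c
  zΦ := fun i a => by
    change j (D.z i a) ∉ D.Φ.map j
    rw [Finset.mem_map']
    exact h.zΦ i a
  zW := fun i a => by
    change j (D.z i a) ∉ D.W.map j
    rw [Finset.mem_map']
    exact h.zW i a
  cc := fun c c' hc => by
    rw [NetD.clU_map, NetD.clU_map, Finset.disjoint_map]
    exact h.cc c c' hc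
  cΦ := fun c => by
    rw [NetD.clU_map]
    change Disjoint _ (D.Φ.map j)
    rw [Finset.disjoint_map]
    exact h.cΦ c
  cW := fun c => by
    rw [NetD.clU_map]
    change Disjoint _ (D.W.map j)
    rw [Finset.disjoint_map]
    exact h.cW c
  ΦW := by
    change Disjoint (D.Φ.map j) (D.W.map j)
    rw [Finset.disjoint_map]
    exact h.ΦW
  Scard := fun c => (Finset.card_map j).trans (h.Scard c)
  Lcard := fun c i hi => (Finset.card_map j).trans (h.Lcard c i hi)
  LL := fun c i hi i' hi' hne => by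
    have h1 := h.LL c i hi i' hi' hne
    change Disjoint ((D.L c i).map j ∪ {j (D.u c i)}) ((D.L c i').map j ∪ {j (D.u c i')})
    rw [← Finset.map_singleton, ← Finset.map_singleton, ← Finset.map_union, ← Finset.map_union,
      Finset.disjoint_map]
    exact h1
  uL := fun c i hi => by
    change j (D.u c i) ∉ (D.L c i).map j
    rw [Finset.mem_map']
    exact h.uL c i hi
  SU := fun c => by
    change Disjoint ((D.S c).map j) (colsB (fun i => (D.L c i).map j) (fun i => j (D.u c i)) J)
    rw [colsB_map, Finset.disjoint_map]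
    exact h.SU c
  fib := h.fib
  fibd := h.fibd
  Φcard := by
    change (D.Φ.map j).card + K = _
    rw [Finset.card_map]
    exact h.Φcard
  Wcard := (Finset.card_map j).trans h.Wcard

end Map

section Conc

/-- columns of one class -/
abbrev CC (a J : ℕ) := Fin a ⊕ ((Σ j : Fin J, Fin (2 ^ (j : ℕ))) ⊕ Fin J)

/-- columns of the concrete network -/
abbrev NC (a J K : ℕ) := (Fin (a * a) × Fin 4) ⊕ (Fin (a * a - K) ⊕ (Fin (2 * K) ⊕
  ((Fin 2 × Fin a) × CC a J)))

variable (a J K : ℕ)

/-- the class column -/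
def cc (c : Fin 2 × Fin a) (x : CC a J) : NC a J K := .inr (.inr (.inr (c, x)))

variable {a J K}

/-- pool columns -/
def isΦ : NC a J K → Bool
  | .inr (.inl _) => true
  | _ => false

/-- exit columns -/
def isW : NC a J K → Bool
  | .inr (.inr (.inl _)) => true
  | _ => false

/-- entrance columns of a class -/
def isS (c : Fin 2 × Fin a) : NC a J K → Bool
  | .inr (.inr (.inr (c', .inl _))) => decide (c' = c)
  | _ => false

/-- block columns of a class -/
def isL (c : Fin 2 × Fin a) (j : ℕ) : NC a J K → Bool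
  | .inr (.inr (.inr (c', .inr (.inl ⟨j', _⟩)))) => decide (c' = c ∧ (j' : ℕ) = j)
  | _ => false

variable (a J K)

/-- the concrete network -/
def cD : NetD (NC a J K) (Fin (a * a)) (Fin 2 × Fin a) where
  z := fun i s => .inl (i, s)
  cl := fun i => (0, i.divNat)
  cl' := fun i => (1, i.modNat)
  Φ := Finset.univ.filter fun x => isΦ x = true
  W := Finset.univ.filter fun x => isW x = true
  S := fun c => Finset.univ.filter fun x => isS c x = true
  L := fun c j => Finset.univ.filter fun x => isL c j x = true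
  u := fun c j => if h : j < J then cc a J K c (.inr (.inr ⟨j, h⟩)) else cc a J K c (.inl c.2)

variable {a J K}

lemma mem_Φ (x : NC a J K) : x ∈ (cD a J K).Φ ↔ ∃ s, x = .inr (.inl s) := by
  change x ∈ Finset.univ.filter (fun x => isΦ x = true) ↔ _
  rw [Finset.mem_filter]
  rcases x with x | (x | (x | x)) <;> simp [isΦ]

lemma mem_W (x : NC a J K) : x ∈ (cD a J K).W ↔ ∃ s, x = .inr (.inr (.inl s)) := by
  change x ∈ Finset.univ.filter (fun x => isW x = true) ↔ _
  rw [Finset.mem_filter]
  rcases x with x | (x | (x | x)) <;> simp [isW]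

lemma mem_S (c : Fin 2 × Fin a) (x : NC a J K) :
    x ∈ (cD a J K).S c ↔ ∃ s, x = cc a J K c (.inl s) := by
  change x ∈ Finset.univ.filter (fun x => isS c x = true) ↔ _
  rw [Finset.mem_filter]
  rcases x with x | (x | (x | ⟨c', (x | (x | x))⟩)) <;> simp [isS, cc]

lemma mem_L (c : Fin 2 × Fin a) (j : ℕ) (x : NC a J K) :
    x ∈ (cD a J K).L c j ↔ ∃ s : (Σ j : Fin J, Fin (2 ^ (j : ℕ))), (s.1 : ℕ) = j ∧
      x = cc a J K c (.inr (.inl s)) := by
  change x ∈ Finset.univ.filter (fun x => isL c j x = true) ↔ _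
  rw [Finset.mem_filter]
  rcases x with x | (x | (x | ⟨c', (x | (⟨j', x⟩ | x))⟩)) <;> simp [isL, cc]
  exact And.comm

lemma u_eq (c : Fin 2 × Fin a) (j : ℕ) (hj : j < J) :
    (cD a J K).u c j = cc a J K c (.inr (.inr ⟨j, hj⟩)) := by
  change (if h : j < J then _ else _) = _
  rw [dif_pos hj]

lemma mem_clU (c : Fin 2 × Fin a) (x : NC a J K) :
    x ∈ (cD a J K).clU J c ↔ ∃ s, x = cc a J K c s := by
  unfold NetD.clU colsB
  rw [Finset.mem_union, mem_S, Finset.mem_biUnion]
  constructor
  · rintro (⟨s, rfl⟩ | ⟨j, hj, hx⟩)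
    · exact ⟨_, rfl⟩
    · rw [Finset.mem_union, mem_L, Finset.mem_singleton] at hx
      rw [Finset.mem_range] at hj
      rcases hx with ⟨s, _, rfl⟩ | hx
      · exact ⟨_, rfl⟩
      · rw [hx, u_eq c j hj]
        exact ⟨_, rfl⟩
  · rintro ⟨(s | (s | s)), rfl⟩
    · exact Or.inl ⟨s, rfl⟩
    · refine Or.inr ⟨s.1, Finset.mem_range.mpr s.1.2, ?_⟩
      rw [Finset.mem_union, mem_L]
      exact Or.inl ⟨s, rfl, rfl⟩
    · refine Or.inr ⟨s, Finset.mem_range.mpr s.2, ?_⟩
      rw [Finset.mem_union, Finset.mem_singleton, u_eq c s s.2]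
      exact Or.inr rfl

lemma cc_inj {c c' : Fin 2 × Fin a} {x y : CC a J} (h : cc a J K c x = cc a J K c' y) :
    c = c' ∧ x = y := by
  simpa [cc] using h

lemma cD_ok (hK : K ≤ a * a) : (cD a J K).Ok a J K where
  zinj := fun i i' s s' h => by
    have h1 : (i, s) = (i', s') := Sum.inl_injective h
    exact Prod.mk.inj h1
  zc := fun i s c h => by
    rw [mem_clU] at h
    obtain ⟨x, hx⟩ := h
    exact absurd hx (by simp [cD, cc])
  zΦ := fun i s h => by
    rw [mem_Φ] at h
    obtain ⟨x, hx⟩ := h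
    exact absurd hx (by simp [cD])
  zW := fun i s h => by
    rw [mem_W] at h
    obtain ⟨x, hx⟩ := h
    exact absurd hx (by simp [cD])
  cc := fun c c' hc => by
    rw [Finset.disjoint_left]
    intro x hx hx'
    rw [mem_clU] at hx hx'
    obtain ⟨s, rfl⟩ := hx
    obtain ⟨s', hs'⟩ := hx'
    exact hc (cc_inj hs').1
  cΦ := fun c => by
    rw [Finset.disjoint_left]
    intro x hx hx'
    rw [mem_clU] at hx
    rw [mem_Φ] at hx'
    obtain ⟨s, rfl⟩ := hx
    obtain ⟨s', hs'⟩ := hx'
    exact absurd hs' (by simp [G.cc])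
  cW := fun c => by
    rw [Finset.disjoint_left]
    intro x hx hx'
    rw [mem_clU] at hx
    rw [mem_W] at hx'
    obtain ⟨s, rfl⟩ := hx
    obtain ⟨s', hs'⟩ := hx'
    exact absurd hs' (by simp [G.cc])
  ΦW := by
    rw [Finset.disjoint_left]
    intro x hx hx'
    rw [mem_Φ] at hx
    rw [mem_W] at hx'
    obtain ⟨s, rfl⟩ := hx
    obtain ⟨s', hs'⟩ := hx'
    exact absurd hs' (by simp)
  Scard := fun c => by
    have h1 : (cD a J K).S c = Finset.univ.map ⟨fun s : Fin a => G.cc a J K c (.inl s),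
        fun s s' h => Sum.inl_injective (cc_inj h).2⟩ := by
      ext x
      rw [mem_S, Finset.mem_map]
      constructor
      · rintro ⟨s, rfl⟩; exact ⟨s, Finset.mem_univ _, rfl⟩
      · rintro ⟨s, _, rfl⟩; exact ⟨s, rfl⟩
    rw [h1, Finset.card_map, Finset.card_univ, Fintype.card_fin]
  Lcard := fun c j hj => by
    have h1 : (cD a J K).L c j = Finset.univ.map ⟨fun s : Fin (2 ^ j) =>
        G.cc a J K c (.inr (.inl ⟨⟨j, hj⟩, s⟩)), fun s s' h => by
          have h2 := Sum.inl_injective (Sum.inr_injective (cc_inj h).2)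
          simpa using h2⟩ := by
      ext x
      rw [mem_L, Finset.mem_map]
      constructor
      · rintro ⟨⟨⟨j', hj'⟩, s⟩, h, rfl⟩
        simp only at h
        subst h
        exact ⟨s, Finset.mem_univ _, rfl⟩
      · rintro ⟨s, _, rfl⟩; exact ⟨⟨⟨j, hj⟩, s⟩, rfl, rfl⟩
    rw [h1, Finset.card_map, Finset.card_univ, Fintype.card_fin]
  LL := fun c i hi i' hi' hne => by
    rw [Finset.disjoint_left]
    intro x hx hx'
    rw [Finset.mem_union, mem_L, Finset.mem_singleton, u_eq _ _ (by assumption)] at hx hx'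
    rcases hx with ⟨s, h1, rfl⟩ | rfl
    · rcases hx' with ⟨s', h2, h3⟩ | h3
      · have h4 := Sum.inl_injective (Sum.inr_injective (cc_inj h3).2)
        apply hne
        rw [← h1, ← h2, h4]
      · have h4 := Sum.inr_injective (cc_inj h3).2
        exact absurd h4 (by simp)
    · rcases hx' with ⟨s', h2, h3⟩ | h3
      · have h4 := Sum.inr_injective (cc_inj h3).2
        exact absurd h4 (by simp)
      · have h4 := Sum.inr_injective (Sum.inr_injective (cc_inj h3).2)
        apply hne
        simpa using h4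
  uL := fun c i hi h => by
    rw [mem_L, u_eq _ _ hi] at h
    obtain ⟨s, _, h3⟩ := h
    have h4 := Sum.inr_injective (cc_inj h3).2
    exact absurd h4 (by simp)
  SU := fun c => by
    rw [Finset.disjoint_left]
    intro x hx hx'
    rw [mem_S] at hx
    obtain ⟨s, rfl⟩ := hx
    unfold colsB at hx'
    rw [Finset.mem_biUnion] at hx'
    obtain ⟨j, hj, hx'⟩ := hx'
    rw [Finset.mem_range] at hj
    rw [Finset.mem_union, mem_L, Finset.mem_singleton, u_eq _ _ hj] at hx'
    rcases hx' with ⟨s', h2, h3⟩ | h3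
    · exact absurd (cc_inj h3).2 (by simp)
    · exact absurd (cc_inj h3).2 (by simp)
  fib := fun c => by
    obtain ⟨b, x⟩ := c
    have hdiv : (Finset.univ.filter fun i : Fin (a * a) => i.divNat = x).card ≤ a := by
      have h1 : (Finset.univ.filter fun i : Fin (a * a) => i.divNat = x).card ≤
          (Finset.univ : Finset (Fin a)).card := by
        apply Finset.card_le_card_of_injOn (fun i => i.modNat) (fun _ _ => Finset.mem_univ _)
        intro i hi i' hi' h
        rw [Finset.mem_coe, Finset.mem_filter] at hi hi'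
        have h2 : finProdFinEquiv.symm i = finProdFinEquiv.symm i' :=
          Prod.ext (hi.2.trans hi'.2.symm) h
        exact finProdFinEquiv.symm.injective h2
      rwa [Finset.card_univ, Fintype.card_fin] at h1
    have hmod : (Finset.univ.filter fun i : Fin (a * a) => i.modNat = x).card ≤ a := by
      have h1 : (Finset.univ.filter fun i : Fin (a * a) => i.modNat = x).card ≤
          (Finset.univ : Finset (Fin a)).card := by
        apply Finset.card_le_card_of_injOn (fun i => i.divNat) (fun _ _ => Finset.mem_univ _)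
        intro i hi i' hi' h
        rw [Finset.mem_coe, Finset.mem_filter] at hi hi'
        have h2 : finProdFinEquiv.symm i = finProdFinEquiv.symm i' :=
          Prod.ext h (hi.2.trans hi'.2.symm)
        exact finProdFinEquiv.symm.injective h2
      rwa [Finset.card_univ, Fintype.card_fin] at h1
    have h01 : (0 : Fin 2) ≠ 1 := by decide
    by_cases hb : b = 0
    · subst hb
      refine le_trans (Finset.card_le_card ?_) hdiv
      intro i hi
      rw [Finset.mem_union, Finset.mem_filter, Finset.mem_filter] at hi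
      rw [Finset.mem_filter]
      refine ⟨Finset.mem_univ _, ?_⟩
      rcases hi with ⟨_, h⟩ | ⟨_, h⟩
      · exact (Prod.mk.inj h).2
      · exact absurd (Prod.mk.inj h).1.symm h01
    · refine le_trans (Finset.card_le_card ?_) hmod
      intro i hi
      rw [Finset.mem_union, Finset.mem_filter, Finset.mem_filter] at hi
      rw [Finset.mem_filter]
      refine ⟨Finset.mem_univ _, ?_⟩
      rcases hi with ⟨_, h⟩ | ⟨_, h⟩
      · exact absurd (Prod.mk.inj h).1.symm hb
      · exact (Prod.mk.inj h).2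
  fibd := fun i j h => by
    have h1 : ((0 : Fin 2), i.divNat) = (1, j.modNat) := h
    exact absurd (Prod.mk.inj h1).1 (by decide)
  Φcard := by
    have h1 : (cD a J K).Φ = Finset.univ.map ⟨fun s : Fin (a * a - K) => .inr (.inl s),
        fun s s' h => Sum.inl_injective (Sum.inr_injective h)⟩ := by
      ext x
      rw [mem_Φ, Finset.mem_map]
      constructor
      · rintro ⟨s, rfl⟩; exact ⟨s, Finset.mem_univ _, rfl⟩
      · rintro ⟨s, _, rfl⟩; exact ⟨s, rfl⟩
    rw [h1, Finset.card_map, Finset.card_univ, Fintype.card_fin, Fintype.card_fin]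
    omega
  Wcard := by
    have h1 : (cD a J K).W = Finset.univ.map ⟨fun s : Fin (2 * K) => .inr (.inr (.inl s)),
        fun s s' h => Sum.inl_injective (Sum.inr_injective (Sum.inr_injective h))⟩ := by
      ext x
      rw [mem_W, Finset.mem_map]
      constructor
      · rintro ⟨s, rfl⟩; exact ⟨s, Finset.mem_univ _, rfl⟩
      · rintro ⟨s, _, rfl⟩; exact ⟨s, rfl⟩
    rw [h1, Finset.card_map, Finset.card_univ, Fintype.card_fin]

/-- the network uses all columns -/
lemma cD_all : (cD a J K).all J = Finset.univ := by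
  apply Finset.eq_univ_of_forall
  intro x
  unfold NetD.all
  simp only [Finset.mem_union, Finset.mem_biUnion, Finset.mem_univ, true_and, mem_fanU, mem_clU,
    mem_Φ, mem_W]
  rcases x with ⟨i, s⟩ | (x | (x | ⟨c, x⟩))
  · exact Or.inl ⟨i, s, rfl⟩
  · exact Or.inr (Or.inr (Or.inl ⟨x, rfl⟩))
  · exact Or.inr (Or.inr (Or.inr ⟨x, rfl⟩))
  · exact Or.inr (Or.inl ⟨c, x, rfl⟩)

end Conc

end Pool.Agent.W940.G
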