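import Pool.Agent.W940.G5

set_option autoImplicit false
set_option linter.unusedSectionVars false

open MvPolynomial Finset

namespace Pool.Agent.W940.G

open Pool.Agent.H546R2.SL (eps lin)
open Pool.Agent.H546R2.SM (per bl)

section Iter

variable {R : Type*} [CommRing R]

/-- monomial operations on the wires -/
abbrev Op (P R : Type*) := (P ≃ P) × (P → R)

/-- the action of an operation on the active parts of the wires -/
def act {P Γ : Type*} (o : Op P R) (E : P → Γ → R) : P → Γ → R := fun p c => o.2 p * E (o.1 p) c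

/-- a family of operations indexed by the natural numbers -/
structure IsFam {P : Type*} (fam : ℕ → Op P R) : Prop where
  one : ∀ p, (fam 0).1 p = p
  onew : ∀ p, (fam 0).2 p = 1
  add : ∀ a b p, (fam (a + b)).1 p = (fam b).1 ((fam a).1 p)
  addw : ∀ a b p, (fam (a + b)).2 p = (fam a).2 p * (fam b).2 ((fam a).1 p)

lemma IsFam.act_zero {P Γ : Type*} {fam : ℕ → Op P R} (h : IsFam fam) (E : P → Γ → R) :
    act (fam 0) E = E := by
  funext p c
  unfold act
  rw [h.one, h.onew, one_mul]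

lemma IsFam.act_add {P Γ : Type*} {fam : ℕ → Op P R} (h : IsFam fam) (a b : ℕ) (E : P → Γ → R) :
    act (fam (a + b)) E = act (fam a) (act (fam b) E) := by
  funext p c
  unfold act
  rw [h.add, h.addw, mul_assoc]

/-- adding `x` to one entry -/
def upd {ρ Γ : Type*} [DecidableEq ρ] [DecidableEq Γ] (A : ρ → Γ → R) (r₀ : ρ) (c₀ : Γ) (x : R) :
    ρ → Γ → R := fun r c => A r c + if r = r₀ then (if c = c₀ then x else 0) else 0

/-- an enlargement of matrices -/
structure IsEnl (S : Subring R) {P ρ Γ ρ' Γ' : Type*} [DecidableEq ρ] [DecidableEq Γ]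
    [DecidableEq ρ'] [DecidableEq Γ'] (T : (ρ → Γ → R) → (ρ' → Γ' → R))
    (F : (P → Γ → R) → (P → Γ' → R)) : Prop where
  upd : ∀ r₀ c₀, ∃ i₀ j₀, ∀ A x, T (G.upd A r₀ c₀ x) = G.upd (T A) i₀ j₀ x
  mem : ∀ A i j, T A i j ∈ S ∨ ∃ r c, T A i j = A r c
  act : ∀ (o : Op P R) E, F (G.act o E) = G.act o (F E)
  memF : ∀ E p j, F E p j = 0 ∨ ∃ c, F E p j = E p c

lemma IsEnl.comp {S : Subring R} {P ρ Γ ρ' Γ' ρ'' Γ'' : Type*} [DecidableEq ρ] [DecidableEq Γ]
    [DecidableEq ρ'] [DecidableEq Γ'] [DecidableEq ρ''] [DecidableEq Γ'']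
    {T : (ρ → Γ → R) → (ρ' → Γ' → R)} {F : (P → Γ → R) → (P → Γ' → R)}
    {T' : (ρ' → Γ' → R) → (ρ'' → Γ'' → R)} {F' : (P → Γ' → R) → (P → Γ'' → R)}
    (h : IsEnl S T F) (h' : IsEnl S T' F') :
    IsEnl S (fun A => T' (T A)) (fun E => F' (F E)) where
  upd := fun r₀ c₀ => by
    obtain ⟨i₀, j₀, h1⟩ := h.upd r₀ c₀
    obtain ⟨i₁, j₁, h2⟩ := h'.upd i₀ j₀
    refine ⟨i₁, j₁, fun A x => ?_⟩
    rw [h1, h2]
  mem := fun A i j => by
    rcases h'.mem (T A) i j with h1 | ⟨r, c, h1⟩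
    · exact Or.inl h1
    · rw [h1]
      exact h.mem A r c
  act := fun o E => by rw [h.act, h'.act]
  memF := fun E p j => by
    rcases h'.memF (F E) p j with h1 | ⟨c, h1⟩
    · exact Or.inl h1
    · rw [h1]
      exact h.memF E p c

lemma isEnl_stage (S : Subring R) {ρ B P Γ : Type*} [DecidableEq ρ] [DecidableEq B]
    [DecidableEq P] [DecidableEq Γ] {w : ℕ} {ζ : Fin w → R} {N : P → Γ → R}
    {π : B → (P ≃ P)} {wt : B → P → R} (hζ : ∀ i, ζ i ∈ S) (hN : ∀ p c, N p c ∈ S)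
    (hwt : ∀ b p, wt b p ∈ S) :
    IsEnl S (P := P) (fun A : ρ → Γ → R => stA ζ A N π wt) (fun E => stE B w E) where
  upd := fun r₀ c₀ => by
    refine ⟨.inl (.inl r₀), .inl (.inr c₀), fun A x => ?_⟩
    funext i j
    rcases i with ((r | p) | ⟨b, i⟩) <;> rcases j with ((⟨b', p'⟩ | c) | j) <;>
      simp [stA, G.upd]
  mem := fun A i j => by
    rcases i with ((r | p) | ⟨b, i⟩) <;> rcases j with ((⟨b', p'⟩ | c) | j) <;>
      simp only [stA]
    · exact Or.inl S.zero_mem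
    · exact Or.inr ⟨r, c, rfl⟩
    · exact Or.inl S.zero_mem
    · left
      split_ifs
      · exact hwt _ _
      · exact S.zero_mem
    · exact Or.inl (hN _ _)
    · exact Or.inl S.zero_mem
    · left
      split_ifs
      · exact S.one_mem
      · exact S.zero_mem
    · exact Or.inl S.zero_mem
    · exact Or.inl (hζ _)
  act := fun o E => by
    funext p j
    rcases j with ((⟨b', p'⟩ | c) | j) <;> simp [stE, G.act]
  memF := fun E p j => by
    rcases j with ((⟨b', p'⟩ | c) | j)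
    · exact Or.inl rfl
    · exact Or.inr ⟨c, rfl⟩
    · exact Or.inl rfl

lemma sum_two_pow (ℓ : ℕ) (f : ℕ → R) : ∑ g ∈ range (2 ^ (ℓ + 1)), f g =
    ∑ g ∈ range (2 ^ ℓ), (f g + f (2 ^ ℓ + g)) := by
  rw [pow_succ, mul_two, Finset.sum_range_add, Finset.sum_add_distrib]

/-- **iteration** of stages -/
theorem iter (S : Subring R) {P : Type} [Fintype P] [DecidableEq P] {w : ℕ}
    (hP : Fintype.card P = w) (hw : 0 < w) {ζ : Fin w → R} {κ : R} (hζ : IsZeta R ζ κ)
    (hζS : ∀ i, ζ i ∈ S) {fam : ℕ → Op P R} (hfam : IsFam fam) (hfS : ∀ a p, (fam a).2 p ∈ S)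
    (ℓ : ℕ) : ∀ (ρ Γ : Type) [Fintype ρ] [DecidableEq ρ] [Fintype Γ] [DecidableEq Γ]
    (N : P → Γ → R) (_ : ∀ p c, N p c ∈ S),
    ∃ (ρ' Γ' : Type) (_ : Fintype ρ') (_ : DecidableEq ρ') (_ : Fintype Γ') (_ : DecidableEq Γ')
      (T : (ρ → Γ → R) → (ρ' → Γ' → R)) (F : (P → Γ → R) → (P → Γ' → R)) (N' : P → Γ' → R),
      Fintype.card ρ' = Fintype.card ρ + 3 * w * ℓ ∧
      Fintype.card Γ' = Fintype.card Γ + 3 * w * ℓ ∧ IsEnl S T F ∧ (∀ p c, N' p c ∈ S) ∧
      ∀ A E, per (St (T A) fun p c => N' p c + F E p c) =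
        (κ * (w.factorial : R) ^ 2) ^ ℓ *
          ∑ g ∈ range (2 ^ ℓ), per (St A fun p c => N p c + act (fam g) E p c) := by
  induction ℓ with
  | zero =>
    intro ρ Γ _ _ _ _ N hN
    refine ⟨ρ, Γ, inferInstance, inferInstance, inferInstance, inferInstance, fun A => A,
      fun E => E, N, by ring, by ring, ⟨fun r₀ c₀ => ⟨r₀, c₀, fun A x => rfl⟩,
      fun A i j => Or.inr ⟨i, j, rfl⟩, fun o E => rfl, fun E p j => Or.inr ⟨j, rfl⟩⟩, hN, ?_⟩
    intro A E
    rw [pow_zero, one_mul, pow_zero, Finset.sum_range_one, hfam.act_zero]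
  | succ ℓ ih =>
    intro ρ Γ _ _ _ _ N hN
    set π : Fin 2 → (P ≃ P) := fun b => if b = 0 then (fam 0).1 else (fam (2 ^ ℓ)).1 with hπ
    set wt : Fin 2 → P → R := fun b => if b = 0 then (fam 0).2 else (fam (2 ^ ℓ)).2 with hwt
    have hwtS : ∀ b p, wt b p ∈ S := by
      intro b p
      rw [hwt]
      simp only
      split_ifs
      · exact hfS _ _
      · exact hfS _ _
    have hN1 : ∀ p c, stN R (Fin 2) P Γ w p c ∈ S := by
      intro p c
      rcases c with ((⟨b', p'⟩ | c) | j)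
      · simp only [stN]
        split_ifs
        · exact S.one_mem
        · exact S.zero_mem
      · exact S.zero_mem
      · exact S.zero_mem
    obtain ⟨ρ', Γ', i1, i2, i3, i4, T, F, N', hc, hc', henl, hN', hper⟩ :=
      ih ((ρ ⊕ P) ⊕ (Fin 2 × Fin w)) (((Fin 2 × P) ⊕ Γ) ⊕ Fin w) (stN R (Fin 2) P Γ w) hN1
    refine ⟨ρ', Γ', i1, i2, i3, i4, fun A => T (stA ζ A N π wt), fun E => F (stE (Fin 2) w E), N',
      ?_, ?_, (isEnl_stage S hζS hN hwtS).comp henl, hN', ?_⟩
    · rw [hc]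
      simp only [Fintype.card_sum, Fintype.card_prod, Fintype.card_fin, hP]
      ring
    · rw [hc']
      simp only [Fintype.card_sum, Fintype.card_prod, Fintype.card_fin, hP]
      ring
    · intro A E
      rw [hper, sum_two_pow, pow_succ (κ * (w.factorial : R) ^ 2) ℓ, mul_assoc]
      congr 1
      rw [Finset.mul_sum]
      apply Finset.sum_congr rfl
      intro g _
      have h1 : act (fam g) (stE (Fin 2) w E) = stE (Fin 2) w (act (fam g) E) :=
        ((isEnl_stage (ρ := ρ) (B := Fin 2) (π := π) S hζS hN hwtS).act (fam g) E).symm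
      rw [h1, per_stage hP hw ζ κ hζ A N (act (fam g) E) π wt, Fintype.card_fin, Fin.sum_univ_two]
      have h2 : (fun p c => N p c + wt 0 p * act (fam g) E (π 0 p) c) =
          fun p c => N p c + act (fam g) E p c := by
        funext p c
        rw [hwt, hπ]
        simp only [if_true]
        rw [hfam.one, hfam.onew, one_mul]
      have h3 : (fun p c => N p c + wt 1 p * act (fam g) E (π 1 p) c) =
          fun p c => N p c + act (fam (2 ^ ℓ + g)) E p c := by
        rw [hfam.act_add]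
        rfl
      rw [h2, h3]

end Iter

end Pool.Agent.W940.G
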