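import Pool.Agent.W944.Semi

/-! # Constant perturbations of matrices whose determinant has a limit divisible by a prime -/

set_option autoImplicit false
set_option linter.unusedSectionVars false

open Module MvPolynomial

namespace Pool.Agent.W940.M

open Pool.Agent.W944 (exists_primitive scalar_mem)

variable {Ω L : Type*} [Field Ω] [Field L] {σ : Type*}
  {O : ValuationSubring L} (φ : O →+* Ω)

/-- the leading coefficient of `f` is divisible by `F` -/
def Lc (F : MvPolynomial σ Ω) (f : MvPolynomial σ L) : Prop :=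
  ∃ (c : L) (Q : MvPolynomial σ O), c ≠ 0 ∧ f = C c * map O.subtype Q ∧ map φ Q ≠ 0 ∧
    F ∣ map φ Q

variable {φ}

lemma lc_unique (hφ : ∀ c : O, φ c ≠ 0 → ((c : L)⁻¹) ∈ O) {F : MvPolynomial σ Ω}
    {f : MvPolynomial σ L} (hf : Lc φ F f) (c : L) (Q : MvPolynomial σ O)
    (h : f = C c * map O.subtype Q) : F ∣ map φ Q := by
  obtain ⟨c', Q', hc', h', hQ', hF⟩ := hf
  have hc : c ≠ 0 := by
    rintro rfl
    rw [map_zero, zero_mul] at h
    rw [h] at h'
    have h1 : map O.subtype Q' = 0 := by
      rcases mul_eq_zero.mp h'.symm with h2 | h2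
      · exact absurd (C_eq_zero.mp h2) hc'
      · exact h2
    have h2 : Q' = 0 := map_injective O.subtype Subtype.val_injective (by rw [h1, map_zero])
    exact hQ' (by rw [h2, map_zero])
  have h1 : map O.subtype Q = C (c⁻¹ * c') * map O.subtype Q' := by
    have h3 : C c * map O.subtype Q = C c * (C (c⁻¹ * c') * map O.subtype Q') := by
      rw [← h, h', ← mul_assoc, ← map_mul, ← mul_assoc, mul_inv_cancel₀ hc, one_mul]
    exact mul_left_cancel₀ (by rw [Ne, C_eq_zero]; exact hc) h3
  have h4 := scalar_mem hφ Q Q' _ h1 hQ'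
  have h5 : Q = C ⟨_, h4⟩ * Q' := by
    apply map_injective O.subtype Subtype.val_injective
    rw [h1, (map O.subtype).map_mul, MvPolynomial.map_C]
    rfl
  rw [h5, map_mul]
  exact hF.mul_left _

/-- domination -/
lemma dominate (π : O) (hπ0 : π ≠ 0) (hπ : φ π = 0) (g : MvPolynomial σ L) (c w₀ : L)
    (hc : c ≠ 0) (hw₀ : w₀ ≠ 0) : ∃ (w : L) (R : MvPolynomial σ O), w ≠ 0 ∧ w⁻¹ * w₀ ∈ O ∧
      g = C (w * c) * map O.subtype R ∧ map φ R = 0 := by
  by_cases hg : g = 0
  · exact ⟨w₀, 0, hw₀, by rw [inv_mul_cancel₀ hw₀]; exact O.one_mem, by rw [hg, map_zero, mul_zero],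
      map_zero _⟩
  obtain ⟨d, Q, hd, hQ, _⟩ := exists_primitive φ g hg
  have hπL : (π : L) ≠ 0 := fun h => hπ0 (Subtype.val_injective h)
  set r : L := d / (c * π) with hr
  have hr0 : r ≠ 0 := div_ne_zero hd (mul_ne_zero hc hπL)
  rcases O.mem_or_inv_mem (r⁻¹ * w₀) with h | h
  · refine ⟨r, C π * Q, hr0, h, ?_, ?_⟩
    · rw [(map O.subtype).map_mul, MvPolynomial.map_C, ← mul_assoc, ← map_mul, hQ]
      congr 2
      change d = r * c * (π : L)
      rw [hr]
      field_simp
    · rw [map_mul, MvPolynomial.map_C, hπ, map_zero, zero_mul]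
  · rw [mul_inv, inv_inv] at h
    refine ⟨w₀, C (π * ⟨_, h⟩) * Q, hw₀, by rw [inv_mul_cancel₀ hw₀]; exact O.one_mem, ?_, ?_⟩
    · rw [(map O.subtype).map_mul, MvPolynomial.map_C, ← mul_assoc, ← map_mul, hQ]
      congr 2
      change d = w₀ * c * ((π : L) * (r * w₀⁻¹))
      rw [hr]
      field_simp
    · rw [map_mul, MvPolynomial.map_C, map_mul, hπ, zero_mul, map_zero, zero_mul]

/-- one scalar dominating finitely many polynomials -/
lemma dominate_all (π : O) (hπ0 : π ≠ 0) (hπ : φ π = 0) {κ : Type*} (s : Finset κ)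
    (g : κ → MvPolynomial σ L) : ∃ w : L, w ≠ 0 ∧ ∀ i ∈ s, ∃ R : MvPolynomial σ O,
      C w⁻¹ * g i = map O.subtype R ∧ map φ R = 0 := by
  classical
  induction s using Finset.induction_on with
  | empty => exact ⟨1, one_ne_zero, fun i hi => absurd hi (Finset.notMem_empty i)⟩
  | insert i s hi ih =>
    obtain ⟨w₀, hw₀, h⟩ := ih
    obtain ⟨w, R, hw, hww, hg, hR⟩ := dominate (φ := φ) π hπ0 hπ (g i) 1 w₀ one_ne_zero hw₀
    refine ⟨w, hw, fun l hl => ?_⟩
    rcases Finset.mem_insert.mp hl with rfl | hl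
    · refine ⟨R, ?_, hR⟩
      rw [hg, ← mul_assoc, ← map_mul, mul_one, inv_mul_cancel₀ hw, map_one, one_mul]
    · obtain ⟨R', hR', hR'2⟩ := h l hl
      refine ⟨C ⟨_, hww⟩ * R', ?_, by rw [map_mul, hR'2, mul_zero]⟩
      rw [(map O.subtype).map_mul, MvPolynomial.map_C, ← hR', ← mul_assoc]
      congr 1
      change C w⁻¹ = C (w⁻¹ * w₀) * C w₀⁻¹
      rw [← map_mul]
      congr 1
      rw [mul_assoc, mul_inv_cancel₀ hw₀, mul_one]

section Mat

variable {N : ℕ}

lemma det_add_single {R : Type*} [CommRing R] (B : Matrix (Fin N) (Fin N) R) (p : Fin N) (w : R) :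
    (B + Matrix.diagonal (Pi.single p w)).det = B.det + w * B.adjugate p p := by
  have h1 : B + Matrix.diagonal (Pi.single p w) =
      B.updateRow p (B p + w • Pi.single p 1) := by
    ext i j
    by_cases hi : i = p
    · subst hi
      rw [Matrix.updateRow_self, Matrix.add_apply, Pi.add_apply, Pi.smul_apply, smul_eq_mul]
      congr 1
      by_cases hj : j = i
      · subst hj; simp
      · rw [Matrix.diagonal_apply_ne _ (Ne.symm hj), Pi.single_eq_of_ne hj, mul_zero]
    · rw [Matrix.updateRow_ne hi, Matrix.add_apply]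
      by_cases hj : i = j
      · subst hj; simp [hi]
      · rw [Matrix.diagonal_apply_ne _ hj, add_zero]
  rw [h1, Matrix.det_updateRow_add, Matrix.updateRow_eq_self, Matrix.det_updateRow_smul,
    Matrix.adjugate_apply]

/-- the perturbation lemma -/
lemma path (hφ : ∀ c : O, φ c ≠ 0 → ((c : L)⁻¹) ∈ O) (π : O) (hπ0 : π ≠ 0) (hπ : φ π = 0)
    (F : MvPolynomial σ Ω) (A : Matrix (Fin N) (Fin N) (MvPolynomial σ L))
    (hA : Lc φ F A.det) (w₀ : L) (hw₀ : w₀ ≠ 0) (T : Finset (Fin N)) :
    (∃ (z : Fin N → L) (p : Fin N) (w κ : L) (Q0 Q1 : MvPolynomial σ O), κ ≠ 0 ∧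
      (A + Matrix.diagonal fun i => C (z i)).det = C κ * map O.subtype Q0 ∧
      C w * (A + Matrix.diagonal fun i => C (z i)).adjugate p p = C κ * map O.subtype Q1 ∧
      map φ Q0 ≠ 0 ∧ F ∣ map φ Q0 ∧ ¬ F ∣ map φ Q1) ∨
    ∃ z : Fin N → L, (∀ i, i ∉ T → z i = 0) ∧ (∀ i ∈ T, z i ≠ 0 ∧ (z i)⁻¹ * w₀ ∈ O) ∧
      Lc φ F (A + Matrix.diagonal fun i => C (z i)).det := by
  classical
  induction T using Finset.induction_on with
  | empty =>
    right
    refine ⟨fun _ => 0, fun _ _ => rfl, fun i hi => absurd hi (Finset.notMem_empty i), ?_⟩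
    have : (Matrix.diagonal fun _ : Fin N => C (0 : L) : Matrix (Fin N) (Fin N) (MvPolynomial σ L))
        = 0 := by
      simp
    rw [this, add_zero]
    exact hA
  | insert p T hp ih =>
    rcases ih with h | ⟨z, hz1, hz2, hz3⟩
    · exact Or.inl h
    set B := A + Matrix.diagonal fun i => C (z i) with hB
    -- the update of `z`
    have hup : ∀ w : L, (A + Matrix.diagonal fun i => C (Function.update z p w i)) =
        B + Matrix.diagonal (Pi.single p (C w)) := by
      intro w
      rw [hB, add_assoc, Matrix.diagonal_add]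
      congr 2
      funext i
      by_cases hi : i = p
      · subst hi
        rw [Function.update_self, Pi.single_eq_same, hz1 i hp, map_zero, zero_add]
      · rw [Function.update_of_ne hi, Pi.single_eq_of_ne hi, add_zero]
    obtain ⟨c, Q, hc, hQ, hQ0, hQF⟩ := hz3
    by_cases hh : B.adjugate p p = 0
    · right
      refine ⟨Function.update z p w₀, ?_, ?_, ?_⟩
      · intro i hi
        rw [Finset.mem_insert, not_or] at hi
        rw [Function.update_of_ne hi.1]
        exact hz1 i hi.2
      · intro i hi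
        rcases Finset.mem_insert.mp hi with rfl | hi2
        · rw [Function.update_self]
          exact ⟨hw₀, by rw [inv_mul_cancel₀ hw₀]; exact O.one_mem⟩
        · rw [Function.update_of_ne (by rintro rfl; exact hp hi2)]
          exact hz2 i hi2
      · rw [hup, det_add_single, hh, mul_zero, add_zero]
        exact ⟨c, Q, hc, hQ, hQ0, hQF⟩
    · obtain ⟨d, P, hd, hP, hP0⟩ := exists_primitive φ (B.adjugate p p) hh
      by_cases hPF : F ∣ map φ P
      · right
        obtain ⟨w, R, hw, hww, hg, hR⟩ := dominate (φ := φ) π hπ0 hπ B.det d w₀ hd hw₀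
        refine ⟨Function.update z p w, ?_, ?_, ?_⟩
        · intro i hi
          rw [Finset.mem_insert, not_or] at hi
          rw [Function.update_of_ne hi.1]
          exact hz1 i hi.2
        · intro i hi
          rcases Finset.mem_insert.mp hi with rfl | hi2
          · rw [Function.update_self]
            exact ⟨hw, hww⟩
          · rw [Function.update_of_ne (by rintro rfl; exact hp hi2)]
            exact hz2 i hi2
        · rw [hup, det_add_single]
          refine ⟨w * d, R + P, mul_ne_zero hw hd, ?_, ?_, ?_⟩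
          · rw [hg, hP, (map O.subtype).map_add, mul_add, map_mul C w d]
            ring
          · rw [map_add, hR, zero_add]; exact hP0
          · rw [map_add, hR, zero_add]; exact hPF
      · left
        refine ⟨z, p, c * d⁻¹, c, Q, P, hc, hQ, ?_, hQ0, hQF, hPF⟩
        rw [hP, ← mul_assoc, ← map_mul, mul_assoc, inv_mul_cancel₀ hd, mul_one]

/-- the result of the perturbation -/
theorem perturb (hφ : ∀ c : O, φ c ≠ 0 → ((c : L)⁻¹) ∈ O) (π : O) (hπ0 : π ≠ 0) (hπ : φ π = 0)
    (F : MvPolynomial σ Ω) (hF : ¬ IsUnit F) (δ : ℕ)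
    (A : Matrix (Fin N) (Fin N) (MvPolynomial σ L)) (hAδ : ∀ i j, (A i j).totalDegree ≤ δ)
    (D : MvPolynomial σ O) (hD : map O.subtype D = A.det) (hD0 : map φ D ≠ 0)
    (hFD : F ∣ map φ D) :
    ∃ (B : Matrix (Fin N) (Fin N) (MvPolynomial σ L)) (p : Fin N) (w : L)
      (Q0 Q1 : MvPolynomial σ O), (∀ i j, (B i j).totalDegree ≤ δ) ∧
      map O.subtype Q0 = B.det ∧ map O.subtype Q1 = C w * B.adjugate p p ∧
      map φ Q0 ≠ 0 ∧ F ∣ map φ Q0 ∧ ¬ F ∣ map φ Q1 := by
  classical
  have hA : Lc φ F A.det := ⟨1, D, one_ne_zero, by rw [map_one, one_mul, hD], hD0, hFD⟩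
  obtain ⟨w₀, hw₀, hw⟩ := dominate_all (φ := φ) π hπ0 hπ Finset.univ
    (fun x : Fin N × Fin N => A x.1 x.2)
  rcases path hφ π hπ0 hπ F A hA w₀ hw₀ Finset.univ with
    ⟨z, p, w, κ, Q0, Q1, hκ, h0, h1, h2, h3, h4⟩ | ⟨z, _, hz, hlc⟩
  · set B := A + Matrix.diagonal fun i => C (z i) with hB
    have hBδ : ∀ i j, (B i j).totalDegree ≤ δ := by
      intro i j
      rw [hB, Matrix.add_apply]
      refine (totalDegree_add _ _).trans (max_le (hAδ i j) ?_)
      by_cases hij : i = j
      · subst hij
        rw [Matrix.diagonal_apply_eq, totalDegree_C]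
        exact Nat.zero_le _
      · rw [Matrix.diagonal_apply_ne _ hij, totalDegree_zero]
        exact Nat.zero_le _
    refine ⟨B.updateRow p ((C κ⁻¹ : MvPolynomial σ L) • B p), p, w * κ⁻¹, Q0, Q1, ?_, ?_, ?_,
      h2, h3, h4⟩
    · intro i j
      by_cases hi : i = p
      · subst hi
        rw [Matrix.updateRow_self, Pi.smul_apply, smul_eq_mul]
        refine (totalDegree_mul _ _).trans ?_
        rw [totalDegree_C, zero_add]
        exact hBδ i j
      · rw [Matrix.updateRow_ne hi]
        exact hBδ i j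
    · rw [Matrix.det_updateRow_smul, Matrix.updateRow_eq_self, h0, ← mul_assoc, ← map_mul,
        inv_mul_cancel₀ hκ, map_one, one_mul]
    · rw [Matrix.adjugate_apply, Matrix.updateRow_idem, ← Matrix.adjugate_apply, map_mul]
      have h5 : C κ⁻¹ * (C w * B.adjugate p p) = map O.subtype Q1 := by
        rw [h1, ← mul_assoc, ← map_mul, inv_mul_cancel₀ hκ, map_one, one_mul]
      rw [← h5]
      ring
  · exfalso
    -- the matrix is a diagonal matrix times a matrix specializing to the identity
    choose R hR1 hR2 using hw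
    have hz' : ∀ i, z i ≠ 0 ∧ (z i)⁻¹ * w₀ ∈ O := fun i => hz i (Finset.mem_univ _)
    set E : Matrix (Fin N) (Fin N) (MvPolynomial σ O) := fun i j =>
      C ⟨_, (hz' i).2⟩ * R (i, j) (Finset.mem_univ _) + if i = j then 1 else 0 with hE
    have h1 : (A + Matrix.diagonal fun i => C (z i)) =
        (Matrix.diagonal fun i => C (z i)) * E.map (map O.subtype) := by
      ext1 i j
      rw [Matrix.diagonal_mul, Matrix.map_apply, hE, (map O.subtype).map_add,
        (map O.subtype).map_mul, MvPolynomial.map_C, ← hR1, Matrix.add_apply]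
      have h2 : (C (z i) : MvPolynomial σ L) * (C (O.subtype ⟨_, (hz' i).2⟩) * (C w₀⁻¹ *
          A (i, j).1 (i, j).2)) = A i j := by
        change C (z i) * (C ((z i)⁻¹ * w₀) * (C w₀⁻¹ * A i j)) = A i j
        rw [← mul_assoc, ← mul_assoc, ← map_mul, ← map_mul]
        have : z i * ((z i)⁻¹ * w₀) * w₀⁻¹ = 1 := by
          field_simp [(hz' i).1]
        rw [this, map_one, one_mul]
      rw [mul_add, h2]
      congr 1
      by_cases hij : i = j
      · subst hij
        rw [Matrix.diagonal_apply_eq, if_pos rfl, map_one, mul_one]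
      · rw [Matrix.diagonal_apply_ne _ hij, if_neg hij, map_zero, mul_zero]
    have h2 : (A + Matrix.diagonal fun i => C (z i)).det =
        C (∏ i, z i) * map O.subtype E.det := by
      rw [h1, Matrix.det_mul, Matrix.det_diagonal, map_prod]
      congr 1
      rw [← RingHom.mapMatrix_apply, ← RingHom.map_det]
    have h3 : map φ E.det = 1 := by
      rw [RingHom.map_det, RingHom.mapMatrix_apply]
      have : E.map (map φ) = 1 := by
        ext1 i j
        rw [Matrix.map_apply, hE, map_add, map_mul, hR2, mul_zero, zero_add, Matrix.one_apply]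
        split_ifs <;> simp
      rw [this, Matrix.det_one]
    have h4 := lc_unique hφ hlc _ _ h2
    rw [h3] at h4
    exact hF (isUnit_of_dvd_one h4)

end Mat

end Pool.Agent.W940.M
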