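import Pool.Agent.H546R2.SL.A12

/-! # Polynomials which vanish on the zeros of the permanent -/

set_option autoImplicit false
set_option linter.unusedSectionVars false

open MvPolynomial Finset

namespace Pool.Agent.W940.M

open Pool.Agent.H546R2.SL (perN)

variable {K : Type*} [Field K] {σ : Type*}

/-- a polynomial does not divide its derivative with respect to a variable which occurs -/
lemma not_dvd_pderiv [CharZero K] (F : MvPolynomial σ K) (u : σ) (hu : degreeOf u F ≠ 0) :
    ¬ F ∣ pderiv u F := by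
  classical
  have hF0 : F ≠ 0 := by
    rintro rfl
    exact hu (degreeOf_zero u)
  obtain ⟨m, hm, hmd⟩ : ∃ m ∈ F.support, m u = degreeOf u F := by
    rw [degreeOf_eq_sup]
    obtain ⟨m, hm, h⟩ := Finset.exists_mem_eq_sup F.support
      (MvPolynomial.support_nonempty.mpr hF0) (fun m => m u)
    exact ⟨m, hm, h.symm⟩
  have h1 : pderiv u F ≠ 0 := by
    intro h
    have h2 := congrArg (coeff (m - Finsupp.single u 1)) h
    rw [coeff_pderiv, coeff_zero] at h2
    have h3 : m - Finsupp.single u 1 + Finsupp.single u 1 = m := by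
      apply tsub_add_cancel_of_le
      rw [Finsupp.single_le_iff]
      omega
    rw [h3] at h2
    rcases mul_eq_zero.mp h2 with h4 | h4
    · exact (MvPolynomial.mem_support_iff.mp hm) h4
    · exact (Nat.cast_add_one_ne_zero (R := K) _) h4
  have h2 : degreeOf u (pderiv u F) < degreeOf u F := by
    rw [degreeOf_lt_iff (by omega)]
    intro l hl
    rw [MvPolynomial.mem_support_iff, coeff_pderiv] at hl
    have h3 : l + Finsupp.single u 1 ∈ F.support := by
      rw [MvPolynomial.mem_support_iff]
      exact left_ne_zero_of_mul hl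
    have h4 := monomial_le_degreeOf u h3
    rw [Finsupp.add_apply, Finsupp.single_eq_same] at h4
    omega
  rintro ⟨q, hq⟩
  have hq0 : q ≠ 0 := by
    rintro rfl
    rw [mul_zero] at hq
    exact h1 hq
  have h3 := degreeOf_mul_eq (n := u) hF0 hq0
  rw [← hq] at h3
  omega

/-- the values do not depend on the variable `u` -/
def Indep [DecidableEq σ] (u : σ) (p : MvPolynomial σ K) : Prop :=
  ∀ (x : σ → K) (c : K), eval (Function.update x u c) p = eval x p

lemma Indep.add [DecidableEq σ] {u : σ} {p q : MvPolynomial σ K} (hp : Indep u p)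
    (hq : Indep u q) : Indep u (p + q) := fun x c => by rw [map_add, map_add, hp, hq]

lemma Indep.mul [DecidableEq σ] {u : σ} {p q : MvPolynomial σ K} (hp : Indep u p)
    (hq : Indep u q) : Indep u (p * q) := fun x c => by rw [map_mul, map_mul, hp, hq]

lemma Indep.neg [DecidableEq σ] {u : σ} {p : MvPolynomial σ K} (hp : Indep u p) :
    Indep u (-p) := fun x c => by rw [map_neg, map_neg, hp]

lemma Indep.pow [DecidableEq σ] {u : σ} {p : MvPolynomial σ K} (hp : Indep u p) (n : ℕ) :
    Indep u (p ^ n) := fun x c => by rw [map_pow, map_pow, hp]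

lemma Indep.C [DecidableEq σ] {u : σ} (a : K) : Indep u (C a : MvPolynomial σ K) :=
  fun x c => by rw [eval_C, eval_C]

lemma Indep.X [DecidableEq σ] {u j : σ} (h : j ≠ u) : Indep u (X j : MvPolynomial σ K) :=
  fun x c => by rw [eval_X, eval_X, Function.update_of_ne h]

lemma pseudo [DecidableEq σ] (u : σ) (Q R : MvPolynomial σ K) (hQ : Indep u Q) (hR : Indep u R)
    (D : MvPolynomial σ K) : ∃ (n : ℕ) (G D' : MvPolynomial σ K),
      Q ^ n * D = (X u * Q + R) * G + D' ∧ Indep u D' := by
  induction D using MvPolynomial.induction_on with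
  | C a => exact ⟨0, 0, C a, by ring, Indep.C a⟩
  | add p q hp hq =>
    obtain ⟨n, G, D', h1, h2⟩ := hp
    obtain ⟨l, H, E', h3, h4⟩ := hq
    refine ⟨n + l, Q ^ l * G + Q ^ n * H, Q ^ l * D' + Q ^ n * E', ?_,
      ((hQ.pow l).mul h2).add ((hQ.pow n).mul h4)⟩
    calc Q ^ (n + l) * (p + q) = Q ^ l * (Q ^ n * p) + Q ^ n * (Q ^ l * q) := by ring
      _ = _ := by rw [h1, h3]; ring
  | mul_X p j hp =>
    obtain ⟨n, G, D', h1, h2⟩ := hp
    by_cases hj : j = u
    · subst hj
      refine ⟨n + 1, Q * X j * G + D', -(R * D'), ?_, (hR.mul h2).neg⟩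
      calc Q ^ (n + 1) * (p * X j) = Q * X j * (Q ^ n * p) := by ring
        _ = _ := by rw [h1]; ring
    · refine ⟨n, G * X j, D' * X j, ?_, h2.mul (Indep.X hj)⟩
      calc Q ^ n * (p * X j) = (Q ^ n * p) * X j := by ring
        _ = _ := by rw [h1]; ring

/-- a polynomial vanishing on the zeros of a polynomial linear in a variable -/
lemma vanish_dvd [Infinite K] [DecidableEq σ] (u : σ) (f Q R D : MvPolynomial σ K)
    (hQ : Indep u Q) (hR : Indep u R) (hf : f = X u * Q + R)
    (hD : ∀ x : σ → K, eval x f = 0 → eval x D = 0) : ∃ n : ℕ, f ∣ Q ^ n * D := by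
  obtain ⟨n, G, D', h1, h2⟩ := pseudo u Q R hQ hR D
  rw [← hf] at h1
  by_cases hQ0 : Q = 0
  · exact ⟨1, by rw [hQ0, pow_one, zero_mul]; exact dvd_zero _⟩
  have h3 : Q * D' = 0 := by
    apply MvPolynomial.funext
    intro x
    rw [map_mul, map_zero]
    by_cases hx : eval x Q = 0
    · rw [hx, zero_mul]
    · set x' := Function.update x u (-(eval x R) / eval x Q) with hx'
      have h4 : eval x' f = 0 := by
        rw [hf, map_add, map_mul, eval_X, hx', hQ, hR, Function.update_self]
        field_simp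
        ring
      have h5 := congrArg (eval x') h1
      rw [map_mul, hD x' h4, mul_zero, map_add, map_mul, h4, zero_mul, zero_add, hx', h2] at h5
      rw [← h5, mul_zero]
  rcases mul_eq_zero.mp h3 with h | h
  · exact absurd h hQ0
  · rw [h, add_zero] at h1
    exact ⟨n, Dvd.intro _ h1.symm⟩

section Perm

variable (K) {m : ℕ}

lemma pderiv_prod (τ : Equiv.Perm (Fin m)) (i₀ j₀ : Fin m) :
    pderiv (i₀, j₀) (∏ l, (X (τ l, l) : MvPolynomial (Fin m × Fin m) K)) =
      if τ j₀ = i₀ then ∏ l ∈ Finset.univ.erase j₀, X (τ l, l) else 0 := by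
  classical
  rw [← Finset.mul_prod_erase Finset.univ _ (Finset.mem_univ j₀)]
  have h2 : pderiv (i₀, j₀) (∏ l ∈ Finset.univ.erase j₀,
      (X (τ l, l) : MvPolynomial (Fin m × Fin m) K)) = 0 := by
    apply Pool.Agent.H546R2.SL.pderiv_prod_zero
    intro i hi
    rw [pderiv_X_of_ne]
    intro h
    rw [Prod.mk.injEq] at h
    exact (Finset.mem_erase.mp hi).1 h.2
  rw [Derivation.leibniz, h2, smul_zero, zero_add, smul_eq_mul]
  by_cases h : τ j₀ = i₀
  · rw [if_pos h, h, pderiv_X_self, mul_one]
  · rw [if_neg h, pderiv_X_of_ne, mul_zero]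
    intro hh
    rw [Prod.mk.injEq] at hh
    exact h hh.1

lemma perN_split (u : Fin m × Fin m) : ∃ R : MvPolynomial (Fin m × Fin m) K,
    Indep u (pderiv u (perN K m)) ∧ Indep u R ∧ perN K m = X u * pderiv u (perN K m) + R := by
  classical
  obtain ⟨i₀, j₀⟩ := u
  have hind : ∀ τ : Equiv.Perm (Fin m), Indep (i₀, j₀)
      (∏ l ∈ Finset.univ.erase j₀, (X (τ l, l) : MvPolynomial (Fin m × Fin m) K)) := by
    intro τ x c
    rw [map_prod, map_prod]
    apply Finset.prod_congr rfl
    intro l hl
    rw [eval_X, eval_X, Function.update_of_ne]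
    intro h
    rw [Prod.mk.injEq] at h
    exact (Finset.mem_erase.mp hl).1 h.2
  have hp : perN K m = ∑ τ : Equiv.Perm (Fin m), ∏ l, X (τ l, l) := rfl
  refine ⟨∑ τ : Equiv.Perm (Fin m), if τ j₀ = i₀ then 0 else ∏ l, X (τ l, l), ?_, ?_, ?_⟩
  · rw [hp, map_sum]
    intro x c
    rw [map_sum, map_sum]
    apply Finset.sum_congr rfl
    intro τ _
    rw [pderiv_prod]
    split_ifs
    · exact hind τ x c
    · rw [map_zero, map_zero]
  · intro x c
    rw [map_sum, map_sum]
    apply Finset.sum_congr rfl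
    intro τ _
    split_ifs with h
    · rw [map_zero, map_zero]
    · rw [← Finset.mul_prod_erase Finset.univ _ (Finset.mem_univ j₀), map_mul, map_mul, hind,
        eval_X, eval_X, Function.update_of_ne]
      intro hh
      rw [Prod.mk.injEq] at hh
      exact h hh.1
  · rw [hp, map_sum, Finset.mul_sum, ← Finset.sum_add_distrib]
    apply Finset.sum_congr rfl
    intro τ _
    rw [pderiv_prod]
    split_ifs with h
    · rw [add_zero, ← Finset.mul_prod_erase Finset.univ _ (Finset.mem_univ j₀), h]
    · rw [mul_zero, zero_add]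

/-- polynomials which vanish at all matrices with permanent zero -/
lemma perN_vanish [Infinite K] (D : MvPolynomial (Fin m × Fin m) K)
    (hD : ∀ x : Fin m × Fin m → K, eval x (perN K m) = 0 → eval x D = 0) (u : Fin m × Fin m) :
    ∃ n : ℕ, perN K m ∣ pderiv u (perN K m) ^ n * D := by
  classical
  obtain ⟨R, h1, h2, h3⟩ := perN_split K u
  exact vanish_dvd u _ _ R D h1 h2 h3 hD

end Perm

end Pool.Agent.W940.M
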