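import Mathlib

/-! # The generic translate of a polynomial -/

set_option autoImplicit false
set_option linter.unusedSectionVars false

open MvPolynomial

namespace Pool.Agent.W940.M

section Clear

variable {R T : Type*} [CommRing R] [IsDomain R] [Field T] [Algebra R T] [IsFractionRing R T]
  {ι : Type*}

lemma map_inj : Function.Injective (map (σ := ι) (algebraMap R T)) :=
  map_injective _ (IsFractionRing.injective R T)

attribute [local instance] MvPolynomial.algebraMvPolynomial in
lemma clear (g : MvPolynomial ι T) : ∃ (c : R) (g' : MvPolynomial ι R), c ≠ 0 ∧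
    C (algebraMap R T c) * g = map (algebraMap R T) g' := by
  obtain ⟨⟨x, ⟨y, hy⟩⟩, h⟩ := IsLocalization.surj (M := (nonZeroDivisors R).map (C (σ := ι)))
    (S := MvPolynomial ι T) g
  obtain ⟨c, hc, rfl⟩ := Submonoid.mem_map.mp hy
  refine ⟨c, x, nonZeroDivisors.ne_zero hc, ?_⟩
  simp only [MvPolynomial.algebraMap_def] at h
  rw [← h, MvPolynomial.map_C, mul_comm]

lemma not_dvd_C {p : MvPolynomial ι R} (hp : p.totalDegree ≠ 0) {c : R} (hc : c ≠ 0) :
    ¬ p ∣ C c := by
  rintro ⟨q, hq⟩
  have hq0 : q ≠ 0 := by
    rintro rfl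
    rw [mul_zero] at hq
    exact hc (C_eq_zero.mp hq)
  have hp0 : p ≠ 0 := by
    rintro rfl
    exact hp totalDegree_zero
  have h := congrArg totalDegree hq
  rw [totalDegree_C, totalDegree_mul_of_isDomain hp0 hq0] at h
  omega

/-- a prime polynomial of positive degree stays prime over the field of fractions -/
lemma dvd_of_map_dvd {p : MvPolynomial ι R} (hp : Prime p) (hd : p.totalDegree ≠ 0)
    {g : MvPolynomial ι R} (h : map (algebraMap R T) p ∣ map (algebraMap R T) g) : p ∣ g := by
  obtain ⟨q, hq⟩ := h
  obtain ⟨c, q', hc, hq'⟩ := clear (R := R) q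
  have h1 : map (algebraMap R T) (C c * g) = map (algebraMap R T) (p * q') := by
    rw [map_mul, map_mul, MvPolynomial.map_C, hq, ← hq']
    ring
  have h2 := map_inj h1
  rcases hp.dvd_or_dvd (Dvd.intro _ h2.symm) with h3 | h3
  · exact absurd h3 (not_dvd_C hd hc)
  · exact h3

lemma prime_map {p : MvPolynomial ι R} (hp : Prime p) (hd : p.totalDegree ≠ 0) :
    Prime (map (algebraMap R T) p) := by
  refine ⟨?_, ?_, ?_⟩
  · intro h
    exact hp.ne_zero (map_inj (by rw [h, map_zero]))
  · intro h
    have h1 : map (algebraMap R T) p ∣ map (algebraMap R T) 1 := by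
      rw [map_one]
      exact h.dvd
    exact hp.not_isUnit (isUnit_of_dvd_one (dvd_of_map_dvd hp hd h1))
  · intro a b h
    obtain ⟨c, a', hc, ha⟩ := clear (R := R) a
    obtain ⟨d, b', hd', hb⟩ := clear (R := R) b
    have h1 : map (algebraMap R T) p ∣ map (algebraMap R T) (a' * b') := by
      rw [map_mul, ← ha, ← hb]
      have : C (algebraMap R T c) * a * (C (algebraMap R T d) * b) =
        C (algebraMap R T c) * C (algebraMap R T d) * (a * b) := by ring
      rw [this]
      exact h.mul_left _
    have hu : ∀ {c : R} {a : MvPolynomial ι T} {a' : MvPolynomial ι R}, c ≠ 0 →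
        C (algebraMap R T c) * a = map (algebraMap R T) a' → p ∣ a' →
        map (algebraMap R T) p ∣ a := by
      intro c a a' hc ha h
      have h2 : map (algebraMap R T) p ∣ C (algebraMap R T c) * a := by
        rw [ha]
        exact map_dvd _ h
      have h3 : IsUnit (C (algebraMap R T c) : MvPolynomial ι T) := by
        apply IsUnit.map
        rw [isUnit_iff_ne_zero]
        exact (map_ne_zero_iff _ (IsFractionRing.injective R T)).mpr hc
      exact (h3.dvd_mul_left).mp h2
    rcases hp.dvd_or_dvd (dvd_of_map_dvd hp hd h1) with h2 | h2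
    · exact Or.inl (hu hc ha h2)
    · exact Or.inr (hu hd' hb h2)

end Clear

section Generic

variable {K : Type*} [Field K] {σ ι : Type*}

/-- the generic translate over the polynomial ring -/
noncomputable def Th (S : σ → MvPolynomial ι K) :
    MvPolynomial σ K →+* MvPolynomial ι (MvPolynomial σ K) :=
  eval₂Hom (C.comp C) fun u => map C (S u) + C (X u)

@[simp] lemma Th_C (S : σ → MvPolynomial ι K) (a : K) : Th S (C a) = C (C a) := by
  simp [Th]

@[simp] lemma Th_X (S : σ → MvPolynomial ι K) (u : σ) :
    Th S (X u) = map C (S u) + C (X u) := by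
  simp [Th]

/-- the corresponding endomorphism -/
noncomputable def Ps (S : σ → MvPolynomial ι K) :
    MvPolynomial ι (MvPolynomial σ K) →+* MvPolynomial ι (MvPolynomial σ K) :=
  eval₂Hom (Th S) X

@[simp] lemma Ps_C (S : σ → MvPolynomial ι K) (a : MvPolynomial σ K) : Ps S (C a) = Th S a := by
  simp [Ps]

@[simp] lemma Ps_X (S : σ → MvPolynomial ι K) (i : ι) : Ps S (X i) = X i := by
  simp [Ps]

lemma Ps_map (S : σ → MvPolynomial ι K) (g : MvPolynomial ι K) :
    Ps S (map C g) = map C g := by
  have h : (Ps S).comp (map C) = (map C : MvPolynomial ι K →+* _) := by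
    apply MvPolynomial.ringHom_ext
    · intro a; simp
    · intro i; simp
  exact RingHom.congr_fun h g

lemma Ps_Ps (S S' : σ → MvPolynomial ι K) (h : ∀ u, S u + S' u = 0) :
    (Ps S).comp (Ps S') = RingHom.id _ := by
  apply MvPolynomial.ringHom_ext
  · intro a
    have h1 : ((Ps S).comp (Ps S')).comp C =
        (C : MvPolynomial σ K →+* MvPolynomial ι (MvPolynomial σ K)) := by
      apply MvPolynomial.ringHom_ext
      · intro a; simp
      · intro u
        simp only [RingHom.coe_comp, Function.comp_apply, Ps_C, Th_X, map_add, Ps_map]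
        rw [← add_assoc, ← map_add, add_comm (S' u), h, map_zero, zero_add]
    exact RingHom.congr_fun h1 a
  · intro i; simp

/-- the automorphism -/
noncomputable def Pe (S : σ → MvPolynomial ι K) :
    MvPolynomial ι (MvPolynomial σ K) ≃+* MvPolynomial ι (MvPolynomial σ K) :=
  RingEquiv.ofRingHom (Ps S) (Ps fun u => - S u) (Ps_Ps _ _ fun u => add_neg_cancel (S u))
    (Ps_Ps _ _ fun u => neg_add_cancel (S u))

lemma Pe_C (S : σ → MvPolynomial ι K) (a : MvPolynomial σ K) : Pe S (C a) = Th S a :=
  Ps_C S a

lemma prime_Th (S : σ → MvPolynomial ι K) {F : MvPolynomial σ K} (hF : Prime F) :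
    Prime (Th S F) := by
  rw [← Pe_C, MulEquiv.prime_iff]
  exact (MvPolynomial.prime_C_iff ι).mpr hF

lemma dvd_of_Th (S : σ → MvPolynomial ι K) {F g : MvPolynomial σ K} (h : Th S F ∣ Th S g) :
    F ∣ g := by
  have h1 := map_dvd (Pe S).symm h
  rw [← Pe_C, ← Pe_C, RingEquiv.symm_apply_apply, RingEquiv.symm_apply_apply,
    C_dvd_iff_dvd_coeff] at h1
  have h2 := h1 0
  rwa [coeff_zero_C] at h2

/-- specialization of the generic translate at `τ = 0` -/
lemma Th_zero (S : σ → MvPolynomial ι K) (g : MvPolynomial σ K) :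
    map (eval (0 : σ → K)) (Th S g) = aeval S g := by
  have h : (map (eval (0 : σ → K))).comp (Th S) = ((aeval S : MvPolynomial σ K →ₐ[K] _) :
      MvPolynomial σ K →+* MvPolynomial ι K) := by
    apply MvPolynomial.ringHom_ext
    · intro a; simp
    · intro u
      simp only [RingHom.coe_comp, Function.comp_apply, Th_X, map_add, MvPolynomial.map_map,
        MvPolynomial.map_C, eval_X, Pi.zero_apply, map_zero, add_zero, RingHom.coe_coe, aeval_X]
      have : (eval (0 : σ → K)).comp C = RingHom.id K := by
        ext a; simp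
      rw [this, MvPolynomial.map_id]
  exact RingHom.congr_fun h g

lemma Th_degree (S : σ → MvPolynomial ι K) (g : MvPolynomial σ K)
    (h : (aeval S g : MvPolynomial ι K).totalDegree ≠ 0) : (Th S g).totalDegree ≠ 0 := by
  intro h0
  apply h
  rw [← Th_zero, totalDegree_eq_zero_iff_eq_C.mp h0, MvPolynomial.map_C, totalDegree_C]

end Generic

end Pool.Agent.W940.M
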