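import Pool.Agent.W944.FamilyD

/-! # Comparison of dimensions -/

set_option autoImplicit false
set_option linter.unusedSectionVars false

open Module MvPolynomial

namespace Pool.Agent.W940.M

open Pool.Agent.W944 (xsp xsp_fg sp mem_sp sp_fg sp_mul_le sp_pow_le xsp_le_sp qmap)
open Pool.Agent.H546R2.SL (finrank_span_mul)

/-- the product of a power of the coordinates and a power of the span of a family -/
noncomputable def ws (K : Type*) [Field K] (ι : Type*) (R : Type*) [CommRing R] [Algebra K R]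
    [Algebra (MvPolynomial ι K) R] {V : Type*} (g : V → MvPolynomial ι K) (a τ : ℕ) :
    Submodule K R :=
  xsp K ι R ^ a * (Submodule.span K
    (Set.range fun v => algebraMap (MvPolynomial ι K) R (g v))) ^ τ

lemma ws_fg {K : Type*} [Field K] {ι : Type*} [Fintype ι] {R : Type*} [CommRing R] [Algebra K R]
    [Algebra (MvPolynomial ι K) R] [IsScalarTower K (MvPolynomial ι K) R] {V : Type*} [Finite V] (g : V → MvPolynomial ι K) (a τ : ℕ) :
    (ws K ι R g a τ).FG :=
  (xsp_fg.pow _).mul ((Submodule.fg_span (Set.finite_range _)).pow _)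

section Spec

variable {Ω L : Type*} [Field Ω] [Field L] {ι : Type*} [Fintype ι]
  {O : ValuationSubring L} {φ : O →+* Ω} {j : Ω →+* O} (hj : ∀ c, φ (j c) = c)

variable {R' : Type*} [CommRing R'] [Algebra L R'] [Algebra (MvPolynomial ι L) R']
  [IsScalarTower L (MvPolynomial ι L) R']

variable {R₀ : Type*} [CommRing R₀] [Algebra Ω R₀] [Algebra (MvPolynomial ι Ω) R₀]
  [IsScalarTower Ω (MvPolynomial ι Ω) R₀]

include hj in
/-- specialization does not increase dimensions -/
theorem spec_fam (hφ : ∀ c : O, φ c ≠ 0 → ((c : L)⁻¹) ∈ O) (P : MvPolynomial ι L)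
    (Q : MvPolynomial ι O) (c : L) (hPQ : P = C c * map O.subtype Q) (hQ : map φ Q ≠ 0)
    (hQ0 : algebraMap (MvPolynomial ι Ω) R₀ (map φ Q) = 0)
    (hker : ∀ f, algebraMap (MvPolynomial ι L) R' f = 0 → P ∣ f)
    {V : Type*} [Finite V] (E : V → MvPolynomial ι O) (a τ : ℕ) :
    finrank Ω ↥(ws Ω ι R₀ (fun v => map φ (E v)) a τ) ≤
      finrank L ↥(ws L ι R' (fun v => map O.subtype (E v)) a τ) := by
  have h3 := sp_fg (R₀ := R₀) (R' := R') hj hφ P Q c hPQ hQ hQ0 hker
    (ws L ι R' (fun v => map O.subtype (E v)) a τ) (ws_fg _ _ _)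
  have : FiniteDimensional Ω ↥(sp ι hj R₀ (ws L ι R' (fun v => map O.subtype (E v)) a τ)) :=
    Module.Finite.iff_fg.mpr h3.1
  refine le_trans (Submodule.finrank_mono ?_) h3.2
  unfold ws
  refine le_trans ?_ (sp_mul_le hj _ _)
  apply mul_le_mul'
  · exact (pow_le_pow_left' (xsp_le_sp hj) _).trans (sp_pow_le hj _ _)
  · refine (pow_le_pow_left' ?_ τ).trans (sp_pow_le hj _ _)
    rw [Submodule.span_le]
    rintro _ ⟨v, rfl⟩
    rw [SetLike.mem_coe, mem_sp]
    exact ⟨E v, Submodule.subset_span ⟨v, rfl⟩, rfl⟩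

end Spec

section Base

variable {T L : Type*} [Field T] [Field L] (ψ : T →+* L) {ι : Type*} [Fintype ι]
  {R₁ : Type*} [CommRing R₁] [Algebra T R₁] [Algebra (MvPolynomial ι T) R₁]
  [IsScalarTower T (MvPolynomial ι T) R₁]
  {R₂ : Type*} [CommRing R₂] [Algebra L R₂] [Algebra (MvPolynomial ι L) R₂]
  [IsScalarTower L (MvPolynomial ι L) R₂]
  (ρ : R₁ →+* R₂) (hρ : ∀ f, ρ (algebraMap (MvPolynomial ι T) R₁ f) =
    algebraMap (MvPolynomial ι L) R₂ (map ψ f))

include hρ in
lemma rho_smul (c : T) (r : R₁) : ρ (c • r) = ψ c • ρ r := by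
  rw [Algebra.smul_def, Algebra.smul_def, map_mul,
    IsScalarTower.algebraMap_apply T (MvPolynomial ι T) R₁,
    IsScalarTower.algebraMap_apply L (MvPolynomial ι L) R₂, hρ]
  congr 2
  rw [algebraMap_eq, algebraMap_eq, MvPolynomial.map_C]

/-- the subspace generated by the image -/
noncomputable def ext (V : Submodule T R₁) : Submodule L R₂ := Submodule.span L (ρ '' V)

lemma ext_mul (V W : Submodule T R₁) : ext (L := L) ρ V * ext (L := L) ρ W ≤ ext ρ (V * W) := by
  unfold ext
  rw [Submodule.span_mul_span]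
  apply Submodule.span_mono
  rintro _ ⟨_, ⟨x, hx, rfl⟩, _, ⟨y, hy, rfl⟩, rfl⟩
  exact ⟨x * y, Submodule.mul_mem_mul hx hy, map_mul _ _ _⟩

lemma ext_pow (V : Submodule T R₁) (n : ℕ) : ext (L := L) ρ V ^ n ≤ ext ρ (V ^ n) := by
  induction n with
  | zero =>
    rw [pow_zero, pow_zero, Submodule.one_eq_span]
    apply Submodule.span_mono
    rintro _ rfl
    exact ⟨1, Submodule.one_le.mp le_rfl, map_one _⟩
  | succ n ih =>
    rw [pow_succ, pow_succ]
    exact (mul_le_mul' ih le_rfl).trans (ext_mul ρ _ _)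

include hρ in
lemma ext_finrank (V : Submodule T R₁) (hV : V.FG) :
    (ext (L := L) ρ V).FG ∧ finrank L ↥(ext (L := L) ρ V) ≤ finrank T ↥V := by
  classical
  have : FiniteDimensional T ↥V := Module.Finite.iff_fg.mpr hV
  let b := Module.finBasis T ↥V
  have h : ext (L := L) ρ V ≤ Submodule.span L (Set.range fun i => ρ (b i : R₁)) := by
    unfold ext
    rw [Submodule.span_le]
    rintro _ ⟨x, hx, rfl⟩
    have h1 := b.sum_repr ⟨x, hx⟩
    have h2 : x = ∑ i, b.repr ⟨x, hx⟩ i • (b i : R₁) := by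
      have h3 := congrArg Subtype.val h1
      rw [Submodule.coe_sum] at h3
      exact h3.symm
    rw [h2, map_sum]
    apply Submodule.sum_mem
    intro i _
    rw [rho_smul ψ ρ hρ]
    exact Submodule.smul_mem _ _ (Submodule.subset_span ⟨i, rfl⟩)
  have hfg : (Submodule.span L (Set.range fun i => ρ (b i : R₁))).FG :=
    Submodule.fg_span (Set.finite_range _)
  have hfd : FiniteDimensional L ↥(Submodule.span L (Set.range fun i => ρ (b i : R₁))) :=
    Module.Finite.iff_fg.mpr hfg
  refine ⟨?_, ?_⟩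
  · have := Submodule.finiteDimensional_of_le h
    exact Module.Finite.iff_fg.mp this
  · refine (Submodule.finrank_mono h).trans ?_
    refine (finrank_range_le_card _).trans ?_
    rw [Fintype.card_fin]

include hρ in
/-- base change does not increase dimensions -/
theorem base_fam {V : Type*} [Finite V] (g : V → MvPolynomial ι T) (a τ : ℕ) :
    finrank L ↥(ws L ι R₂ (fun v => map ψ (g v)) a τ) ≤ finrank T ↥(ws T ι R₁ g a τ) := by
  have h3 := ext_finrank ψ ρ hρ (ws T ι R₁ g a τ) (ws_fg _ _ _)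
  have : FiniteDimensional L ↥(ext (L := L) ρ (ws T ι R₁ g a τ)) :=
    Module.Finite.iff_fg.mpr h3.1
  refine le_trans (Submodule.finrank_mono ?_) h3.2
  unfold ws
  refine le_trans ?_ (ext_mul ρ _ _)
  apply mul_le_mul'
  · refine (pow_le_pow_left' ?_ _).trans (ext_pow ρ _ _)
    unfold xsp
    rw [Submodule.span_le]
    rintro _ ⟨o, rfl⟩
    apply Submodule.subset_span
    cases o with
    | none => exact ⟨1, Submodule.subset_span ⟨none, rfl⟩, map_one _⟩
    | some i =>
      refine ⟨algebraMap (MvPolynomial ι T) R₁ (X i), Submodule.subset_span ⟨some i, rfl⟩, ?_⟩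
      rw [hρ, map_X]
      rfl
  · refine (pow_le_pow_left' ?_ τ).trans (ext_pow ρ _ _)
    rw [Submodule.span_le]
    rintro _ ⟨v, rfl⟩
    apply Submodule.subset_span
    exact ⟨_, Submodule.subset_span ⟨v, rfl⟩, hρ _⟩

end Base

section Scale

variable {K : Type*} [Field K] {ι : Type*} {R : Type*} [CommRing R] [IsDomain R] [Algebra K R]
  [Algebra (MvPolynomial ι K) R]

/-- proportional families give the same dimensions -/
theorem scale_fam {V : Type*} (v w : V → MvPolynomial ι K) (h f : R) (hh : h ≠ 0) (hf : f ≠ 0)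
    (hvw : ∀ i, h * algebraMap (MvPolynomial ι K) R (v i) =
      f * algebraMap (MvPolynomial ι K) R (w i)) (a τ : ℕ) :
    finrank K ↥(ws K ι R v a τ) = finrank K ↥(ws K ι R w a τ) := by
  have h1 : ∀ (c : R) (u : V → MvPolynomial ι K),
      Submodule.span K {c} * Submodule.span K
        (Set.range fun i => algebraMap (MvPolynomial ι K) R (u i)) =
      Submodule.span K (Set.range fun i => c * algebraMap (MvPolynomial ι K) R (u i)) := by
    intro c u
    rw [Submodule.span_mul_span, Set.singleton_mul, ← Set.range_comp]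
    rfl
  have h2 : ∀ (c : R) (u : V → MvPolynomial ι K), c ≠ 0 →
      finrank K ↥(ws K ι R u a τ) = finrank K ↥(xsp K ι R ^ a * (Submodule.span K
        (Set.range fun i => c * algebraMap (MvPolynomial ι K) R (u i))) ^ τ) := by
    intro c u hc
    have h3 : Submodule.span K {c ^ τ} = (Submodule.span K {c}) ^ τ := by
      rw [Submodule.span_pow, Set.singleton_pow]
    have h4 : Submodule.span K {c ^ τ} * ws K ι R u a τ = xsp K ι R ^ a * (Submodule.span K
        (Set.range fun i => c * algebraMap (MvPolynomial ι K) R (u i))) ^ τ := by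
      rw [← h1, h3, mul_pow]
      unfold ws
      ring
    rw [← finrank_span_mul (K := K) (c ^ τ) (pow_ne_zero _ hc), h4]
  have h5 : (fun i => h * algebraMap (MvPolynomial ι K) R (v i)) =
      fun i => f * algebraMap (MvPolynomial ι K) R (w i) := funext hvw
  rw [h2 h v hh, h2 f w hf, h5]

end Scale

end Pool.Agent.W940.M
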