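import Pool.Agent.W940.M3

/-! # The inequality for affine substitutions, with values in a domain -/

set_option autoImplicit false
set_option linter.unusedSectionVars false

open Module MvPolynomial

namespace Pool.Agent.W940.M

open Pool.Agent.W944 (xsp border_ineqD totalDegree_aeval_leD totalDegree_pderiv_leD der_det)
open Pool.Agent.H632R2.Border (map_aeval_comm)

variable {K : Type*} [Field K] {ι : Type*} [Fintype ι]
variable {L : Type*} [Field L] {O : ValuationSubring L} {φ : O →+* K} {j : K →+* O}

/-- the inequality of dimensions for an affine substitution in a limit of determinants -/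
theorem subst_border (hj : ∀ c, φ (j c) = c)
    (hφ : ∀ c : O, φ c ≠ 0 → ((c : L)⁻¹) ∈ O) (δ : ℕ) {σ : Type*}
    (f : MvPolynomial σ K)
    (S : σ → MvPolynomial ι K) (hS : ∀ v, (S v).totalDegree ≤ 1)
    (hF0 : aeval S f ≠ 0) {R₀ : Type*} [CommRing R₀] [IsDomain R₀] [Algebra K R₀]
    [Algebra (MvPolynomial ι K) R₀] [IsScalarTower K (MvPolynomial ι K) R₀]
    (hFR : algebraMap (MvPolynomial ι K) R₀ (aeval S f) = 0)
    {V : Type*} [Finite V] (c : V → K) (u : V → σ)
    (N : ℕ) (A : Matrix (Fin N) (Fin N) (MvPolynomial σ L))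
    (hA : ∀ i j, (A i j).totalDegree ≤ δ) (D : MvPolynomial σ O)
    (hD : map O.subtype D = A.det) (hDF : map φ D = f)
    (hne : ∃ v, algebraMap (MvPolynomial ι K) R₀ (C (c v) * aeval S (pderiv (u v) f)) ≠ 0)
    (a a' τ t s : ℕ) (ha : a + (δ - 1) * τ ≤ δ * a') :
    (s + (N - 1)).choose (N - 1) * ((t + N).choose N *
      finrank K ↥(ws K ι R₀ (fun v => C (c v) * aeval S (pderiv (u v) f)) a τ)) ≤
    (Fintype.card ι + 1).multichoose (δ * (a' + t + s)) * N.multichoose (τ + t) *
      N.multichoose (τ + s) := by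
  classical
  have hjφ : φ.comp j = RingHom.id K := RingHom.ext hj
  set SO : σ → MvPolynomial ι O := fun v => map j (S v) with hSO
  set SL : σ → MvPolynomial ι L := fun v => map O.subtype (SO v) with hSL
  have hφS : (fun v => map φ (SO v)) = S := by
    funext v
    rw [hSO]
    simp only
    rw [map_map, hjφ, map_id]
  have hSLdeg : ∀ v, (SL v).totalDegree ≤ 1 := by
    intro v
    rw [hSL, hSO]
    simp only
    rw [map_map]
    exact (Pool.Agent.H632R2.Border.totalDegree_map_le _ _).trans (hS v)
  set M : Matrix (Fin N) (Fin N) (MvPolynomial ι L) := A.map (aeval SL) with hMdef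
  have hdet : M.det = aeval SL A.det := by
    rw [hMdef, ← AlgHom.mapMatrix_apply, ← AlgHom.map_det]
  have hadj : ∀ a b, M.adjugate a b = aeval SL (A.adjugate a b) := by
    intro a b
    have h := AlgHom.map_adjugate (aeval (R := L) SL) A
    rw [AlgHom.mapMatrix_apply, AlgHom.mapMatrix_apply] at h
    rw [hMdef, ← h]
    rfl
  apply border_ineqD (R₀ := R₀) hj hφ δ M ?_ (aeval SO D) ?_ (aeval S f) ?_ hF0 hFR
    (fun v => C (c v) * aeval S (pderiv (u v) f)) ?_ hne a a' τ t s ha
  · -- degrees
    intro a b
    rw [hMdef, Matrix.map_apply]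
    exact totalDegree_aeval_leD SL hSLdeg δ (A a b) (hA a b)
  · rw [map_aeval_comm, hD, hdet]
  · rw [map_aeval_comm, hDF, hφS]
  · intro v
    refine ⟨C (j (c v)) * aeval SO (pderiv (u v) D), ?_, ?_⟩
    · rw [map_mul, map_C, hj, map_aeval_comm, hφS, ← pderiv_map, hDF]
    · rw [map_mul, map_C, map_aeval_comm, ← pderiv_map, hD, ← smul_eq_C_mul]
      apply Submodule.smul_mem
      rw [der_det, map_sum]
      apply Submodule.sum_mem
      intro a _
      rw [map_sum]
      apply Submodule.sum_mem
      intro b _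
      rw [map_mul]
      have g1 : aeval SL (pderiv (u v) (A b a)) ∈ restrictTotalDegree ι L (δ - 1) := by
        rw [mem_restrictTotalDegree]
        exact totalDegree_aeval_leD SL hSLdeg _ _ (totalDegree_pderiv_leD δ _ (hA b a) (u v))
      have g2 : aeval SL (A.adjugate a b) ∈ Submodule.span L
          (Set.range fun x : Fin N × Fin N => M.adjugate x.1 x.2) := by
        rw [← hadj a b]
        exact Submodule.subset_span ⟨(a, b), rfl⟩
      have g3 := Submodule.mul_mem_mul g1 g2
      rw [mul_comm (aeval SL (pderiv (u v) (A b a))) (aeval SL (A.adjugate a b))] at g3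
      exact g3

end Pool.Agent.W940.M
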