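import Pool.Agent.W940.M2
import Pool.Agent.W940.M4

/-! # Translations with values in other rings, and the specialization of the translation -/

set_option autoImplicit false
set_option linter.unusedSectionVars false

open Module MvPolynomial

namespace Pool.Agent.W940.M

open Pool.Agent.H632R2.Border (O0 φ0 ψ0 φψ mem_O0)

section Pi

variable (Ω : Type*) [Field Ω]

/-- the uniformizer -/
noncomputable def piX : O0 Ω := ⟨RatFunc.X, by rw [mem_O0, RatFunc.denom_X]; simp⟩

lemma φ_piX : φ0 Ω (piX Ω) = 0 := by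
  show RatFunc.eval (RingHom.id Ω) 0 RatFunc.X = 0
  rw [RatFunc.eval_X]

lemma piX_ne : piX Ω ≠ 0 := by
  intro h
  have := congrArg (Subtype.val) h
  exact RatFunc.X_ne_zero this

lemma coe_piX : (O0 Ω).subtype (piX Ω) = RatFunc.X := rfl

lemma coe_ψ0 (c : Ω) : (O0 Ω).subtype (ψ0 Ω c) = RatFunc.C c := rfl

lemma coe_ψ0' : (O0 Ω).subtype.comp (ψ0 Ω) = RatFunc.C := rfl

lemma φψ' : (φ0 Ω).comp (ψ0 Ω) = RingHom.id Ω := RingHom.ext (φψ Ω)

end Pi

section Tr

variable {K B B' : Type*} [CommRing K] [CommRing B] [CommRing B'] {σ ι : Type*}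

/-- substitution of affine forms plus a translation, with values in another ring -/
noncomputable def tr (κ : K →+* B) (S : σ → MvPolynomial ι K) (t : σ → B) :
    MvPolynomial σ K →+* MvPolynomial ι B :=
  eval₂Hom (C.comp κ) fun u => map κ (S u) + C (t u)

@[simp] lemma tr_C (κ : K →+* B) (S : σ → MvPolynomial ι K) (t : σ → B) (a : K) :
    tr κ S t (C a) = C (κ a) := by
  simp [tr]

@[simp] lemma tr_X (κ : K →+* B) (S : σ → MvPolynomial ι K) (t : σ → B) (u : σ) :
    tr κ S t (X u) = map κ (S u) + C (t u) := by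
  simp [tr]

lemma map_tr (β : B →+* B') (κ : K →+* B) (S : σ → MvPolynomial ι K) (t : σ → B)
    (g : MvPolynomial σ K) : map β (tr κ S t g) = tr (β.comp κ) S (fun u => β (t u)) g := by
  have h : (map β).comp (tr κ S t) = tr (β.comp κ) S (fun u => β (t u)) := by
    apply MvPolynomial.ringHom_ext
    · intro a; simp
    · intro u; simp [MvPolynomial.map_map]
  exact RingHom.congr_fun h g

lemma tr_congr {κ κ' : K →+* B} (S : σ → MvPolynomial ι K) {t t' : σ → B}
    (hκ : κ = κ') (ht : ∀ u, t u = t' u) (g : MvPolynomial σ K) : tr κ S t g = tr κ' S t' g := by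
  obtain rfl := hκ
  obtain rfl : t = t' := funext ht
  rfl

lemma tr_zero (κ : K →+* B) (S : σ → MvPolynomial ι K) (g : MvPolynomial σ K) :
    tr κ S (fun _ => 0) g = map κ (aeval S g) := by
  have h : tr κ S (fun _ => 0) = (map κ).comp ((aeval S : MvPolynomial σ K →ₐ[K] _) :
      MvPolynomial σ K →+* MvPolynomial ι K) := by
    apply MvPolynomial.ringHom_ext
    · intro a; simp
    · intro u; simp
  exact RingHom.congr_fun h g

end Tr

section Fields

variable (K : Type*) [Field K] (σ : Type*)

/-- the field of the coordinates of the translation -/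
abbrev TT : Type _ := FractionRing (MvPolynomial σ K)

/-- the inclusion of the constants -/
noncomputable def κT : K →+* TT K σ := (algebraMap (MvPolynomial σ K) (TT K σ)).comp C

variable {σ}

/-- the coordinates of the translation -/
noncomputable def tT (u : σ) : TT K σ := algebraMap (MvPolynomial σ K) (TT K σ) (X u)

variable {K}
variable {ι : Type*} (S : σ → MvPolynomial ι K)

/-- the generic translate over the field -/
noncomputable def θT : MvPolynomial σ K →+* MvPolynomial ι (TT K σ) := tr (κT K σ) S (tT K)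

lemma θT_eq (g : MvPolynomial σ K) :
    θT S g = map (algebraMap (MvPolynomial σ K) (TT K σ)) (Th S g) := by
  have h : θT S = (map (algebraMap (MvPolynomial σ K) (TT K σ))).comp (Th S) := by
    apply MvPolynomial.ringHom_ext
    · intro a; simp [θT, κT]
    · intro u; simp [θT, tT, κT, MvPolynomial.map_map]
  exact RingHom.congr_fun h g

lemma prime_θT {F : MvPolynomial σ K} (hF : Prime F)
    (hd : (aeval S F : MvPolynomial ι K).totalDegree ≠ 0) : Prime (θT S F) := by
  rw [θT_eq]
  exact prime_map (prime_Th S hF) (Th_degree S F hd)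

lemma dvd_of_θT {F g : MvPolynomial σ K} (hF : Prime F)
    (hd : (aeval S F : MvPolynomial ι K).totalDegree ≠ 0) (h : θT S F ∣ θT S g) : F ∣ g := by
  rw [θT_eq, θT_eq] at h
  exact dvd_of_Th S (dvd_of_map_dvd (prime_Th S hF) (Th_degree S F hd) h)

/-- the scaling of the coordinates -/
noncomputable def ψp : MvPolynomial σ K →+* Polynomial (TT K σ) :=
  eval₂Hom (Polynomial.C.comp (κT K σ)) fun u => Polynomial.X * Polynomial.C (tT K u)

lemma ψp_eval (g : MvPolynomial σ K) :
    (ψp g).eval 1 = algebraMap (MvPolynomial σ K) (TT K σ) g := by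
  have h : (Polynomial.evalRingHom 1).comp ψp = algebraMap (MvPolynomial σ K) (TT K σ) := by
    apply MvPolynomial.ringHom_ext
    · intro a; simp [ψp, κT]
    · intro u; simp [ψp, tT]
  exact RingHom.congr_fun h g

/-- the scaling of the coordinates, in the field of rational functions -/
noncomputable def ψr : MvPolynomial σ K →+* RatFunc (TT K σ) :=
  (algebraMap (Polynomial (TT K σ)) (RatFunc (TT K σ))).comp ψp

lemma ψr_inj : Function.Injective (ψr (K := K) (σ := σ)) := by
  rw [injective_iff_map_eq_zero]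
  intro g hg
  have h1 : ψp g = 0 := by
    apply RatFunc.algebraMap_injective (TT K σ)
    rw [map_zero]
    exact hg
  have h2 := ψp_eval g
  rw [h1, Polynomial.eval_zero] at h2
  exact IsFractionRing.injective (MvPolynomial σ K) (TT K σ) (by rw [← h2, map_zero])

/-- the scaling of the coordinates on the field -/
noncomputable def ψT : TT K σ →+* RatFunc (TT K σ) :=
  IsFractionRing.lift (A := MvPolynomial σ K) ψr_inj

lemma ψT_κ : (ψT (K := K) (σ := σ)).comp (κT K σ) = RatFunc.C.comp (κT K σ) := by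
  ext a
  rw [RingHom.comp_apply, κT, RingHom.comp_apply, ψT, IsFractionRing.lift_algebraMap]
  simp [ψr, ψp, κT]

lemma ψT_t (u : σ) : ψT (tT K u) = RatFunc.X * RatFunc.C (tT K u) := by
  rw [ψT, tT, IsFractionRing.lift_algebraMap, mul_comm]
  simp [ψr, ψp, tT]

/-- the integral form of the scaled translation -/
noncomputable def θs : MvPolynomial σ K →+* MvPolynomial ι (O0 (TT K σ)) :=
  tr ((ψ0 (TT K σ)).comp (κT K σ)) S fun u => piX (TT K σ) * ψ0 (TT K σ) (tT K u)

lemma θs_φ (g : MvPolynomial σ K) :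
    map (φ0 (TT K σ)) (θs S g) = tr (κT K σ) S (fun _ => 0) g := by
  rw [θs, map_tr]
  apply tr_congr
  · rw [← RingHom.comp_assoc, φψ', RingHom.id_comp]
  · intro u
    rw [map_mul, φ_piX, zero_mul]

lemma θs_sub (g : MvPolynomial σ K) :
    map (O0 (TT K σ)).subtype (θs S g) = map ψT (θT S g) := by
  rw [θs, θT, map_tr, map_tr]
  apply tr_congr
  · rw [← RingHom.comp_assoc, coe_ψ0', ψT_κ]
  · intro u
    rw [map_mul, coe_piX, coe_ψ0, ψT_t]

variable [Fintype ι]

/-- specialization of the translation -/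
theorem step_tau (hφ : ∀ c : O0 (TT K σ), φ0 (TT K σ) c ≠ 0 → ((c : RatFunc (TT K σ))⁻¹) ∈
      O0 (TT K σ)) {F : MvPolynomial σ K} (hF0 : aeval S F ≠ 0) (P : MvPolynomial ι (TT K σ))
    (hPF : P ∣ tr (κT K σ) S (fun _ => 0) F) {V : Type*} [Finite V] (g : V → MvPolynomial σ K)
    (a τ : ℕ) :
    finrank (TT K σ) ↥(ws (TT K σ) ι (MvPolynomial ι (TT K σ) ⧸ Ideal.span {P})
      (fun v => tr (κT K σ) S (fun _ => 0) (g v)) a τ) ≤
    finrank (TT K σ) ↥(ws (TT K σ) ι (MvPolynomial ι (TT K σ) ⧸ Ideal.span {θT S F})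
      (fun v => θT S (g v)) a τ) := by
  set T := TT K σ with hT
  -- base change
  have hle : Ideal.span {θT S F} ≤ (Ideal.span {map ψT (θT S F)}).comap (map (σ := ι) ψT) := by
    rw [Ideal.span_le]
    rintro _ rfl
    exact Ideal.subset_span rfl
  have h1 := base_fam (T := T) (L := RatFunc T) (R₁ := MvPolynomial ι T ⧸ Ideal.span {θT S F})
    (R₂ := MvPolynomial ι (RatFunc T) ⧸ Ideal.span {map ψT (θT S F)}) ψT
    (Ideal.quotientMap _ (map ψT) hle) (fun f => rfl) (fun v => θT S (g v)) a τ
  refine le_trans ?_ h1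
  -- specialization
  have h2 := spec_fam (Ω := T) (L := RatFunc T) (φ := φ0 T) (j := ψ0 T)
    (R' := MvPolynomial ι (RatFunc T) ⧸ Ideal.span {map ψT (θT S F)})
    (R₀ := MvPolynomial ι T ⧸ Ideal.span {P}) (φψ T) hφ (map ψT (θT S F)) (θs S F) 1
    (by rw [map_one, one_mul, θs_sub]) (by
      rw [θs_φ, tr_zero]
      intro h
      apply hF0
      apply map_injective (κT K σ) (κT K σ).injective
      rw [h, map_zero]) (by
      rw [θs_φ]
      exact Ideal.Quotient.eq_zero_iff_mem.mpr (Ideal.mem_span_singleton.mpr hPF))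
    (fun f hf => Ideal.mem_span_singleton.mp (Ideal.Quotient.eq_zero_iff_mem.mp hf))
    (fun v => θs S (g v)) a τ
  have e1 : (fun v => map (φ0 T) (θs S (g v))) =
      fun v => tr (κT K σ) S (fun _ => 0) (g v) := funext fun v => θs_φ S (g v)
  have e2 : (fun v => map (O0 T).subtype (θs S (g v))) =
      fun v => map ψT (θT S (g v)) := funext fun v => θs_sub S (g v)
  rw [e1, e2] at h2
  exact h2

end Fields

end Pool.Agent.W940.M
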