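import Pool.Agent.W940.M5

/-! # The specialization of the pencil parameter -/

set_option autoImplicit false
set_option linter.unusedSectionVars false

open Module MvPolynomial

namespace Pool.Agent.W940.M

open Pool.Agent.H632R2.Border (O0 φ0 ψ0 φψ mem_O0)
open Pool.Agent.W944 (exists_factor cofactor_mem)

variable {K : Type*} [Field K] {σ : Type*} {ι : Type*} (S : σ → MvPolynomial ι K)

/-- the integral form of the translate, constant in the parameter -/
noncomputable def θO : MvPolynomial σ K →+* MvPolynomial ι (O0 (TT K σ)) :=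
  tr ((ψ0 (TT K σ)).comp (κT K σ)) S fun u => ψ0 (TT K σ) (tT K u)

/-- the translate over the field of rational functions in the parameter -/
noncomputable def θ1 : MvPolynomial σ K →+* MvPolynomial ι (RatFunc (TT K σ)) :=
  tr (RatFunc.C.comp (κT K σ)) S fun u => RatFunc.C (tT K u)

lemma θO_φ (g : MvPolynomial σ K) : map (φ0 (TT K σ)) (θO S g) = θT S g := by
  rw [θO, map_tr, θT]
  apply tr_congr
  · rw [← RingHom.comp_assoc, φψ', RingHom.id_comp]
  · intro u
    rw [φψ]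

lemma θO_sub (g : MvPolynomial σ K) : map (O0 (TT K σ)).subtype (θO S g) = θ1 S g := by
  rw [θO, map_tr, θ1]
  apply tr_congr
  · rw [← RingHom.comp_assoc, coe_ψ0']
  · intro u
    rw [coe_ψ0]

lemma θT_ne {g : MvPolynomial σ K} (hg : g ≠ 0) : θT S g ≠ 0 := by
  rw [θT_eq]
  intro h
  have h1 : Th S g = 0 := map_inj (by rw [h, map_zero])
  rw [← Pe_C] at h1
  have h2 : (C g : MvPolynomial ι (MvPolynomial σ K)) = 0 := by
    apply (Pe S).injective
    rw [h1, map_zero]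
  exact hg (C_eq_zero.mp h2)

variable [Fintype ι]

/-- specialization of the parameter of the pencil -/
theorem step_y [CharZero K]
    (hφ : ∀ c : O0 (TT K σ), φ0 (TT K σ) c ≠ 0 → ((c : RatFunc (TT K σ))⁻¹) ∈ O0 (TT K σ))
    {F f H q0 q1 : MvPolynomial σ K} (hF : Prime F)
    (hd : (aeval S F : MvPolynomial ι K).totalDegree ≠ 0) (hf : f = F * H) (hH : ¬ F ∣ H)
    (hq0 : q0 ≠ 0) (hq0F : F ∣ q0) (hq1 : ¬ F ∣ q1) {V : Type*} [Finite V] (c : V → K)
    (u : V → σ) :
    θ1 S q0 + C RatFunc.X * θ1 S q1 ≠ 0 ∧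
    ∃ P₂ : MvPolynomial ι (RatFunc (TT K σ)), Prime P₂ ∧
      P₂ ∣ θ1 S q0 + C RatFunc.X * θ1 S q1 ∧ ∀ a τ,
      finrank (TT K σ) ↥(ws (TT K σ) ι (MvPolynomial ι (TT K σ) ⧸ Ideal.span {θT S F})
        (fun v => θT S (C (c v) * pderiv (u v) f)) a τ) ≤
      finrank (RatFunc (TT K σ)) ↥(ws (RatFunc (TT K σ)) ι
        (MvPolynomial ι (RatFunc (TT K σ)) ⧸ Ideal.span {P₂})
        (fun v => θ1 S (C (c v) * pderiv (u v) q0) +
          C RatFunc.X * θ1 S (C (c v) * pderiv (u v) q1)) a τ) := by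
  classical
  have hFT : Prime (θT S F) := prime_θT S hF hd
  have hprime : (Ideal.span {θT S F}).IsPrime :=
    (Ideal.span_singleton_prime hFT.ne_zero).mpr hFT
  obtain ⟨α, G, hG, hq⟩ := WfDvdMonoid.max_power_factor' hq0 hF.not_isUnit
  obtain ⟨α', rfl⟩ : ∃ α', α = α' + 1 := by
    cases α with
    | zero =>
      rw [pow_zero, one_mul] at hq
      rw [hq] at hq0F
      exact absurd hq0F hG
    | succ n => exact ⟨n, rfl⟩
  set ΦO : MvPolynomial ι (O0 (TT K σ)) := θO S q0 + C (piX (TT K σ)) * θO S q1 with hΦO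
  have hΦφ : map (φ0 (TT K σ)) ΦO = θT S q0 := by
    rw [hΦO, map_add, map_mul, MvPolynomial.map_C, φ_piX, map_zero, zero_mul, add_zero, θO_φ]
  have hΦs : map (O0 (TT K σ)).subtype ΦO = θ1 S q0 + C RatFunc.X * θ1 S q1 := by
    rw [hΦO, map_add, map_mul, MvPolynomial.map_C, coe_piX, θO_sub, θO_sub]
  have hΦ0 : map (φ0 (TT K σ)) ΦO ≠ 0 := by rw [hΦφ]; exact θT_ne S hq0
  have hΦne : θ1 S q0 + C RatFunc.X * θ1 S q1 ≠ 0 := by
    rw [← hΦs]
    intro h
    have : ΦO = 0 := map_injective (O0 (TT K σ)).subtype Subtype.val_injective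
      (by rw [h, map_zero])
    exact hΦ0 (by rw [this, map_zero])
  refine ⟨hΦne, ?_⟩
  have hπ0 : Ideal.Quotient.mk (Ideal.span {θT S F}) (map (φ0 (TT K σ)) ΦO) = 0 := by
    rw [hΦφ]
    exact Ideal.Quotient.eq_zero_iff_mem.mpr
      (Ideal.mem_span_singleton.mpr (map_dvd (θT S) hq0F))
  obtain ⟨P₂, hP₂, hdvd, Q', c', hc', hPQ, hQ', hπ⟩ := exists_factor
    (R₀ := MvPolynomial ι (TT K σ) ⧸ Ideal.span {θT S F})
    (Ideal.Quotient.mk (Ideal.span {θT S F})) hφ _ hΦne ΦO 1 one_ne_zero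
    (by rw [map_one, one_mul, hΦs]) hΦ0 hπ0
  have hP₂p : Prime P₂ := hP₂.prime
  have hprime₂ : (Ideal.span {P₂}).IsPrime :=
    (Ideal.span_singleton_prime hP₂p.ne_zero).mpr hP₂p
  have hQ'F : θT S F ∣ map (φ0 (TT K σ)) Q' :=
    Ideal.mem_span_singleton.mp (Ideal.Quotient.eq_zero_iff_mem.mp hπ)
  -- constants which are not divisible by `F` stay nonzero
  have hkey : ∀ g : MvPolynomial σ K, P₂ ∣ θ1 S g → F ∣ g := by
    rintro g ⟨q, hg⟩
    have h1 : map (O0 (TT K σ)).subtype (θO S g) =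
        map (O0 (TT K σ)).subtype Q' * (C c' * q) := by
      rw [θO_sub, hg, hPQ]; ring
    obtain ⟨H', hH'⟩ := cofactor_mem hφ (θO S g) Q' _ h1 hQ'
    have h2 : θO S g = Q' * H' := by
      apply map_injective (O0 (TT K σ)).subtype Subtype.val_injective
      rw [h1, (map (O0 (TT K σ)).subtype).map_mul Q' H', hH']
    have h3 : θT S g = map (φ0 (TT K σ)) Q' * map (φ0 (TT K σ)) H' := by
      rw [← θO_φ, h2, map_mul]
    exact dvd_of_θT S hF hd (by rw [h3]; exact hQ'F.mul_right _)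
  have hkeyF : ¬ P₂ ∣ θ1 S F := by
    intro h
    have h1 : P₂ ∣ θ1 S q0 := h.trans (map_dvd _ hq0F)
    have h2 : P₂ ∣ C RatFunc.X * θ1 S q1 := (dvd_add_right h1).mp hdvd
    rcases hP₂p.dvd_or_dvd h2 with h3 | h3
    · apply hP₂p.not_isUnit
      exact isUnit_of_dvd_unit h3 ((isUnit_iff_ne_zero.mpr RatFunc.X_ne_zero).map C)
    · exact hq1 (hkey q1 h3)
  refine ⟨P₂, hP₂p, hdvd, fun a τ => ?_⟩
  -- the auxiliary family
  set E : V → MvPolynomial σ K := fun v =>
    ((α' + 1 : ℕ) : MvPolynomial σ K) * G * q1 * (C (c v) * pderiv (u v) F) +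
      F * (q1 * (C (c v) * pderiv (u v) G) - G * (C (c v) * pderiv (u v) q1)) with hE
  have hE1 : ∀ v, F ^ α' * E v = q1 * (C (c v) * pderiv (u v) q0) -
      q0 * (C (c v) * pderiv (u v) q1) := by
    intro v
    rw [hE, hq]
    simp only [pderiv_mul, pderiv_pow, Nat.add_sub_cancel]
    ring
  have hmk : ∀ g, algebraMap (MvPolynomial ι (RatFunc (TT K σ)))
      (MvPolynomial ι (RatFunc (TT K σ)) ⧸ Ideal.span {P₂}) g = 0 ↔ P₂ ∣ g := fun g =>
    (Ideal.Quotient.eq_zero_iff_mem).trans Ideal.mem_span_singleton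
  have hmkT : ∀ g, algebraMap (MvPolynomial ι (TT K σ))
      (MvPolynomial ι (TT K σ) ⧸ Ideal.span {θT S F}) g = 0 ↔ θT S F ∣ g := fun g =>
    (Ideal.Quotient.eq_zero_iff_mem).trans Ideal.mem_span_singleton
  have hs1 := scale_fam (K := RatFunc (TT K σ)) (ι := ι)
    (R := MvPolynomial ι (RatFunc (TT K σ)) ⧸ Ideal.span {P₂})
    (fun v => θ1 S (C (c v) * pderiv (u v) q0) + C RatFunc.X * θ1 S (C (c v) * pderiv (u v) q1))
    (fun v => θ1 S (E v)) (algebraMap _ _ (θ1 S q1)) (algebraMap _ _ (θ1 S (F ^ α')))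
    (fun h => hq1 (hkey _ ((hmk _).mp h)))
    (fun h => hkeyF (hP₂p.dvd_of_dvd_pow (by rw [← map_pow]; exact (hmk _).mp h)))
    (fun v => by
      rw [← sub_eq_zero, ← map_mul, ← map_mul, ← map_sub, hmk, ← map_mul, hE1]
      have : θ1 S q1 * (θ1 S (C (c v) * pderiv (u v) q0) +
          C RatFunc.X * θ1 S (C (c v) * pderiv (u v) q1)) -
          θ1 S (q1 * (C (c v) * pderiv (u v) q0) - q0 * (C (c v) * pderiv (u v) q1)) =
          (θ1 S q0 + C RatFunc.X * θ1 S q1) * θ1 S (C (c v) * pderiv (u v) q1) := by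
        rw [map_sub, map_mul (θ1 S) q1, map_mul (θ1 S) q0]
        ring
      rw [this]
      exact hdvd.mul_right _) a τ
  have hs2 := scale_fam (K := TT K σ) (ι := ι)
    (R := MvPolynomial ι (TT K σ) ⧸ Ideal.span {θT S F})
    (fun v => θT S (E v)) (fun v => θT S (C (c v) * pderiv (u v) f))
    (algebraMap _ _ (θT S H)) (algebraMap _ _ (θT S (((α' + 1 : ℕ) : MvPolynomial σ K) * G * q1)))
    (fun h => hH (dvd_of_θT S hF hd ((hmkT _).mp h)))
    (fun h => by
      have h1 := dvd_of_θT S hF hd ((hmkT _).mp h)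
      rcases hF.dvd_or_dvd h1 with h2 | h2
      · rcases hF.dvd_or_dvd h2 with h3 | h3
        · apply hF.not_isUnit
          apply isUnit_of_dvd_unit h3
          have h4 : ((α' + 1 : ℕ) : MvPolynomial σ K) = C ((α' + 1 : ℕ) : K) := by
            rw [map_natCast]
          rw [h4]
          apply IsUnit.map
          rw [isUnit_iff_ne_zero]
          exact_mod_cast Nat.succ_ne_zero α'
        · exact hG h3
      · exact hq1 h2)
    (fun v => by
      rw [← sub_eq_zero, ← map_mul (algebraMap (MvPolynomial ι (TT K σ)) _),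
        ← map_mul (algebraMap (MvPolynomial ι (TT K σ)) _), ← map_sub, hmkT, ← map_mul, ← map_mul,
        ← map_sub]
      apply map_dvd
      refine ⟨H * (q1 * (C (c v) * pderiv (u v) G) - G * (C (c v) * pderiv (u v) q1)) -
        ((α' + 1 : ℕ) : MvPolynomial σ K) * G * q1 * (C (c v) * pderiv (u v) H), ?_⟩
      rw [hE, hf]
      simp only [pderiv_mul]
      ring) a τ
  have hs3 := spec_fam (Ω := TT K σ) (L := RatFunc (TT K σ)) (φ := φ0 (TT K σ))
    (j := ψ0 (TT K σ)) (R' := MvPolynomial ι (RatFunc (TT K σ)) ⧸ Ideal.span {P₂})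
    (R₀ := MvPolynomial ι (TT K σ) ⧸ Ideal.span {θT S F}) (φψ (TT K σ)) hφ P₂ Q' c' hPQ hQ' hπ
    (fun f hf => (hmk f).mp hf) (fun v => θO S (E v)) a τ
  have e1 : (fun v => map (φ0 (TT K σ)) (θO S (E v))) = fun v => θT S (E v) :=
    funext fun v => θO_φ S (E v)
  have e2 : (fun v => map (O0 (TT K σ)).subtype (θO S (E v))) = fun v => θ1 S (E v) :=
    funext fun v => θO_sub S (E v)
  rw [e1, e2, hs2, ← hs1] at hs3
  exact hs3

end Pool.Agent.W940.M
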