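import Pool.Agent.W940.M1
import Pool.Agent.W940.M6
import Pool.Agent.W944.SmoothFinal

/-! # The chain of specializations for limits of determinants divisible by a polynomial -/

set_option autoImplicit false
set_option linter.unusedSectionVars false

open Module MvPolynomial

namespace Pool.Agent.W940.M

open Pool.Agent.H632R2.Border (O0 φ0 ψ0 φψ mem_O0 rmap rmap_mem rmap_eval totalDegree_map_le)
open Pool.Agent.W944 (inv_mem_O0 xsp)

lemma ws_one {K : Type*} [Field K] {ι : Type*} [Fintype ι] {R : Type*} [CommRing R] [Algebra K R]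
    [Algebra (MvPolynomial ι K) R] [IsScalarTower K (MvPolynomial ι K) R] {V : Type*} [Finite V]
    (g : V → MvPolynomial ι K) :
    finrank K ↥(ws K ι R g 0 1) = 0 ↔ ∀ v, algebraMap (MvPolynomial ι K) R (g v) = 0 := by
  have : FiniteDimensional K ↥(ws K ι R g 0 1) := Module.Finite.iff_fg.mpr (ws_fg _ _ _)
  rw [Submodule.finrank_eq_zero]
  unfold ws
  rw [pow_zero, one_mul, pow_one, Submodule.span_eq_bot]
  constructor
  · intro h v
    exact h _ ⟨v, rfl⟩
  · rintro h _ ⟨v, rfl⟩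
    exact h v

section Maps

variable {K : Type*} [Field K] {Ω : Type*} [Field Ω] (κ : K →+* Ω)

/-- base change of the valuation rings -/
noncomputable def βO : O0 K →+* O0 Ω :=
  ((rmap κ).comp (O0 K).subtype).codRestrict (O0 Ω).toSubring (fun x => rmap_mem κ x.2)

lemma βO_sub : (O0 Ω).subtype.comp (βO κ) = (rmap κ).comp (O0 K).subtype := rfl

lemma βO_φ : (φ0 Ω).comp (βO κ) = κ.comp (φ0 K) := by
  ext x
  exact rmap_eval κ x.2

end Maps

section Pencil

variable {K : Type*} [Field K] {Ω : Type*} [Field Ω] (κ : K →+* Ω) {σ : Type*}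

/-- the pencil over the field of rational functions of a larger field -/
lemma pencil (y : Ω) (δ : ℕ) {N : ℕ} (B : Matrix (Fin N) (Fin N) (MvPolynomial σ (RatFunc K)))
    (hB : ∀ i j, (B i j).totalDegree ≤ δ) (p : Fin N) (w : RatFunc K)
    (Q0 Q1 : MvPolynomial σ (O0 K)) (h0 : map (O0 K).subtype Q0 = B.det)
    (h1 : map (O0 K).subtype Q1 = C w * B.adjugate p p) :
    ∃ (A₁ : Matrix (Fin N) (Fin N) (MvPolynomial σ (RatFunc Ω))) (D₁ : MvPolynomial σ (O0 Ω)),
      (∀ i j, (A₁ i j).totalDegree ≤ δ) ∧ map (O0 Ω).subtype D₁ = A₁.det ∧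
      map (φ0 Ω) D₁ = map κ (map (φ0 K) Q0) + C y * map κ (map (φ0 K) Q1) := by
  classical
  have hmapB : ∀ Q : MvPolynomial σ (O0 K), map (O0 Ω).subtype (map (βO κ) Q) =
      map (rmap κ) (map (O0 K).subtype Q) := by
    intro Q
    rw [MvPolynomial.map_map, MvPolynomial.map_map, βO_sub]
  have hmapφ : ∀ Q : MvPolynomial σ (O0 K), map (φ0 Ω) (map (βO κ) Q) =
      map κ (map (φ0 K) Q) := by
    intro Q
    rw [MvPolynomial.map_map, MvPolynomial.map_map, βO_φ]
  refine ⟨B.map (map (rmap κ)) + Matrix.diagonal (Pi.single p (C (RatFunc.C y * rmap κ w))),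
    map (βO κ) Q0 + C (ψ0 Ω y) * map (βO κ) Q1, ?_, ?_, ?_⟩
  · intro i j
    rw [Matrix.add_apply]
    refine (totalDegree_add _ _).trans (max_le ((totalDegree_map_le _ _).trans (hB i j)) ?_)
    by_cases hij : i = j
    · subst hij
      rw [Matrix.diagonal_apply_eq]
      by_cases hip : i = p
      · subst hip
        rw [Pi.single_eq_same, totalDegree_C]
        exact Nat.zero_le _
      · rw [Pi.single_eq_of_ne hip, totalDegree_zero]
        exact Nat.zero_le _
    · rw [Matrix.diagonal_apply_ne _ hij, totalDegree_zero]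
      exact Nat.zero_le _
  · rw [det_add_single, map_add, map_mul, hmapB, hmapB, MvPolynomial.map_C, h0, h1, coe_ψ0]
    have e1 : (B.map (map (rmap κ))).det = map (rmap κ) B.det := by
      rw [← RingHom.mapMatrix_apply, ← RingHom.map_det]
    have e2 : (B.map (map (rmap κ))).adjugate p p = map (rmap κ) (B.adjugate p p) := by
      have h := RingHom.map_adjugate (map (σ := σ) (rmap κ)) B
      rw [RingHom.mapMatrix_apply, RingHom.mapMatrix_apply] at h
      rw [← h]
      rfl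
    rw [e1, e2, map_mul (map (rmap κ)), MvPolynomial.map_C, map_mul C, mul_assoc]
  · rw [map_add, map_mul, hmapφ, hmapφ, MvPolynomial.map_C, φψ]

end Pencil

section Aev

variable (K : Type*) [Field K] (σ : Type*)

/-- the coefficient map -/
noncomputable def κ1 : K →+* RatFunc (TT K σ) := RatFunc.C.comp (κT K σ)

variable {K σ} {ι : Type*} (S : σ → MvPolynomial ι K)

/-- the substitution over the field of rational functions in the parameter -/
noncomputable def S1 : σ → MvPolynomial ι (RatFunc (TT K σ)) :=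
  fun u => map (κ1 K σ) (S u) + C (RatFunc.C (tT K u))

lemma aeval_S1 (g : MvPolynomial σ K) : aeval (S1 S) (map (κ1 K σ) g) = θ1 S g := by
  have h : ((aeval (S1 S) : MvPolynomial σ (RatFunc (TT K σ)) →ₐ[RatFunc (TT K σ)] _) :
      MvPolynomial σ (RatFunc (TT K σ)) →+* _).comp (map (κ1 K σ)) = θ1 S := by
    apply MvPolynomial.ringHom_ext
    · intro a
      simp [θ1, κ1]
    · intro u
      simp [θ1, κ1, S1]
  exact RingHom.congr_fun h g

lemma S1_deg (hS : ∀ v, (S v).totalDegree ≤ 1) (v : σ) : (S1 S v).totalDegree ≤ 1 := by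
  unfold S1
  refine (totalDegree_add _ _).trans (max_le ((totalDegree_map_le _ _).trans (hS v)) ?_)
  rw [totalDegree_C]
  exact Nat.zero_le _

lemma aeval_pencil (q0 q1 : MvPolynomial σ K) (y : RatFunc (TT K σ)) :
    aeval (S1 S) (map (κ1 K σ) q0 + C y * map (κ1 K σ) q1) = θ1 S q0 + C y * θ1 S q1 := by
  rw [map_add, map_mul, aeval_S1, aeval_S1, aeval_C, algebraMap_eq]

lemma deriv_pencil (q0 q1 : MvPolynomial σ K) (y : RatFunc (TT K σ)) (c : K) (u : σ) :
    C (κ1 K σ c) * aeval (S1 S) (pderiv u (map (κ1 K σ) q0 + C y * map (κ1 K σ) q1)) =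
      θ1 S (C c * pderiv u q0) + C y * θ1 S (C c * pderiv u q1) := by
  rw [map_add, pderiv_C_mul, pderiv_map, pderiv_map, aeval_pencil, map_mul (θ1 S),
    map_mul (θ1 S)]
  have : θ1 S (C c) = C (κ1 K σ c) := by
    rw [θ1, tr_C]
    rfl
  rw [this]
  ring

end Aev

variable {K : Type*} [Field K] [CharZero K] {σ : Type*} {ι : Type*} [Fintype ι]

/-- **The inequality of dimensions for limits of determinants which are divisible by a given
polynomial.** -/
theorem chain_all (δ : ℕ) {N : ℕ} (A : Matrix (Fin N) (Fin N) (MvPolynomial σ (RatFunc K)))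
    (hA : ∀ i j, (A i j).totalDegree ≤ δ) (D : MvPolynomial σ (O0 K))
    (hD : map (O0 K).subtype D = A.det) (hD0 : map (φ0 K) D ≠ 0)
    {F f H : MvPolynomial σ K} (hFD : F ∣ map (φ0 K) D) (hF : Prime F)
    (S : σ → MvPolynomial ι K) (hS : ∀ v, (S v).totalDegree ≤ 1)
    (hd : (aeval S F : MvPolynomial ι K).totalDegree ≠ 0) (hf : f = F * H) (hH : ¬ F ∣ H)
    (P : MvPolynomial ι (TT K σ)) (hPF : P ∣ tr (κT K σ) S (fun _ => 0) F)
    {V : Type*} [Finite V] (c : V → K) (u : V → σ)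
    (hne : ∃ v, ¬ P ∣ tr (κT K σ) S (fun _ => 0) (C (c v) * pderiv (u v) f))
    (a a' τ t s : ℕ) (ha : a + (δ - 1) * τ ≤ δ * a') :
    (s + (N - 1)).choose (N - 1) * ((t + N).choose N *
      finrank (TT K σ) ↥(ws (TT K σ) ι (MvPolynomial ι (TT K σ) ⧸ Ideal.span {P})
        (fun v => tr (κT K σ) S (fun _ => 0) (C (c v) * pderiv (u v) f)) a τ)) ≤
    (Fintype.card ι + 1).multichoose (δ * (a' + t + s)) * N.multichoose (τ + t) *
      N.multichoose (τ + s) := by
  classical
  have hSF0 : aeval S F ≠ 0 := by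
    intro h
    rw [h] at hd
    exact hd totalDegree_zero
  obtain ⟨B, p, w, Q0, Q1, hB, h0, h1, h2, h3, h4⟩ := perturb (inv_mem_O0 K) (piX K)
    (piX_ne K) (φ_piX K) F hF.not_isUnit δ A hA D hD hD0 hFD
  obtain ⟨hΦ, P₂, hP₂, hP₂d, hdim⟩ := step_y S (inv_mem_O0 (TT K σ)) hF hd hf hH h2 h3 h4 c u
  obtain ⟨A₁, D₁, hA₁, hD₁, hD₁φ⟩ := pencil (κ1 K σ) RatFunc.X δ B hB p w Q0 Q1 h0 h1
  have hdim2 := fun a τ => (step_tau S (inv_mem_O0 (TT K σ)) hSF0 P hPF
    (fun v => C (c v) * pderiv (u v) f) a τ).trans (hdim a τ)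
  have hprime₂ : (Ideal.span {P₂}).IsPrime :=
    (Ideal.span_singleton_prime hP₂.ne_zero).mpr hP₂
  have hfun : (fun v => C (κ1 K σ (c v)) * aeval (S1 S) (pderiv (u v)
      (map (κ1 K σ) (map (φ0 K) Q0) + C RatFunc.X * map (κ1 K σ) (map (φ0 K) Q1)))) = fun v =>
      θ1 S (C (c v) * pderiv (u v) (map (φ0 K) Q0)) +
        C RatFunc.X * θ1 S (C (c v) * pderiv (u v) (map (φ0 K) Q1)) :=
    funext fun v => deriv_pencil S _ _ _ _ _
  have hne₁ : ∃ v, algebraMap (MvPolynomial ι (RatFunc (TT K σ)))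
      (MvPolynomial ι (RatFunc (TT K σ)) ⧸ Ideal.span {P₂})
      (C (κ1 K σ (c v)) * aeval (S1 S) (pderiv (u v)
      (map (κ1 K σ) (map (φ0 K) Q0) + C RatFunc.X * map (κ1 K σ) (map (φ0 K) Q1)))) ≠ 0 := by
    by_contra hcon
    push Not at hcon
    have h5 := (ws_one (K := RatFunc (TT K σ))
      (R := MvPolynomial ι (RatFunc (TT K σ)) ⧸ Ideal.span {P₂})
      (fun v => C (κ1 K σ (c v)) * aeval (S1 S) (pderiv (u v)
      (map (κ1 K σ) (map (φ0 K) Q0) + C RatFunc.X * map (κ1 K σ) (map (φ0 K) Q1))))).mpr hcon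
    rw [hfun] at h5
    have h6 := hdim2 0 1
    rw [h5, Nat.le_zero] at h6
    have h7 := (ws_one (K := TT K σ) (R := MvPolynomial ι (TT K σ) ⧸ Ideal.span {P}) _).mp h6
    obtain ⟨v, hv⟩ := hne
    exact hv (Ideal.mem_span_singleton.mp (Ideal.Quotient.eq_zero_iff_mem.mp (h7 v)))
  have hmain := subst_border (K := RatFunc (TT K σ)) (L := RatFunc (RatFunc (TT K σ)))
    (O := O0 (RatFunc (TT K σ)))
    (φ := φ0 (RatFunc (TT K σ))) (j := ψ0 (RatFunc (TT K σ))) (φψ _) (inv_mem_O0 _) δ _ (S1 S)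
    (S1_deg S hS) (by rw [aeval_pencil]; exact hΦ)
    (R₀ := MvPolynomial ι (RatFunc (TT K σ)) ⧸ Ideal.span {P₂})
    (by
      rw [aeval_pencil]
      exact Ideal.Quotient.eq_zero_iff_mem.mpr (Ideal.mem_span_singleton.mpr hP₂d))
    (fun v => κ1 K σ (c v)) u N A₁ hA₁ D₁ hD₁ hD₁φ hne₁ a a' τ t s ha
  rw [hfun] at hmain
  refine le_trans ?_ hmain
  exact Nat.mul_le_mul_left _ (Nat.mul_le_mul_left _ (hdim2 a τ))

end Pool.Agent.W940.M
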