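import Pool.Agent.W940.M7
import Pool.Agent.W940.M10

/-! # The explicit inequality for limits of determinants divisible by a polynomial -/

set_option autoImplicit false
set_option linter.unusedSectionVars false

open Module MvPolynomial

namespace Pool.Agent.W940.M

open Pool.Agent.H632R2.Border (O0 φ0 ψ0 φψ mem_O0 rmap rmap_mem rmap_eval totalDegree_map_le)
open Pool.Agent.W944
open Pool.Agent.H546R2.SL (exists_degree_bound)

section Aux

variable {T : Type*} [Field T] {ι : Type*} [Fintype ι]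

/-- a prime does not divide all variables -/
lemma exists_X_nondvd (P : MvPolynomial ι T) (hP : Prime P) (hι : 2 ≤ Fintype.card ι) :
    ∃ i, ¬ P ∣ X i := by
  classical
  by_contra hcon
  push Not at hcon
  obtain ⟨i, j, hij⟩ := Fintype.exists_pair_of_one_lt_card (by omega : 1 < Fintype.card ι)
  obtain ⟨u, hu⟩ := hcon i
  obtain ⟨v, hv⟩ := hcon j
  have hu0 : u ≠ 0 := by rintro rfl; rw [mul_zero] at hu; exact X_ne_zero _ hu
  have hv0 : v ≠ 0 := by rintro rfl; rw [mul_zero] at hv; exact X_ne_zero _ hv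
  obtain ⟨l, hl⟩ := exists_var P hP
  have d1 := degreeOf_mul_eq (n := l) hP.ne_zero hu0
  have d2 := degreeOf_mul_eq (n := l) hP.ne_zero hv0
  rw [← hu, degreeOf_X] at d1
  rw [← hv, degreeOf_X] at d2
  have e1 : l = i := by
    by_contra h
    rw [if_neg h] at d1
    omega
  have e2 : l = j := by
    by_contra h
    rw [if_neg h] at d2
    omega
  exact hij (e1.symm.trans e2)

variable {K : Type*} [Field K] (κ : K →+* T)

/-- membership of forms in an ideal is preserved by extensions of the field -/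
lemma forms_base {V : Type*} (y : V → MvPolynomial ι K) (M₀ : ℕ)
    (hM₀ : ∀ D ≥ M₀, ∀ p : MvPolynomial ι K, p.IsHomogeneous D → p ∈ Ideal.span (Set.range y)) :
    ∀ D ≥ M₀, ∀ p : MvPolynomial ι T, p.IsHomogeneous D →
      p ∈ Ideal.span (Set.range fun v => map κ (y v)) := by
  intro D hD p hp
  rw [p.as_sum]
  apply Ideal.sum_mem
  intro m hm
  have h1 : (monomial m 1 : MvPolynomial ι K) ∈ Ideal.span (Set.range y) := by
    apply hM₀ D hD
    apply isHomogeneous_monomial
    have h2 := hp (MvPolynomial.mem_support_iff.mp hm)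
    rw [Finsupp.degree_eq_weight_one]
    exact h2
  have h2 := Ideal.mem_map_of_mem (map κ) h1
  rw [Ideal.map_span, ← Set.range_comp, map_monomial, map_one] at h2
  have h3 : (monomial m (coeff m p) : MvPolynomial ι T) = C (coeff m p) * monomial m 1 := by
    rw [C_mul_monomial, mul_one]
  rw [h3]
  exact Ideal.mul_mem_left _ _ h2

end Aux

variable {K : Type*} [Field K] [CharZero K] [IsAlgClosed K] {σ : Type*} [Fintype σ]
  {ι : Type*} [Fintype ι]

/-- a prime factor of the polynomial and a prime factor of its restriction -/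
lemma exists_primes (f : MvPolynomial σ K) (S : σ → MvPolynomial ι K) (hF0 : aeval S f ≠ 0)
    (hFu : ¬ IsUnit (aeval S f)) :
    ∃ (F H : MvPolynomial σ K) (P : MvPolynomial ι (TT K σ)), Prime F ∧ f = F * H ∧ Prime P ∧
      P ∣ tr (κT K σ) S (fun _ => 0) F ∧ (aeval S F : MvPolynomial ι K).totalDegree ≠ 0 := by
  classical
  have hf0 : f ≠ 0 := by
    rintro rfl
    exact hF0 (map_zero _)
  have h1 : tr (κT K σ) S (fun _ => 0) f ≠ 0 := by
    rw [tr_zero]
    intro h
    exact hF0 (map_injective _ (κT K σ).injective (by rw [h, map_zero]))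
  have h2 : ¬ IsUnit (tr (κT K σ) S (fun _ => 0) f) := by
    intro h
    apply hFu
    rw [tr_zero, MvPolynomial.isUnit_iff_eq_C_of_isReduced] at h
    obtain ⟨r, hr, h3⟩ := h
    have h4 : (aeval S f : MvPolynomial ι K) = C (coeff 0 (aeval S f)) := by
      apply map_injective _ (κT K σ).injective
      rw [h3, MvPolynomial.map_C]
      congr 1
      have h5 := congrArg (coeff 0) h3
      rw [coeff_map, coeff_zero_C] at h5
      exact h5.symm
    rw [h4]
    apply IsUnit.map
    rw [isUnit_iff_ne_zero]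
    intro h5
    rw [h5, map_zero] at h4
    exact hF0 h4
  obtain ⟨P, hPi, hPF⟩ := WfDvdMonoid.exists_irreducible_factor h2 h1
  obtain ⟨s, hs, hsf⟩ := WfDvdMonoid.exists_factors f hf0
  obtain ⟨w, hw⟩ := hsf
  rw [← hw, map_mul, map_multiset_prod] at hPF
  have hPp := hPi.prime
  rcases hPp.dvd_or_dvd hPF with h | h
  · obtain ⟨F, hF, hPF'⟩ := hPp.exists_mem_multiset_map_dvd h
    have hFf : F ∣ f := by
      rw [← hw]
      exact (Multiset.dvd_prod hF).mul_right _
    obtain ⟨H, hH⟩ := hFf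
    refine ⟨F, H, P, (hs F hF).prime, hH, hPp, hPF', ?_⟩
    intro h0
    rw [tr_zero, totalDegree_eq_zero_iff_eq_C.mp h0, MvPolynomial.map_C] at hPF'
    apply hPp.not_isUnit
    apply isUnit_of_dvd_unit hPF'
    apply IsUnit.map
    rw [isUnit_iff_ne_zero]
    intro h5
    have h6 : coeff 0 (aeval S F : MvPolynomial ι K) = 0 := by
      apply (κT K σ).injective
      rw [h5, map_zero]
    have h7 : (aeval S F : MvPolynomial ι K) = 0 := by
      rw [totalDegree_eq_zero_iff_eq_C.mp h0, h6, map_zero]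
    apply hF0
    rw [hH, map_mul, h7, zero_mul]
  · exfalso
    exact hPp.not_isUnit (isUnit_of_dvd_unit h (w.isUnit.map _))

/-- **The explicit inequality.** -/
theorem final_ineq (δ : ℕ) (hδ : 1 ≤ δ) {N : ℕ}
    (A : Matrix (Fin N) (Fin N) (MvPolynomial σ (RatFunc K)))
    (hA : ∀ i j, (A i j).totalDegree ≤ δ) (D : MvPolynomial σ (O0 K))
    (hD : map (O0 K).subtype D = A.det) (hD0 : map (φ0 K) D ≠ 0)
    (f : MvPolynomial σ K)
    (hfD : ∀ u : σ, ∃ n : ℕ, f ∣ (pderiv u f * map (φ0 K) D) ^ n)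
    (S : σ → MvPolynomial ι K) (hS : ∀ v, (S v).totalDegree ≤ 1)
    (hF0 : aeval S f ≠ 0) (hFu : ¬ IsUnit (aeval S f))
    {V : Type*} [Finite V] (y : V → MvPolynomial ι K) (e : ℕ)
    (hy : ∀ v, (y v).IsHomogeneous e)
    (hz : ∀ x : ι → K, (∀ v, eval x (y v) = 0) → x = 0)
    (hyS : ∀ v, ∃ (c : K) (u : σ), y v = C c * aeval S (pderiv u f))
    (hι : 2 ≤ Fintype.card ι) :
    2 * (e : ℝ) ^ (Fintype.card ι - 2) ≤
      (Real.exp 1 * (δ * (4 * N / (Fintype.card ι) + 3))) ^ (Fintype.card ι) := by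
  classical
  obtain ⟨F, H, P, hF, hfH, hP, hPF, hd⟩ := exists_primes f S hF0 hFu
  choose c u hcu using hyS
  have hy' : ∀ v, tr (κT K σ) S (fun _ => 0) (C (c v) * pderiv (u v) f) =
      map (κT K σ) (y v) := by
    intro v
    rw [tr_zero, map_mul (aeval S), hcu, aeval_C, algebraMap_eq]
  obtain ⟨M₀, hM₀⟩ := exists_degree_bound y hz
  have hM₁ := forms_base (κT K σ) y M₀ hM₀
  have : (Ideal.span {P}).IsPrime := (Ideal.span_singleton_prime hP.ne_zero).mpr hP
  obtain ⟨j', hj'⟩ := exists_var P hP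
  have hnd : ∃ v, ¬ P ∣ map (κT K σ) (y v) := by
    by_contra hcon
    push Not at hcon
    obtain ⟨i, hi⟩ := exists_X_nondvd P hP hι
    apply hi
    have h1 := hM₁ M₀ le_rfl (X i ^ M₀) (isHomogeneous_X_pow i M₀)
    have h2 : Ideal.span (Set.range fun v => map (κT K σ) (y v)) ≤ Ideal.span {P} := by
      rw [Ideal.span_le]
      rintro _ ⟨v, rfl⟩
      exact Ideal.mem_span_singleton.mpr (hcon v)
    exact hP.dvd_of_dvd_pow (Ideal.mem_span_singleton.mp (h2 h1))
  have hH : ¬ F ∣ H := by
    rintro ⟨H', hH'⟩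
    obtain ⟨v, hv⟩ := hnd
    apply hv
    rw [← hy' v]
    refine hPF.trans (map_dvd _ ?_)
    refine Dvd.dvd.mul_left ?_ _
    rw [hfH, hH', pderiv_mul, pderiv_mul]
    exact ⟨pderiv (u v) F * H' + (pderiv (u v) F * H' + F * pderiv (u v) H'), by ring⟩
  have hFD : F ∣ map (φ0 K) D := by
    obtain ⟨i, hi⟩ := exists_var F hF
    obtain ⟨n, hn⟩ := hfD i
    have h1 := hF.dvd_of_dvd_pow ((Dvd.intro _ hfH.symm).trans hn)
    rcases hF.dvd_or_dvd h1 with h2 | h2
    · exfalso
      rw [hfH, pderiv_mul] at h2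
      have h3 : F ∣ pderiv i F * H := (dvd_add_left (Dvd.intro _ rfl)).mp h2
      rcases hF.dvd_or_dvd h3 with h4 | h4
      · exact not_dvd_pderiv F i hi h4
      · exact hH h4
    · exact h2
  have hN : 0 < N := by
    rcases Nat.eq_zero_or_pos N with h | h
    · subst h
      exfalso
      rw [Matrix.det_fin_zero, ← map_one (map (σ := σ) (O0 K).subtype)] at hD
      rw [map_injective (O0 K).subtype Subtype.val_injective hD, map_one] at hFD
      exact hF.not_isUnit (isUnit_of_dvd_one hFD)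
    · exact h
  -- the lower bound for the dimension
  have hfun : (fun v => tr (κT K σ) S (fun _ => 0) (C (c v) * pderiv (u v) f)) =
      fun v => map (κT K σ) (y v) := funext hy'
  have hchain := chain_all δ A hA D hD hD0 hFD hF S hS hd hfH hH P hPF c u
    (by obtain ⟨v, hv⟩ := hnd; exact ⟨v, by rw [hy' v]; exact hv⟩)
  rw [hfun] at hchain
  have hlow : ∀ τ : ℕ, (τ + 1) * (e * τ + (Fintype.card ι - 2)).choose
      (Fintype.card ι - 2) ≤
      finrank (TT K σ) ↥(ws (TT K σ) ι (MvPolynomial ι (TT K σ) ⧸ Ideal.span {P})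
        (fun v => map (κT K σ) (y v)) (M₀ + e + τ) τ) := by
    intro τ
    have h1 := card_le_finrank P hP j' hj'
      (expo j' (M₀ + e + e * τ) (M₀ + e + e * τ + τ))
      (fun m hm => ((mem_expo _ _ _ _).mp hm).1)
      (ws (TT K σ) ι (MvPolynomial ι (TT K σ) ⧸ Ideal.span {P})
        (fun v => map (κT K σ) (y v)) (M₀ + e + τ) τ)
      (ws_fg _ _ _) (by
        intro m hm
        obtain ⟨_, hm1, hm2⟩ := (mem_expo _ _ _ _).mp hm
        exact forms_mem' (R := MvPolynomial ι (TT K σ) ⧸ Ideal.span {P})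
          (fun v => map (κT K σ) (y v)) e (fun v => (hy v).map _)
          (Submodule.span (TT K σ) (Set.range fun v => algebraMap (MvPolynomial ι (TT K σ))
            (MvPolynomial ι (TT K σ) ⧸ Ideal.span {P}) (map (κT K σ) (y v))))
          (fun v => Submodule.subset_span ⟨v, rfl⟩) M₀ hM₁ (M₀ + e + τ) τ m.degree hm1
          (by omega) (monomial m 1) (isHomogeneous_monomial _ rfl))
    refine le_trans ?_ h1
    refine le_trans ?_ (card_expo j' (Fintype.card ι - 2) _ τ (by omega))
    apply Nat.mul_le_mul_left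
    apply Nat.choose_le_choose
    omega
  -- the inequality between polynomials in `τ`
  apply explicit_ineqD (Fintype.card ι - 2) 1 (Fintype.card ι) N e δ (by omega) hN
  intro ρ hρ
  have hlead := leading_ineqD (Fintype.card ι - 2) 1 (Fintype.card ι) (N - 1) (M₀ + e) e ρ δ
    (by omega) (fun τ hτ => by
      have ha : M₀ + e + τ + (δ - 1) * τ ≤ δ * (M₀ + e + τ) := by
        obtain ⟨δ', rfl⟩ : ∃ δ', δ = δ' + 1 := ⟨δ - 1, by omega⟩
        simp only [Nat.add_sub_cancel]
        nlinarith
      have h2 := hchain (M₀ + e + τ) (M₀ + e + τ) τ (ρ * τ) (ρ * τ) ha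
      rw [multichoose_succ, multichoose_pred N _ hN] at h2
      have h3 := hlow τ
      calc (ρ * τ + (N - 1)).choose (N - 1) * ((ρ * τ + (N - 1 + 1)).choose (N - 1 + 1) *
            (τ ^ 1 * (e * τ + (Fintype.card ι - 2)).choose (Fintype.card ι - 2))) ≤
            (ρ * τ + (N - 1)).choose (N - 1) * ((ρ * τ + N).choose N *
              finrank (TT K σ) ↥(ws (TT K σ) ι (MvPolynomial ι (TT K σ) ⧸ Ideal.span {P})
                (fun v => map (κT K σ) (y v)) (M₀ + e + τ) τ)) := by
            rw [Nat.sub_add_cancel hN, pow_one]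
            apply Nat.mul_le_mul_left
            apply Nat.mul_le_mul_left
            exact (Nat.mul_le_mul_right _ (Nat.le_succ τ)).trans h3
        _ ≤ _ := h2
        _ ≤ _ := by
            have e1 : M₀ + e + τ + ρ * τ + ρ * τ = M₀ + e + τ + 2 * ρ * τ := by ring
            rw [e1]
            have e2 : (N - 1 + (τ + ρ * τ)).choose (N - 1) ≤
                (N - 1 + (M₀ + e + τ + ρ * τ)).choose (N - 1) :=
              Nat.choose_le_choose _ (by omega)
            exact Nat.mul_le_mul (Nat.mul_le_mul_left _ e2) e2)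
  exact hlead

end Pool.Agent.W940.M
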