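import Pool.Agent.W940.M8
import Pool.Agent.W940.Cubic
import Pool.Agent.W944.LiftD

/-! # A cubic lower bound for all multiples of the permanent -/

set_option autoImplicit false
set_option linter.unusedSectionVars false

open Module MvPolynomial

namespace Pool.Agent.W940.M

open Pool.Agent.W944
open Pool.Agent.W940.G
open Pool.Agent.H546R2.SL (perN)
open Pool.Agent.H632R2.Border (O0 φ0 ψ0 φψ)

/-- the inequality for multiples of the permanent with free parameters -/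
theorem perm_ineqM (k₀ : Type*) [Field k₀] [CharZero k₀] {q ℓ k p : ℕ} (hk : 2 ≤ k)
    (hm' : mm (2 ^ ℓ) = 2 * k) (hq : 0 < q) (m N δ : ℕ) (hδ : 1 ≤ δ) (hm : m = NN q ℓ + p)
    (A : Matrix (Fin N) (Fin N) (MvPolynomial (Fin m × Fin m) (RatFunc k₀)))
    (hA : ∀ i j, (A i j).totalDegree ≤ δ) (D₀ : MvPolynomial (Fin m × Fin m) k₀) (hD₀ : D₀ ≠ 0)
    (hdet : ∀ μ, (coeff μ A.det).denom.eval 0 ≠ 0 ∧
      RatFunc.eval (RingHom.id k₀) 0 (coeff μ A.det) = coeff μ D₀)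
    (hdvd : ∀ u, ∃ n : ℕ, perN k₀ m ∣ (pderiv u (perN k₀ m) * D₀) ^ n) :
    2 * ((k - 1 : ℕ) : ℝ) ^ (q * (q * ((2 ^ ℓ * 2 ^ ℓ) * k)) - 2) ≤
      (Real.exp 1 * (δ * (4 * N / (q * (q * ((2 ^ ℓ * 2 ^ ℓ) * k)) : ℕ) + 3))) ^
        (q * (q * ((2 ^ ℓ * 2 ^ ℓ) * k))) := by
  obtain ⟨A', D, hA', hD, hDF⟩ := exists_liftD δ A hA D₀ hdet
  obtain ⟨S, y, hS, hy, hz, hyS, hS0, hS1⟩ :=
    exists_subst2 (AlgebraicClosure k₀) hk hm' hq m hm
  have hcard : Fintype.card (Id2 q (2 ^ ℓ) k) = q * (q * ((2 ^ ℓ * 2 ^ ℓ) * k)) := by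
    simp [Id2, Fintype.card_prod]
  have hcard2 : 2 ≤ Fintype.card (Id2 q (2 ^ ℓ) k) := by
    rw [hcard]
    have h1 : 0 < 2 ^ ℓ * 2 ^ ℓ := by positivity
    calc 2 ≤ 1 * (1 * (1 * k)) := by omega
      _ ≤ _ := Nat.mul_le_mul hq (Nat.mul_le_mul hq (Nat.mul_le_mul h1 le_rfl))
  have hunit : ¬ IsUnit (aeval S (perN (AlgebraicClosure k₀) m)) := by
    intro hu
    have h1 := hu.map (eval (0 : Id2 q (2 ^ ℓ) k → AlgebraicClosure k₀))
    rw [hS0] at h1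
    exact not_isUnit_zero h1
  have hD0 : map (φ0 (AlgebraicClosure k₀)) D ≠ 0 := by
    rw [hDF]
    intro h
    exact hD₀ (map_injective _ (algebraMap k₀ (AlgebraicClosure k₀)).injective
      (by rw [h, map_zero]))
  have hdvd' : ∀ u, ∃ n : ℕ, perN (AlgebraicClosure k₀) m ∣
      (pderiv u (perN (AlgebraicClosure k₀) m) * map (φ0 (AlgebraicClosure k₀)) D) ^ n := by
    intro u
    obtain ⟨n, hn⟩ := hdvd u
    refine ⟨n, ?_⟩
    have h := map_dvd (map (algebraMap k₀ (AlgebraicClosure k₀))) hn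
    rwa [map_pow, map_mul, ← pderiv_map, Pool.Agent.H546R2.SL.map_perN, ← hDF] at h
  have h := final_ineq δ hδ A' hA' D hD hD0 (perN (AlgebraicClosure k₀) m) hdvd' S hS hS1 hunit
    y (k - 1) hy hz hyS hcard2
  rwa [hcard] at h

/-- the explicit bound -/
theorem multiples_bound (k₀ : Type*) [Field k₀] [CharZero k₀] (m N δ : ℕ) (hδ : 1 ≤ δ)
    (hm0 : 55000 * δ ≤ m)
    (A : Matrix (Fin N) (Fin N) (MvPolynomial (Fin m × Fin m) (RatFunc k₀)))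
    (hA : ∀ i j, (A i j).totalDegree ≤ δ) (D₀ : MvPolynomial (Fin m × Fin m) k₀) (hD₀ : D₀ ≠ 0)
    (hdet : ∀ μ, (coeff μ A.det).denom.eval 0 ≠ 0 ∧
      RatFunc.eval (RingHom.id k₀) 0 (coeff μ A.det) = coeff μ D₀)
    (hdvd : ∀ u, ∃ n : ℕ, perN k₀ m ∣ (pderiv u (perN k₀ m) * D₀) ^ n) :
    m ^ 3 ≤ 2200000 * (δ * N) := by
  -- the choice of the shift size
  obtain ⟨ℓ, hℓ1, hℓ2, hℓ4⟩ : ∃ ℓ : ℕ, 212 * 4 ^ ℓ ≤ m ∧ m < 848 * 4 ^ ℓ ∧ 4 ≤ ℓ := by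
    have hP : ∃ j : ℕ, m < 212 * 4 ^ j := by
      refine ⟨m, ?_⟩
      have : m < 4 ^ m := Nat.lt_pow_self (by norm_num)
      omega
    classical
    obtain ⟨j, hj1, hj2⟩ : ∃ j : ℕ, m < 212 * 4 ^ j ∧ ∀ i < j, ¬ m < 212 * 4 ^ i :=
      ⟨Nat.find hP, Nat.find_spec hP, fun i hi => Nat.find_min hP hi⟩
    have hj5 : 5 ≤ j := by
      by_contra hcon
      have h4 : 4 ^ j ≤ 4 ^ 4 := Nat.pow_le_pow_right (by norm_num) (by omega)
      have h5 : (4 : ℕ) ^ 4 = 256 := by norm_num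
      omega
    obtain ⟨i, rfl⟩ : ∃ i, j = i + 1 := ⟨j - 1, by omega⟩
    refine ⟨i, not_lt.mp (hj2 i (by omega)), ?_, by omega⟩
    rw [pow_succ] at hj1
    omega
  set x : ℕ := 2 ^ ℓ * 2 ^ ℓ with hx
  have hx4 : 4 ^ ℓ = x := by
    rw [hx, ← mul_pow]
    norm_num
  rw [hx4] at hℓ1 hℓ2
  have hx256 : 256 ≤ x := by
    rw [← hx4]
    calc 256 = 4 ^ 4 := by norm_num
      _ ≤ 4 ^ ℓ := Nat.pow_le_pow_right (by norm_num) hℓ4
  obtain ⟨k, hk⟩ : ∃ k, x = 2 * k := by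
    refine ⟨2 ^ (ℓ - 1) * 2 ^ ℓ, ?_⟩
    rw [hx, ← mul_assoc, ← pow_succ']
    congr 2
    omega
  have hk128 : 128 ≤ k := by omega
  -- the lower order terms
  set L : ℕ := (36 * ℓ ^ 2 + 78 * ℓ + 6) * 2 ^ ℓ + 2 with hL
  have hL56 : L ≤ 56 * x := by
    have h1 := pow_bound ℓ hℓ4
    have h2 : 16 ≤ 2 ^ ℓ := by
      calc 16 = 2 ^ 4 := by norm_num
        _ ≤ 2 ^ ℓ := Nat.pow_le_pow_right (by norm_num) hℓ4
    have h3 := Nat.mul_le_mul_right (2 ^ ℓ) h1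
    have h4 : 56 * 2 ^ ℓ * 2 ^ ℓ = 56 * x := by rw [hx]; ring
    have h5 : (36 * ℓ ^ 2 + 78 * ℓ + 7) * 2 ^ ℓ = (36 * ℓ ^ 2 + 78 * ℓ + 6) * 2 ^ ℓ + 2 ^ ℓ := by
      ring
    rw [h4, h5] at h3
    omega
  set X := m - (60 * x + L) with hX
  set q := X / (5 * x) with hq
  have hXm : X + (60 * x + L) = m := by omega
  have hdiv := Nat.div_add_mod X (5 * x)
  have hmod := Nat.mod_lt X (show 0 < 5 * x by omega)
  rw [← hq] at hdiv
  have hqx : m < 5 * x * q + 121 * x := by omega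
  have hq16 : 16 ≤ q := by
    by_contra hcon
    have h1 : 5 * x * q ≤ 5 * x * 15 := Nat.mul_le_mul_left _ (by omega)
    omega
  have hmain := perm_ineqM k₀ (q := q) (ℓ := ℓ) (k := k) (p := X % (5 * x)) (by omega) hk
    (by omega) m N δ hδ (by
      unfold NN
      have h1 : 5 * (2 ^ ℓ) ^ 2 * q + 60 * (2 ^ ℓ) ^ 2 + (36 * ℓ ^ 2 + 78 * ℓ + 6) * 2 ^ ℓ + 2 =
          5 * x * q + 60 * x + L := by
        rw [hx, hL]; ring
      rw [h1]
      omega) A hA D₀ hD₀ hdet hdvd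
  rw [← hx] at hmain
  set M := q * (q * (x * k)) with hM
  have hMge : 16 * k ≤ M := by
    calc 16 * k ≤ q * (1 * (1 * k)) := by
          rw [one_mul, one_mul]; exact Nat.mul_le_mul_right _ hq16
      _ ≤ q * (q * (x * k)) := by
          apply Nat.mul_le_mul_left
          exact Nat.mul_le_mul (by omega) (Nat.mul_le_mul_right _ (by omega))
  have hk16 : k ^ 16 ≤ 2 ^ M := by
    calc k ^ 16 ≤ (2 ^ k) ^ 16 := Nat.pow_le_pow_left (Nat.lt_two_pow_self).le 16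
      _ = 2 ^ (16 * k) := by rw [← pow_mul]; ring_nf
      _ ≤ 2 ^ M := Nat.pow_le_pow_right (by norm_num) hMge
  have hfin := final_smoothD M k N δ (by omega) (by omega) hδ hk16 hmain
  -- over the integers
  have e1 : (x : ℤ) = 2 * k := by exact_mod_cast hk
  have e2 : (M : ℤ) = q * (q * (x * k)) := by rw [hM]; push_cast; ring
  have e3 : (M : ℤ) * k ≤ δ * (12 * N + 10 * M) := by exact_mod_cast hfin
  have e5 : (m : ℤ) - 121 * x ≤ 5 * x * q := by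
    have : (m : ℤ) < 5 * x * q + 121 * x := by exact_mod_cast hqx
    linarith
  have e6 : (0 : ℤ) ≤ m - 121 * x := by
    have : 212 * (x : ℤ) ≤ m := by exact_mod_cast hℓ1
    linarith
  have e7 : ((m : ℤ) - 121 * x) ^ 2 ≤ (5 * x * q) ^ 2 := pow_le_pow_left₀ e6 e5 2
  have e8 : ((5 : ℤ) * x * q) ^ 2 * (x - 20 * δ) ≤ 1200 * (δ * N) := by
    have : ((5 : ℤ) * x * q) ^ 2 * (x - 20 * δ) = 100 * (M * k - 10 * (δ * M)) := by
      rw [e2, e1]; ring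
    rw [this]
    linarith
  have e9 := cubic_num m x (by exact_mod_cast hℓ1) (by exact_mod_cast hℓ2.le) (by linarith)
  have e10 : (38040 : ℤ) * x ≤ 55000 * (x - 20 * δ) := by
    have h1 : (55000 : ℤ) * δ ≤ m := by exact_mod_cast hm0
    have h2 : (m : ℤ) ≤ 848 * x := by exact_mod_cast hℓ2.le
    linarith
  have e11 : 0 ≤ ((m : ℤ) - 121 * x) ^ 2 := sq_nonneg _
  have e14 : (0 : ℤ) ≤ x - 20 * δ := by
    have : (0 : ℤ) ≤ x := by positivity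
    linarith
  have e12 : ((m : ℤ) - 121 * x) ^ 2 * (38040 * x) ≤ 55000 * (1200 * (δ * N)) := by
    calc ((m : ℤ) - 121 * x) ^ 2 * (38040 * x) ≤
        ((m : ℤ) - 121 * x) ^ 2 * (55000 * (x - 20 * δ)) :=
          mul_le_mul_of_nonneg_left e10 e11
      _ ≤ (5 * x * q) ^ 2 * (55000 * (x - 20 * δ)) :=
          mul_le_mul_of_nonneg_right e7 (by linarith)
      _ = 55000 * ((5 * x * q) ^ 2 * (x - 20 * δ)) := by ring
      _ ≤ 55000 * (1200 * (δ * N)) := by linarith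
  have e15 : (0 : ℤ) ≤ δ * N := by positivity
  have e13 : (m : ℤ) ^ 3 ≤ 2200000 * (δ * N) := by
    have : 38040 * (6 * (m : ℤ) ^ 3) ≤ 7375 * (55000 * (1200 * (δ * N))) := by
      calc 38040 * (6 * (m : ℤ) ^ 3) ≤ 38040 * (7375 * (m - 121 * x) ^ 2 * x) := by linarith
        _ = 7375 * (((m : ℤ) - 121 * x) ^ 2 * (38040 * x)) := by ring
        _ ≤ 7375 * (55000 * (1200 * (δ * N))) := by linarith
    linarith
  exact_mod_cast e13

end Pool.Agent.W940.M
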